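import Pool.Agent.W70.HR.Stm

/-!
Project AA (helper22): the second moment statement (part S).
-/

set_option autoImplicit false

namespace Pool.Agent.T2H22.AA

open Finset
open Pool.Agent.H361R2.PP
open Pool.Agent.W70.HR

open Classical in
/-- the indicator of the integers `n` in the class `b` modulo `Wm X` for which no `n + t`, `t ∈ T`, has
a prime factor in `(HH X, z]` -/
noncomputable def rhoT (X z b : ℕ) (T : Finset ℕ) (n : ℕ) : ℝ :=
  if n % Wm X = b ∧ ∀ t ∈ T, ∀ p : ℕ, p.Prime → HH X < p → p ≤ z → ¬ p ∣ n + t then 1 else 0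

/-- the expected density of these integers in the class -/
noncomputable def VT (X z k : ℕ) : ℝ :=
  ∏ p ∈ (Ioc (HH X) z).filter Nat.Prime, (1 - (k : ℝ) / p)

open Classical in
/-- part S: for a dense set `G` of rough tuples most `N` of the class have the expected number of
representations `N = y + x`, `y ∈ G`, `x` rough -/
def SecM : Prop := ∀ (S T : Finset ℕ) (δ c ε : ℝ) (E : ℕ), 0 < δ → δ ≤ 1 / 8 → 0 < c → 0 < ε →
  ∃ X₀ : ℕ, ∀ X : ℕ, X₀ ≤ X → ∀ z : ℕ, HH X ≤ z → (z : ℝ) ≤ Real.log X ^ E →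
  ∀ b₁ b₂ : ℕ, b₁ < Wm X → b₂ < Wm X → ∀ G : Finset ℕ, G ⊆ SI X b₂ →
  (∀ y ∈ G, ∀ a ∈ S, ∀ p : ℕ, p.Prime → HH X < p → p < 2 ^ 2 ^ JJ δ X → ¬ p ∣ y + a) →
  c * Om δ X S.card ≤ (G.card : ℝ) →
  (((Ico (6 * X) (9 * X)).filter (fun N => N ≡ b₁ + b₂ [MOD Wm X] ∧
    ∑ y ∈ G, rhoT X z b₁ T (N - y) < 1 / 2 * ((G.card : ℝ) * VT X z T.card))).card : ℝ) ≤
    ε * ((X : ℝ) / Wm X)

end Pool.Agent.T2H22.AA
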