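import Pool.Agent.T2H22.AA.Env1
import Pool.Agent.W327.HR.Mlb

/-!
Project AA: the Maynard-Tao sieve in a weighted environment, part 2: asymptotic form of the
correlations.
-/

set_option autoImplicit false

open Finset Filter Topology

namespace Pool.Agent.T2H22.AA

open Pool.Agent.H361R2.PP
open Pool.Agent.H410R2
open Pool.Agent.H862R2.PPSm5
open Pool.Agent.W70.HR
open Pool.Agent.H410R2.AC (wt GG cfg term WW pos Inj coef)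

/-- the level -/
noncomputable def Y16 (X : ℕ) : ℕ := ⌊(X : ℝ) ^ (1 / 16 : ℝ)⌋₊

/-- the primes of `(z, X ^ (1/16)]` -/
noncomputable def PE (X z : ℕ) : Finset ℕ := (range (Y16 X + 1)).filter (fun p => p.Prime ∧ z < p)

/-- a weight which is equidistributed in the classes modulo products of primes of `(z, X ^ (1/16)]` -/
def Envw (o : Option ℕ) (K A X z : ℕ) (w : ℕ → ℝ) (M : ℕ) (Ω : ℝ) : Prop :=
  (∀ n, 0 ≤ w n) ∧ 0 ≤ Ω ∧ ∃ Er : Finset ℕ → ℝ, (∀ D, 0 ≤ Er D) ∧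
    EN.Equid (kk o) w M Ω (PE X z) (Y16 X) Er ∧
    ∑ D ∈ (PE X z).powerset.filter (fun D : Finset ℕ => ∏ p ∈ D, p ≤ Y16 X),
      (K : ℝ) ^ D.card * Er D ≤ Ω / Real.log X ^ A

open Classical in
/-- the body of `env_mla` -/
def EBody (N K : ℕ) : Prop :=
  ∀ (o : Option ℕ) (z b J D0 D2 : ℕ) (P2' : Finset ℕ) (w : ℕ → ℝ) (M : ℕ) (Ω : ℝ)
    (Er : Finset ℕ → ℝ)
    (U : Finset ℕ) (F F' : ℕ → Finset (Finset ℕ)) (d E : ℝ),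
    U.card ≤ N → K ≤ b → K ≤ z → z < 2 ^ 2 ^ J → 1 ≤ J →
    (∀ p ∈ P2', p.Prime ∧ 2 ^ 2 ^ J ≤ p) →
    (∀ a ∈ U, (∀ R ∈ F a, R ⊆ P2') ∧ ∀ R ∈ F' a, R ⊆ P2') →
    (∀ f f' : ℕ → Finset ℕ, (∀ a ∈ U, f a ∈ F a ∧ f' a ∈ F' a) →
      (∏ a ∈ U, ∏ p ∈ f a, p) * (∏ a ∈ U, ∏ p ∈ f' a, p) ≤ D2) →
    0 ≤ Ω → (∀ m, 0 ≤ w m) → EN.Equid (kk o) w M Ω (P1 z J ∪ P2') D0 Er →
    ∑ D ∈ (P1 z J ∪ P2').powerset.filter (fun D : Finset ℕ => ∏ p ∈ D, p ≤ D0),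
      (K : ℝ) ^ D.card * Er D ≤ E →
    (2 ^ 2 ^ J) ^ (K * b) * D2 ≤ D0 → d ≤ 1 →
    EN.dl (ee o) rho (P1 z J ∪ P2') U ≤ d →
    ((∀ a ∈ U, F a = F' a) ∨ ∃ a ∈ U, Disjoint (F a) (F' a)) →
    |∑ n ∈ range M, w n * (rE z J U n * ((∏ a ∈ U, FS (F a) a n) * ∏ a ∈ U, FS (F' a) a n)) -
      (if ∀ a ∈ U, F a = F' a then Ω * VE z J ^ U.card * ∏ a ∈ U, AC.GG (F a) else 0)| ≤
      EN.EE K b J P2' Ω (VE z J ^ U.card) d E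

theorem ebody (N : ℕ) : ∃ K : ℕ, 1 ≤ K ∧ EBody N K := by
  obtain ⟨K, hK, h⟩ := env_mla N
  refine ⟨K, hK, ?_⟩
  intro o z b J D0 D2 P2' w M Ω Er U F F' d E h1 h2 h3 h4 h5 h6 h7 h8 h9 h10 h11 h12 h13 h14 h15 h16
  exact h o z b J D0 D2 P2' w M Ω Er U F F' d E h1 h2 h3 h4 h5 h6 h7 h8 h9 h10 h11 h12 h13 h14 h15 h16

/-- elements of a family with small products -/
theorem fam_sub16 {δ x : ℝ} {X : ℕ} (hX : 16 ≤ X) {R : Finset ℕ} (hx : x ≤ 1 / 16)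
    (hR : R ⊆ P2 (JJ δ X) X) (hl : Real.log (∏ p ∈ R, (p : ℝ)) ≤ x * Real.log X) :
    R ⊆ P2 (JJ δ X) (Y16 X) ∧ (∏ p ∈ R, (p : ℝ)) ≤ (X : ℝ) ^ x := by
  have hXr : (16 : ℝ) ≤ X := by exact_mod_cast hX
  have hX0 : (0 : ℝ) < X := by linarith
  have hX1 : (1 : ℝ) ≤ X := by linarith
  have hpos : (0 : ℝ) < ∏ p ∈ R, (p : ℝ) := Finset.prod_pos fun p hp => by
    exact_mod_cast (Finset.mem_filter.1 (hR hp)).2.1.pos
  have hprod : (∏ p ∈ R, (p : ℝ)) ≤ (X : ℝ) ^ x := by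
    rw [← Real.log_rpow hX0, Real.log_le_log_iff hpos (by positivity)] at hl
    exact hl
  refine ⟨?_, hprod⟩
  intro p hp
  have h1 := Finset.mem_filter.1 (hR hp)
  unfold P2
  rw [Finset.mem_filter, Finset.mem_range]
  refine ⟨?_, h1.2⟩
  have h2 : p ≤ ∏ q ∈ R, q := mem_le_prod (fun q hq => (Finset.mem_filter.1 (hR hq)).2.1.one_le) hp
  have h3 : (p : ℝ) ≤ (X : ℝ) ^ (1 / 16 : ℝ) := by
    have h5 : (p : ℝ) ≤ ∏ q ∈ R, (q : ℝ) := by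
      have h6 : (p : ℝ) ≤ ((∏ q ∈ R, q : ℕ) : ℝ) := Nat.cast_le.2 h2
      rwa [Nat.cast_prod] at h6
    exact h5.trans (hprod.trans (Real.rpow_le_rpow_of_exponent_le hX1 hx))
  have h4 : p ≤ Y16 X := Nat.le_floor h3
  omega

theorem equid_mono {κ : ℕ → ℕ → ℝ} {w : ℕ → ℝ} {M : ℕ} {A : ℝ} {P P' : Finset ℕ} {D0 : ℕ}
    {err : Finset ℕ → ℝ} (hP : P' ⊆ P) (h : EN.Equid κ w M A P D0 err) :
    EN.Equid κ w M A P' D0 err := fun T hT hD c hc => h T (hT.trans hP) hD c hc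

theorem VE_le_one (z J : ℕ) : VE z J ≤ 1 := by
  unfold VE
  apply Finset.prod_le_one
  · intro p hp
    have h1 : (1 : ℝ) < p := by exact_mod_cast (Finset.mem_filter.1 hp).2.1.one_lt
    rw [sub_nonneg, div_le_one (by linarith)]
    exact h1.le
  · intro p hp
    have h1 : (1 : ℝ) < p := by exact_mod_cast (Finset.mem_filter.1 hp).2.1.one_lt
    have : 0 ≤ 1 / (p : ℝ) := by positivity
    linarith

theorem VE_pos (z J : ℕ) : 0 < VE z J := by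
  unfold VE
  apply Finset.prod_pos
  intro p hp
  have h1 : (1 : ℝ) < p := by exact_mod_cast (Finset.mem_filter.1 hp).2.1.one_lt
  rw [sub_pos, div_lt_one (by linarith)]
  exact h1

theorem VV_le_VE {δ : ℝ} {X z : ℕ} (hz : HH X ≤ z) : VV δ X ≤ VE z (JJ δ X) := by
  unfold VV VE
  have hsub : P1 z (JJ δ X) ⊆ P1 (HH X) (JJ δ X) := by
    intro p hp
    unfold P1 at hp ⊢
    rw [Finset.mem_filter] at hp ⊢
    exact ⟨hp.1, hp.2.1, lt_of_le_of_lt hz hp.2.2⟩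
  rw [← Finset.prod_sdiff hsub]
  have h1 : ∏ p ∈ P1 (HH X) (JJ δ X) \ P1 z (JJ δ X), (1 - 1 / (p : ℝ)) ≤ 1 := by
    apply Finset.prod_le_one
    · intro p hp
      have h1 : (1 : ℝ) < p := by
        exact_mod_cast (Finset.mem_filter.1 (Finset.mem_sdiff.1 hp).1).2.1.one_lt
      rw [sub_nonneg, div_le_one (by linarith)]
      exact h1.le
    · intro p hp
      have : 0 ≤ 1 / (p : ℝ) := by positivity
      linarith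
  have h2 : 0 ≤ ∏ p ∈ P1 z (JJ δ X), (1 - 1 / (p : ℝ)) := (VE_pos z (JJ δ X)).le
  nlinarith

open Classical in
theorem core {N K : ℕ} (hB : EBody N K) {Λ δ d G : ℝ} {b X z : ℕ}
    (hδ : 0 < δ) (hδ1 : δ ≤ 1 / 16)
    (hKb : K ≤ b) (hδb : δ * (K * b) ≤ 1 / 32) (hd0 : 0 < d) (hd : d ≤ 1)
    (hX16 : 16 ≤ X) (hKH : K ≤ HH X) (hw1 : (2 : ℝ) ^ 2 ^ JJ δ X ≤ (X : ℝ) ^ δ)
    (hHz : HH X ≤ z)
    (hw3 : z < 2 ^ 2 ^ JJ δ X) (hJ : 1 ≤ JJ δ X)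
    (hPi : ∏ p ∈ P2 (JJ δ X) X, (1 + (1 : ℝ) / ((p : ℝ) - 1)) ≤ G)
    (hdl : ∀ P : Finset ℕ, (∀ p ∈ P, p.Prime ∧ HH X < p) → ∀ U : Finset ℕ, U.card ≤ N →
      (∀ a ∈ U, 1 ≤ a ∧ (a : ℝ) ≤ Λ * Real.log X) → ∀ o : Option ℕ,
      (∀ a ∈ o, 1 ≤ a ∧ (a : ℝ) ≤ Λ * Real.log X ∧ a ∉ U) → EN.dl (ee o) rho P U ≤ d)
    {o : Option ℕ} {w : ℕ → ℝ} {M : ℕ} {Ω E : ℝ} {Er : Finset ℕ → ℝ} (hΩ : 0 ≤ Ω) (hE0 : 0 ≤ E)
    (hw0 : ∀ n, 0 ≤ w n) (hEr0 : ∀ D, 0 ≤ Er D)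
    (hEq : EN.Equid (kk o) w M Ω (PE X z) (Y16 X) Er)
    (hEs : ∑ D ∈ (PE X z).powerset.filter (fun D : Finset ℕ => ∏ p ∈ D, p ≤ Y16 X),
      (K : ℝ) ^ D.card * Er D ≤ E)
    {U : Finset ℕ} (hU : ∀ a ∈ U, 1 ≤ a ∧ (a : ℝ) ≤ Λ * Real.log X) (hUN : U.card ≤ N)
    (ho : ∀ a ∈ o, 1 ≤ a ∧ (a : ℝ) ≤ Λ * Real.log X ∧ a ∉ U)
    {F F' : ℕ → Finset (Finset ℕ)} {u u' : ℕ → ℝ}
    (hF : ∀ a ∈ U, 0 ≤ u a ∧ Fam δ X (u a) (F a)) (hF' : ∀ a ∈ U, 0 ≤ u' a ∧ Fam δ X (u' a) (F' a))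
    (hsum : ∑ a ∈ U, (u a + u' a) ≤ 1 / 32)
    (hor : (∀ a ∈ U, F a = F' a) ∨ ∃ a ∈ U, Disjoint (F a) (F' a)) :
    |∑ n ∈ range M, w n * (rE z (JJ δ X) U n * ((∏ a ∈ U, FS (F a) a n) * ∏ a ∈ U, FS (F' a) a n)) -
      (if ∀ a ∈ U, F a = F' a then Ω * VE z (JJ δ X) ^ U.card * ∏ a ∈ U, GG (F a) else 0)| ≤
      Ω * VE z (JJ δ X) ^ U.card * (K * G ^ K * (Real.exp (K * d) - 1 + (1 / 2 : ℝ) ^ b)) +
        K * G ^ K * (((JJ δ X : ℝ) + 2) * E) := by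
  have hXr : (16 : ℝ) ≤ X := by exact_mod_cast hX16
  have hX0 : (0 : ℝ) < X := by linarith
  have hX1 : (1 : ℝ) ≤ X := by linarith
  set J := JJ δ X with hJdef
  set m : ℕ := 2 ^ 2 ^ J with hm
  have hmr : ((2 : ℝ) ^ 2 ^ J) = (m : ℝ) := by rw [hm]; push_cast; rfl
  rw [hmr] at hw1
  have hle : ∀ {x y : ℝ}, x ≤ y → (X : ℝ) ^ x ≤ (X : ℝ) ^ y := fun h =>
    Real.rpow_le_rpow_of_exponent_le hX1 h
  have hzX : Y16 X ≤ X := by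
    have h1 : (X : ℝ) ^ (1 / 16 : ℝ) ≤ X := by
      calc (X : ℝ) ^ (1 / 16 : ℝ) ≤ (X : ℝ) ^ (1 : ℝ) := hle (by norm_num)
        _ = X := Real.rpow_one _
    have h2 : (Y16 X : ℝ) ≤ X := (Nat.floor_le (by positivity)).trans h1
    exact_mod_cast h2
  have hP2' : ∀ p ∈ P2 J (Y16 X), p.Prime ∧ m ≤ p := fun p hp => (Finset.mem_filter.1 hp).2
  have hP2sub : P2 J (Y16 X) ⊆ P2 J X := by
    intro p hp
    unfold P2 at hp ⊢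
    rw [Finset.mem_filter, Finset.mem_range] at hp ⊢
    exact ⟨by omega, hp.2⟩
  have hP1 : ∀ p ∈ P1 z J, p.Prime ∧ z < p := fun p hp => (Finset.mem_filter.1 hp).2
  have hunion : ∀ p ∈ P1 z J ∪ P2 J (Y16 X), p.Prime ∧ z < p := by
    intro p hp
    rcases Finset.mem_union.1 hp with h | h
    · exact hP1 p h
    · exact ⟨(hP2' p h).1, lt_of_lt_of_le hw3 (hP2' p h).2⟩
  have hunion' : ∀ p ∈ P1 z J ∪ P2 J (Y16 X), p.Prime ∧ HH X < p := fun p hp =>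
    ⟨(hunion p hp).1, lt_of_le_of_lt hHz (hunion p hp).2⟩
  have hmY : m ≤ Y16 X := by
    apply Nat.le_floor
    exact hw1.trans (hle hδ1)
  have hsubPE : P1 z J ∪ P2 J (Y16 X) ⊆ PE X z := by
    intro p hp
    obtain ⟨h1, h2⟩ := hunion p hp
    unfold PE
    rw [Finset.mem_filter, Finset.mem_range]
    refine ⟨?_, h1, h2⟩
    rcases Finset.mem_union.1 hp with h | h
    · have h5 : p < m := by
        have := (Finset.mem_filter.1 h).1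
        rwa [Finset.mem_range] at this
      omega
    · have := (Finset.mem_filter.1 h).1
      rwa [Finset.mem_range] at this
  have hua : ∀ a ∈ U, u a ≤ 1 / 16 ∧ u' a ≤ 1 / 16 := by
    intro a ha
    have h1 : u a + u' a ≤ ∑ a ∈ U, (u a + u' a) :=
      Finset.single_le_sum (f := fun a => u a + u' a)
        (fun i hi => add_nonneg (hF i hi).1 (hF' i hi).1) ha
    have h2 := (hF a ha).1
    have h3 := (hF' a ha).1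
    constructor <;> linarith
  have hprod : ∀ f f' : ℕ → Finset ℕ, (∀ a ∈ U, f a ∈ F a ∧ f' a ∈ F' a) →
      (∏ a ∈ U, ∏ p ∈ f a, p) * (∏ a ∈ U, ∏ p ∈ f' a, p) ≤ ⌊(X : ℝ) ^ (1 / 32 : ℝ)⌋₊ := by
    intro f f' hf
    apply Nat.le_floor
    push_cast
    have h1 : ∏ a ∈ U, ∏ p ∈ f a, (p : ℝ) ≤ ∏ a ∈ U, (X : ℝ) ^ (u a) :=
      Finset.prod_le_prod (fun a _ => Finset.prod_nonneg fun p _ => Nat.cast_nonneg p)
        (fun a ha => by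
          obtain ⟨k1, k2⟩ := (hF a ha).2 (f a) (hf a ha).1
          exact (fam_sub16 hX16 (hua a ha).1 k1 k2).2)
    have h2 : ∏ a ∈ U, ∏ p ∈ f' a, (p : ℝ) ≤ ∏ a ∈ U, (X : ℝ) ^ (u' a) :=
      Finset.prod_le_prod (fun a _ => Finset.prod_nonneg fun p _ => Nat.cast_nonneg p)
        (fun a ha => by
          obtain ⟨k1, k2⟩ := (hF' a ha).2 (f' a) (hf a ha).2
          exact (fam_sub16 hX16 (hua a ha).2 k1 k2).2)
    calc (∏ a ∈ U, ∏ p ∈ f a, (p : ℝ)) * ∏ a ∈ U, ∏ p ∈ f' a, (p : ℝ)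
        ≤ (∏ a ∈ U, (X : ℝ) ^ (u a)) * ∏ a ∈ U, (X : ℝ) ^ (u' a) :=
          mul_le_mul h1 h2
            (Finset.prod_nonneg fun a _ => Finset.prod_nonneg fun p _ => Nat.cast_nonneg p)
            (by positivity)
      _ = (X : ℝ) ^ (∑ a ∈ U, (u a + u' a)) := by
          rw [← Real.rpow_sum_of_pos hX0, ← Real.rpow_sum_of_pos hX0, ← Real.rpow_add hX0,
            Finset.sum_add_distrib]
      _ ≤ (X : ℝ) ^ (1 / 32 : ℝ) := hle hsum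
  have hD0 : m ^ (K * b) * ⌊(X : ℝ) ^ (1 / 32 : ℝ)⌋₊ ≤ Y16 X := by
    apply Nat.le_floor
    push_cast
    have h1 : (m : ℝ) ^ (K * b) ≤ (X : ℝ) ^ (1 / 32 : ℝ) := by
      calc (m : ℝ) ^ (K * b) ≤ ((X : ℝ) ^ δ) ^ (K * b) :=
            pow_le_pow_left₀ (Nat.cast_nonneg _) hw1 _
        _ = (X : ℝ) ^ (δ * ((K * b : ℕ) : ℝ)) := by
            rw [← Real.rpow_natCast, ← Real.rpow_mul hX0.le]
        _ ≤ (X : ℝ) ^ (1 / 32 : ℝ) := by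
            apply hle
            push_cast
            exact hδb
    have h2 : (⌊(X : ℝ) ^ (1 / 32 : ℝ)⌋₊ : ℝ) ≤ (X : ℝ) ^ (1 / 32 : ℝ) :=
      Nat.floor_le (by positivity)
    calc (m : ℝ) ^ (K * b) * (⌊(X : ℝ) ^ (1 / 32 : ℝ)⌋₊ : ℝ)
        ≤ (X : ℝ) ^ (1 / 32 : ℝ) * (X : ℝ) ^ (1 / 32 : ℝ) :=
          mul_le_mul h1 h2 (by positivity) (by positivity)
      _ = (X : ℝ) ^ (1 / 32 + 1 / 32 : ℝ) := by rw [Real.rpow_add hX0]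
      _ ≤ (X : ℝ) ^ (1 / 16 : ℝ) := hle (by norm_num)
  have hErsum : ∑ T ∈ (P1 z J ∪ P2 J (Y16 X)).powerset.filter
      (fun T : Finset ℕ => ∏ p ∈ T, p ≤ Y16 X), (K : ℝ) ^ T.card * Er T ≤ E := by
    refine le_trans ?_ hEs
    apply Finset.sum_le_sum_of_subset_of_nonneg
    · intro T hT
      rw [Finset.mem_filter, Finset.mem_powerset] at hT ⊢
      exact ⟨hT.1.trans hsubPE, hT.2⟩
    · intro T _ _
      exact mul_nonneg (by positivity) (hEr0 T)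
  have main := hB o z b J (Y16 X) ⌊(X : ℝ) ^ (1 / 32 : ℝ)⌋₊ (P2 J (Y16 X)) w M Ω Er U
    F F' d E hUN hKb (hKH.trans hHz) hw3 hJ hP2' (by
      intro a ha
      refine ⟨fun R hR => ?_, fun R hR => ?_⟩
      · obtain ⟨k1, k2⟩ := (hF a ha).2 R hR
        exact (fam_sub16 hX16 (hua a ha).1 k1 k2).1
      · obtain ⟨k1, k2⟩ := (hF' a ha).2 R hR
        exact (fam_sub16 hX16 (hua a ha).2 k1 k2).1) hprod hΩ hw0 (equid_mono hsubPE hEq) hErsum hD0 hd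
    (hdl _ hunion' U hUN hU o ho) hor
  refine main.trans ?_
  have hpi : AC.Pi1 (P2 J (Y16 X)) ≤ G :=
    (pi1_mono hP2sub (fun p hp => (Finset.mem_filter.1 hp).2.1)).trans hPi
  have hpi0 : 0 ≤ AC.Pi1 (P2 J (Y16 X)) := by
    unfold AC.Pi1
    apply Finset.prod_nonneg
    intro p hp
    have h1 : (1 : ℝ) < p := by exact_mod_cast (hP2' p hp).1.one_lt
    have h2 : (0 : ℝ) < (p : ℝ) - 1 := by linarith
    positivity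
  have hpk : AC.Pi1 (P2 J (Y16 X)) ^ K ≤ G ^ K := pow_le_pow_left₀ hpi0 hpi K
  have hexp : 0 ≤ Real.exp (K * d) - 1 + (1 / 2 : ℝ) ^ b := by
    have h1 : 1 ≤ Real.exp (K * d) := Real.one_le_exp (by positivity)
    have h2 : (0 : ℝ) ≤ (1 / 2 : ℝ) ^ b := by positivity
    linarith
  have hVV := (VE_pos z J).le
  unfold EN.EE
  have e1 : (K : ℝ) * AC.Pi1 (P2 J (Y16 X)) ^ K ≤ K * G ^ K :=
    mul_le_mul_of_nonneg_left hpk (Nat.cast_nonneg K)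
  apply add_le_add
  · exact mul_le_mul_of_nonneg_left (mul_le_mul_of_nonneg_right e1 hexp) (by positivity)
  · exact mul_le_mul_of_nonneg_right e1 (by positivity)

open Classical in
/-- asymptotic correlations in a weighted environment -/
theorem env_ml (N : ℕ) : ∃ K : ℕ, 1 ≤ K ∧ ∀ (m : ℕ) (Λ s : ℝ), 0 < Λ → 0 < s →
    ∃ δ₀ : ℝ, 0 < δ₀ ∧ ∀ δ : ℝ, 0 < δ → δ ≤ δ₀ → ∃ X₀ : ℕ, ∀ X : ℕ, X₀ ≤ X →
    ∀ z : ℕ, HH X ≤ z → z < 2 ^ 2 ^ JJ δ X →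
    ∀ (o : Option ℕ) (w : ℕ → ℝ) (M : ℕ) (Ω : ℝ), Envw o K (N + 2) X z w M Ω →
    ∀ U : Finset ℕ, (∀ a ∈ U, 1 ≤ a ∧ (a : ℝ) ≤ Λ * Real.log X) → U.card ≤ N →
    (∀ a ∈ o, 1 ≤ a ∧ (a : ℝ) ≤ Λ * Real.log X ∧ a ∉ U) →
    ∀ (F F' : ℕ → Finset (Finset ℕ)) (u u' : ℕ → ℝ),
    (∀ a ∈ U, 0 ≤ u a ∧ Fam δ X (u a) (F a)) → (∀ a ∈ U, 0 ≤ u' a ∧ Fam δ X (u' a) (F' a)) →
    ∑ a ∈ U, (u a + u' a) ≤ 1 / 32 →
    ((∀ a ∈ U, F a = F' a) ∨ ∃ a ∈ U, Disjoint (F a) (F' a)) →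
    |∑ n ∈ range M, w n * (rE z (JJ δ X) U n * ((∏ a ∈ U, FS (F a) a n) * ∏ a ∈ U, FS (F' a) a n)) -
      (if ∀ a ∈ U, F a = F' a then Ω * VE z (JJ δ X) ^ U.card * ∏ a ∈ U, GG (F a) else 0)| ≤
      s * δ ^ m * (Ω * VE z (JJ δ X) ^ U.card) := by
  obtain ⟨K, hK, hB⟩ := ebody N
  refine ⟨K, hK, ?_⟩
  intro m Λ s hΛ hs
  obtain ⟨Cg, hCg, hGbd⟩ := gbd 1
  obtain ⟨cv, hcv, hcv1, hvv⟩ := vv_lower
  set M : ℕ := Cg + m with hMdef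
  have hM : 1 ≤ M := by omega
  have hMr : (1 : ℝ) ≤ M := by exact_mod_cast hM
  have hM0 : (0 : ℝ) < M := by linarith
  obtain ⟨δ₀, hδ₀, hδ₀8, hδ⟩ := choose_delta K M (1 / 8) (s / 3) 1 hK hM (by norm_num)
    (by positivity) one_pos
  refine ⟨min δ₀ (1 / 16), by positivity, fun δ hδ0 hδle => ?_⟩
  obtain ⟨b, hKb, hδb, hb⟩ := hδ δ hδ0 (hδle.trans (min_le_left _ _))
  have hδ16 : δ ≤ 1 / 16 := hδle.trans (min_le_right _ _)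
  have hδ8 : δ ≤ 1 / 8 := by linarith
  have hδ1 : δ ≤ 1 := by linarith
  set V : ℝ := (δ / M) ^ M with hV
  have hV0 : 0 < V := by positivity
  have hGV : (((Cg : ℝ) / δ) ^ Cg) ^ K ≤ δ ^ m * (1 / V ^ K) :=
    _root_.W327.HR.gv hCg hK hδ0 hδ1
  obtain ⟨d, hd0, hd1, hd⟩ := choose_d K (K / V ^ K) (s / 3) (by positivity) (by positivity)
  obtain ⟨X₁, h1⟩ := Pool.Agent.H804R2.PPSm2.sm2 N Λ d hΛ hd0
  obtain ⟨X₃, h3⟩ := hGbd δ hδ0 hδ8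
  obtain ⟨X₄, hw⟩ := Pool.Agent.H325R2.wtx.2 δ hδ0 hδ1
  have hev : ∀ᶠ X : ℕ in atTop, (max K 2 ≤ HH X) ∧ (2 < (X : ℝ) ^ (δ / 2)) ∧
      max 1 (K / V ^ K * 4 * 3 / (s * cv ^ N)) ≤ Real.log X := by
    have e1 := HH_tendsto.eventually_ge_atTop (max K 2)
    have e3 : ∀ᶠ X : ℕ in atTop, 2 < (X : ℝ) ^ (δ / 2) :=
      ((tendsto_rpow_atTop (by positivity : 0 < δ / 2)).comp
        tendsto_natCast_atTop_atTop).eventually_gt_atTop 2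
    have e4 := log_tendsto.eventually_ge_atTop (max 1 (K / V ^ K * 4 * 3 / (s * cv ^ N)))
    filter_upwards [e1, e3, e4] with X a1 a3 a4
    exact ⟨a1, a3, a4⟩
  obtain ⟨X₈, h8⟩ := Filter.eventually_atTop.1 hev
  refine ⟨max 16 (max X₁ (max X₃ (max X₄ X₈))), ?_⟩
  intro X hX z hHz hzJ o w M' Ω hEnv U hU hUN ho F F' u u' hF hF' hsum hor
  simp only [max_le_iff] at hX
  obtain ⟨hX16, hX1, hX3, hX4, hX8⟩ := hX
  obtain ⟨hHH, hrp, hlog⟩ := h8 X hX8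
  obtain ⟨hw1, hw2, hw3⟩ := hw X hX4
  have hXr : (16 : ℝ) ≤ X := by exact_mod_cast hX16
  have hL1 : 1 ≤ Real.log X := (le_max_left _ _).trans hlog
  have hLb : K / V ^ K * 4 * 3 / (s * cv ^ N) ≤ Real.log X := (le_max_right _ _).trans hlog
  have hKH : K ≤ HH X := (le_max_left _ _).trans hHH
  have h2H : 2 ≤ HH X := (le_max_right _ _).trans hHH
  have hJ : 1 ≤ JJ δ X := by
    by_contra h
    have h0 : JJ δ X = 0 := by omega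
    rw [h0] at hw2
    norm_num at hw2
    linarith
  have hJ4 : (JJ δ X : ℝ) + 2 ≤ 4 * Real.log X := JJ_le hδ1 hX16 hw1
  have hVVlow : cv / Real.log X ≤ VE z (JJ δ X) :=
    (hvv X δ hδ0 hδ1 hX16 h2H hw1 hw3).trans (VV_le_VE hHz)
  have hPi : ∏ p ∈ P2 (JJ δ X) X, (1 + (1 : ℝ) / ((p : ℝ) - 1)) ≤ ((Cg : ℝ) / δ) ^ Cg := by
    have h10 := h3 X hX3
    rwa [Nat.cast_one] at h10
  obtain ⟨hw0, hΩ, Er, hEr0, hEq, hEs⟩ := hEnv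
  exact (core hB hδ0 hδ16 hKb (by linarith) hd0 hd1 hX16 hKH hw1 hHz hzJ hJ hPi (h1 X hX1) hΩ
      (by positivity) hw0 hEr0 hEq hEs hU hUN ho hF hF' hsum hor).trans
      (_root_.W327.HR.arith (s := s) (c := U.card) hδ0 hV0 hGV hs hΩ hL1 hb hd0 hd hJ4 hcv hVVlow
        (VE_le_one z (JJ δ X)) hUN rfl hLb)

end Pool.Agent.T2H22.AA
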