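import Pool.Agent.T2H22.AA.Defs
import Pool.Agent.T2H22.AA.Defs2
import Pool.Agent.T2H22.AA.Env2

/-!
Project AA (helper22): statements of the second round of parts.
-/

set_option autoImplicit false

namespace Pool.Agent.T2H22.AA

open Finset
open Pool.Agent.H361R2.PP
open Pool.Agent.W70.HR
open Pool.Agent.H373R2.T7 Pool.Agent.H807R2.Dav

/-- part R: the indicator `rhoT` is close to a linear combination of few residue classes, on the average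
in the classes modulo `D` -/
def TR : Prop := ∀ (T : Finset ℕ) (A E : ℕ), ∃ X₀ : ℕ, ∀ X : ℕ, X₀ ≤ X → ∀ z : ℕ, HH X ≤ z →
  (z : ℝ) ≤ Real.log X ^ E → ∀ b : ℕ, b < Wm X →
  ∃ (ι : Type) (J : Finset ι) (M r : ι → ℕ) (g : ι → ℝ),
    (∀ j ∈ J, 1 ≤ M j ∧ M j ^ 16 ≤ X ∧ Wm X ∣ M j ∧ r j ≡ b [MOD Wm X] ∧
      (∀ p : ℕ, p.Prime → p ∣ M j → p ≤ z) ∧
      ∀ p : ℕ, p.Prime → HH X < p → p ∣ M j → ∃ t ∈ T, p ∣ r j + t) ∧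
    (∀ d : ℕ, ∑ j ∈ J.filter (fun j => M j = d), |g j| ≤ (d.divisors.card : ℝ) ^ T.card) ∧
    ∀ D : ℕ, 1 ≤ D → D ^ 8 ≤ X → (∀ p : ℕ, p.Prime → p ∣ D → z < p) → ∀ c : ℕ,
      ∑ x ∈ (Icc 1 (10 * X)).filter (fun x => x ≡ c [MOD D]),
        |rhoT X z b T x - ∑ j ∈ J, if x ≡ r j [MOD M j] then g j else 0| ≤ X / (D * Real.log X ^ A)

/-- the sets of primes of `(z, X ^ (1/16)]` with product at most `X ^ (1/16)` -/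
noncomputable def Ds (X z : ℕ) : Finset (Finset ℕ) :=
  (PE X z).powerset.filter (fun D : Finset ℕ => ∏ p ∈ D, p ≤ Y16 X)

/-- part I: the rough integers are equidistributed modulo products of large primes, with additive
characters -/
def EqI : Prop := ∀ (T : Finset ℕ) (K U : ℕ), ∃ B : ℕ, ∀ E : ℕ, ∃ X₀ : ℕ, ∀ X : ℕ, X₀ ≤ X →
  ∀ z : ℕ, Real.log X ^ B ≤ z → (z : ℝ) ≤ Real.log X ^ E → ∀ b : ℕ, b < Wm X →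
  ∀ (γ : Finset ℕ → ℝ) (c : Finset ℕ → ℕ), (∀ D, |γ D| ≤ (K : ℝ) ^ D.card) → ∀ α : ℝ,
  ‖∑ x ∈ Ico (4 * X) (8 * X), ((rhoT X z b T x * ∑ D ∈ Ds X z, γ D *
      ((if x ≡ c D [MOD ∏ p ∈ D, p] then 1 else 0) - 1 / ∏ p ∈ D, (p : ℝ)) : ℝ) : ℂ) *
    ee ((x : ℝ) * α)‖ ≤ X / Real.log X ^ U

/-- part P: the same with primes -/
def EqP : Prop := ∀ (T : Finset ℕ) (K U : ℕ), ∃ B : ℕ, ∀ E : ℕ, ∃ X₀ : ℕ, ∀ X : ℕ, X₀ ≤ X →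
  ∀ z : ℕ, Real.log X ^ B ≤ z → (z : ℝ) ≤ Real.log X ^ E → ∀ b : ℕ, b < Wm X →
  ∀ a ∈ T, (b + a).Coprime (Wm X) →
  ∀ (γ : Finset ℕ → ℝ) (c : Finset ℕ → ℕ), (∀ D, |γ D| ≤ (K : ℝ) ^ D.card) →
  (∀ D ∈ Ds X z, (c D + a).Coprime (∏ p ∈ D, p)) → ∀ α : ℝ,
  ‖∑ x ∈ Ico (4 * X) (8 * X), ((rhoT X z b T x * ∑ D ∈ Ds X z, γ D *
      ((if x ≡ c D [MOD ∏ p ∈ D, p] then ArithmeticFunction.vonMangoldt (x + a) else 0) -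
        (Vz z)⁻¹ / ∏ p ∈ D, ((p : ℝ) - 1)) : ℝ) : ℂ) *
    ee ((x : ℝ) * α)‖ ≤ X / Real.log X ^ U

open Classical in
/-- part S1: the pairs with a given difference in a set of rough tuples of one class, second moment -/
def UpW : Prop := ∀ (S : Finset ℕ) (δ : ℝ), 0 < δ → δ ≤ 1 / 8 → ∃ C : ℝ, 0 < C ∧ ∃ X₀ : ℕ,
  ∀ X : ℕ, X₀ ≤ X → ∀ b : ℕ, b < Wm X → ∀ G : Finset ℕ, G ⊆ SI X b →
  (∀ y ∈ G, ∀ a ∈ S, ∀ p : ℕ, p.Prime → HH X < p → p < 2 ^ 2 ^ JJ δ X → ¬ p ∣ y + a) →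
  ∑ h ∈ Icc 1 X, ((G.filter (fun y => y + h ∈ G)).card : ℝ) ^ 2 ≤
    C * (Om δ X S.card ^ 4 * (Wm X / X))

end Pool.Agent.T2H22.AA
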