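import Pool.Agent.T2H22.AA.SecM3
import Pool.Agent.T2H22.AA.Defs3
import Pool.Agent.H862R2.PP.Sm5b

/-!
Project AA (helper22), part S2 (helper74): the second moment.
-/

set_option autoImplicit false

namespace Pool.Agent.T2H22.AA

open Finset Filter
open Pool.Agent.H361R2.PP
open Pool.Agent.W70.HR
open S2

theorem Om_lower (δ : ℝ) (hδ : 0 < δ) (hδ1 : δ ≤ 1) (n : ℕ) :
    ∃ X₀ : ℕ, ∀ X : ℕ, X₀ ≤ X → √(X : ℝ) ≤ Om δ X n := by
  obtain ⟨cv, hcv, hcv1, hvv⟩ := Pool.Agent.H862R2.PPSm5.vv_lower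
  obtain ⟨X1, h1⟩ := Pool.Agent.H325R2.wtx2 δ hδ
  obtain ⟨X2, h2⟩ := HH_ge 2
  obtain ⟨X3, h3⟩ := loglog_ge
  obtain ⟨X4, h4⟩ := log_pow_sqrt (n + 1) (cv ^ n) (by positivity)
  have key : ∀ᶠ X : ℕ in atTop, √(X : ℝ) ≤ Om δ X n := by
    filter_upwards [eventually_atTop.2 ⟨X1, h1⟩, eventually_atTop.2 ⟨X2, h2⟩, eventually_atTop.2 ⟨X3, h3⟩,
      eventually_atTop.2 ⟨X4, h4⟩, eventually_ge_atTop 16] with X g1 g2 g3 g4 hX
    have hL := log_pos_of g3
    have hL0 : 0 < Real.log X := by linarith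
    have hX16 : (16 : ℝ) ≤ X := by exact_mod_cast hX
    have hX0 : (0 : ℝ) < X := by linarith
    have hV := hvv X δ hδ hδ1 hX g2 g1.1 g1.2.2
    have hWr : (0 : ℝ) < Wm X := by exact_mod_cast S2.Wm_pos X
    have hWl := Wm_le hX hL.le
    have h5 : (X : ℝ) / Real.log X * (cv / Real.log X) ^ n ≤ Om δ X n := by
      unfold Om
      gcongr
    refine le_trans ?_ h5
    have e : (X : ℝ) / Real.log X * (cv / Real.log X) ^ n = cv ^ n * X / Real.log X ^ (n + 1) := by
      rw [div_pow, pow_succ]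
      field_simp
    rw [e, le_div_iff₀ (by positivity)]
    calc √(X : ℝ) * Real.log X ^ (n + 1) ≤ √(X : ℝ) * (cv ^ n * √(X : ℝ)) := by gcongr
      _ = cv ^ n * (√(X : ℝ) * √(X : ℝ)) := by ring
      _ = cv ^ n * X := by rw [Real.mul_self_sqrt hX0.le]
  exact eventually_atTop.1 key

theorem class_sub {W N y b₁ b₂ : ℕ} (hb : b₁ < W) (hy : y ≤ N) (hyb : y % W = b₂)
    (hN : N ≡ b₁ + b₂ [MOD W]) : (N - y) % W = b₁ := by
  have h1 : y ≡ b₂ [MOD W] := by
    unfold Nat.ModEq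
    rw [← hyb, Nat.mod_mod]
  have h2 : (N - y) + y ≡ b₁ + y [MOD W] := by
    rw [Nat.sub_add_cancel hy]
    exact hN.trans (Nat.ModEq.add_left b₁ h1.symm)
  have h3 := Nat.ModEq.add_right_cancel' y h2
  unfold Nat.ModEq at h3
  rw [h3, Nat.mod_eq_of_lt hb]

open Classical in
theorem rhoT_eq {X z b₁ b₂ : ℕ} (T : Finset ℕ) (hb : b₁ < Wm X) {y N : ℕ} (hy : y ≤ N)
    (hyb : y % Wm X = b₂) (hN : N ≡ b₁ + b₂ [MOD Wm X]) :
    rhoT X z b₁ T (N - y) = if ∀ p ∈ PQ X z, ¬ AU (UY T y) p N then 1 else 0 := by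
  unfold rhoT
  have hcl := class_sub hb hy hyb hN
  have hiff : ((N - y) % Wm X = b₁ ∧ ∀ t ∈ T, ∀ p : ℕ, p.Prime → HH X < p → p ≤ z → ¬ p ∣ (N - y) + t) ↔
      ∀ p ∈ PQ X z, ¬ AU (UY T y) p N := by
    constructor
    · rintro ⟨_, h⟩ p hp hA
      rw [mem_PQ] at hp
      obtain ⟨t, ht, hd⟩ := (AU_UY hy).1 hA
      exact h t ht p hp.2 hp.1.1 hp.1.2 hd
    · intro h
      refine ⟨hcl, fun t ht p hp hp1 hp2 hd => ?_⟩
      exact h p (mem_PQ.2 ⟨⟨hp1, hp2⟩, hp⟩) ((AU_UY hy).2 ⟨t, ht, hd⟩)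
  by_cases h : ∀ p ∈ PQ X z, ¬ AU (UY T y) p N
  · rw [if_pos (hiff.2 h), if_pos h]
  · rw [if_neg (fun h' => h (hiff.1 h')), if_neg h]

theorem dc_dvd {X b h : ℕ} {G : Finset ℕ} (hG : G ⊆ SI X b)
    (hh : (G.filter (fun y => y + h ∈ G)).card ≠ 0) : Wm X ∣ h := by
  obtain ⟨y, hy⟩ := card_pos.1 (Nat.pos_of_ne_zero hh)
  rw [mem_filter] at hy
  have h1 := hG hy.1
  have h2 := hG hy.2
  unfold SI at h1 h2
  rw [mem_filter] at h1 h2
  have h3 : y + 0 ≡ y + h [MOD Wm X] := by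
    unfold Nat.ModEq
    rw [add_zero, h1.2, h2.2]
  have h4 := Nat.ModEq.add_left_cancel' y h3
  exact (Nat.modEq_zero_iff_dvd).1 h4.symm

theorem secM (hU : UpW) : SecM := by
  classical
  intro S T δ c ε E hδ hδ8 hc hε
  obtain ⟨C, hC, XU, hUp⟩ := hU S δ hδ hδ8
  set k := T.card with hk
  set η : ℝ := ε / 12 with hη
  have hη0 : 0 < η := by positivity
  set s3 : ℝ := (c ^ 2 * η / 8) ^ 2 / C with hs3
  have hs30 : 0 < s3 := by positivity
  obtain ⟨X1, h1⟩ := cnt k E (η / 8) (by positivity)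
  obtain ⟨X2, h2⟩ := QQ_avg T E s3 hs30
  obtain ⟨X3, h3⟩ := VQ_lower k E
  obtain ⟨X4, h4⟩ := loglog_ge
  obtain ⟨X5, h5⟩ := HH_ge (2 * k + T.sup id)
  obtain ⟨X6, h6⟩ := Om_lower δ hδ (by linarith) S.card
  obtain ⟨X7, h7⟩ := log_pow_sqrt (2 * k * (E + 1)) (η / 4 * c) (by positivity)
  obtain ⟨X8, h8⟩ := log_pow_sqrt 1 (3 * η / 16) (by positivity)
  have key : ∀ᶠ X : ℕ in atTop, ∀ z : ℕ, HH X ≤ z → (z : ℝ) ≤ Real.log X ^ E →
      ∀ b₁ b₂ : ℕ, b₁ < Wm X → b₂ < Wm X → ∀ G : Finset ℕ, G ⊆ SI X b₂ →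
      (∀ y ∈ G, ∀ a ∈ S, ∀ p : ℕ, p.Prime → HH X < p → p < 2 ^ 2 ^ JJ δ X → ¬ p ∣ y + a) →
      c * Om δ X S.card ≤ (G.card : ℝ) →
      (((Ico (6 * X) (9 * X)).filter (fun N => N ≡ b₁ + b₂ [MOD Wm X] ∧
        ∑ y ∈ G, rhoT X z b₁ T (N - y) < 1 / 2 * ((G.card : ℝ) * VT X z k))).card : ℝ) ≤
        ε * ((X : ℝ) / Wm X) := by
    filter_upwards [eventually_atTop.2 ⟨XU, hUp⟩, eventually_atTop.2 ⟨X1, h1⟩, eventually_atTop.2 ⟨X2, h2⟩,
      eventually_atTop.2 ⟨X3, h3⟩, eventually_atTop.2 ⟨X4, h4⟩, eventually_atTop.2 ⟨X5, h5⟩,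
      eventually_atTop.2 ⟨X6, h6⟩, eventually_atTop.2 ⟨X7, h7⟩, eventually_atTop.2 ⟨X8, h8⟩,
      eventually_ge_atTop 16] with X g0 g1 g2 g3 g4 g5 g6 g7 g8 hX z hHz hzE b₁ b₂ hb₁ hb₂ G hG hrough hcard
    have hL := log_pos_of g4
    have hL0 : 0 < Real.log X := by linarith
    have hX16 : (16 : ℝ) ≤ X := by exact_mod_cast hX
    have hX0 : (0 : ℝ) < X := by linarith
    have hWr : (0 : ℝ) < Wm X := by exact_mod_cast S2.Wm_pos X
    have hWl := Wm_le hX hL.le
    have hsX0 : 0 < √(X : ℝ) := Real.sqrt_pos.2 hX0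
    have hsX : √(X : ℝ) ≤ X := by
      rw [Real.sqrt_le_left hX0.le]
      nlinarith
    -- the density
    set V : ℝ := VQ X z k with hV
    have hVT : VT X z k = V := rfl
    have hV0 : 0 < V := lt_of_lt_of_le (by positivity) (g3 z hzE)
    have hV1 : V ≤ 1 := by
      rw [hV]
      unfold VQ
      apply Finset.prod_le_one
      · intro p hp
        rw [mem_PQ] at hp
        have hp0 : (0 : ℝ) < p := by exact_mod_cast hp.2.pos
        rw [sub_nonneg, div_le_one hp0]
        have : k ≤ p := by omega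
        exact_mod_cast this
      · intro p _
        have : 0 ≤ (k : ℝ) / p := by positivity
        linarith
    rw [hVT]
    -- the set `G`
    set g : ℝ := (G.card : ℝ) with hg
    have hOm0 : 0 < Om δ X S.card := lt_of_lt_of_le hsX0 g6
    have hg0 : 0 < g := lt_of_lt_of_le (by positivity) hcard
    have hGm : ∀ y ∈ G, (X ≤ y ∧ y < 2 * X) ∧ y % Wm X = b₂ := by
      intro y hy
      have := hG hy
      unfold SI at this
      rw [mem_filter, mem_Ico] at this
      exact this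
    have hTH : ∀ t ∈ T, t ≤ HH X := by
      intro t ht
      have := Finset.le_sup (f := id) ht
      simp only [id] at this
      omega
    have hkH : 2 * k ≤ HH X := by omega
    -- the set of the `N`
    set Y : ℝ := 3 * X / Wm X with hY
    have hY0 : 0 < Y := by positivity
    set 𝒩 : Finset ℕ := (Ico (6 * X) (9 * X)).filter (fun N => N ≡ b₁ + b₂ [MOD Wm X]) with h𝒩
    set f : ℕ → ℝ := fun N => ∑ y ∈ G, rhoT X z b₁ T (N - y) with hf
    set m : ℝ := g * V with hm
    have hm0 : 0 < m := by positivity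
    have hgoal : (Ico (6 * X) (9 * X)).filter (fun N => N ≡ b₁ + b₂ [MOD Wm X] ∧
        ∑ y ∈ G, rhoT X z b₁ T (N - y) < 1 / 2 * m) = 𝒩.filter (fun N => f N < 1 / 2 * m) := by
      rw [h𝒩, filter_filter]
    rw [hgoal]
    have hfN : ∀ N ∈ 𝒩, f N = ∑ y ∈ G, (if ∀ p ∈ PQ X z, ¬ AU (UY T y) p N then (1 : ℝ) else 0) := by
      intro N hN
      rw [h𝒩, mem_filter, mem_Ico] at hN
      apply sum_congr rfl
      intro y hy
      have hy1 := hGm y hy
      exact rhoT_eq T hb₁ (by omega) hy1.2 hN.2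
    -- the number of the `N`
    have hNc : (𝒩.card : ℝ) ≤ Y + 2 := by
      have h9 := cnt_iv ∅ (Wm X) (b₁ + b₂) (S2.Wm_pos X) ∅ (fun p hp => absurd hp (notMem_empty p))
        (6 * X) (9 * X) (by omega) (by omega)
      have e1 : (((9 * X : ℕ) : ℝ) - ((6 * X : ℕ) : ℝ)) / Wm X = Y := by
        rw [hY]
        push_cast
        ring
      rw [e1, prod_empty, prod_empty, mul_one, mul_one] at h9
      have e2 : (Ico (6 * X) (9 * X)).filter (fun n => n ≡ b₁ + b₂ [MOD Wm X] ∧ ∀ p ∈ (∅ : Finset ℕ), AU ∅ p n) = 𝒩 := by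
        rw [h𝒩]
        apply filter_congr
        intro n _
        simp
      rw [e2] at h9
      have := (abs_le.1 h9).2
      linarith
    have h2Y : 2 ≤ η / 8 * Y := by
      have h9 : 3 * X / Real.log X ≤ Y := by
        rw [hY]
        exact div_le_div_of_nonneg_left (by positivity) hWr hWl
      have h10 : η / 8 * (3 * X / Real.log X) ≤ η / 8 * Y := by gcongr
      refine le_trans ?_ h10
      have h11 : η / 8 * (3 * (X : ℝ) / Real.log X) = (3 * η / 8 * X) / Real.log X := by ring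
      rw [h11, le_div_iff₀ hL0]
      rw [pow_one] at g8
      have h12 : 3 * η / 16 * √(X : ℝ) ≤ 3 * η / 16 * X := by gcongr
      linarith
    -- first moment
    have hfirst : g * (Y * V - η / 8 * (Y * V ^ 2)) ≤ ∑ N ∈ 𝒩, f N := by
      have e1 : ∑ N ∈ 𝒩, f N = ∑ y ∈ G, ((𝒩.filter (fun N => ∀ p ∈ PQ X z, ¬ AU (UY T y) p N)).card : ℝ) := by
        rw [sum_congr rfl hfN, sum_comm]
        apply sum_congr rfl
        intro y _
        rw [sum_boole]
      rw [e1, hg, ← nsmul_eq_mul]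
      apply card_nsmul_le_sum
      intro y _
      have h9 := g1 z hzE (UY T y) (by rw [card_UY]; omega) (b₁ + b₂)
      rw [prod_single T X z y hTH] at h9
      rw [h𝒩, filter_filter]
      have := (abs_le.1 h9).1
      linarith
    -- second moment
    have hsecond : ∑ N ∈ 𝒩, f N ^ 2 ≤ Y * V ^ 2 * ((1 + η / 8) * g ^ 2 +
        ∑ y ∈ G, ∑ y' ∈ G, (QQ T X z ((y - y') + (y' - y)) - 1)) := by
      have e1 : ∑ N ∈ 𝒩, f N ^ 2 = ∑ y ∈ G, ∑ y' ∈ G,
          ((𝒩.filter (fun N => ∀ p ∈ PQ X z, ¬ AU (UY T y ∪ UY T y') p N)).card : ℝ) := by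
        have e2 : ∀ N ∈ 𝒩, f N ^ 2 = ∑ y ∈ G, ∑ y' ∈ G,
            (if ∀ p ∈ PQ X z, ¬ AU (UY T y ∪ UY T y') p N then (1 : ℝ) else 0) := by
          intro N hN
          rw [hfN N hN, sq, sum_mul_sum]
          apply sum_congr rfl
          intro y _
          apply sum_congr rfl
          intro y' _
          by_cases ha : ∀ p ∈ PQ X z, ¬ AU (UY T y) p N
          · by_cases hb : ∀ p ∈ PQ X z, ¬ AU (UY T y') p N
            · rw [if_pos ha, if_pos hb, if_pos, one_mul]
              intro p hp hA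
              rcases (AU_union _ _ _ _).1 hA with h | h
              · exact ha p hp h
              · exact hb p hp h
            · rw [if_neg hb, mul_zero, if_neg]
              intro h
              exact hb fun p hp hA => h p hp ((AU_union _ _ _ _).2 (Or.inr hA))
          · rw [if_neg ha, zero_mul, if_neg]
            intro h
            exact ha fun p hp hA => h p hp ((AU_union _ _ _ _).2 (Or.inl hA))
        rw [sum_congr rfl e2, sum_comm]
        apply sum_congr rfl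
        intro y _
        rw [sum_comm]
        apply sum_congr rfl
        intro y' _
        rw [sum_boole]
      have e3 : Y * V ^ 2 * ((1 + η / 8) * g ^ 2 + ∑ y ∈ G, ∑ y' ∈ G, (QQ T X z ((y - y') + (y' - y)) - 1)) =
          ∑ y ∈ G, ∑ y' ∈ G, Y * V ^ 2 * (QQ T X z ((y - y') + (y' - y)) + η / 8) := by
        simp only [← mul_sum]
        congr 1
        simp only [sum_sub_distrib, sum_add_distrib, sum_const, nsmul_eq_mul, mul_one]
        rw [← hg]
        ring
      rw [e1, e3]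
      apply sum_le_sum
      intro y _
      apply sum_le_sum
      intro y' _
      have h9 := g1 z hzE (UY T y ∪ UY T y') (by
        refine (card_union_le _ _).trans ?_
        rw [card_UY, card_UY]
        omega) (b₁ + b₂)
      rw [h𝒩, filter_filter]
      have h10 := (abs_le.1 h9).2
      have h11 := mul_le_mul_of_nonneg_left (prod_pair_le T X z y y' hTH hkH) hY0.le
      calc (((Ico (6 * X) (9 * X)).filter (fun a => a ≡ b₁ + b₂ [MOD Wm X] ∧
            ∀ p ∈ PQ X z, ¬ AU (UY T y ∪ UY T y') p a)).card : ℝ)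
          ≤ Y * ∏ p ∈ PQ X z, (1 - (nU (UY T y ∪ UY T y') p : ℝ) / p) + η / 8 * (Y * V ^ 2) := by
            linarith
        _ ≤ Y * (V ^ 2 * QQ T X z ((y - y') + (y' - y))) + η / 8 * (Y * V ^ 2) := by linarith
        _ = _ := by ring
    -- the pairs
    have hpairs : ∑ y ∈ G, ∑ y' ∈ G, (QQ T X z ((y - y') + (y' - y)) - 1) ≤ η / 2 * g ^ 2 := by
      have h9 := pairs_le G X (fun y hy => (hGm y hy).1) (fun h => QQ T X z h - 1)
        (fun h => by have := one_le_QQ T X z h; linarith)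
      refine h9.trans ?_
      have h10 : g * (QQ T X z 0 - 1) ≤ η / 4 * g ^ 2 := by
        have h11 := QQ_le T E g4 hzE 0
        have h12 : QQ T X z 0 - 1 ≤ η / 4 * g := by
          calc QQ T X z 0 - 1 ≤ Real.log X ^ (2 * k * (E + 1)) := by linarith
            _ ≤ η / 4 * c * √(X : ℝ) := g7
            _ ≤ η / 4 * c * Om δ X S.card := by gcongr
            _ = η / 4 * (c * Om δ X S.card) := by ring
            _ ≤ η / 4 * g := by gcongr
        calc g * (QQ T X z 0 - 1) ≤ g * (η / 4 * g) := by gcongr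
          _ = _ := by ring
      have h13 : ∑ h ∈ Icc 1 X, ((G.filter (fun y => y + h ∈ G)).card : ℝ) * (QQ T X z h - 1) ≤ η / 8 * g ^ 2 := by
        have e1 : ∑ h ∈ Icc 1 X, ((G.filter (fun y => y + h ∈ G)).card : ℝ) * (QQ T X z h - 1) =
            ∑ h ∈ (Icc 1 X).filter (fun h => Wm X ∣ h), ((G.filter (fun y => y + h ∈ G)).card : ℝ) * (QQ T X z h - 1) := by
          rw [sum_filter_of_ne]
          intro h _ hne
          apply dc_dvd hG
          intro h0
          apply hne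
          rw [h0, Nat.cast_zero, zero_mul]
        rw [e1]
        have h14 := sum_mul_sq_le_sq_mul_sq ((Icc 1 X).filter (fun h => Wm X ∣ h))
          (fun h => ((G.filter (fun y => y + h ∈ G)).card : ℝ)) (fun h => QQ T X z h - 1)
        have h15 : ∑ h ∈ (Icc 1 X).filter (fun h => Wm X ∣ h), ((G.filter (fun y => y + h ∈ G)).card : ℝ) ^ 2 ≤
            C * (Om δ X S.card ^ 4 * (Wm X / X)) := by
          refine le_trans ?_ (g0 b₂ hb₂ G hG hrough)
          apply sum_le_sum_of_subset_of_nonneg (filter_subset _ _)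
          intro _ _ _
          positivity
        have h16 : ∑ h ∈ (Icc 1 X).filter (fun h => Wm X ∣ h), (QQ T X z h - 1) ^ 2 ≤ s3 * (X / Wm X) := by
          refine le_trans ?_ (g2 z hzE)
          apply sum_le_sum
          intro h _
          have := one_le_QQ T X z h
          nlinarith
        have h17 : (∑ h ∈ (Icc 1 X).filter (fun h => Wm X ∣ h),
            ((G.filter (fun y => y + h ∈ G)).card : ℝ) * (QQ T X z h - 1)) ^ 2 ≤
            (c ^ 2 * η / 8 * Om δ X S.card ^ 2) ^ 2 := by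
          refine h14.trans ?_
          calc (∑ h ∈ (Icc 1 X).filter (fun h => Wm X ∣ h), ((G.filter (fun y => y + h ∈ G)).card : ℝ) ^ 2) *
                ∑ h ∈ (Icc 1 X).filter (fun h => Wm X ∣ h), (QQ T X z h - 1) ^ 2
              ≤ (C * (Om δ X S.card ^ 4 * (Wm X / X))) * (s3 * (X / Wm X)) := by
                apply mul_le_mul h15 h16 (sum_nonneg fun _ _ => sq_nonneg _)
                positivity
            _ = (C * s3) * Om δ X S.card ^ 4 * ((Wm X / X) * (X / Wm X)) := by ring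
            _ = (c ^ 2 * η / 8) ^ 2 * Om δ X S.card ^ 4 * 1 := by
                congr 1
                · congr 1
                  rw [hs3]
                  field_simp
                · field_simp
            _ = _ := by ring
        have h18 := abs_le_of_sq_le_sq h17 (by positivity)
        refine (le_abs_self _).trans (h18.trans ?_)
        have h19 : (c * Om δ X S.card) ^ 2 ≤ g ^ 2 := pow_le_pow_left₀ (by positivity) hcard 2
        calc c ^ 2 * η / 8 * Om δ X S.card ^ 2 = η / 8 * (c * Om δ X S.card) ^ 2 := by ring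
          _ ≤ η / 8 * g ^ 2 := by gcongr
      have h20 : (G.card : ℝ) * (QQ T X z 0 - 1) ≤ η / 4 * g ^ 2 := h10
      linarith
    -- Chebyshev
    have hcheb : ∑ N ∈ 𝒩, (f N - m) ^ 2 ≤ η * (Y * m ^ 2) := by
      have e1 : ∑ N ∈ 𝒩, (f N - m) ^ 2 = ∑ N ∈ 𝒩, f N ^ 2 - 2 * m * ∑ N ∈ 𝒩, f N + (𝒩.card : ℝ) * m ^ 2 := by
        rw [mul_sum, ← sum_sub_distrib, ← nsmul_eq_mul, ← sum_const, ← sum_add_distrib]
        apply sum_congr rfl
        intro N _
        ring
      rw [e1]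
      have h9 : ∑ N ∈ 𝒩, f N ^ 2 ≤ Y * m ^ 2 * (1 + η / 8 + η / 2) := by
        calc ∑ N ∈ 𝒩, f N ^ 2 ≤ Y * V ^ 2 * ((1 + η / 8) * g ^ 2 + η / 2 * g ^ 2) := by
              refine hsecond.trans ?_
              apply mul_le_mul_of_nonneg_left _ (by positivity)
              linarith
          _ = _ := by rw [hm]; ring
      have h10 : 2 * m * (g * (Y * V - η / 8 * (Y * V ^ 2))) ≤ 2 * m * ∑ N ∈ 𝒩, f N := by gcongr
      have h11 : 2 * (Y * m ^ 2) * (1 - η / 8) ≤ 2 * m * (g * (Y * V - η / 8 * (Y * V ^ 2))) := by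
        have e2 : 2 * m * (g * (Y * V - η / 8 * (Y * V ^ 2))) = 2 * (Y * m ^ 2) * (1 - η / 8 * V) := by
          rw [hm]
          ring
        rw [e2]
        apply mul_le_mul_of_nonneg_left _ (by positivity)
        have : η / 8 * V ≤ η / 8 * 1 := by gcongr
        linarith
      have h12 : (𝒩.card : ℝ) * m ^ 2 ≤ Y * m ^ 2 * (1 + η / 8) := by
        calc (𝒩.card : ℝ) * m ^ 2 ≤ (Y + η / 8 * Y) * m ^ 2 := by
              apply mul_le_mul_of_nonneg_right _ (by positivity)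
              linarith
          _ = _ := by ring
      have h13 : 0 ≤ Y * m ^ 2 := by positivity
      nlinarith
    have hlow : ((𝒩.filter (fun N => f N < 1 / 2 * m)).card : ℝ) * (m ^ 2 / 4) ≤ ∑ N ∈ 𝒩, (f N - m) ^ 2 := by
      calc ((𝒩.filter (fun N => f N < 1 / 2 * m)).card : ℝ) * (m ^ 2 / 4)
          ≤ ∑ N ∈ 𝒩.filter (fun N => f N < 1 / 2 * m), (f N - m) ^ 2 := by
            rw [← nsmul_eq_mul]
            apply card_nsmul_le_sum
            intro N hN
            rw [mem_filter] at hN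
            nlinarith [hN.2]
        _ ≤ _ := by
            apply sum_le_sum_of_subset_of_nonneg (filter_subset _ _)
            intro _ _ _
            positivity
    have h9 := hlow.trans hcheb
    have h10 : ((𝒩.filter (fun N => f N < 1 / 2 * m)).card : ℝ) ≤ 4 * (η * Y) := by
      have hm2 : 0 < m ^ 2 := by positivity
      by_contra hcon
      push Not at hcon
      nlinarith
    refine h10.trans (le_of_eq ?_)
    rw [hη, hY]
    ring
  obtain ⟨X₀, h0⟩ := eventually_atTop.1 key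
  exact ⟨X₀, h0⟩

end Pool.Agent.T2H22.AA
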