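import Pool.Agent.T2H22.AA.UpZ

/-! Project AA, part S1: the number of differences in sets of rough tuples of one class. -/

set_option autoImplicit false

open Finset

namespace Pool.Agent.T2H22.AA

open Pool.Agent.Y843.HS
open Pool.Agent.Y843.HG (V1 V1_pos V1_bounds fac1)
open Pool.Agent.T2H22.BG (dc)
open Pool.Agent.H361R2.PP (HH Wm JJ P1 SI)
open Pool.Agent.W70.HR (Om)

/-- the classes `n` modulo `p` with `p ∣ b + W n + a` for some `a ∈ S` -/
noncomputable def Zw (W b : ℕ) (S : Finset ℕ) (p : ℕ) : Finset ℕ :=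
  S.image (fun a : ℕ => ((-((b : ZMod p) + (a : ZMod p))) * (W : ZMod p)⁻¹).val)

theorem Zw_eq {W b p : ℕ} (hp : p.Prime) (hW : ¬ p ∣ W) (a n : ℕ) :
    ((-((b : ZMod p) + a)) * (W : ZMod p)⁻¹).val = n % p ↔ p ∣ b + W * n + a := by
  haveI : Fact p.Prime := ⟨hp⟩
  have hW0 : (W : ZMod p) ≠ 0 := by
    rw [Ne, ZMod.natCast_eq_zero_iff]
    exact hW
  have h1 : p ∣ b + W * n + a ↔ ((-((b : ZMod p) + a)) * (W : ZMod p)⁻¹) = (n : ZMod p) := by
    rw [← ZMod.natCast_eq_zero_iff]
    push_cast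
    constructor
    · intro h
      have : -((b : ZMod p) + a) = n * W := by
        have h2 : (b : ZMod p) + W * n + a - (W * n) = 0 - W * n := by rw [h]
        have h3 : (b : ZMod p) + a = - (W * n) := by
          calc (b : ZMod p) + a = (b : ZMod p) + W * n + a - (W * n) := by ring
            _ = 0 - W * n := h2
            _ = _ := by ring
        rw [h3]
        ring
      rw [this, mul_assoc, mul_inv_cancel₀ hW0, mul_one]
    · intro h
      have h2 : -((b : ZMod p) + a) = n * W := by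
        rw [← h, mul_assoc, inv_mul_cancel₀ hW0, mul_one]
      calc (b : ZMod p) + W * n + a = ((b : ZMod p) + a) + n * W := by ring
        _ = 0 := by rw [← h2]; ring
  rw [h1]
  constructor
  · intro h
    have h2 : (((-((b : ZMod p) + a)) * (W : ZMod p)⁻¹).val : ZMod p) = ((n % p : ℕ) : ZMod p) := by
      rw [h]
    rw [ZMod.natCast_zmod_val, ZMod.natCast_mod] at h2
    exact h2
  · intro h
    rw [h, ZMod.val_natCast]

theorem mem_Zw {W b p : ℕ} (hp : p.Prime) (hW : ¬ p ∣ W) (S : Finset ℕ) (n : ℕ) :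
    n % p ∈ Zw W b S p ↔ ∃ a ∈ S, p ∣ b + W * n + a := by
  unfold Zw
  rw [mem_image]
  constructor
  · rintro ⟨a, ha, h⟩
    exact ⟨a, ha, (Zw_eq hp hW a n).1 h⟩
  · rintro ⟨a, ha, h⟩
    exact ⟨a, ha, (Zw_eq hp hW a n).2 h⟩

theorem Zw_lt {W b p : ℕ} (hp : p.Prime) (S : Finset ℕ) : ∀ c ∈ Zw W b S p, c < p := by
  intro c hc
  unfold Zw at hc
  rw [mem_image] at hc
  obtain ⟨a, _, rfl⟩ := hc
  haveI : NeZero p := ⟨hp.ne_zero⟩
  exact ZMod.val_lt _

theorem Zw_card {W b p : ℕ} (hp : p.Prime) (hW : ¬ p ∣ W) (S : Finset ℕ) (hS : ∀ a ∈ S, a < p) :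
    (Zw W b S p).card = S.card := by
  unfold Zw
  apply card_image_of_injOn
  intro a ha a' ha' h
  simp only at h
  set n := ((-((b : ZMod p) + a)) * (W : ZMod p)⁻¹).val with hn
  haveI : NeZero p := ⟨hp.ne_zero⟩
  have hnp : n % p = n := Nat.mod_eq_of_lt (ZMod.val_lt _)
  have h1 : p ∣ b + W * n + a := (Zw_eq hp hW a n).1 (by rw [hnp])
  have h2 : p ∣ b + W * n + a' := (Zw_eq hp hW a' n).1 (by rw [hnp]; exact h.symm)
  have h3 : a ≡ a' [MOD p] := by
    have e1 : b + W * n + a ≡ b + W * n + a' [MOD p] :=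
      ((Nat.modEq_zero_iff_dvd).2 h1).trans ((Nat.modEq_zero_iff_dvd).2 h2).symm
    exact Nat.ModEq.add_left_cancel' _ e1
  have e1 := hS a ha
  have e2 := hS a' ha'
  unfold Nat.ModEq at h3
  rwa [Nat.mod_eq_of_lt e1, Nat.mod_eq_of_lt e2] at h3

theorem not_dvd_Wm {X p : ℕ} (hp : p.Prime) (h : HH X < p) : ¬ p ∣ Wm X := by
  intro hd
  unfold Wm at hd
  rw [primorial, Prime.dvd_finset_prod_iff hp.prime] at hd
  obtain ⟨q, hq, hqd⟩ := hd
  rw [mem_filter, mem_range] at hq
  have h1 := (Nat.prime_dvd_prime_iff_eq hp hq.2).1 hqd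
  omega

/-- the differences of a set in one class -/
theorem dc_class {W b : ℕ} (hW : 0 < W) {G : Finset ℕ} (hG : ∀ y ∈ G, y % W = b) (h : ℕ) :
    dc G (W * h) = dc (G.image (fun y => y / W)) h := by
  have hy : ∀ y ∈ G, b + W * (y / W) = y := by
    intro y hy
    rw [← hG y hy]
    exact Nat.mod_add_div y W
  have hinj : Set.InjOn (fun y => y / W) (G : Set ℕ) := by
    intro y hy1 y' hy2 he
    simp only at he
    rw [← hy y hy1, ← hy y' hy2, he]
  unfold dc
  rw [← card_image_of_injOn (s := G.filter (fun n => n + W * h ∈ G)) (f := fun y => y / W)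
    (hinj.mono (fun y hy => (mem_filter.1 hy).1))]
  congr 1
  ext n
  rw [mem_image, mem_filter, mem_image]
  constructor
  · rintro ⟨y, hy1, rfl⟩
    rw [mem_filter] at hy1
    refine ⟨⟨y, hy1.1, rfl⟩, ?_⟩
    rw [mem_image]
    exact ⟨y + W * h, hy1.2, Nat.add_mul_div_left _ _ hW⟩
  · rintro ⟨⟨y, hy1, rfl⟩, h2⟩
    rw [mem_image] at h2
    obtain ⟨y', hy2, h3⟩ := h2
    refine ⟨y, ?_, rfl⟩
    rw [mem_filter]
    refine ⟨hy1, ?_⟩
    have : y + W * h = y' := by
      rw [← hy y' hy2, h3, mul_add, ← add_assoc, hy y hy1]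
    rwa [this]

theorem V1_div {a b : ℕ} (h : a ≤ b) : V1 b / V1 a = ∏ p ∈ Pr a b, (1 - 1 / (p : ℝ)) := by
  have hVs := V1_pos a
  rw [div_eq_iff hVs.ne']
  unfold V1
  rw [mul_comm, ← prod_union]
  · apply prod_congr _ (fun _ _ => rfl)
    ext p
    rw [mem_union, Pr_mem, Pr_mem, Pr_mem]
    constructor
    · rintro ⟨h1, h2⟩
      by_cases h3 : p ≤ a
      · exact Or.inl ⟨⟨h1.1, h3⟩, h2⟩
      · exact Or.inr ⟨⟨by omega, h1.2⟩, h2⟩
    · rintro (⟨h1, h2⟩ | ⟨h1, h2⟩)
      · exact ⟨⟨h1.1, by omega⟩, h2⟩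
      · exact ⟨⟨by omega, h1.2⟩, h2⟩
  · rw [disjoint_left]
    intro p hp hp'
    have := Pr_mem.1 hp
    have := Pr_mem.1 hp'
    omega

theorem log_rpow_pow (n : ℕ) (δ : ℝ) (hδ : 0 < δ) : ∃ X₀ : ℕ, ∀ X : ℕ, X₀ ≤ X →
    Real.log X ^ n ≤ (X : ℝ) ^ δ := by
  obtain ⟨X1, h1⟩ := log_pow_le ⌈n / δ⌉₊ 1
  refine ⟨max X1 16, fun X hX => ?_⟩
  have h2 := h1 X ((le_max_left _ _).trans hX)
  have hX16 : 16 ≤ X := (le_max_right _ _).trans hX
  have hXr : (16 : ℝ) ≤ X := by exact_mod_cast hX16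
  have hl1 : 1 ≤ Real.log X := by
    have : (1 : ℝ) = Real.log (Real.exp 1) := (Real.log_exp 1).symm
    rw [this]
    apply Real.log_le_log (Real.exp_pos 1)
    have := Real.exp_one_lt_d9
    linarith
  rw [one_mul] at h2
  calc Real.log X ^ n = Real.log X ^ ((n / δ) * δ) := by
        rw [div_mul_cancel₀ _ hδ.ne', Real.rpow_natCast]
    _ ≤ Real.log X ^ ((⌈n / δ⌉₊ : ℝ) * δ) := by
        apply Real.rpow_le_rpow_of_exponent_le hl1
        exact mul_le_mul_of_nonneg_right (Nat.le_ceil _) hδ.le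
    _ = (Real.log X ^ ⌈n / δ⌉₊) ^ δ := by
        rw [Real.rpow_mul (by linarith), Real.rpow_natCast]
    _ ≤ (X : ℝ) ^ δ := Real.rpow_le_rpow (by positivity) h2 hδ.le

theorem upW : UpW := by
  classical
  intro S δ hδ hδ8
  obtain ⟨C1, C, J1, s, hC1, hC, hup⟩ := upZ S.card
  obtain ⟨c, Cv, hc, hCv, hV⟩ := V1_bounds
  set k := S.card with hk
  set g : ℕ := C1 with hg
  have hg2 : C1 ≤ 2 ^ g := (Nat.lt_two_pow_self (n := g)).le
  obtain ⟨X1, h1⟩ := Pool.Agent.H325R2.wtx.2 δ hδ (by linarith)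
  obtain ⟨X2, h2⟩ : ∃ X2 : ℕ, ∀ Y : ℕ, X2 ≤ Y → ((2 : ℝ) ^ 2 ^ (J1 + g + 1)) < (Y : ℝ) ^ (δ / 2) := by
    have := ((tendsto_rpow_atTop (by linarith : 0 < δ / 2)).comp
      tendsto_natCast_atTop_atTop).eventually_gt_atTop ((2 : ℝ) ^ 2 ^ (J1 + g + 1))
    exact Filter.eventually_atTop.1 this
  obtain ⟨X3, h3⟩ := Filter.eventually_atTop.1
    (Pool.Agent.H862R2.PPSm5.HH_tendsto.eventually_ge_atTop (max (s + 1) (S.sup id + k + 2)))
  obtain ⟨X4, h4⟩ := log_pow_le 1 2
  obtain ⟨X5, h5⟩ := log_rpow_pow (2 ^ g) (δ / 2) (by positivity)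
  refine ⟨C * 27 * (Cv / c * 2 ^ g) ^ (4 * k), by positivity, max (max (max X1 X2) (max X3 X4)) (max X5 16), ?_⟩
  intro X hX b hb G hG hrough
  simp only [max_le_iff] at hX
  obtain ⟨⟨⟨hX1, hX2⟩, hX3, hX4⟩, hX5, hX16⟩ := hX
  obtain ⟨e1, e2, e3⟩ := h1 X hX1
  have e4 := h2 X hX2
  have hHs : max (s + 1) (S.sup id + k + 2) ≤ HH X := h3 X hX3
  rw [max_le_iff] at hHs
  obtain ⟨hHs1, hHs2⟩ := hHs
  have hXr : (16 : ℝ) ≤ X := by exact_mod_cast hX16
  have hX0 : (0 : ℝ) < X := by linarith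
  have hXone : (1 : ℝ) ≤ X := by linarith
  set H := HH X with hH
  set W := Wm X with hWd
  have hW0 : 0 < W := Pool.Agent.H361R2.PP.Wm_pos X
  have hWr : (0 : ℝ) < W := by exact_mod_cast hW0
  have hWone : (1 : ℝ) ≤ W := by exact_mod_cast hW0
  have hJJ : J1 + g + 1 < JJ δ X := by
    by_contra hcon
    push Not at hcon
    have h3 : (2 : ℝ) ^ 2 ^ JJ δ X ≤ (2 : ℝ) ^ 2 ^ (J1 + g + 1) :=
      pow_le_pow_right₀ (by norm_num) (Nat.pow_le_pow_right (by norm_num) hcon)
    linarith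
  set J : ℕ := JJ δ X - g with hJ
  have hJg : JJ δ X = J + g := by omega
  set R : ℕ := 2 ^ 2 ^ J with hR
  set R' : ℕ := 2 ^ 2 ^ JJ δ X with hR'
  have hRR' : R ^ C1 ≤ R' := by
    calc R ^ C1 ≤ R ^ (2 ^ g) := Nat.pow_le_pow_right Nat.one_le_two_pow hg2
      _ = R' := by rw [hR, hR', ← pow_mul, ← pow_add, ← hJg]
  have hR2 : 2 ≤ R := by
    rw [hR]
    calc 2 = 2 ^ 1 := rfl
      _ ≤ 2 ^ 2 ^ J := Nat.pow_le_pow_right (by norm_num) Nat.one_le_two_pow
  have hRlt : R < R' ∨ R = R' := by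
    have : R ≤ R' := by
      calc R = R ^ 1 := (pow_one _).symm
        _ ≤ R ^ C1 := Nat.pow_le_pow_right (by omega) hC1
        _ ≤ R' := hRR'
    omega
  have hRR1 : R ≤ R' := by rcases hRlt with h | h <;> omega
  have hR'2 : 2 ≤ R' := hR2.trans hRR1
  -- the number of steps
  set Y : ℕ := X / W + 2 with hY
  have hWX : (W : ℝ) ≤ Real.log X := by
    have h5 := Pool.Agent.H325R2.wtx.1 X hX16
    have hl : 1 ≤ Real.log X := by
      have : (1 : ℝ) = Real.log (Real.exp 1) := (Real.log_exp 1).symm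
      rw [this]
      apply Real.log_le_log (Real.exp_pos 1)
      have := Real.exp_one_lt_d9
      linarith
    calc (W : ℝ) ≤ Real.log X ^ (7 / 20 : ℝ) := h5
      _ ≤ Real.log X ^ (1 : ℝ) := Real.rpow_le_rpow_of_exponent_le hl (by norm_num)
      _ = Real.log X := Real.rpow_one _
  have hlogX : 2 * Real.log X ≤ X := by simpa using h4 X hX4
  have hWX2 : 2 * (W : ℝ) ≤ X := by linarith
  have hYr : (Y : ℝ) ≤ 3 * (X / W) := by
    have h5 : ((X / W : ℕ) : ℝ) ≤ X / W := Nat.cast_div_le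
    have h6 : (1 : ℝ) ≤ X / W := by
      rw [le_div_iff₀ hWr]; linarith
    rw [hY]
    push_cast
    linarith
  have hYl : (X : ℝ) / W ≤ Y := by
    have h5 : (X : ℝ) / W ≤ ((X / W : ℕ) : ℝ) + 1 := by
      rw [div_le_iff₀ hWr]
      have h6 := Nat.lt_div_mul_add (a := X) hW0
      have h7 : (X : ℝ) < ((X / W : ℕ) : ℝ) * W + W := by exact_mod_cast h6
      linarith
    rw [hY]
    push_cast
    linarith
  have hRY : R ^ C1 ≤ Y := by
    have h5 : ((R ^ C1 : ℕ) : ℝ) ≤ (R' : ℝ) := by exact_mod_cast hRR'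
    have h6 : (R' : ℝ) ≤ (X : ℝ) ^ (1 / 8 : ℝ) := by
      rw [hR']
      push_cast
      exact e1.trans (Real.rpow_le_rpow_of_exponent_le hXone hδ8)
    have h7 : (X : ℝ) ^ (1 / 8 : ℝ) ≤ X / W := by
      rw [le_div_iff₀ hWr]
      have h8 : (W : ℝ) ≤ (X : ℝ) ^ (7 / 8 : ℝ) := by
        have h9 : Real.log X ≤ (X : ℝ) ^ (7 / 8 : ℝ) / (7 / 8) :=
          Real.log_le_rpow_div hX0.le (by norm_num)
        have h10 := Pool.Agent.H325R2.wtx.1 X hX16
        have hlx : 0 ≤ Real.log X := Real.log_nonneg hXone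
        calc (W : ℝ) ≤ Real.log X ^ (7 / 20 : ℝ) := h10
          _ ≤ ((X : ℝ) ^ (1 : ℝ)) ^ (7 / 20 : ℝ) := by
              apply Real.rpow_le_rpow hlx _ (by norm_num)
              rw [Real.rpow_one]
              linarith
          _ = (X : ℝ) ^ (7 / 20 : ℝ) := by
              rw [← Real.rpow_mul hX0.le]
              norm_num
          _ ≤ (X : ℝ) ^ (7 / 8 : ℝ) := Real.rpow_le_rpow_of_exponent_le hXone (by norm_num)
      calc (X : ℝ) ^ (1 / 8 : ℝ) * W ≤ (X : ℝ) ^ (1 / 8 : ℝ) * (X : ℝ) ^ (7 / 8 : ℝ) :=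
            mul_le_mul_of_nonneg_left h8 (by positivity)
        _ = X := by
            rw [← Real.rpow_add hX0]
            norm_num
    have h8 : ((R ^ C1 : ℕ) : ℝ) ≤ (Y : ℝ) := h5.trans (h6.trans (h7.trans hYl))
    exact_mod_cast h8
  -- the classes
  have hpW : ∀ p : ℕ, p.Prime → H < p → ¬ p ∣ W := fun p hp h => not_dvd_Wm hp h
  have hSH : ∀ a ∈ S, a < H := by
    intro a ha
    have : a ≤ S.sup id := Finset.le_sup (f := id) ha
    omega
  set Z : ℕ → Finset ℕ := fun p => if p ≤ H then ∅ else Zw W b S p with hZ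
  have hZc : ∀ p : ℕ, p.Prime → H < p → (Z p).card = k := by
    intro p hp h
    rw [hZ]
    simp only
    rw [if_neg (by omega)]
    exact Zw_card hp (hpW p hp h) S (fun a ha => by have := hSH a ha; omega)
  have hZS : Sv k s R Z := by
    intro p hp
    have hpp := Pr_prime hp
    by_cases h : p ≤ H
    · rw [hZ]
      simp only
      rw [if_pos h]
      simp
    · refine ⟨(hZc p hpp (by omega)).le, ?_⟩
      rw [hZ]
      simp only
      rw [if_neg h]
      exact Zw_lt hpp S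
  -- the density
  have hHR : H ≤ R := by
    by_contra hcon
    push Not at hcon
    -- `H < R'` only; compare the towers
    have h6 : (H : ℝ) ≤ Real.log X := by
      rw [hH]
      unfold HH
      have hl : 0 ≤ Real.log X := Real.log_nonneg hXone
      have hl1 : 1 ≤ Real.log X := by
        have : (1 : ℝ) = Real.log (Real.exp 1) := (Real.log_exp 1).symm
        rw [this]
        apply Real.log_le_log (Real.exp_pos 1)
        have := Real.exp_one_lt_d9
        linarith
      have hll : 0 ≤ Real.log (Real.log X) := Real.log_nonneg hl1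
      calc ((⌊Real.log (Real.log X) / 4⌋₊ : ℕ) : ℝ) ≤ Real.log (Real.log X) / 4 :=
            Nat.floor_le (by positivity)
        _ ≤ Real.log (Real.log X) := by linarith
        _ ≤ Real.log X := (Real.log_le_sub_one_of_pos (by linarith)).trans (by linarith)
    have h7 := h5 X hX5
    have h8 : R ^ 2 ^ g = R' := by rw [hR, hR', ← pow_mul, ← pow_add, ← hJg]
    have h9 : (R : ℝ) < Real.log X := by
      have : (R : ℝ) < H := by exact_mod_cast hcon
      linarith
    have h10 : ((R ^ 2 ^ g : ℕ) : ℝ) < Real.log X ^ 2 ^ g := by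
      push_cast
      exact pow_lt_pow_left₀ h9 (Nat.cast_nonneg _) (by positivity)
    rw [h8] at h10
    have h11 : (X : ℝ) ^ (δ / 2) ≤ (R' : ℝ) := by
      rw [hR']
      push_cast
      exact e2
    linarith
  have hsH : s ≤ H := by omega
  have hVsplit : VV Z s R = ∏ p ∈ Pr H R, (1 - (k : ℝ) / p) := by
    rw [← VV_split Z hsH hHR]
    have h6 : VV Z s H = 1 := by
      unfold VV
      apply prod_eq_one
      intro p hp
      have e5 := Pr_mem.1 hp
      rw [hZ]
      simp only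
      rw [if_pos e5.1.2]
      simp
    rw [h6, one_mul]
    unfold VV
    apply prod_congr rfl
    intro p hp
    have e5 := Pr_mem.1 hp
    rw [hZc p e5.2 e5.1.1]
  have hVpos : 0 < VV Z s R := by
    rw [hVsplit]
    apply prod_pos
    intro p hp
    have e5 := Pr_mem.1 hp
    rw [sub_pos, div_lt_one (by exact_mod_cast e5.2.pos)]
    have : k < p := by omega
    exact_mod_cast this
  have hVle : VV Z s R ≤ (V1 R / V1 H) ^ k := by
    rw [hVsplit, V1_div hHR, ← prod_pow]
    apply prod_le_prod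
    · intro p hp
      have e5 := Pr_mem.1 hp
      rw [sub_nonneg, div_le_one (by exact_mod_cast e5.2.pos)]
      have : k ≤ p := by omega
      exact_mod_cast this
    · intro p hp
      have e5 := Pr_mem.1 hp
      have hp2 : (2 : ℝ) ≤ p := by exact_mod_cast e5.2.two_le
      have h4 : 1 / (p : ℝ) ≤ 1 / 2 := one_div_le_one_div_of_le (by norm_num) hp2
      have h3 := one_add_mul_le_pow (a := -(1 / (p : ℝ))) (by linarith) k
      calc 1 - (k : ℝ) / p = 1 + (k : ℝ) * -(1 / (p : ℝ)) := by ring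
        _ ≤ (1 + -(1 / (p : ℝ))) ^ k := h3
        _ = _ := by ring
  set v := Pool.Agent.H361R2.PP.VV δ X with hv
  have hvge : V1 R' / V1 H ≤ v := by
    rw [V1_div (hHR.trans hRR1), hv]
    unfold Pool.Agent.H361R2.PP.VV
    have hsub : P1 (HH X) (JJ δ X) ⊆ Pr H R' := by
      intro p hp
      unfold P1 at hp
      rw [mem_filter, mem_range] at hp
      exact Pr_mem.2 ⟨⟨hp.2.2, hp.1.le⟩, hp.2.1⟩
    rw [← prod_sdiff hsub]
    have h6 : ∏ p ∈ Pr H R' \ P1 (HH X) (JJ δ X), (1 - 1 / (p : ℝ)) ≤ 1 := by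
      apply prod_le_one
      · intro p hp
        have := (fac1 (Pr_prime (mem_sdiff.1 hp).1)).1
        linarith
      · intro p hp
        exact (fac1 (Pr_prime (mem_sdiff.1 hp).1)).2
    have h7 : 0 ≤ ∏ p ∈ P1 (HH X) (JJ δ X), (1 - 1 / (p : ℝ)) := by
      apply prod_nonneg
      intro p hp
      have := (fac1 (Pr_prime (hsub hp))).1
      linarith
    nlinarith
  have hlogR : 0 < Real.log R := Real.log_pos (by exact_mod_cast hR2)
  have hlogR' : Real.log R' = 2 ^ g * Real.log R := by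
    have h8 : R ^ 2 ^ g = R' := by rw [hR, hR', ← pow_mul, ← pow_add, ← hJg]
    rw [← h8]
    push_cast
    rw [Real.log_pow]
    push_cast
    ring
  have hV1H := V1_pos H
  have hratio : V1 R / V1 H ≤ (Cv / c * 2 ^ g) * v := by
    have h6 := (hV R hR2).2
    have h7 := (hV R' hR'2).1
    have h8 : V1 R ≤ (Cv / c * 2 ^ g) * V1 R' := by
      refine h6.trans ?_
      calc Cv / Real.log R = (Cv / c * 2 ^ g) * (c / Real.log R') := by
            rw [hlogR']
            field_simp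
        _ ≤ _ := mul_le_mul_of_nonneg_left h7 (by positivity)
    calc V1 R / V1 H ≤ (Cv / c * 2 ^ g) * V1 R' / V1 H := div_le_div_of_nonneg_right h8 hV1H.le
      _ = (Cv / c * 2 ^ g) * (V1 R' / V1 H) := by ring
      _ ≤ _ := mul_le_mul_of_nonneg_left hvge (by positivity)
  have hv0 : 0 ≤ v := (div_nonneg (V1_pos R').le hV1H.le).trans hvge
  have hVfin : VV Z s R ^ 4 ≤ (Cv / c * 2 ^ g) ^ (4 * k) * v ^ (4 * k) := by
    calc VV Z s R ^ 4 ≤ (((Cv / c * 2 ^ g) * v) ^ k) ^ 4 := by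
          apply pow_le_pow_left₀ hVpos.le
          exact hVle.trans (pow_le_pow_left₀ (div_nonneg (V1_pos R).le hV1H.le) hratio k)
      _ = _ := by rw [← pow_mul, mul_pow, mul_comm k 4]
  -- the set of the quotients
  have hGb : ∀ y ∈ G, y % W = b := by
    intro y hy
    have := hG hy
    unfold SI at this
    exact (mem_filter.1 this).2
  have hGI : ∀ y ∈ G, X ≤ y ∧ y < 2 * X := by
    intro y hy
    have := hG hy
    unfold SI at this
    exact mem_Ico.1 (mem_filter.1 this).1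
  have hyy : ∀ y ∈ G, b + W * (y / W) = y := by
    intro y hy
    rw [← hGb y hy]
    exact Nat.mod_add_div y W
  set G' := G.image (fun y => y / W) with hG'
  have hXW1 : 1 ≤ X / W := by
    rw [Nat.le_div_iff_mul_le hW0]
    have : (W : ℝ) ≤ X := by linarith
    have h7 : W ≤ X := by exact_mod_cast this
    omega
  have hG'I : G' ⊆ Ioc (X / W - 1) (X / W - 1 + Y) := by
    intro n hn
    rw [hG', mem_image] at hn
    obtain ⟨y, hy, rfl⟩ := hn
    obtain ⟨a1, a2⟩ := hGI y hy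
    rw [mem_Ioc]
    have b1 : X / W ≤ y / W := Nat.div_le_div_right a1
    have b2 : y / W ≤ 2 * (X / W) + 1 := by
      have h6 : y / W < 2 * (X / W) + 2 := by
        rw [Nat.div_lt_iff_lt_mul hW0]
        have h7 := Nat.lt_div_mul_add (a := X) hW0
        nlinarith
      omega
    constructor
    · omega
    · rw [hY]; omega
  have hrough' : ∀ n ∈ G', ∀ p ∈ Pr s R, n % p ∉ Z p := by
    intro n hn p hp hcon
    rw [hG', mem_image] at hn
    obtain ⟨y, hy, rfl⟩ := hn
    have e5 := Pr_mem.1 hp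
    by_cases h : p ≤ H
    · rw [hZ] at hcon
      simp only at hcon
      rw [if_pos h] at hcon
      exact absurd hcon (notMem_empty _)
    · rw [hZ] at hcon
      simp only at hcon
      rw [if_neg h, mem_Zw e5.2 (hpW p e5.2 (by omega))] at hcon
      obtain ⟨a, ha, hd⟩ := hcon
      rw [hyy y hy] at hd
      refine hrough y hy a ha p e5.2 (by omega) ?_ hd
      have hpR : p ≤ R' := e5.1.2.trans hRR1
      rcases Nat.lt_or_ge p R' with h6 | h6
      · exact h6
      · exfalso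
        have h7 : p = R' := by omega
        rw [h7, hR'] at e5
        exact Pool.Agent.W578.HR.not_prime_pow (by omega : 1 ≤ JJ δ X) e5.2
  have hfin := hup J (X / W - 1) Y (by omega) hRY Z hZS hVpos G' hG'I hrough'
  have hsum : ∑ h ∈ Icc 1 X, ((G.filter (fun y => y + h ∈ G)).card : ℝ) ^ 2 ≤
      ∑ h ∈ Icc 1 Y, (dc G' h : ℝ) ^ 2 := by
    have h6 : ∑ h ∈ Icc 1 X, ((G.filter (fun y => y + h ∈ G)).card : ℝ) ^ 2 =
        ∑ h ∈ (Icc 1 X).filter (fun h => W ∣ h), (dc G h : ℝ) ^ 2 := by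
      rw [sum_filter]
      apply sum_congr rfl
      intro h _
      split_ifs with hd
      · rfl
      · have : G.filter (fun y => y + h ∈ G) = ∅ := by
          rw [filter_eq_empty_iff]
          intro y hy hcon
          apply hd
          have a1 := hGb y hy
          have a2 := hGb _ hcon
          have a3 : y + h ≡ y + 0 [MOD W] := by
            unfold Nat.ModEq
            rw [a2, add_zero, a1]
          exact (Nat.modEq_zero_iff_dvd).1 (Nat.ModEq.add_left_cancel' y a3)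
        rw [this]
        simp
    rw [h6]
    have hinj : Set.InjOn (fun h => h / W) (((Icc 1 X).filter (fun h => W ∣ h) : Finset ℕ) : Set ℕ) := by
      intro h1 hh1 h2 hh2 he
      rw [mem_coe, mem_filter] at hh1 hh2
      simp only at he
      rw [← Nat.mul_div_cancel' hh1.2, ← Nat.mul_div_cancel' hh2.2, he]
    calc ∑ h ∈ (Icc 1 X).filter (fun h => W ∣ h), (dc G h : ℝ) ^ 2 =
        ∑ h ∈ (Icc 1 X).filter (fun h => W ∣ h), (dc G' (h / W) : ℝ) ^ 2 := by
          apply sum_congr rfl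
          intro h hh
          rw [mem_filter] at hh
          have h7 := dc_class hW0 hGb (h / W)
          rw [Nat.mul_div_cancel' hh.2] at h7
          rw [h7]
      _ = ∑ h ∈ ((Icc 1 X).filter (fun h => W ∣ h)).image (fun h => h / W), (dc G' h : ℝ) ^ 2 := by
          rw [sum_image hinj]
      _ ≤ _ := by
          apply sum_le_sum_of_subset_of_nonneg
          · intro n hn
            rw [mem_image] at hn
            obtain ⟨h, hh, rfl⟩ := hn
            rw [mem_filter, mem_Icc] at hh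
            rw [mem_Icc]
            constructor
            · rw [Nat.le_div_iff_mul_le hW0]
              have := Nat.le_of_dvd (by omega) hh.2
              omega
            · have : h / W ≤ X / W := Nat.div_le_div_right hh.1.2
              omega
          · intro n _ _
            positivity
  refine hsum.trans (hfin.trans ?_)
  have hOm : Pool.Agent.W70.HR.Om δ X k ^ 4 * (W / X) = ((X : ℝ) / W) ^ 3 * v ^ (4 * k) := by
    unfold Pool.Agent.W70.HR.Om
    rw [← hv, ← hWd, mul_pow, ← pow_mul, mul_comm k 4]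
    field_simp
  rw [hOm]
  calc C * ((Y : ℝ) ^ 3 * VV Z s R ^ 4) ≤
      C * ((3 * (X / W)) ^ 3 * ((Cv / c * 2 ^ g) ^ (4 * k) * v ^ (4 * k))) := by
        apply mul_le_mul_of_nonneg_left _ hC.le
        apply mul_le_mul _ hVfin (by positivity) (by positivity)
        exact pow_le_pow_left₀ (Nat.cast_nonneg _) hYr 3
    _ = _ := by ring

end Pool.Agent.T2H22.AA
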