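import Pool.Agent.T2H22.AA.Env3
import Pool.Agent.H373R2.T7.LamZ

/-! Auxiliary lemmas for `AA/Env4.lean` (a separate file, so that the long theorems are compiled in parallel). -/

set_option autoImplicit false

open Finset Filter Topology

namespace Pool.Agent.T2H22.AA

open Pool.Agent.H361R2.PP
open Pool.Agent.H410R2
open Pool.Agent.W70.HR
open Pool.Agent.H373R2.T7 (Vz pz mem_pz)
open Pool.Agent.H410R2.AC (wt GG cfg term WW pos Inj coef)

/-- pointwise bound of the Selberg type functions up to `9 X` -/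
theorem pt9 (Λ δ : ℝ) (hΛ : 0 < Λ) (hδ : 0 < δ) (hδ8 : δ ≤ 1 / 8) : ∃ M₀ : ℝ, 0 < M₀ ∧ ∃ X₀ : ℕ,
    ∀ X : ℕ, X₀ ≤ X → ∀ n a : ℕ, n ≤ 9 * X → 1 ≤ a → (a : ℝ) ≤ Λ * Real.log X →
    ∀ S : Finset (Finset ℕ), (∀ R ∈ S, R ⊆ P2 (JJ δ X) X) → |FS S a n| ≤ M₀ := by
  obtain ⟨C, hC, hG⟩ := gbd 1
  obtain ⟨X₁, hX₁⟩ := hG δ hδ hδ8
  obtain ⟨X₂, hX₂⟩ := Pool.Agent.H325R2.wtx.2 δ hδ (by linarith)
  have hev : ∀ᶠ X : ℕ in atTop, Λ * Real.log X ≤ X := by
    have h1 : Tendsto (fun x : ℝ => Real.log x / x) atTop (nhds 0) := by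
      have := Real.isLittleO_log_id_atTop.tendsto_div_nhds_zero
      exact this
    have h2 : ∀ᶠ x : ℝ in atTop, Real.log x / x < 1 / Λ :=
      h1.eventually (gt_mem_nhds (by positivity))
    have h3 := tendsto_natCast_atTop_atTop (R := ℝ) |>.eventually h2
    filter_upwards [h3, eventually_ge_atTop 1] with X hX hX1
    have hX0 : (0 : ℝ) < X := by exact_mod_cast hX1
    rw [div_lt_iff₀ hX0] at hX
    have h4 : Λ * Real.log X ≤ Λ * (1 / Λ * X) := mul_le_mul_of_nonneg_left hX.le hΛ.le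
    refine h4.trans (le_of_eq ?_)
    field_simp
  obtain ⟨X₃, hX₃⟩ := eventually_atTop.1 hev
  refine ⟨2 ^ ⌊4 / δ⌋₊ * (C / δ) ^ C, ?_, max (max X₁ X₂) (max X₃ 16), ?_⟩
  · have : (0 : ℝ) < C := by exact_mod_cast hC
    positivity
  intro X hX n a hn ha haΛ S hS
  have hX1 : X₁ ≤ X := le_trans (le_trans (le_max_left _ _) (le_max_left _ _)) hX
  have hX2 : X₂ ≤ X := le_trans (le_trans (le_max_right _ _) (le_max_left _ _)) hX
  have hX3 : X₃ ≤ X := le_trans (le_trans (le_max_left _ _) (le_max_right _ _)) hX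
  have hX16 : 16 ≤ X := le_trans (le_trans (le_max_right _ _) (le_max_right _ _)) hX
  have hP : ∀ p ∈ P2 (JJ δ X) X, p.Prime ∧ 2 ^ 2 ^ JJ δ X ≤ p := by
    intro p hp
    unfold P2 at hp
    exact (Finset.mem_filter.1 hp).2
  have hXr : (16 : ℝ) ≤ X := by exact_mod_cast hX16
  have haX : (a : ℝ) ≤ X := haΛ.trans (hX₃ X hX3)
  have hcard : ((P2 (JJ δ X) X).filter (fun p => p ∣ n + a)).card ≤ ⌊4 / δ⌋₊ := by
    apply Pool.Agent.W762.HRPt.few_primes hδ (X := X) (by omega) (z := 2 ^ 2 ^ JJ δ X) hP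
    · have := (hX₂ X hX2).2.1
      push_cast
      exact this
    · omega
    · have h5 : ((n + a : ℕ) : ℝ) ≤ 10 * X := by
        push_cast
        have : (n : ℝ) ≤ 9 * X := by exact_mod_cast hn
        linarith
      refine h5.trans ?_
      rw [Real.rpow_two]
      nlinarith
  have h6 := hX₁ X hX1
  rw [Nat.cast_one] at h6
  have h7 : (0 : ℝ) ≤ ∏ p ∈ P2 (JJ δ X) X, (1 + (1 : ℝ) / ((p : ℝ) - 1)) := by
    refine Finset.prod_nonneg fun p hp => ?_
    have h1 : (1 : ℝ) < p := by exact_mod_cast (hP p hp).1.one_lt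
    have h2 : (0 : ℝ) < (p : ℝ) - 1 := by linarith
    positivity
  refine (Pool.Agent.W762.HRPt.fs_le (fun p hp => (hP p hp).1) hS a n).trans ?_
  refine mul_le_mul ?_ h6 h7 (by positivity)
  exact pow_le_pow_right₀ (by norm_num) hcard

/-- the masses of the primes -/
theorem vp_le (s : ℝ) (hs : 0 < s) (δ : ℝ) (hδ : 0 < δ) (hδ1 : δ ≤ 1) : ∃ X₀ : ℕ, ∀ X : ℕ, X₀ ≤ X →
    ∀ z : ℕ, HH X ≤ z → z < 2 ^ 2 ^ JJ δ X →
    vp δ X * VE z (JJ δ X) ≤ (1 + s) * (1 / (Real.log X * Vz z)) := by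
  obtain ⟨C, hC, hm⟩ := mer
  obtain ⟨X₁, h1⟩ := hm δ hδ hδ1
  obtain ⟨X₂, h2⟩ := Pool.Agent.H325R2.pnt s hs
  refine ⟨max (max X₁ X₂) 16, ?_⟩
  intro X hX z hHz hzJ
  have hX1 : X₁ ≤ X := le_trans (le_trans (le_max_left _ _) (le_max_left _ _)) hX
  have hX2 : X₂ ≤ X := le_trans (le_trans (le_max_right _ _) (le_max_left _ _)) hX
  have hX16 : 16 ≤ X := le_trans (le_max_right _ _) hX
  have hXr : (16 : ℝ) ≤ X := by exact_mod_cast hX16
  have hL : 0 < Real.log X := Real.log_pos (by linarith)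
  obtain ⟨hV, -, hprod⟩ := h1 X hX1
  have hpnt := (abs_le.1 (h2 X hX2)).2
  have hVz : 0 < Vz z := by
    unfold Vz
    apply Finset.prod_pos
    intro p hp
    have h1 : (1 : ℝ) < p := by exact_mod_cast (mem_pz.1 hp).2.one_lt
    rw [sub_pos, div_lt_one (by linarith)]
    exact h1
  have hW : (0 : ℝ) < Wm X := by exact_mod_cast Pool.Agent.H361R2.PP.Wm_pos X
  have hφ : (0 : ℝ) < Nat.totient (Wm X) := by
    exact_mod_cast Nat.totient_pos.2 (Pool.Agent.H361R2.PP.Wm_pos X)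
  have hVE : 0 < VE z (JJ δ X) := VE_pos _ _
  have hsplit : ∏ p ∈ (range (2 ^ 2 ^ JJ δ X)).filter Nat.Prime, (1 - 1 / (p : ℝ)) =
      Vz z * VE z (JJ δ X) := by
    unfold Vz VE
    rw [← Finset.prod_union]
    · apply Finset.prod_congr _ (fun _ _ => rfl)
      ext p
      rw [Finset.mem_union, mem_pz, Finset.mem_filter, Finset.mem_range]
      unfold P1
      rw [Finset.mem_filter, Finset.mem_range]
      constructor
      · rintro ⟨h1, h2⟩
        rcases Nat.lt_or_ge z p with h | h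
        · exact Or.inr ⟨h1, h2, h⟩
        · exact Or.inl ⟨h, h2⟩
      · rintro (⟨h1, h2⟩ | ⟨h1, h2, h3⟩)
        · exact ⟨by omega, h2⟩
        · exact ⟨h1, h2⟩
    · rw [Finset.disjoint_left]
      intro p hp hp'
      rw [mem_pz] at hp
      unfold P1 at hp'
      rw [Finset.mem_filter] at hp'
      omega
  have hVV : VV δ X * ((Nat.totient (Wm X) : ℝ) / Wm X) = Vz z * VE z (JJ δ X) := by
    rw [← hsplit, hprod]
    rfl
  have hVV0 : 0 < VV δ X := hV
  have e1 : vp δ X * VE z (JJ δ X) = Pr X / X * (1 / Vz z) := by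
    unfold vp
    have e2 : (Pr X / Nat.totient (Wm X)) / ((X : ℝ) / Wm X * VV δ X) =
        Pr X / X * (1 / (VV δ X * ((Nat.totient (Wm X) : ℝ) / Wm X))) := by
      field_simp
    rw [e2, hVV]
    field_simp
  rw [e1]
  have h3 : Pr X / X ≤ (1 + s) / Real.log X := by
    rw [div_le_div_iff₀ (by linarith) hL]
    linarith
  calc Pr X / X * (1 / Vz z) ≤ (1 + s) / Real.log X * (1 / Vz z) :=
        mul_le_mul_of_nonneg_right h3 (by positivity)
    _ = _ := by field_simp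

theorem rE_nonneg (z J : ℕ) (U : Finset ℕ) (n : ℕ) : 0 ≤ rE z J U n := by
  unfold rE
  refine prod_nonneg fun a _ => ?_
  unfold rg
  split_ifs <;> norm_num

theorem rE_le_one (z J : ℕ) (U : Finset ℕ) (n : ℕ) : rE z J U n ≤ 1 := by
  unfold rE
  refine prod_le_one (fun a _ => ?_) fun a _ => ?_
  · unfold rg
    split_ifs <;> norm_num
  · unfold rg
    split_ifs <;> norm_num

theorem rE_erase {z J X : ℕ} (hJ : 2 ^ 2 ^ J ≤ X) {U : Finset ℕ} {n a : ℕ} (ha : a ∈ U)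
    (hn : X ≤ n) (ha1 : 1 ≤ a) (hp : (n + a).Prime) : rE z J U n = rE z J (U.erase a) n := by
  unfold rE
  rw [← mul_prod_erase U _ ha, rg_prime _ hp, one_mul]
  intro p hp
  unfold P1 at hp
  rw [Finset.mem_filter, Finset.mem_range] at hp
  exact ⟨hp.2.1, by omega⟩

end Pool.Agent.T2H22.AA
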