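import Pool.Agent.T2H22.AA.Wts

/-! Project AA: the weights of the primes in the environment. -/

set_option autoImplicit false

open Finset

namespace Pool.Agent.T2H22.AA

open Pool.Agent.H361R2.PP
open Pool.Agent.H410R2
open Pool.Agent.W70.HR
open Pool.Agent.H373R2.T7 Pool.Agent.H807R2.Dav

theorem Y16_le (X : ℕ) (hX : 1 ≤ X) : Y16 X ≤ X := by
  have hX1 : (1 : ℝ) ≤ X := by exact_mod_cast hX
  have h1 : (X : ℝ) ^ (1 / 16 : ℝ) ≤ X := by
    calc (X : ℝ) ^ (1 / 16 : ℝ) ≤ (X : ℝ) ^ (1 : ℝ) :=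
          Real.rpow_le_rpow_of_exponent_le hX1 (by norm_num)
      _ = X := Real.rpow_one _
  have h2 : (Y16 X : ℝ) ≤ X := (Nat.floor_le (by positivity)).trans h1
  exact_mod_cast h2

theorem sum_K (X z K : ℕ) (hK : K ≤ z) :
    ∑ D ∈ Ds X z, (K : ℝ) ^ D.card ≤ (Y16 X : ℝ) ^ 2 := by
  have hp : ∀ D ∈ Ds X z, ∀ p ∈ D, p.Prime := fun D hD p hp =>
    (mem_PE.1 ((mem_Ds.1 hD).1 hp)).2.1
  have h1 : ∀ D ∈ Ds X z, (K : ℝ) ^ D.card ≤ Y16 X := by
    intro D hD
    have h2 : K ^ D.card ≤ ∏ p ∈ D, p := by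
      rw [← prod_const]
      apply prod_le_prod'
      intro p hpD
      have := (mem_PE.1 ((mem_Ds.1 hD).1 hpD)).2.2
      omega
    have h3 := h2.trans (mem_Ds.1 hD).2
    exact_mod_cast h3
  have hcard : (Ds X z).card ≤ Y16 X := by
    have h2 : ((Ds X z).image (fun D => ∏ p ∈ D, p)).card = (Ds X z).card := by
      apply card_image_of_injOn
      intro D hD D' hD' he
      simp only at he
      rw [← Nat.primeFactors_prod (hp D hD), ← Nat.primeFactors_prod (hp D' hD'), he]
    rw [← h2]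
    have h3 : (Ds X z).image (fun D => ∏ p ∈ D, p) ⊆ Icc 1 (Y16 X) := by
      intro n hn
      rw [mem_image] at hn
      obtain ⟨D, hD, rfl⟩ := hn
      rw [mem_Icc]
      exact ⟨prod_pos fun p h => (hp D hD p h).pos, (mem_Ds.1 hD).2⟩
    have h4 := card_le_card h3
    rwa [Nat.card_Icc, Nat.add_sub_cancel] at h4
  calc ∑ D ∈ Ds X z, (K : ℝ) ^ D.card ≤ ∑ D ∈ Ds X z, (Y16 X : ℝ) := sum_le_sum h1
    _ = (Ds X z).card * (Y16 X : ℝ) := by rw [sum_const, nsmul_eq_mul]
    _ ≤ (Y16 X : ℝ) * Y16 X := mul_le_mul_of_nonneg_right (by exact_mod_cast hcard) (Nat.cast_nonneg _)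
    _ = _ := by ring

/-- the prime powers -/
theorem pp_sum (X a : ℕ) (hX : 1 ≤ X) (ha : a ≤ X) :
    ∑ x ∈ (Ico (4 * X) (8 * X)).filter (fun x => ¬ (x + a).Prime), ArithmeticFunction.vonMangoldt (x + a) ≤
      2 * √((9 * X : ℕ) : ℝ) * Real.log ((9 * X : ℕ) : ℝ) := by
  have h1 : (1 : ℝ) ≤ ((9 * X : ℕ) : ℝ) := by
    exact_mod_cast (by omega : 1 ≤ 9 * X)
  have h2 := Chebyshev.psi_sub_theta_le h1
  rw [Chebyshev.psi_sub_theta_eq_sum_not_prime, Nat.floor_natCast] at h2
  refine le_trans ?_ h2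
  rw [← sum_image (f := fun n => ArithmeticFunction.vonMangoldt n) (g := fun x => x + a)
    (fun x _ y _ h => by simpa using h)]
  apply sum_le_sum_of_subset_of_nonneg
  · intro n hn
    rw [mem_image] at hn
    obtain ⟨x, hx, rfl⟩ := hn
    rw [mem_filter, mem_Ico] at hx
    rw [mem_filter, mem_Ioc]
    exact ⟨⟨by omega, by omega⟩, hx.2⟩
  · intro n _ _
    exact ArithmeticFunction.vonMangoldt_nonneg

/-- the weight of the primes is equidistributed -/
theorem env_P (K A X z a : ℕ) (hX : 16 ≤ X) (ha : a ≤ X) (hK : K ≤ z) (ρ : ℕ → ℝ)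
    (hρ : ∀ x, 0 ≤ ρ x) (hρ1 : ∀ x, ρ x ≤ 1) (E G : Finset ℕ)
    (hE : ∀ N ∈ E, N < 9 * X) (hG : ∀ y ∈ G, y < 2 * X) (δ : ℝ)
    (hH : ∀ (γ : Finset ℕ → ℝ) (c : Finset ℕ → ℕ), (∀ D, |γ D| ≤ (K : ℝ) ^ D.card) →
      (∀ D ∈ Ds X z, (c D + a).Coprime (∏ p ∈ D, p)) → ∀ α : ℝ,
      ‖∑ x ∈ Ico (4 * X) (8 * X), ((ρ x * ∑ D ∈ Ds X z, γ D *
        ((if x ≡ c D [MOD ∏ p ∈ D, p] then ArithmeticFunction.vonMangoldt (x + a) else 0) -
          (Vz z)⁻¹ / ∏ p ∈ D, ((p : ℝ) - 1)) : ℝ) : ℂ) *
        ee ((x : ℝ) * α)‖ ≤ δ)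
    (hδ : δ * √((E.card : ℝ) * G.card) +
      G.card * (2 * √((9 * X : ℕ) : ℝ) * Real.log ((9 * X : ℕ) : ℝ)) * (Y16 X : ℝ) ^ 2 ≤
        (OmI X ρ E G / Vz z) / Real.log X ^ A) :
    Envw (some a) K A X z (wP X a ρ E G) (8 * X) (OmI X ρ E G / (Real.log X * Vz z)) := by
  have hXr : (16 : ℝ) ≤ X := by exact_mod_cast hX
  have hX0 : (0 : ℝ) < X := by linarith
  have hL : 0 < Real.log X := Real.log_pos (by linarith)
  have hVz : 0 < Vz z := by
    unfold Vz
    apply Finset.prod_pos
    intro p hp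
    have h1 : (1 : ℝ) < p := by exact_mod_cast (mem_pz.1 hp).2.one_lt
    rw [sub_pos, div_lt_one (by linarith)]
    exact h1
  have hΛ : ∀ n, 0 ≤ ArithmeticFunction.vonMangoldt n := fun n => ArithmeticFunction.vonMangoldt_nonneg
  have hΩ0 : 0 ≤ OmI X ρ E G := sum_nonneg fun x _ => mul_nonneg (hρ x) (mm_nonneg _ _ _)
  refine envw_of (some a) K A X z (wP X a ρ E G) (8 * X) _ ?_ (by positivity) ?_ ?_
  · intro n
    unfold wP
    split_ifs
    · exact mul_nonneg (mul_nonneg (hρ n) (mm_nonneg _ _ _)) (div_nonneg (hΛ _) hL.le)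
    · exact le_rfl
  · intro m hm p hp
    unfold wP at hm
    have h1 : m ∈ Ico (4 * X) (8 * X) ∧ (m + a).Prime := by
      by_contra h
      rw [if_neg h] at hm
      exact hm rfl
    unfold ok
    intro a' ha' hd
    have haa : a = a' := by simpa using ha'
    subst haa
    have hpp := mem_PE.1 hp
    rcases (Nat.dvd_prime h1.2).1 hd with h | h
    · exact hpp.2.1.one_lt.ne' h
    · have h2 := Y16_le X (by omega)
      have h3 := (mem_Ico.1 h1.1).1
      omega
  · intro γ c hγ hc
    have hcop : ∀ D ∈ Ds X z, (c D + a).Coprime (∏ p ∈ D, p) := by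
      intro D hD
      apply Nat.Coprime.prod_right
      intro p hp
      have hpp := (mem_PE.1 ((mem_Ds.1 hD).1 hp)).2.1
      rw [Nat.coprime_comm]
      exact (hpp.coprime_iff_not_dvd).2 (hc D hD p hp a rfl)
    have h1 := bil_mm X (by omega) E G hE hG _ δ (hH γ c hγ hcop)
    -- the terms
    have hd : ∀ D ∈ Ds X z,
        γ D * disc (some a) (wP X a ρ E G) (8 * X) (OmI X ρ E G / (Real.log X * Vz z)) D (c D) =
        (∑ x ∈ Ico (4 * X) (8 * X), ρ x * mm E G x * (γ D *
          ((if x ≡ c D [MOD ∏ p ∈ D, p] then ArithmeticFunction.vonMangoldt (x + a) else 0) -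
            (Vz z)⁻¹ / ∏ p ∈ D, ((p : ℝ) - 1)))) / Real.log X -
        (∑ x ∈ (Ico (4 * X) (8 * X)).filter (fun x => ¬ (x + a).Prime), ρ x * mm E G x *
          ArithmeticFunction.vonMangoldt (x + a) *
            (γ D * if x ≡ c D [MOD ∏ p ∈ D, p] then 1 else 0)) / Real.log X := by
      intro D hD
      have h2 : ∑ m ∈ (range (8 * X)).filter (fun m => m ≡ c D [MOD ∏ p ∈ D, p]), wP X a ρ E G m =
          (∑ x ∈ Ico (4 * X) (8 * X), ρ x * mm E G x *
            (if x ≡ c D [MOD ∏ p ∈ D, p] then ArithmeticFunction.vonMangoldt (x + a) else 0)) /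
              Real.log X -
          (∑ x ∈ (Ico (4 * X) (8 * X)).filter (fun x => ¬ (x + a).Prime), ρ x * mm E G x *
            ArithmeticFunction.vonMangoldt (x + a) * (if x ≡ c D [MOD ∏ p ∈ D, p] then 1 else 0)) /
              Real.log X := by
        have h3 : Ico (4 * X) (8 * X) = (range (8 * X)).filter (fun x => 4 * X ≤ x ∧ x < 8 * X) := by
          ext x
          rw [mem_filter, mem_range, mem_Ico]
          omega
        rw [sum_filter (fun x => ¬ (x + a).Prime), h3, sum_filter, sum_filter, sum_filter, sum_div,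
          sum_div, ← sum_sub_distrib]
        apply sum_congr rfl
        intro x _
        unfold wP
        simp only [mem_Ico]
        by_cases e1 : 4 * X ≤ x ∧ x < 8 * X
        · by_cases e2 : (x + a).Prime
          · by_cases e3 : x ≡ c D [MOD ∏ p ∈ D, p]
            · simp only [e1, e2, e3, and_self, if_true, not_true_eq_false, if_false]
              ring
            · simp only [e1, e2, e3, and_self, if_true, not_true_eq_false, if_false]
              ring
          · by_cases e3 : x ≡ c D [MOD ∏ p ∈ D, p]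
            · simp only [e1, e2, e3, and_self, and_false, if_true, not_false_eq_true, if_false]
              ring
            · simp only [e1, e2, e3, and_self, and_false, if_true, not_false_eq_true, if_false]
              ring
        · simp only [e1, false_and, if_false]
          split_ifs <;> ring
      have h3 : ∏ p ∈ D, ph (some a) p = ∏ p ∈ D, ((p : ℝ) - 1) := by
        apply prod_congr rfl
        intro p _
        unfold ph
        simp
      have hP : 0 < ∏ p ∈ D, ((p : ℝ) - 1) := by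
        apply prod_pos
        intro p hp
        have hpp := (mem_PE.1 ((mem_Ds.1 hD).1 hp)).2.1
        have : (1 : ℝ) < p := by exact_mod_cast hpp.one_lt
        linarith
      have h4 : OmI X ρ E G / (Real.log X * Vz z) / ∏ p ∈ D, ((p : ℝ) - 1) =
          (∑ x ∈ Ico (4 * X) (8 * X), ρ x * mm E G x * ((Vz z)⁻¹ / ∏ p ∈ D, ((p : ℝ) - 1))) /
            Real.log X := by
        unfold OmI
        rw [← sum_mul]
        field_simp
      unfold disc
      rw [h2, h3, h4, mul_sub, mul_sub]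
      have h5 : ∑ x ∈ Ico (4 * X) (8 * X), ρ x * mm E G x * (γ D *
          ((if x ≡ c D [MOD ∏ p ∈ D, p] then ArithmeticFunction.vonMangoldt (x + a) else 0) -
            (Vz z)⁻¹ / ∏ p ∈ D, ((p : ℝ) - 1))) =
          γ D * (∑ x ∈ Ico (4 * X) (8 * X), ρ x * mm E G x *
            (if x ≡ c D [MOD ∏ p ∈ D, p] then ArithmeticFunction.vonMangoldt (x + a) else 0)) -
          γ D * ∑ x ∈ Ico (4 * X) (8 * X), ρ x * mm E G x * ((Vz z)⁻¹ / ∏ p ∈ D, ((p : ℝ) - 1)) := by
        rw [mul_sum, mul_sum, ← sum_sub_distrib]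
        apply sum_congr rfl
        intro x _
        ring
      have h6 : ∑ x ∈ (Ico (4 * X) (8 * X)).filter (fun x => ¬ (x + a).Prime), ρ x * mm E G x *
          ArithmeticFunction.vonMangoldt (x + a) *
            (γ D * if x ≡ c D [MOD ∏ p ∈ D, p] then 1 else 0) =
          γ D * ∑ x ∈ (Ico (4 * X) (8 * X)).filter (fun x => ¬ (x + a).Prime), ρ x * mm E G x *
            ArithmeticFunction.vonMangoldt (x + a) *
              (if x ≡ c D [MOD ∏ p ∈ D, p] then 1 else 0) := by
        rw [mul_sum]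
        apply sum_congr rfl
        intro x _
        ring
      rw [h5, h6]
      ring
    rw [sum_congr rfl hd, sum_sub_distrib, ← sum_div, ← sum_div]
    have h7 : ∑ D ∈ Ds X z, ∑ x ∈ Ico (4 * X) (8 * X), ρ x * mm E G x * (γ D *
          ((if x ≡ c D [MOD ∏ p ∈ D, p] then ArithmeticFunction.vonMangoldt (x + a) else 0) -
            (Vz z)⁻¹ / ∏ p ∈ D, ((p : ℝ) - 1))) ≤ δ * √((E.card : ℝ) * G.card) := by
      refine le_trans (le_of_eq ?_) ((le_abs_self _).trans h1)
      rw [sum_comm]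
      apply sum_congr rfl
      intro x _
      rw [← mul_sum]
      ring
    have h8 : -(∑ D ∈ Ds X z, ∑ x ∈ (Ico (4 * X) (8 * X)).filter (fun x => ¬ (x + a).Prime),
        ρ x * mm E G x * ArithmeticFunction.vonMangoldt (x + a) *
            (γ D * if x ≡ c D [MOD ∏ p ∈ D, p] then 1 else 0)) ≤
        G.card * (2 * √((9 * X : ℕ) : ℝ) * Real.log ((9 * X : ℕ) : ℝ)) * (Y16 X : ℝ) ^ 2 := by
      refine (neg_le_abs _).trans ?_
      calc |∑ D ∈ Ds X z, ∑ x ∈ (Ico (4 * X) (8 * X)).filter (fun x => ¬ (x + a).Prime),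
          ρ x * mm E G x * ArithmeticFunction.vonMangoldt (x + a) *
              (γ D * if x ≡ c D [MOD ∏ p ∈ D, p] then 1 else 0)| ≤
          ∑ D ∈ Ds X z, ∑ x ∈ (Ico (4 * X) (8 * X)).filter (fun x => ¬ (x + a).Prime),
            (G.card * ArithmeticFunction.vonMangoldt (x + a)) * (K : ℝ) ^ D.card := by
            refine (abs_sum_le_sum_abs _ _).trans (sum_le_sum fun D _ => ?_)
            refine (abs_sum_le_sum_abs _ _).trans (sum_le_sum fun x _ => ?_)
            rw [abs_mul, abs_mul, abs_mul, abs_mul, abs_of_nonneg (hρ x),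
              abs_of_nonneg (mm_nonneg E G x), abs_of_nonneg (hΛ _)]
            apply mul_le_mul _ _ (by positivity) (mul_nonneg (Nat.cast_nonneg _) (hΛ _))
            · apply mul_le_mul_of_nonneg_right _ (hΛ _)
              calc ρ x * mm E G x ≤ 1 * G.card :=
                    mul_le_mul (hρ1 x) (mm_le E G x) (mm_nonneg _ _ _) zero_le_one
                _ = _ := one_mul _
            · have h9 : |(if x ≡ c D [MOD ∏ p ∈ D, p] then (1 : ℝ) else 0)| ≤ 1 := by
                split_ifs <;> simp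
              calc |γ D| * |(if x ≡ c D [MOD ∏ p ∈ D, p] then (1 : ℝ) else 0)| ≤
                  (K : ℝ) ^ D.card * 1 := mul_le_mul (hγ D) h9 (abs_nonneg _) (by positivity)
                _ = _ := mul_one _
        _ = (G.card * ∑ x ∈ (Ico (4 * X) (8 * X)).filter (fun x => ¬ (x + a).Prime),
              ArithmeticFunction.vonMangoldt (x + a)) * ∑ D ∈ Ds X z, (K : ℝ) ^ D.card := by
            simp only [← sum_mul, ← mul_sum]
        _ ≤ _ := by
            apply mul_le_mul _ (sum_K X z K hK) (sum_nonneg fun _ _ => by positivity)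
            · have : 0 ≤ Real.log ((9 * X : ℕ) : ℝ) := Real.log_natCast_nonneg _
              positivity
            · exact mul_le_mul_of_nonneg_left (pp_sum X a (by omega) ha) (Nat.cast_nonneg _)
    have h10 : OmI X ρ E G / (Real.log X * Vz z) / Real.log X ^ A =
        (OmI X ρ E G / Vz z) / Real.log X ^ A / Real.log X := by
      field_simp
    rw [h10, ← sub_div]
    apply div_le_div_of_nonneg_right _ hL.le
    linarith

end Pool.Agent.T2H22.AA
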