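import Pool.Agent.T2H22.AA.LowB
import Pool.Agent.T2H22.AA.WtsP
import Pool.Agent.T2H22.AA.Env4A
import Pool.Agent.T2H22.AA.UpW

/-! Project AA: lemmas for the assembly. -/

set_option autoImplicit false

open Finset

namespace Pool.Agent.T2H22.AA

open Pool.Agent.H361R2.PP
open Pool.Agent.W70.HR
open Pool.Agent.H862R2.PPSm5 (vv_lower HH_tendsto log_tendsto)
open Pool.Agent.H373R2.T7 (Vz pz mem_pz)

/-- lower bound of the density of the rough tuples -/
theorem VT_ge {X z k : ℕ} {δ : ℝ} (hk : 2 * k ≤ HH X) (hz : z < 2 ^ 2 ^ JJ δ X) :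
    VV δ X ^ (2 * k) ≤ VT X z k := by
  have hp : ∀ p ∈ (Ioc (HH X) z).filter Nat.Prime, p.Prime ∧ 2 * k < p := by
    intro p hp
    rw [mem_filter, mem_Ioc] at hp
    exact ⟨hp.2, by omega⟩
  have h1 : VV δ X ≤ ∏ p ∈ (Ioc (HH X) z).filter Nat.Prime, (1 - 1 / (p : ℝ)) := by
    unfold VV
    have hsub : (Ioc (HH X) z).filter Nat.Prime ⊆ P1 (HH X) (JJ δ X) := by
      intro p hp
      rw [mem_filter, mem_Ioc] at hp
      unfold P1
      rw [mem_filter, mem_range]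
      exact ⟨by omega, hp.2, hp.1.1⟩
    have hfac : ∀ p ∈ P1 (HH X) (JJ δ X), 0 ≤ 1 - 1 / (p : ℝ) ∧ 1 - 1 / (p : ℝ) ≤ 1 := by
      intro p hp
      have h1 : (1 : ℝ) < p := by exact_mod_cast (mem_filter.1 hp).2.1.one_lt
      constructor
      · rw [sub_nonneg, div_le_one (by linarith)]
        exact h1.le
      · have : 0 ≤ 1 / (p : ℝ) := by positivity
        linarith
    rw [← prod_sdiff hsub]
    have h2 : ∏ p ∈ P1 (HH X) (JJ δ X) \ (Ioc (HH X) z).filter Nat.Prime, (1 - 1 / (p : ℝ)) ≤ 1 :=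
      prod_le_one (fun p hp => (hfac p (mem_sdiff.1 hp).1).1) (fun p hp => (hfac p (mem_sdiff.1 hp).1).2)
    have h3 : 0 ≤ ∏ p ∈ (Ioc (HH X) z).filter Nat.Prime, (1 - 1 / (p : ℝ)) :=
      prod_nonneg fun p hp => (hfac p (hsub hp)).1
    nlinarith
  have hV0 : 0 ≤ VV δ X := Pool.Agent.H862R2.PPSm5.vv_nonneg δ X
  refine (pow_le_pow_left₀ hV0 h1 _).trans ?_
  rw [← prod_pow]
  unfold VT
  apply prod_le_prod
  · intro p hp'
    have h2 : (1 : ℝ) < p := by exact_mod_cast (hp p hp').1.one_lt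
    apply pow_nonneg
    rw [sub_nonneg, div_le_one (by linarith)]
    exact h2.le
  · intro p hp'
    obtain ⟨hpp, hkp⟩ := hp p hp'
    have h2 : (1 : ℝ) < p := by exact_mod_cast hpp.one_lt
    have h3 : 2 * (k : ℝ) + 1 ≤ p := by exact_mod_cast hkp
    have h4 : 0 < (p : ℝ) - 1 := by linarith
    -- Bernoulli for the inverse
    have h5 := one_add_mul_le_pow (a := 1 / ((p : ℝ) - 1)) (by
      have : 0 ≤ 1 / ((p : ℝ) - 1) := by positivity
      linarith) (2 * k)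
    have h6 : (1 - 1 / (p : ℝ)) * (1 + 1 / ((p : ℝ) - 1)) = 1 := by
      field_simp
      ring
    have h7 : (1 - 1 / (p : ℝ)) ^ (2 * k) * (1 + 1 / ((p : ℝ) - 1)) ^ (2 * k) = 1 := by
      rw [← mul_pow, h6, one_pow]
    have hk0 : (0 : ℝ) ≤ k := Nat.cast_nonneg k
    have hpk : 0 < (p : ℝ) - k := by linarith
    have h8 : 1 ≤ (1 - (k : ℝ) / p) * (1 + ((2 * k : ℕ) : ℝ) * (1 / ((p : ℝ) - 1))) := by
      have e1 : (1 - (k : ℝ) / p) * (1 + ((2 * k : ℕ) : ℝ) * (1 / ((p : ℝ) - 1))) =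
          ((p : ℝ) - k) * ((p : ℝ) - 1 + 2 * k) / (p * (p - 1)) := by
        push_cast
        field_simp
      rw [e1, le_div_iff₀ (by positivity)]
      nlinarith
    have h9 : 0 ≤ 1 - (k : ℝ) / p := by
      rw [sub_nonneg, div_le_one (by linarith)]
      linarith
    have h10 : 1 ≤ (1 - (k : ℝ) / p) * (1 + 1 / ((p : ℝ) - 1)) ^ (2 * k) :=
      h8.trans (mul_le_mul_of_nonneg_left h5 h9)
    have h11 : 0 < (1 + 1 / ((p : ℝ) - 1)) ^ (2 * k) := by positivity
    have h12 : (1 - 1 / (p : ℝ)) ^ (2 * k) * (1 + 1 / ((p : ℝ) - 1)) ^ (2 * k) ≤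
        (1 - (k : ℝ) / p) * (1 + 1 / ((p : ℝ) - 1)) ^ (2 * k) := by
      rw [h7]
      exact h10
    exact le_of_mul_le_mul_right h12 h11

theorem VT_nonneg {X z k : ℕ} (hk : k ≤ HH X) : 0 ≤ VT X z k := by
  unfold VT
  apply prod_nonneg
  intro p hp
  rw [mem_filter, mem_Ioc] at hp
  rw [sub_nonneg, div_le_one (by exact_mod_cast hp.2.pos)]
  exact_mod_cast (by omega : k ≤ p)

open Classical in
/-- the number of the good `x` -/
noncomputable def gd (S : Finset ℕ) (c0 r X N : ℕ) : ℕ :=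
  ((Ico (4 * X) (8 * X)).filter (fun x => x ≤ N ∧
    r ≤ (S.filter (fun a => (N - x + a).Prime ∧ (x + (c0 - a)).Prime)).card)).card

/-- the mass of the environment -/
theorem OmI_eq (X : ℕ) (ρ : ℕ → ℝ) (E G : Finset ℕ) (hE : ∀ N ∈ E, 6 * X ≤ N ∧ N < 9 * X)
    (hG : ∀ y ∈ G, X ≤ y ∧ y < 2 * X) : OmI X ρ E G = ∑ N ∈ E, ∑ y ∈ G, ρ (N - y) := by
  unfold OmI
  rw [mm_sum]
  apply sum_congr rfl
  intro N hN
  apply sum_congr rfl
  intro y hy
  have h1 := hE N hN
  have h2 := hG y hy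
  rw [sum_eq_single (N - y)]
  · rw [if_pos (by omega)]
  · intro x _ hne
    rw [if_neg (by omega)]
  · intro h
    exfalso
    apply h
    rw [mem_Ico]
    omega

/-- the number of the clusters -/
theorem count_le (S S' : Finset ℕ) (hS' : S' ⊆ S) (c0 r X : ℕ) (hc0 : ∀ a ∈ S, a < c0) (ρ : ℕ → ℝ)
    (hρ : ∀ x, 0 ≤ ρ x) (hρ1 : ∀ x, ρ x ≤ 1) (E G : Finset ℕ) (hG : ∀ y ∈ G, ∀ a ∈ S', (y + a).Prime) :
    ∑ n ∈ (range (8 * X)).filter (fun n => r ≤ ((S'.image (fun a => c0 - a)).filter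
      (fun a => (n + a).Prime)).card), wI X ρ E G n ≤ ∑ N ∈ E, (gd S c0 r X N : ℝ) := by
  classical
  set P : ℕ → Prop := fun n => r ≤ ((S'.image (fun a => c0 - a)).filter (fun a => (n + a).Prime)).card
    with hP
  set I' := (Ico (4 * X) (8 * X)).filter P with hI'
  have h1 : ∑ n ∈ (range (8 * X)).filter P, wI X ρ E G n ≤ ∑ x ∈ I', (1 : ℝ) * mm E G x := by
    have h2 : I' = ((range (8 * X)).filter P).filter (fun x => x ∈ Ico (4 * X) (8 * X)) := by
      ext x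
      rw [hI', mem_filter, mem_filter, mem_filter, mem_range, mem_Ico]
      constructor
      · rintro ⟨a, b⟩
        exact ⟨⟨a.2, b⟩, a⟩
      · rintro ⟨⟨a, b⟩, c⟩
        exact ⟨c, b⟩
    rw [h2, sum_filter (s := (range (8 * X)).filter P)]
    apply sum_le_sum
    intro x _
    unfold wI
    split_ifs with h
    · rw [one_mul]
      calc ρ x * mm E G x ≤ 1 * mm E G x := mul_le_mul_of_nonneg_right (hρ1 x) (mm_nonneg _ _ _)
        _ = _ := one_mul _
    · exact le_rfl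
  refine h1.trans ?_
  rw [mm_sum]
  apply sum_le_sum
  intro N _
  rw [sum_comm]
  have h3 : ∀ x ∈ I', ∑ y ∈ G, (if x + y = N then (1 : ℝ) else 0) ≤
      if x ≤ N ∧ N - x ∈ G then 1 else 0 := by
    intro x _
    by_cases h : x ≤ N ∧ N - x ∈ G
    · rw [if_pos h, sum_eq_single (N - x)]
      · split_ifs <;> norm_num
      · intro y _ hne
        rw [if_neg (by omega)]
      · intro h'
        exact absurd h.2 h'
    · rw [if_neg h]
      apply le_of_eq
      apply sum_eq_zero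
      intro y hy
      rw [if_neg]
      intro he
      apply h
      have : N - x = y := by omega
      exact ⟨by omega, by rwa [this]⟩
  refine (sum_le_sum h3).trans ?_
  rw [← sum_filter, sum_const, nsmul_eq_mul, mul_one]
  apply Nat.cast_le.2
  unfold gd
  apply card_le_card
  intro x hx
  rw [mem_filter, hI', mem_filter] at hx
  rw [mem_filter]
  refine ⟨hx.1.1, hx.2.1, ?_⟩
  have h4 : r ≤ ((S'.image (fun a => c0 - a)).filter (fun a => (x + a).Prime)).card := hx.1.2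
  refine h4.trans ?_
  apply card_le_card_of_injOn (fun t => c0 - t)
  · intro t ht
    rw [mem_coe, mem_filter, mem_image] at ht
    obtain ⟨⟨a, ha, rfl⟩, hp⟩ := ht
    have ha0 := hc0 a (hS' ha)
    have e1 : c0 - (c0 - a) = a := by omega
    rw [mem_coe, mem_filter]
    simp only
    rw [e1]
    exact ⟨hS' ha, hG _ hx.2.2 a ha, hp⟩
  · intro t ht t' ht' he
    rw [mem_coe, mem_filter, mem_image] at ht ht'
    obtain ⟨⟨a, ha, rfl⟩, -⟩ := ht
    obtain ⟨⟨a', ha', rfl⟩, -⟩ := ht'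
    have ha0 := hc0 a (hS' ha)
    have ha0' := hc0 a' (hS' ha')
    simp only at he
    omega

end Pool.Agent.T2H22.AA
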