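import Pool.Agent.T2H22.AA.Asm1

/-! Project AA: the assembly. -/

set_option autoImplicit false

open Finset

namespace Pool.Agent.T2H22.AA

open Pool.Agent.H361R2.PP
open Pool.Agent.W70.HR
open Pool.Agent.H862R2.PPSm5 (vv_lower HH_tendsto log_tendsto)
open Pool.Agent.H373R2.T7 (Vz pz mem_pz)
open Pool.Agent.T2H22.BG (sh sh_inj)

lemma num_Om {X W L η c cv vG e g vt Ω : ℝ} {k k2 : ℕ} (hX : 0 < X) (hW : 0 < W) (hWL : W ≤ L)
    (hL : 1 ≤ L) (hcv : 0 < cv) (hv : cv / L ≤ vG) (hc : 0 < c) (hη : 0 < η)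
    (he : η / 2 * (X / W) ≤ e) (hg : c * (X / W * vG ^ k2) ≤ g) (hvt : vG ^ (2 * k) ≤ vt)
    (hΩ : e * (1 / 2 * (g * vt)) ≤ Ω) (hbig : 1 ≤ η * c / 4 * cv ^ (k2 + 2 * k) * L) :
    X ^ 2 / L ^ (k2 + 2 * k + 3) ≤ Ω := by
  have hL0 : 0 < L := by linarith
  have h1 : X / L ≤ X / W := div_le_div_of_nonneg_left hX.le hW hWL
  have h2 : ∀ n : ℕ, (cv / L) ^ n ≤ vG ^ n := fun n => pow_le_pow_left₀ (by positivity) hv n
  have h3 : η / 2 * (X / L) ≤ e := (mul_le_mul_of_nonneg_left h1 (by positivity)).trans he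
  have h4 : c * (X / L * (cv / L) ^ k2) ≤ g := by
    refine le_trans ?_ hg
    apply mul_le_mul_of_nonneg_left _ hc.le
    exact mul_le_mul h1 (h2 k2) (by positivity) (by positivity)
  have h5 : (cv / L) ^ (2 * k) ≤ vt := (h2 _).trans hvt
  have h6 : η / 2 * (X / L) * (1 / 2 * ((c * (X / L * (cv / L) ^ k2)) * (cv / L) ^ (2 * k))) ≤ Ω := by
    refine le_trans ?_ hΩ
    have h7 : 0 ≤ e := le_trans (by positivity) h3
    apply mul_le_mul h3 _ (by positivity) h7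
    apply mul_le_mul_of_nonneg_left _ (by norm_num)
    exact mul_le_mul h4 h5 (by positivity) (le_trans (by positivity) h4)
  refine le_trans ?_ h6
  have e1 : η / 2 * (X / L) * (1 / 2 * ((c * (X / L * (cv / L) ^ k2)) * (cv / L) ^ (2 * k))) =
      (η * c / 4 * cv ^ (k2 + 2 * k) * L) * (X ^ 2 / L ^ (k2 + 2 * k + 3)) := by
    rw [div_pow, div_pow, pow_add L, pow_add L, pow_add cv]
    field_simp
    ring
  rw [e1]
  have h8 : 0 ≤ X ^ 2 / L ^ (k2 + 2 * k + 3) := by positivity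
  nlinarith

lemma num_sqrt {X e g : ℝ} (hX : 0 ≤ X) (he0 : 0 ≤ e) (hg0 : 0 ≤ g) (he : e ≤ 3 * X) (hg : g ≤ X) :
    √(e * g) ≤ 2 * X := by
  rw [Real.sqrt_le_left (by positivity)]
  nlinarith [mul_nonneg he0 hg0, mul_nonneg hX hX]

/-- the error of the prime powers -/
lemma ev_pp (n : ℕ) : ∃ X₀ : ℕ, ∀ X : ℕ, X₀ ≤ X →
    (X : ℝ) * (2 * √((9 * X : ℕ) : ℝ) * Real.log ((9 * X : ℕ) : ℝ)) * (Y16 X : ℝ) ^ 2 ≤
      (X : ℝ) ^ 2 / (2 * Real.log X ^ n) := by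
  obtain ⟨X1, h1⟩ := log_rpow_pow (n + 2) (3 / 8) (by norm_num)
  obtain ⟨X2, h2⟩ := Filter.eventually_atTop.1 (log_tendsto.eventually_ge_atTop (24 : ℝ))
  refine ⟨max (max X1 X2) 16, fun X hX => ?_⟩
  have a1 := h1 X (le_trans (le_trans (le_max_left _ _) (le_max_left _ _)) hX)
  have a2 := h2 X (le_trans (le_trans (le_max_right _ _) (le_max_left _ _)) hX)
  have hX16 : 16 ≤ X := le_trans (le_max_right _ _) hX
  have hXr : (16 : ℝ) ≤ X := by exact_mod_cast hX16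
  have hX0 : (0 : ℝ) < X := by linarith
  set L := Real.log X with hL
  have hL0 : 0 < L := by linarith
  have h9 : Real.log ((9 * X : ℕ) : ℝ) ≤ 2 * L := by
    have : ((9 * X : ℕ) : ℝ) ≤ (X : ℝ) ^ 2 := by
      push_cast
      nlinarith
    calc Real.log ((9 * X : ℕ) : ℝ) ≤ Real.log ((X : ℝ) ^ 2) :=
          Real.log_le_log (by push_cast; positivity) this
      _ = 2 * L := by rw [Real.log_pow]; push_cast; rfl
  have hs : √((9 * X : ℕ) : ℝ) = 3 * (X : ℝ) ^ (1 / 2 : ℝ) := by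
    push_cast
    rw [Real.sqrt_mul (by norm_num), ← Real.sqrt_eq_rpow, show (9 : ℝ) = 3 ^ 2 by norm_num,
      Real.sqrt_sq (by norm_num)]
  have hY : (Y16 X : ℝ) ^ 2 ≤ (X : ℝ) ^ (1 / 8 : ℝ) := by
    have h3 : (Y16 X : ℝ) ≤ (X : ℝ) ^ (1 / 16 : ℝ) := Nat.floor_le (by positivity)
    calc (Y16 X : ℝ) ^ 2 ≤ ((X : ℝ) ^ (1 / 16 : ℝ)) ^ 2 := pow_le_pow_left₀ (Nat.cast_nonneg _) h3 2
      _ = (X : ℝ) ^ (1 / 8 : ℝ) := by
          rw [← Real.rpow_natCast, ← Real.rpow_mul hX0.le]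
          norm_num
  have hlog0 : 0 ≤ Real.log ((9 * X : ℕ) : ℝ) := Real.log_natCast_nonneg _
  rw [le_div_iff₀ (by positivity), hs]
  calc (X : ℝ) * (2 * (3 * (X : ℝ) ^ (1 / 2 : ℝ)) * Real.log ((9 * X : ℕ) : ℝ)) * (Y16 X : ℝ) ^ 2 *
      (2 * L ^ n) ≤
      (X : ℝ) * (2 * (3 * (X : ℝ) ^ (1 / 2 : ℝ)) * (2 * L)) * (X : ℝ) ^ (1 / 8 : ℝ) * (2 * L ^ n) := by
        gcongr
    _ = (X : ℝ) * ((X : ℝ) ^ (1 / 2 : ℝ) * (X : ℝ) ^ (1 / 8 : ℝ)) * (24 * L ^ (n + 1)) := by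
        rw [pow_succ]
        ring
    _ ≤ (X : ℝ) * ((X : ℝ) ^ (1 / 2 : ℝ) * (X : ℝ) ^ (1 / 8 : ℝ)) * (X : ℝ) ^ (3 / 8 : ℝ) := by
        apply mul_le_mul_of_nonneg_left _ (by positivity)
        calc 24 * L ^ (n + 1) ≤ L * L ^ (n + 1) := mul_le_mul_of_nonneg_right a2 (by positivity)
          _ = L ^ (n + 2) := by ring
          _ ≤ _ := a1
    _ = (X : ℝ) ^ 2 := by
        rw [← Real.rpow_add hX0, mul_assoc, ← Real.rpow_add hX0]
        norm_num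
        ring

end Pool.Agent.T2H22.AA
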