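import Pool.Agent.T2H22.AA.Env4A

/-!
Project AA: the Maynard-Tao sieve in a weighted environment, part 4: the theorem.
-/

set_option autoImplicit false

open Finset Filter Topology

namespace Pool.Agent.T2H22.AA

open Pool.Agent.H361R2.PP
open Pool.Agent.H410R2
open Pool.Agent.W70.HR
open Pool.Agent.H373R2.T7 (Vz pz mem_pz)
open Pool.Agent.H410R2.AC (wt GG cfg term WW pos Inj coef)

/-- the Maynard-Tao theorem in a weighted environment -/
theorem mtenv (r : ℕ) : ∃ k K : ℕ, 1 ≤ k ∧ 1 ≤ K ∧ ∃ s₀ : ℝ, 0 < s₀ ∧ s₀ ≤ 1 ∧ ∀ Λ : ℝ, 0 < Λ →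
    ∃ δ c : ℝ, 0 < δ ∧ δ ≤ 1 / 16 ∧ 0 < c ∧ ∃ X₀ : ℕ, ∀ X : ℕ, X₀ ≤ X →
    ∀ z : ℕ, HH X ≤ z → z < 2 ^ 2 ^ JJ δ X →
    ∀ B : Finset ℕ, B.card = k → (∀ a ∈ B, 1 ≤ a ∧ (a : ℝ) ≤ Λ * Real.log X) →
    ∀ (w : ℕ → ℝ) (wa : ℕ → ℕ → ℝ) (M : ℕ) (Ω : ℝ),
    Envw none K (k + 2) X z w M Ω →
    (∀ a ∈ B, Envw (some a) K (k + 2) X z (wa a) M (Ω / (Real.log X * Vz z))) →
    (∀ a ∈ B, ∀ n, wa a n ≠ 0 → X ≤ n ∧ (n + a).Prime) →
    (∀ a ∈ B, ∀ n, wa a n ≤ (1 + s₀) * w n) → (∀ n, w n ≠ 0 → n ≤ 9 * X) →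
    c * (Ω * VE z (JJ δ X) ^ k) ≤
      ∑ n ∈ (range M).filter (fun n => r ≤ (B.filter (fun a => (n + a).Prime)).card), w n := by
  classical
  set μ : ℝ := (r : ℝ) + 2 with hμ
  have hr0 : (0 : ℝ) ≤ r := Nat.cast_nonneg r
  have hμ0 : 0 < μ := by rw [hμ]; linarith
  set s : ℝ := 1 / (10 * μ) with hs
  have hs0 : 0 < s := by rw [hs]; positivity
  have hsμ : s * μ = 1 / 10 := by rw [hs]; field_simp
  have hs1 : s ≤ 1 / 20 := by
    rw [hs]
    apply one_div_le_one_div_of_le (by norm_num)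
    rw [hμ]
    linarith
  obtain ⟨θ, t, k, u, β, hθ0, hθ, hk, hub, hβ1, hu, δa, hδa, hpar⟩ := par 1 μ s le_rfl hμ0 hs0
  obtain ⟨K, hK, hsm⟩ := env_sm k
  refine ⟨k, K, hk, hK, 1 / ((r : ℝ) + 1), by positivity, ?_, fun Λ hΛ => ?_⟩
  · rw [div_le_one (by positivity)]
    linarith
  obtain ⟨δb, hδb, hsm⟩ := hsm 2 t u β Λ s hub hβ1 (by linarith) hΛ hs0
  obtain ⟨δ, hδ⟩ : ∃ δ : ℝ, δ = min (min δa δb) (1 / 16) := ⟨_, rfl⟩
  have hδ0 : 0 < δ := by rw [hδ]; positivity
  have h1 : δ ≤ δa := by rw [hδ]; exact (min_le_left _ _).trans (min_le_left _ _)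
  have h2 : δ ≤ δb := by rw [hδ]; exact (min_le_left _ _).trans (min_le_right _ _)
  have h4 : δ ≤ 1 / 16 := by rw [hδ]; exact min_le_right _ _
  obtain ⟨Xa, hpar⟩ := hpar δ hδ0 h1
  obtain ⟨Xb, hsm⟩ := hsm δ hδ0 h2
  obtain ⟨Xc, hvp⟩ := vp_le s hs0 δ hδ0 (by linarith)
  obtain ⟨M₁, hM₁, Xd, hpt⟩ := pt9 Λ δ hΛ hδ0 (by linarith)
  obtain ⟨Xe, hwtx⟩ := Pool.Agent.H325R2.wtx.2 δ hδ0 (by linarith)
  set Q : ℝ := 1 + (1 / δ) ^ 2 * M₁ with hQ
  have hQ1 : 1 ≤ Q := by
    rw [hQ]
    have : 0 ≤ (1 / δ) ^ 2 * M₁ := by positivity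
    linarith
  set M₀ : ℝ := (((k : ℝ) + 1) ^ t * Q ^ t) ^ 2 with hM₀
  have hM₀0 : 0 < M₀ := by positivity
  have hk0 : (0 : ℝ) < k := by exact_mod_cast hk
  refine ⟨δ, 1 / (2 * k * M₀), hδ0, h4, by positivity,
    max (max (max Xa Xb) (max Xc Xd)) (max Xe 16), ?_⟩
  intro X hX z hHz hzJ B hB hBΛ w wa M Ω hE hEa hsup hwle hw9
  have hXa : Xa ≤ X := ((le_max_left _ _).trans ((le_max_left _ _).trans (le_max_left _ _))).trans hX
  have hXb : Xb ≤ X := ((le_max_right _ _).trans ((le_max_left _ _).trans (le_max_left _ _))).trans hX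
  have hXc : Xc ≤ X := ((le_max_left _ _).trans ((le_max_right _ _).trans (le_max_left _ _))).trans hX
  have hXd : Xd ≤ X := ((le_max_right _ _).trans ((le_max_right _ _).trans (le_max_left _ _))).trans hX
  have hXe : Xe ≤ X := ((le_max_left _ _).trans (le_max_right _ _)).trans hX
  have hX16 : 16 ≤ X := ((le_max_right _ _).trans (le_max_right _ _)).trans hX
  have hX1 : 1 ≤ X := by omega
  obtain ⟨S, γ, hFam, hS0, hSd, hSG, hγ0, hγ1, hV, hvp0, hγμ, hη, hq, hG1, hG2⟩ := hpar X hXa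
  have hPJ : 2 ^ 2 ^ JJ δ X ≤ X := by
    have h5 := (hwtx X hXe).1
    have h6 : (X : ℝ) ^ δ ≤ (X : ℝ) ^ (1 : ℝ) := by
      apply Real.rpow_le_rpow_of_exponent_le _ (by linarith)
      exact_mod_cast hX1
    rw [Real.rpow_one] at h6
    have h7 := h5.trans h6
    exact_mod_cast h7
  have hVE0 : 0 < VE z (JJ δ X) := VE_pos _ _
  have hΩ0 : 0 ≤ Ω := hE.2.1
  set V := VE z (JJ δ X) with hVdef
  set A := Ω * V ^ k with hA
  have hA0 : 0 ≤ A := by positivity
  -- minor properties of the configurations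
  have hq0 : ∀ (τ : Fin t) (a : ℕ), 0 ≤ qh γ β S τ a := by
    intro τ a
    unfold qh
    have := hSG τ
    positivity
  have hsumq : ∀ τ, ∑ a ∈ B, qh γ β S τ a ≤ s := by
    intro τ
    have h5 := hη τ
    have h6 : ∑ a ∈ B, qh γ β S τ a = (k : ℝ) * (γ ^ 2 * (β τ ^ 2 / GG (S τ))) := by
      unfold qh
      rw [sum_const, nsmul_eq_mul, hB]
    rw [h6]
    push_cast at h5
    linarith
  obtain ⟨hZ1, -, hMn⟩ := Pool.Agent.H433R2.PPMni.mni t B β (qh γ β S) s hs0.le
    (fun τ => (hub τ).2.le) hβ1 hq0 hsumq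
  set Z : ℝ := ∑ σ ∈ cfg t B, term (qh γ β S) σ with hZ
  have hcob := (Pool.Agent.H872R2.PPCol.cob t β (fun τ => (hub τ).2.le) hβ1)
  have htermq : ∀ σ, 0 ≤ term (qh γ β S) σ := by
    intro σ
    unfold term
    refine prod_nonneg fun τ _ => ?_
    cases σ τ with
    | none => exact zero_le_one
    | some a => exact hq0 τ a
  set he : ℕ → ℝ := fun n => rE z (JJ δ X) B n * WW B (fun _ => 1) (xh γ β S n) ^ 2 with hhe
  have hhe0 : ∀ n, 0 ≤ he n := fun n => mul_nonneg (rE_nonneg _ _ _ _) (sq_nonneg _)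
  -- the mass of the weights
  have hW1 : ∑ n ∈ range M, w n * he n ≤ (1 + s) * (A * Z) := by
    have h5 := hsm X hXb z hHz hzJ S hFam hS0 hSd hSG γ hγ0 hγ1 none w M Ω hE B hBΛ hB.le
      (by simp) (fun _ => 1) (fun σ => by rw [abs_one]; nlinarith only [hγ0])
    rw [hB, ← hVdef, ← hA] at h5
    have h6 := (abs_le.1 h5).2
    have h7 : ∑ σ ∈ cfg t B, (1 : ℝ) ^ 2 * term (qh γ β S) σ = Z := by
      rw [hZ]
      refine sum_congr rfl fun σ _ => by ring
    rw [h7] at h6
    have h8 : s * A ≤ s * (A * Z) := by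
      exact mul_le_mul_of_nonneg_left (le_mul_of_one_le_right hA0 hZ1) hs0.le
    have h9 : ∑ n ∈ range M, w n * he n =
        ∑ n ∈ range M, w n * rE z (JJ δ X) B n * WW B (fun _ => 1) (xh γ β S n) ^ 2 := by
      refine sum_congr rfl fun n _ => ?_
      rw [hhe]
      ring
    rw [h9]
    linarith
  -- the primes
  have hW2 : ∀ a ∈ B, (1 - 5 * s) * (μ / k * (A * Z)) ≤ ∑ n ∈ range M, wa a n * he n := by
    intro a ha
    obtain ⟨ha1, haΛ⟩ := hBΛ a ha
    set Ωa := Ω / (Real.log X * Vz z) with hΩa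
    have hcoll : ∀ n ∈ range M, wa a n * he n =
        wa a n * rE z (JJ δ X) (B.erase a) n * WW (B.erase a) (co1 γ β) (xh γ β S n) ^ 2 := by
      intro n _
      by_cases h0 : wa a n = 0
      · rw [h0]; ring
      obtain ⟨hn, hp⟩ := hsup a ha n h0
      rw [hhe]
      have hxp : ∀ τ, xh γ β S n τ a = γ * β τ := by
        intro τ
        unfold xh
        rw [FS_prime (P2_lt hn ha1) (fun R hR => (hFam τ R hR).1) hp]
        have h1 := hSG τ
        have : GG (S τ) ≠ 0 := by linarith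
        field_simp
      simp only
      rw [(Pool.Agent.H872R2.PPCol.col t B β (xh γ β S n) (fun _ => γ)).1 a ha hxp,
        rE_erase hPJ ha hn ha1 hp]
      ring
    rw [sum_congr rfl hcoll]
    have hc0 : ∀ σ, |co1 γ β σ| ≤ (1 + γ) ^ 2 := by
      intro σ
      obtain ⟨-, h1, h2, -, -⟩ := hcob.2 γ hγ0 σ
      rw [abs_of_nonneg h1]
      nlinarith only [h1, h2, hγ0]
    have hcard : (B.erase a).card + 1 = k := by
      rw [card_erase_of_mem ha, hB]
      omega
    have hBe : ∀ a' ∈ B.erase a, 1 ≤ a' ∧ (a' : ℝ) ≤ Λ * Real.log X := fun a' ha' =>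
      hBΛ a' (mem_of_mem_erase ha')
    have h3 := hsm X hXb z hHz hzJ S hFam hS0 hSd hSG γ hγ0 hγ1 (some a) (wa a) M Ωa (hEa a ha)
      (B.erase a) hBe (by omega) (by
        intro a' ha'
        have : a = a' := by simpa using ha'
        rw [← this]
        exact ⟨ha1, haΛ, notMem_erase a B⟩) (co1 γ β) hc0
    set W := Ωa * VE z (JJ δ X) ^ (B.erase a).card with hW
    obtain ⟨hm1, -, hm3, hm4⟩ := hMn (B.erase a) (erase_subset _ _)
    set Z' := ∑ σ ∈ cfg t (B.erase a), term (qh γ β S) σ with hZ'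
    have hsd : B \ B.erase a = {a} := by
      ext x
      simp only [Finset.mem_sdiff, Finset.mem_erase, Finset.mem_singleton]
      constructor
      · rintro ⟨h1, h2⟩
        by_contra h3
        exact h2 ⟨h3, h1⟩
      · rintro rfl
        exact ⟨ha, fun h => h.1 rfl⟩
    rw [hsd] at hm4
    simp only [sum_singleton] at hm4
    have hMq : ∑ τ, qh γ β S τ a ≤ s := hq
    have hM'1 : (1 - s) * Z ≤ Z' := by
      refine le_trans ?_ hm4
      apply mul_le_mul_of_nonneg_right _ (by linarith)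
      linarith
    set Y := ∑ σ ∈ cfg t (B.erase a), co1 γ β σ ^ 2 * term (qh γ β S) σ with hY
    have hlow : (1 + γ) ^ 2 * Z' - 2 * γ * (1 + γ) * (s * Z) ≤ Y := by
      calc (1 + γ) ^ 2 * Z' - 2 * γ * (1 + γ) * (s * Z) ≤
          (1 + γ) ^ 2 * Z' - 2 * γ * (1 + γ) *
            ∑ σ ∈ cfg t (B.erase a), coef β σ * term (qh γ β S) σ := by
            have := mul_le_mul_of_nonneg_left hm1
              (mul_nonneg (mul_nonneg zero_le_two hγ0) (by linarith only [hγ0]) : 0 ≤ 2 * γ * (1 + γ))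
            linarith only [this]
        _ = ∑ σ ∈ cfg t (B.erase a), ((1 + γ) ^ 2 - 2 * γ * (1 + γ) * coef β σ) *
              term (qh γ β S) σ := by
            rw [hZ', mul_sum, mul_sum, ← sum_sub_distrib]
            refine sum_congr rfl fun σ _ => ?_
            ring
        _ ≤ _ := by
            refine sum_le_sum fun σ _ => ?_
            obtain ⟨h1, -, -, -, -⟩ := hcob.2 γ hγ0 σ
            exact mul_le_mul_of_nonneg_right h1 (htermq σ)
    have h1c : (1 : ℝ) ≤ (1 + γ) ^ 2 := by nlinarith only [hγ0]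
    have hZ0 : 0 ≤ Z := by linarith
    have hsM : s ≤ s * ((1 + γ) ^ 2 * Z) := by
      have : (1 : ℝ) ≤ (1 + γ) ^ 2 * Z := by nlinarith only [h1c, hZ1]
      exact le_mul_of_one_le_right hs0.le this
    have h5 : (1 - 4 * s) * ((1 + γ) ^ 2 * Z) ≤ Y - s := by
      have h6 : (1 + γ) ^ 2 * ((1 - s) * Z) ≤ (1 + γ) ^ 2 * Z' :=
        mul_le_mul_of_nonneg_left hM'1 (sq_nonneg _)
      have h7 : 2 * γ * (1 + γ) * (s * Z) ≤ 2 * (1 + γ) ^ 2 * (s * Z) := by
        apply mul_le_mul_of_nonneg_right _ (mul_nonneg hs0.le hZ0)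
        nlinarith only [hγ0]
      nlinarith only [h6, h7, hlow, hsM]
    have hWlow : (1 - s) * (vp δ X * A) ≤ W := by
      have h6 := hvp X hXc z hHz hzJ
      have h7 : vp δ X * V * Ω ≤ (1 + s) * Ωa := by
        calc vp δ X * V * Ω ≤ (1 + s) * (1 / (Real.log X * Vz z)) * Ω :=
              mul_le_mul_of_nonneg_right h6 hΩ0
          _ = (1 + s) * Ωa := by rw [hΩa]; ring
      have h8 : (1 - s) * (vp δ X * V * Ω) ≤ Ωa := by
        have h9 : 0 ≤ Ωa := (hEa a ha).2.1
        have h10 := mul_le_mul_of_nonneg_left h7 (by linarith : 0 ≤ 1 - s)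
        have h11 : (1 - s) * ((1 + s) * Ωa) ≤ Ωa := by nlinarith only [mul_nonneg (sq_nonneg s) h9]
        linarith only [h10, h11]
      have h9 : vp δ X * A = vp δ X * V * Ω * V ^ (B.erase a).card := by
        rw [hA, ← hcard, pow_succ]
        ring
      rw [h9, hW, ← mul_assoc]
      exact mul_le_mul_of_nonneg_right h8 (pow_nonneg hVE0.le _)
    have hW0 : 0 ≤ W := mul_nonneg (hEa a ha).2.1 (pow_nonneg hVE0.le _)
    have hG0 : 0 ≤ (1 + γ) ^ 2 * Z := mul_nonneg (sq_nonneg _) hZ0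
    have h10 : (1 - 5 * s) * (μ / k * (A * Z)) ≤ W * ((1 - 4 * s) * ((1 + γ) ^ 2 * Z)) := by
      have e1 : μ / k * (A * Z) = vp δ X * A * ((1 + γ) ^ 2 * Z) := by
        rw [← hγμ]; ring
      rw [e1]
      have h11 := mul_le_mul_of_nonneg_right hWlow
        (mul_nonneg (by linarith : 0 ≤ 1 - 4 * s) hG0)
      refine le_trans ?_ h11
      have h12 : 0 ≤ vp δ X * A * ((1 + γ) ^ 2 * Z) := mul_nonneg (mul_nonneg hvp0.le hA0) hG0
      have e2 : (1 - s) * (vp δ X * A) * ((1 - 4 * s) * ((1 + γ) ^ 2 * Z)) =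
          ((1 - s) * (1 - 4 * s)) * (vp δ X * A * ((1 + γ) ^ 2 * Z)) := by ring
      rw [e2]
      apply mul_le_mul_of_nonneg_right _ h12
      nlinarith only [sq_nonneg s]
    have h12 := (abs_le.1 h3).1
    have h13 := mul_le_mul_of_nonneg_left h5 hW0
    rw [mul_sub] at h13
    linarith only [h10, h12, h13]
  -- total
  set g : ℕ → ℝ := fun n => ∑ a ∈ B, wa a n with hg
  have hgsum : (1 - 5 * s) * μ * (A * Z) ≤ ∑ n ∈ range M, g n * he n := by
    have e1 : ∑ n ∈ range M, g n * he n = ∑ a ∈ B, ∑ n ∈ range M, wa a n * he n := by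
      rw [Finset.sum_comm]
      refine sum_congr rfl fun n _ => ?_
      rw [hg, sum_mul]
    rw [e1]
    calc (1 - 5 * s) * μ * (A * Z) = ∑ a ∈ B, (1 - 5 * s) * (μ / k * (A * Z)) := by
          rw [sum_const, nsmul_eq_mul, hB]
          field_simp
      _ ≤ _ := sum_le_sum hW2
  have hAZ0 : 0 ≤ A * Z := mul_nonneg hA0 (by linarith)
  have hmain : A * Z ≤ ∑ n ∈ range M, (g n - r * w n) * he n := by
    have e1 : ∑ n ∈ range M, (g n - r * w n) * he n =
        ∑ n ∈ range M, g n * he n - r * ∑ n ∈ range M, w n * he n := by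
      rw [mul_sum, ← sum_sub_distrib]
      refine sum_congr rfl fun n _ => by ring
    rw [e1]
    have h5 := mul_le_mul_of_nonneg_left hW1 hr0
    have h6 : A * Z ≤ (1 - 5 * s) * μ * (A * Z) - r * ((1 + s) * (A * Z)) := by
      have e2 : (1 - 5 * s) * μ * (A * Z) - r * ((1 + s) * (A * Z)) =
          (μ - 5 * (s * μ) - r - r * s) * (A * Z) := by ring
      rw [e2, hsμ]
      have h7 : (1 : ℝ) ≤ μ - 5 * (1 / 10) - r - r * s := by
        have h8 : r * s ≤ 1 / 10 := by
          have : r * s ≤ μ * s := mul_le_mul_of_nonneg_right (by rw [hμ]; linarith) hs0.le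
          linarith [mul_comm μ s]
        rw [hμ]
        linarith
      nlinarith only [h7, hAZ0]
    linarith
  -- the pointwise bound
  have hhe1 : ∀ n, w n ≠ 0 → he n ≤ M₀ := by
    intro n hn
    have hn9 := hw9 n hn
    have hWb : |WW B (fun _ => 1) (xh γ β S n)| ≤ ((k : ℝ) + 1) ^ t * Q ^ t := by
      have := WW_bound (t := t) (B := B) (x := xh γ β S n) hQ1 (by
        intro τ a ha
        obtain ⟨ha1, haΛ⟩ := hBΛ a ha
        have h5 := hpt X hXd n a hn9 ha1 haΛ (S τ) (fun R hR => (hFam τ R hR).1)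
        unfold xh
        have hg := hSG τ
        have hβ := hub τ
        have hβ1' : β τ ≤ 1 := by
          rw [← hβ1]
          exact single_le_sum (f := β) (fun τ _ => (hub τ).2.le) (mem_univ τ)
        have hbg : 0 ≤ β τ / GG (S τ) := div_nonneg hβ.2.le (by linarith)
        rw [abs_mul, abs_mul, abs_of_nonneg hγ0, abs_of_nonneg hbg]
        have h6 : β τ / GG (S τ) ≤ 1 := by
          rw [div_le_one (by linarith)]
          linarith
        have h7 : γ ≤ (1 / δ) ^ 2 := by linarith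
        have h8 : β τ / GG (S τ) * |FS (S τ) a n| ≤ M₁ := by
          calc β τ / GG (S τ) * |FS (S τ) a n| ≤ 1 * M₁ := by
                apply mul_le_mul h6 h5 (abs_nonneg _) zero_le_one
            _ = M₁ := one_mul _
        calc γ * (β τ / GG (S τ) * |FS (S τ) a n|) ≤ (1 / δ) ^ 2 * M₁ := by
              apply mul_le_mul h7 h8 _ (by positivity)
              exact mul_nonneg hbg (abs_nonneg _)
          _ ≤ Q := by rw [hQ]; linarith)
      rw [hB] at this
      exact this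
    rw [hhe]
    calc rE z (JJ δ X) B n * WW B (fun _ => 1) (xh γ β S n) ^ 2 ≤
        1 * WW B (fun _ => 1) (xh γ β S n) ^ 2 :=
          mul_le_mul_of_nonneg_right (rE_le_one _ _ _ _) (sq_nonneg _)
      _ ≤ M₀ := by
          rw [one_mul, hM₀, ← sq_abs]
          exact pow_le_pow_left₀ (abs_nonneg _) hWb 2
  have hwn : ∀ n, 0 ≤ w n := hE.1
  -- the terms
  have hgle : ∀ n, g n ≤ (1 + 1 / ((r : ℝ) + 1)) * ((B.filter (fun a => (n + a).Prime)).card) * w n := by
    intro n
    rw [hg]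
    calc ∑ a ∈ B, wa a n = ∑ a ∈ B.filter (fun a => (n + a).Prime), wa a n := by
          rw [sum_filter]
          refine sum_congr rfl fun a ha => ?_
          split_ifs with h
          · rfl
          · by_contra h0
            exact h (hsup a ha n h0).2
      _ ≤ ∑ a ∈ B.filter (fun a => (n + a).Prime), (1 + 1 / ((r : ℝ) + 1)) * w n :=
          sum_le_sum fun a ha => hwle a (mem_filter.1 ha).1 n
      _ = _ := by
          rw [sum_const, nsmul_eq_mul]
          ring
  have hterm : ∀ n ∈ range M, (g n - r * w n) * he n ≤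
      if r ≤ (B.filter (fun a => (n + a).Prime)).card then 2 * k * M₀ * w n else 0 := by
    intro n _
    have h5 := hgle n
    have h6 := hwn n
    have h7 := hhe0 n
    split_ifs with hr
    · have hc : ((B.filter (fun a => (n + a).Prime)).card : ℝ) ≤ k := by
        rw [← hB]
        exact_mod_cast card_filter_le _ _
      have h8 : g n ≤ 2 * k * w n := by
        refine h5.trans ?_
        apply mul_le_mul_of_nonneg_right _ h6
        have h9 : 1 / ((r : ℝ) + 1) ≤ 1 := by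
          rw [div_le_one (by positivity)]
          linarith
        apply mul_le_mul (by linarith) hc (Nat.cast_nonneg _) (by norm_num)
      by_cases h0 : w n = 0
      · rw [h0] at h8 ⊢
        have h9 : g n ≤ 0 := by linarith
        have : (g n - r * 0) * he n ≤ 0 := by
          apply mul_nonpos_of_nonpos_of_nonneg _ h7
          linarith
        linarith
      · have h9 := hhe1 n h0
        have h10 : g n - r * w n ≤ 2 * k * w n := by
          have : 0 ≤ r * w n := by positivity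
          linarith
        calc (g n - r * w n) * he n ≤ (2 * k * w n) * he n :=
              mul_le_mul_of_nonneg_right h10 h7
          _ ≤ (2 * k * w n) * M₀ := mul_le_mul_of_nonneg_left h9 (by positivity)
          _ = _ := by ring
    · apply mul_nonpos_of_nonpos_of_nonneg _ h7
      have h8 : ((B.filter (fun a => (n + a).Prime)).card : ℝ) + 1 ≤ r := by
        exact_mod_cast (by omega : (B.filter (fun a => (n + a).Prime)).card + 1 ≤ r)
      have h9 : (1 + 1 / ((r : ℝ) + 1)) * ((B.filter (fun a => (n + a).Prime)).card) ≤ r := by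
        have h10 : (1 + 1 / ((r : ℝ) + 1)) * ((B.filter (fun a => (n + a).Prime)).card) ≤
            (1 + 1 / ((r : ℝ) + 1)) * (r - 1) :=
          mul_le_mul_of_nonneg_left (by linarith) (by positivity)
        refine h10.trans ?_
        have h11 : 1 / ((r : ℝ) + 1) * (r - 1) ≤ 1 := by
          rw [one_div_mul_eq_div, div_le_one (by positivity)]
          linarith
        linarith
      have h10 := mul_le_mul_of_nonneg_right h9 h6
      linarith
  have hfin := hmain.trans (sum_le_sum hterm)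
  rw [← sum_filter, ← mul_sum] at hfin
  have hAle : A ≤ A * Z := le_mul_of_one_le_right hA0 hZ1
  have h5 := hAle.trans hfin
  rw [div_mul_eq_mul_div, div_le_iff₀ (by positivity), one_mul]
  linarith

end Pool.Agent.T2H22.AA
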