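import Pool.Agent.T2H22.AA.Asm2

/-! Auxiliary lemmas for `AA/Asm3.lean` (a separate file, so that the long theorems are compiled in parallel). -/

set_option autoImplicit false

open Finset

namespace Pool.Agent.T2H22.AA

open Pool.Agent.H361R2.PP
open Pool.Agent.W70.HR
open Pool.Agent.H862R2.PPSm5 (vv_lower HH_tendsto log_tendsto)
open Pool.Agent.H373R2.T7 (Vz pz mem_pz)
open Pool.Agent.T2H22.BG (sh sh_inj)

theorem sup_le_of {α : Type} [DecidableEq α] (s : Finset α) (f : α → ℕ) {X : ℕ} (h : s.sup f ≤ X) :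
    ∀ a ∈ s, f a ≤ X := fun _ ha => (Finset.le_sup ha).trans h

theorem Vz_pos (z : ℕ) : 0 < Vz z := by
  unfold Vz
  apply Finset.prod_pos
  intro p hp
  have h1 : (1 : ℝ) < p := by exact_mod_cast (mem_pz.1 hp).2.one_lt
  rw [sub_pos, div_lt_one (by linarith)]
  exact h1

theorem Vz_le_one (z : ℕ) : Vz z ≤ 1 := by
  unfold Vz
  apply Finset.prod_le_one
  · intro p hp
    have h1 : (1 : ℝ) < p := by exact_mod_cast (mem_pz.1 hp).2.one_lt
    rw [sub_nonneg, div_le_one (by linarith)]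
    exact h1.le
  · intro p hp
    have : 0 ≤ 1 / (p : ℝ) := by positivity
    linarith

theorem rho_nonneg (X z b : ℕ) (T : Finset ℕ) (x : ℕ) : 0 ≤ rhoT X z b T x := by
  unfold rhoT
  split_ifs <;> norm_num

theorem rho_le_one (X z b : ℕ) (T : Finset ℕ) (x : ℕ) : rhoT X z b T x ≤ 1 := by
  unfold rhoT
  split_ifs <;> norm_num

lemma num_e1 (cE X L cv : ℝ) (hL : 0 < L) (A k : ℕ) :
    cE * (X ^ 2 / L ^ A * (cv / L) ^ k) = (cE * cv ^ k * L) * (L * (X ^ 2 / L ^ (A + k + 2))) := by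
  rw [pow_add, pow_add, div_pow]
  field_simp

end Pool.Agent.T2H22.AA
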