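import Pool.Agent.H373R2.T7.SupE2

/-!
Project AA (helper22): primes and their sieve model in exponential sums with additional
congruence conditions. Statements of the parts.
-/

set_option autoImplicit false

namespace Pool.Agent.T2H22.AA

open Finset
open Pool.Agent.H373R2.T7 Pool.Agent.H807R2.Dav

/-- a linear combination of indicators of residue classes -/
noncomputable def FF {ι : Type} (J : Finset ι) (M c : ι → ℕ) (g : ι → ℝ) (n : ℕ) : ℝ :=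
  ∑ j ∈ J, if n ≡ c j [MOD M j] then g j else 0

/-- the moduli are at most `N ^ (1/8)`, the classes are reduced, and the coefficients are bounded by a
power of the divisor function -/
def Cls (κ N : ℕ) {ι : Type} (J : Finset ι) (M c : ι → ℕ) (g : ι → ℝ) : Prop :=
  (∀ j ∈ J, 1 ≤ M j ∧ M j ^ 8 ≤ N ∧ (c j).Coprime (M j)) ∧
  ∀ d : ℕ, ∑ j ∈ J.filter (fun j => M j = d), |g j| ≤ (d.divisors.card : ℝ) ^ κ

/-- part A: minor arcs, primes -/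
def MinL : Prop := ∀ κ U : ℕ, ∃ B N0 : ℕ, ∀ N : ℕ, N0 ≤ N →
  ∀ q : ℕ, Real.log N ^ B ≤ q → (q : ℝ) ≤ N / Real.log N ^ B →
  ∀ a : ℤ, IsCoprime a (q : ℤ) → ∀ α : ℝ, |α - a / q| ≤ 1 / (q : ℝ) ^ 2 →
  ∀ (ι : Type) (J : Finset ι) (M c : ι → ℕ) (g : ι → ℝ), Cls κ N J M c g →
  ‖∑ n ∈ Icc 1 N, ((ArithmeticFunction.vonMangoldt n * FF J M c g n : ℝ) : ℂ) * ee ((n : ℝ) * α)‖ ≤
    N / Real.log N ^ U

/-- part B: minor arcs, sieve model -/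
def MinZ : Prop := ∀ κ U : ℕ, ∃ B : ℕ, ∀ E : ℕ, ∃ N0 : ℕ, ∀ N : ℕ, N0 ≤ N →
  ∀ z : ℕ, 1 ≤ z → (z : ℝ) ≤ Real.log N ^ E →
  ∀ q : ℕ, Real.log N ^ B ≤ q → (q : ℝ) ≤ N / Real.log N ^ B →
  ∀ a : ℤ, IsCoprime a (q : ℤ) → ∀ α : ℝ, |α - a / q| ≤ 1 / (q : ℝ) ^ 2 →
  ∀ (ι : Type) (J : Finset ι) (M c : ι → ℕ) (g : ι → ℝ), Cls κ N J M c g →
  ‖∑ n ∈ Icc 1 N, ((lamz z n * FF J M c g n : ℝ) : ℂ) * ee ((n : ℝ) * α)‖ ≤ N / Real.log N ^ U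

/-- part C: progressions to small moduli -/
def MajF : Prop := ∀ κ B U : ℕ, ∃ B' : ℕ, ∀ E : ℕ, ∃ N0 : ℕ, ∀ N : ℕ, N0 ≤ N →
  ∀ z : ℕ, Real.log N ^ B' ≤ z → (z : ℝ) ≤ Real.log N ^ E →
  ∀ q : ℕ, 1 ≤ q → (q : ℝ) ≤ Real.log N ^ B →
  ∀ (ι : Type) (J : Finset ι) (M c : ι → ℕ) (g : ι → ℝ), Cls κ N J M c g →
  ∀ y : ℕ, y ≤ N → ∀ e : ℕ,
  |∑ n ∈ (Icc 1 y).filter (fun n => n ≡ e [MOD q]),
    (ArithmeticFunction.vonMangoldt n - lamz z n) * FF J M c g n| ≤ N / Real.log N ^ U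

/-- the result of the parts A, B, C: on the whole circle -/
def SupF : Prop := ∀ κ U : ℕ, ∃ B : ℕ, ∀ E : ℕ, ∃ N0 : ℕ, ∀ N : ℕ, N0 ≤ N →
  ∀ z : ℕ, Real.log N ^ B ≤ z → (z : ℝ) ≤ Real.log N ^ E →
  ∀ (ι : Type) (J : Finset ι) (M c : ι → ℕ) (g : ι → ℝ), Cls κ N J M c g → ∀ α : ℝ,
  ‖∑ n ∈ Icc 1 N, (((ArithmeticFunction.vonMangoldt n - lamz z n) * FF J M c g n : ℝ) : ℂ) *
    ee ((n : ℝ) * α)‖ ≤ N / Real.log N ^ U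

end Pool.Agent.T2H22.AA
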