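import Pool.Agent.T2H22.AA.Ws

/-!
Project AA, part A: geometric sums over residue classes and the regrouping of weights.
-/

set_option autoImplicit false

namespace Pool.Agent.T2H22.AA

open Finset
open Pool.Agent.H373R2.T7 Pool.Agent.H807R2.Dav

/-- geometric sums over a residue class -/
theorem prog (a b e r : ℕ) (he : 1 ≤ e) {K : ℝ} (hK0 : 0 ≤ K) (hK : ((b : ℝ) - a) / e + 1 ≤ K) (x : ℝ) :
    ‖∑ n ∈ (Ioc a b).filter (fun n => n ≡ r [MOD e]), ee ((n : ℝ) * x)‖ ≤ KK K (e * x) := by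
  have he0 : (0 : ℝ) < e := by exact_mod_cast he
  obtain ⟨r', hr', hrr⟩ : ∃ r', r' < e ∧ r % e = r' := ⟨r % e, Nat.mod_lt _ he, rfl⟩
  have hk : ∀ k y : ℕ, k < (y + e - r') / e ↔ r' + e * k ≤ y := by
    intro k y
    rw [← Nat.succ_le_iff, Nat.le_div_iff_mul_le he, Nat.succ_mul, mul_comm k e]
    omega
  have hset : (Ioc a b).filter (fun n => n ≡ r [MOD e]) =
      (Ico ((a + e - r') / e) ((b + e - r') / e)).image (fun k => r' + e * k) := by
    ext n
    rw [mem_filter, mem_Ioc, mem_image]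
    constructor
    · rintro ⟨⟨h1, h2⟩, h3⟩
      have h4 : n % e = r' := by rw [← hrr]; exact h3
      have h5 : r' + e * (n / e) = n := by rw [← h4]; exact Nat.mod_add_div n e
      refine ⟨n / e, ?_, h5⟩
      rw [mem_Ico]
      refine ⟨?_, ?_⟩
      · by_contra h6
        rw [not_le, hk] at h6
        omega
      · rw [hk]; omega
    · rintro ⟨k, hk1, rfl⟩
      rw [mem_Ico] at hk1
      have h1 := (hk k b).1 hk1.2
      have h2 : ¬ (r' + e * k ≤ a) := fun h => by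
        have := (hk k a).2 h
        omega
      refine ⟨⟨by omega, h1⟩, ?_⟩
      show (r' + e * k) % e = r % e
      rw [Nat.add_mul_mod_self_left, hrr, Nat.mod_eq_of_lt hr']
  rw [hset, sum_image (by
    intro x _ y _ h
    have h' : r' + e * x = r' + e * y := h
    exact Nat.eq_of_mul_eq_mul_left he (by omega))]
  have e1 : ∀ k ∈ Ico ((a + e - r') / e) ((b + e - r') / e),
      ee (((r' + e * k : ℕ) : ℝ) * x) = ee (r' * x) * ee ((k : ℝ) * (e * x)) := by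
    intro k _
    rw [← ee_add]; congr 1; push_cast; ring
  rw [sum_congr rfl e1, ← mul_sum, norm_mul, norm_ee, one_mul]
  rcases le_or_gt ((a + e - r') / e) ((b + e - r') / e) with h | h
  · apply geo_bound _ _ h
    have h1 : (((b + e - r') / e : ℕ) : ℝ) ≤ ((b : ℝ) + e - r') / e := by
      have h2 : (((b + e - r') / e : ℕ) : ℝ) ≤ ((b + e - r' : ℕ) : ℝ) / e := Nat.cast_div_le
      rwa [Nat.cast_sub (by omega), Nat.cast_add] at h2
    have h3 : ((a : ℝ) + e - r') / e ≤ (((a + e - r') / e : ℕ) : ℝ) + 1 := by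
      rw [div_le_iff₀ he0]
      have h4 : a + e - r' < ((a + e - r') / e + 1) * e := Nat.lt_mul_of_div_lt (Nat.lt_succ_self _) he
      have h5 : ((a + e - r' : ℕ) : ℝ) ≤ ((((a + e - r') / e + 1) * e : ℕ) : ℝ) := by exact_mod_cast h4.le
      rw [Nat.cast_sub (by omega), Nat.cast_add] at h5
      push_cast at h5 ⊢
      exact h5
    have h6 : ((b : ℝ) + e - r') / e - ((a : ℝ) + e - r') / e = ((b : ℝ) - a) / e := by ring
    linarith
  · rw [Ico_eq_empty_of_le h.le, sum_empty, norm_zero]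
    exact KK_nonneg hK0 _

/-- products -/
theorem pair_sum (k A B : ℕ) (G : ℕ → ℝ) (hG : ∀ t, 0 ≤ G t) :
    ∑ m ∈ Icc 1 A, ∑ d ∈ Icc 1 B, (d.divisors.card : ℝ) ^ k * G (m * d) ≤
      ∑ t ∈ Icc 1 (A * B), (t.divisors.card : ℝ) ^ (k + 1) * G t := by
  rw [← sum_product' (Icc 1 A) (Icc 1 B) (fun m d => (d.divisors.card : ℝ) ^ k * G (m * d))]
  have hmap : ∀ p ∈ Icc 1 A ×ˢ Icc 1 B, p.1 * p.2 ∈ Icc 1 (A * B) := by
    intro p hp
    rw [mem_product, mem_Icc, mem_Icc] at hp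
    rw [mem_Icc]
    exact ⟨Nat.mul_pos hp.1.1 hp.2.1, Nat.mul_le_mul hp.1.2 hp.2.2⟩
  rw [← sum_fiberwise_of_maps_to hmap]
  apply sum_le_sum
  intro t ht
  rw [mem_Icc] at ht
  have hsub : (Icc 1 A ×ˢ Icc 1 B).filter (fun p => p.1 * p.2 = t) ⊆ t.divisorsAntidiagonal := by
    intro p hp
    rw [mem_filter] at hp
    rw [Nat.mem_divisorsAntidiagonal]
    exact ⟨hp.2, by omega⟩
  have hcard : (t.divisorsAntidiagonal.card : ℝ) = t.divisors.card := by
    rw [← Nat.map_div_right_divisors, card_map]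
  calc ∑ p ∈ (Icc 1 A ×ˢ Icc 1 B).filter (fun p => p.1 * p.2 = t), (p.2.divisors.card : ℝ) ^ k * G (p.1 * p.2)
      ≤ ∑ p ∈ (Icc 1 A ×ˢ Icc 1 B).filter (fun p => p.1 * p.2 = t), (t.divisors.card : ℝ) ^ k * G t := by
        apply sum_le_sum
        intro p hp
        rw [mem_filter] at hp
        rw [hp.2]
        apply mul_le_mul_of_nonneg_right _ (hG t)
        apply pow_le_pow_left₀ (Nat.cast_nonneg _)
        have : p.2.divisors ⊆ t.divisors := Nat.divisors_subset_of_dvd (by omega) ⟨p.1, by rw [← hp.2, mul_comm]⟩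
        exact_mod_cast card_le_card this
    _ ≤ ∑ p ∈ t.divisorsAntidiagonal, (t.divisors.card : ℝ) ^ k * G t :=
        sum_le_sum_of_subset_of_nonneg hsub (fun p _ _ => mul_nonneg (by positivity) (hG t))
    _ = _ := by rw [sum_const, nsmul_eq_mul, hcard]; ring

/-- least common multiples -/
theorem lcm_sum (k R : ℕ) (G : ℕ → ℝ) (hG : ∀ t, 0 ≤ G t) :
    ∑ d ∈ Icc 1 R, (d.divisors.card : ℝ) ^ k * ∑ d' ∈ Icc 1 R, (d'.divisors.card : ℝ) ^ k * G (Nat.lcm d d') ≤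
      ∑ e ∈ Icc 1 (R * R), (e.divisors.card : ℝ) ^ (2 * k + 2) * G e := by
  simp_rw [mul_sum]
  rw [← sum_product' (Icc 1 R) (Icc 1 R) (fun d d' => (d.divisors.card : ℝ) ^ k * ((d'.divisors.card : ℝ) ^ k * G (Nat.lcm d d')))]
  have hmap : ∀ p ∈ Icc 1 R ×ˢ Icc 1 R, Nat.lcm p.1 p.2 ∈ Icc 1 (R * R) := by
    intro p hp
    rw [mem_product, mem_Icc, mem_Icc] at hp
    rw [mem_Icc]
    refine ⟨Nat.lcm_pos hp.1.1 hp.2.1, ?_⟩
    exact (Nat.le_of_dvd (Nat.mul_pos hp.1.1 hp.2.1) (Nat.lcm_dvd_mul _ _)).trans (Nat.mul_le_mul hp.1.2 hp.2.2)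
  rw [← sum_fiberwise_of_maps_to hmap]
  apply sum_le_sum
  intro e he
  rw [mem_Icc] at he
  have hsub : (Icc 1 R ×ˢ Icc 1 R).filter (fun p => Nat.lcm p.1 p.2 = e) ⊆ e.divisors ×ˢ e.divisors := by
    intro p hp
    rw [mem_filter] at hp
    rw [mem_product, Nat.mem_divisors, Nat.mem_divisors, ← hp.2]
    have h1 : Nat.lcm p.1 p.2 ≠ 0 := by rw [hp.2]; omega
    exact ⟨⟨Nat.dvd_lcm_left _ _, h1⟩, ⟨Nat.dvd_lcm_right _ _, h1⟩⟩
  calc ∑ p ∈ (Icc 1 R ×ˢ Icc 1 R).filter (fun p => Nat.lcm p.1 p.2 = e),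
        (p.1.divisors.card : ℝ) ^ k * ((p.2.divisors.card : ℝ) ^ k * G (Nat.lcm p.1 p.2))
      ≤ ∑ p ∈ (Icc 1 R ×ˢ Icc 1 R).filter (fun p => Nat.lcm p.1 p.2 = e),
          (e.divisors.card : ℝ) ^ k * ((e.divisors.card : ℝ) ^ k * G e) := by
        apply sum_le_sum
        intro p hp
        have hp2 := hsub hp
        rw [mem_filter] at hp
        rw [mem_product, Nat.mem_divisors, Nat.mem_divisors] at hp2
        rw [hp.2]
        have h1 : (p.1.divisors.card : ℝ) ≤ e.divisors.card := by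
          exact_mod_cast card_le_card (Nat.divisors_subset_of_dvd hp2.1.2 hp2.1.1)
        have h2 : (p.2.divisors.card : ℝ) ≤ e.divisors.card := by
          exact_mod_cast card_le_card (Nat.divisors_subset_of_dvd hp2.2.2 hp2.2.1)
        have := hG e
        gcongr
    _ ≤ ∑ p ∈ e.divisors ×ˢ e.divisors, (e.divisors.card : ℝ) ^ k * ((e.divisors.card : ℝ) ^ k * G e) :=
        sum_le_sum_of_subset_of_nonneg hsub (fun p _ _ => mul_nonneg (by positivity) (mul_nonneg (by positivity) (hG e)))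
    _ = _ := by rw [sum_const, nsmul_eq_mul, card_product]; push_cast; ring

section

variable {ι : Type} {J : Finset ι} {M c : ι → ℕ} {g : ι → ℝ} {κ R : ℕ}

/-- grouping by the modulus -/
theorem group_sum (hJ : ∀ j ∈ J, 1 ≤ M j ∧ M j ≤ R)
    (hg : ∀ d : ℕ, ∑ j ∈ J.filter (fun j => M j = d), |g j| ≤ (d.divisors.card : ℝ) ^ κ)
    (G : ℕ → ℝ) (hG : ∀ t, 0 ≤ G t) :
    ∑ j ∈ J, |g j| * G (M j) ≤ ∑ d ∈ Icc 1 R, (d.divisors.card : ℝ) ^ κ * G d := by
  have hmap : ∀ j ∈ J, M j ∈ Icc 1 R := fun j hj => mem_Icc.2 (hJ j hj)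
  rw [← sum_fiberwise_of_maps_to hmap]
  apply sum_le_sum
  intro d _
  have e1 : ∑ j ∈ J.filter (fun j => M j = d), |g j| * G (M j) = (∑ j ∈ J.filter (fun j => M j = d), |g j|) * G d := by
    rw [sum_mul]
    apply sum_congr rfl
    intro j hj
    rw [mem_filter] at hj
    rw [hj.2]
  rw [e1]
  exact mul_le_mul_of_nonneg_right (hg d) (hG d)

/-- grouping pairs by the least common multiple of the moduli -/
theorem group_sum2 (hJ : ∀ j ∈ J, 1 ≤ M j ∧ M j ≤ R)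
    (hg : ∀ d : ℕ, ∑ j ∈ J.filter (fun j => M j = d), |g j| ≤ (d.divisors.card : ℝ) ^ κ)
    (G : ℕ → ℝ) (hG : ∀ t, 0 ≤ G t) :
    ∑ j ∈ J, ∑ j' ∈ J, |g j| * |g j'| * G (Nat.lcm (M j) (M j')) ≤
      ∑ e ∈ Icc 1 (R * R), (e.divisors.card : ℝ) ^ (2 * κ + 2) * G e := by
  calc ∑ j ∈ J, ∑ j' ∈ J, |g j| * |g j'| * G (Nat.lcm (M j) (M j'))
      = ∑ j ∈ J, |g j| * ∑ j' ∈ J, |g j'| * G (Nat.lcm (M j) (M j')) := by
        apply sum_congr rfl; intro j _
        rw [mul_sum]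
        apply sum_congr rfl; intro j' _
        ring
    _ ≤ ∑ j ∈ J, |g j| * ∑ d' ∈ Icc 1 R, (d'.divisors.card : ℝ) ^ κ * G (Nat.lcm (M j) d') := by
        apply sum_le_sum; intro j _
        apply mul_le_mul_of_nonneg_left _ (abs_nonneg _)
        exact group_sum hJ hg (fun d' => G (Nat.lcm (M j) d')) (fun _ => hG _)
    _ ≤ ∑ d ∈ Icc 1 R, (d.divisors.card : ℝ) ^ κ * ∑ d' ∈ Icc 1 R, (d'.divisors.card : ℝ) ^ κ * G (Nat.lcm d d') :=
        group_sum hJ hg (fun d => ∑ d' ∈ Icc 1 R, (d'.divisors.card : ℝ) ^ κ * G (Nat.lcm d d'))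
          (fun d => sum_nonneg fun d' _ => mul_nonneg (by positivity) (hG _))
    _ ≤ _ := lcm_sum κ R G hG

end

/-- solutions of `m l = c` form a class -/
lemma cls_eq {m c M l₀ l : ℕ} (hc : c.Coprime M) (h0 : m * l₀ ≡ c [MOD M]) :
    m * l ≡ c [MOD M] ↔ l ≡ l₀ [MOD M] := by
  have hcop : Nat.gcd M m = 1 := by
    have h1 : (m * l₀).Coprime M := by
      unfold Nat.Coprime
      rw [h0.gcd_eq]; exact hc
    exact (Nat.Coprime.coprime_mul_right h1).symm
  constructor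
  · intro h
    exact Nat.ModEq.cancel_left_of_coprime hcop (h.trans h0.symm)
  · intro h
    exact (Nat.ModEq.mul_left m h).trans h0

end Pool.Agent.T2H22.AA
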