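import Pool.Agent.T2H22.AA.Defs3
import Pool.Agent.T2H22.AA.MinL1

/-!
Project AA, part I: sums over products of large primes; sums over one residue class.
-/

set_option autoImplicit false

namespace Pool.Agent.T2H22.AA

open Finset
open Pool.Agent.H361R2.PP
open Pool.Agent.W70.HR
open Pool.Agent.H373R2.T7 Pool.Agent.H807R2.Dav

namespace EI

/-- the number of divisors of a product of different primes -/
lemma card_prod {D : Finset ℕ} (hD : ∀ p ∈ D, p.Prime) :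
    (∏ p ∈ D, p).divisors.card = 2 ^ D.card := by
  classical
  induction D using Finset.induction_on with
  | empty => simp
  | insert p D hp ih =>
    have hpp := hD p (mem_insert_self _ _)
    have hD' : ∀ p ∈ D, p.Prime := fun q hq => hD q (mem_insert_of_mem hq)
    have hcop : Nat.Coprime p (∏ q ∈ D, q) := Nat.Coprime.prod_right fun q hq =>
      (Nat.coprime_primes hpp (hD' q hq)).2 (fun h => hp (h ▸ hq))
    rw [prod_insert hp, hcop.card_divisors_mul, ih hD', hpp.divisors, card_insert_of_notMem hp,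
      card_pair hpp.one_lt.ne, pow_succ, mul_comm]

lemma prod_pos' {D : Finset ℕ} (hD : ∀ p ∈ D, p.Prime) : 1 ≤ ∏ p ∈ D, p :=
  Nat.one_le_iff_ne_zero.2 (prod_ne_zero_iff.2 fun p hp => (hD p hp).pos.ne')

lemma mem_Ds {X z : ℕ} {D : Finset ℕ} (hD : D ∈ Ds X z) :
    (∀ p ∈ D, p.Prime ∧ z < p) ∧ ∏ p ∈ D, p ≤ Y16 X := by
  unfold Ds at hD
  rw [mem_filter, mem_powerset] at hD
  refine ⟨fun p hp => ?_, hD.2⟩
  have h := hD.1 hp
  unfold PE at h
  rw [mem_filter] at h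
  exact h.2

lemma Ds_prime {X z : ℕ} {D : Finset ℕ} (hD : D ∈ Ds X z) {p : ℕ} (hp : p.Prime)
    (h : p ∣ ∏ p ∈ D, p) : z < p := by
  obtain ⟨q, hq, hpq⟩ := (Prime.dvd_finsetProd_iff hp.prime _).1 h
  have h1 := (mem_Ds hD).1 q hq
  have : p = q := (Nat.prime_dvd_prime_iff_eq hp h1.1).1 hpq
  rw [this]; exact h1.2

/-- **sums over `Ds`** -/
theorem Ds_sum (X z K : ℕ) (G : ℕ → ℝ) (hG : ∀ t, 0 ≤ G t) :
    ∑ D ∈ Ds X z, (K : ℝ) ^ D.card * G (∏ p ∈ D, p) ≤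
      ∑ m ∈ Icc 1 (Y16 X), (m.divisors.card : ℝ) ^ K * G m := by
  classical
  have h1 : ∀ D ∈ Ds X z, (K : ℝ) ^ D.card * G (∏ p ∈ D, p) ≤
      ((∏ p ∈ D, p).divisors.card : ℝ) ^ K * G (∏ p ∈ D, p) := by
    intro D hD
    apply mul_le_mul_of_nonneg_right _ (hG _)
    rw [card_prod fun p hp => ((mem_Ds hD).1 p hp).1]
    have h2 : K ≤ 2 ^ K := Nat.lt_two_pow_self.le
    have h3 : K ^ D.card ≤ (2 ^ D.card) ^ K := by
      calc K ^ D.card ≤ (2 ^ K) ^ D.card := Nat.pow_le_pow_left h2 _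
        _ = (2 ^ D.card) ^ K := by rw [← pow_mul, ← pow_mul, mul_comm]
    exact_mod_cast h3
  refine (sum_le_sum h1).trans ?_
  have hinj : Set.InjOn (fun D : Finset ℕ => ∏ p ∈ D, p) (Ds X z : Set (Finset ℕ)) := by
    intro D hD D' hD' h
    rw [mem_coe] at hD hD'
    have e1 := Nat.primeFactors_prod fun p hp => ((mem_Ds hD).1 p hp).1
    have e2 := Nat.primeFactors_prod fun p hp => ((mem_Ds hD').1 p hp).1
    have h' : ∏ p ∈ D, p = ∏ p ∈ D', p := h
    rw [← e1, ← e2, h']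
  have e : ∑ D ∈ Ds X z, ((∏ p ∈ D, p).divisors.card : ℝ) ^ K * G (∏ p ∈ D, p) =
      ∑ m ∈ (Ds X z).image (fun D : Finset ℕ => ∏ p ∈ D, p), (m.divisors.card : ℝ) ^ K * G m := by
    rw [sum_image hinj]
  rw [e]
  apply sum_le_sum_of_subset_of_nonneg
  · intro m hm
    rw [mem_image] at hm
    obtain ⟨D, hD, rfl⟩ := hm
    rw [mem_Icc]
    exact ⟨prod_pos' fun p hp => ((mem_Ds hD).1 p hp).1, (mem_Ds hD).2⟩
  · intro m _ _
    exact mul_nonneg (by positivity) (hG m)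

/-- products -/
theorem pair_sum2 (k K A B : ℕ) (G : ℕ → ℝ) (hG : ∀ t, 0 ≤ G t) :
    ∑ m ∈ Icc 1 A, (m.divisors.card : ℝ) ^ K * ∑ d ∈ Icc 1 B, (d.divisors.card : ℝ) ^ k * G (m * d) ≤
      ∑ t ∈ Icc 1 (A * B), (t.divisors.card : ℝ) ^ (k + K + 1) * G t := by
  have h1 : ∑ m ∈ Icc 1 A, (m.divisors.card : ℝ) ^ K * ∑ d ∈ Icc 1 B, (d.divisors.card : ℝ) ^ k * G (m * d) ≤
      ∑ m ∈ Icc 1 A, ∑ d ∈ Icc 1 B, (d.divisors.card : ℝ) ^ 0 *
        (((m * d).divisors.card : ℝ) ^ (k + K) * G (m * d)) := by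
    apply sum_le_sum
    intro m hm
    rw [mul_sum]
    apply sum_le_sum
    intro d hd
    rw [mem_Icc] at hm hd
    rw [pow_zero, one_mul, ← mul_assoc]
    apply mul_le_mul_of_nonneg_right _ (hG _)
    have hmd : m * d ≠ 0 := (Nat.mul_pos hm.1 hd.1).ne'
    have h2 : (m.divisors.card : ℝ) ≤ (m * d).divisors.card := by
      exact_mod_cast card_le_card (Nat.divisors_subset_of_dvd hmd (Dvd.intro _ rfl))
    have h3 : (d.divisors.card : ℝ) ≤ (m * d).divisors.card := by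
      exact_mod_cast card_le_card (Nat.divisors_subset_of_dvd hmd (Dvd.intro_left _ rfl))
    rw [pow_add, mul_comm (((m * d).divisors.card : ℝ) ^ k)]
    gcongr
  refine h1.trans ((pair_sum 0 A B (fun t => (t.divisors.card : ℝ) ^ (k + K) * G t)
    (fun t => mul_nonneg (by positivity) (hG t))).trans (le_of_eq ?_))
  apply sum_congr rfl
  intro t _
  rw [← mul_assoc, ← pow_add]
  congr 2
  omega

/-! ### one class -/

/-- the gap at a rational point -/
lemma gap_far {q : ℕ} (hq : 1 ≤ q) {a : ℤ} (hcop : IsCoprime a (q : ℤ)) {α : ℝ} (d : ℕ)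
    (hd : ¬ q ∣ d) (hα : d * |α - a / q| ≤ 1 / (2 * q)) : 2 / (q : ℝ) ≤ dd (d * α) := by
  have hq0 : (0 : ℝ) < q := by exact_mod_cast hq
  have hint : ∀ m : ℤ, 1 / (2 * (q : ℝ)) ≤ |d * α - m| := by
    intro m
    have hne : (d : ℤ) * a - m * q ≠ 0 := by
      intro h
      have h1 : (q : ℤ) ∣ (d : ℤ) * a := ⟨m, by linarith⟩
      have h2 : (q : ℤ) ∣ (d : ℤ) := (hcop.symm).dvd_of_dvd_mul_right h1
      exact hd (by exact_mod_cast h2)
    have h1 : (1 : ℝ) ≤ |(d : ℝ) * a - m * q| := by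
      have : (1 : ℤ) ≤ |(d : ℤ) * a - m * q| := Int.one_le_abs hne
      exact_mod_cast this
    have h2 : 1 / (q : ℝ) ≤ |(d : ℝ) * ((a : ℝ) / q) - m| := by
      have e : (d : ℝ) * (a / q) - m = ((d : ℝ) * a - m * q) / q := by field_simp
      rw [e, abs_div, abs_of_pos hq0]
      exact div_le_div_of_nonneg_right h1 hq0.le
    have h3 : |(d : ℝ) * (α - a / q)| ≤ 1 / (2 * q) := by
      rw [abs_mul, abs_of_nonneg (Nat.cast_nonneg d)]
      exact hα
    have h4 : (d : ℝ) * ((a : ℝ) / q) - m = (d * α - m) - (d : ℝ) * (α - a / q) := by ring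
    have h5 := abs_sub (d * α - m : ℝ) ((d : ℝ) * (α - a / q))
    rw [← h4] at h5
    have h6 : 1 / (q : ℝ) = 1 / (2 * q) + 1 / (2 * q) := by field_simp; norm_num
    linarith
  set t := Int.fract ((d : ℝ) * α) with ht
  have h0 : 0 ≤ t := Int.fract_nonneg _
  have h1 : t < 1 := Int.fract_lt_one _
  have hdd : dd (d * α) = dd t := by
    have : (d : ℝ) * α = t + (⌊(d : ℝ) * α⌋ : ℤ) := (Int.fract_add_floor _).symm
    rw [this, dd_add_int]
  have h2 := dd_ge h0 h1.le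
  rw [hdd]
  have h3 : 1 / (2 * (q : ℝ)) ≤ t := by
    have := hint ⌊(d : ℝ) * α⌋
    rw [show (d : ℝ) * α - (⌊(d : ℝ) * α⌋ : ℤ) = t from rfl, abs_of_nonneg h0] at this
    exact this
  have h4 : 1 / (2 * (q : ℝ)) ≤ 1 - t := by
    have := hint (⌊(d : ℝ) * α⌋ + 1)
    have e : (d : ℝ) * α - ((⌊(d : ℝ) * α⌋ + 1 : ℤ) : ℝ) = -(1 - t) := by
      rw [ht, Int.fract]; push_cast; ring
    rw [e, abs_neg, abs_of_nonneg (by linarith)] at this
    exact this
  have h5 : 1 / (2 * (q : ℝ)) ≤ min t (1 - t) := le_min h3 h4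
  have h6 : 2 / (q : ℝ) = 4 * (1 / (2 * q)) := by field_simp; norm_num
  rw [h6]
  linarith

/-- the sum over one class, with the expected value of a second class subtracted -/
noncomputable def SS (X M m r c : ℕ) (α : ℝ) : ℂ :=
  ∑ x ∈ (Ico (4 * X) (8 * X)).filter (fun x => x ≡ r [MOD M]),
    (((if x ≡ c [MOD m] then 1 else 0) - 1 / (m : ℝ) : ℝ) : ℂ) * ee ((x : ℝ) * α)

/-- one class in the window -/
lemma win_bound (X e s : ℕ) (hX : 1 ≤ X) (he : 1 ≤ e) (heX : e ≤ 4 * X) (α : ℝ) :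
    ‖∑ x ∈ (Ico (4 * X) (8 * X)).filter (fun x => x ≡ s [MOD e]), ee ((x : ℝ) * α)‖ ≤
      KK (2 * ((4 * X : ℕ) : ℝ) / e) (e * α) := by
  have he0 : (0 : ℝ) < e := by exact_mod_cast he
  have e1 : Ico (4 * X) (8 * X) = Ioc (4 * X - 1) (8 * X - 1) := by
    ext x; rw [mem_Ico, mem_Ioc]; omega
  rw [e1]
  apply prog _ _ _ _ he (by positivity)
  have h1 : ((8 * X - 1 : ℕ) : ℝ) - ((4 * X - 1 : ℕ) : ℝ) = 4 * X := by
    rw [Nat.cast_sub (by omega), Nat.cast_sub (by omega)]; push_cast; ring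
  have h2 : (e : ℝ) ≤ 4 * X := by exact_mod_cast heX
  have h3 : 1 ≤ 4 * (X : ℝ) / e := by rw [le_div_iff₀ he0]; linarith
  rw [h1]
  have h4 : 2 * ((4 * X : ℕ) : ℝ) / e = 4 * X / e + 4 * X / e := by push_cast; ring
  rw [h4]
  linarith

/-- the two progressions -/
theorem SS_split (X M m r c : ℕ) (hcop : M.Coprime m) (α : ℝ) : ∃ s : ℕ,
    SS X M m r c α = ∑ x ∈ (Ico (4 * X) (8 * X)).filter (fun x => x ≡ s [MOD m * M]), ee ((x : ℝ) * α) -
      ((1 / (m : ℝ) : ℝ) : ℂ) * ∑ x ∈ (Ico (4 * X) (8 * X)).filter (fun x => x ≡ r [MOD M]), ee ((x : ℝ) * α) := by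
  classical
  obtain ⟨s, hs1, hs2⟩ := Nat.chineseRemainder hcop.symm c r
  refine ⟨s, ?_⟩
  have e1 : (Ico (4 * X) (8 * X)).filter (fun x => x ≡ s [MOD m * M]) =
      ((Ico (4 * X) (8 * X)).filter (fun x => x ≡ r [MOD M])).filter (fun x => x ≡ c [MOD m]) := by
    rw [filter_filter]
    apply filter_congr
    intro x _
    rw [← Nat.modEq_and_modEq_iff_modEq_mul hcop.symm]
    constructor
    · rintro ⟨h1, h2⟩
      exact ⟨h2.trans hs2, h1.trans hs1⟩
    · rintro ⟨h1, h2⟩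
      exact ⟨h2.trans hs1.symm, h1.trans hs2.symm⟩
  rw [e1, sum_filter (s := (Ico (4 * X) (8 * X)).filter (fun x => x ≡ r [MOD M])), mul_sum, ← sum_sub_distrib]
  unfold SS
  apply sum_congr rfl
  intro x _
  split_ifs
  · push_cast; ring
  · push_cast; ring

theorem SS_minor (X M m r c : ℕ) (hX : 1 ≤ X) (hM : 1 ≤ M) (hm : 1 ≤ m) (hmM : m * M ≤ 4 * X)
    (hcop : M.Coprime m) (α : ℝ) :
    ‖SS X M m r c α‖ ≤ KK (2 * ((4 * X : ℕ) : ℝ) / ((m * M : ℕ) : ℝ)) (((m * M : ℕ) : ℝ) * α) +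
      1 / m * KK (2 * ((4 * X : ℕ) : ℝ) / M) (M * α) := by
  obtain ⟨s, hs⟩ := SS_split X M m r c hcop α
  rw [hs]
  refine (norm_sub_le _ _).trans (add_le_add ?_ ?_)
  · exact win_bound X (m * M) s hX (Nat.mul_pos hm hM) hmM α
  · rw [norm_mul, Complex.norm_real, Real.norm_of_nonneg (by positivity)]
    apply mul_le_mul_of_nonneg_left _ (by positivity)
    exact win_bound X M r hX hM ((Nat.le_mul_of_pos_left _ hm).trans hmM) α

/-- rational points, denominator not dividing the modulus -/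
theorem SS_far (X M m r c : ℕ) (hX : 1 ≤ X) (hM : 1 ≤ M) (hm : 1 ≤ m) (hmM : m * M ≤ 4 * X)
    (hcop : M.Coprime m) {q : ℕ} (hq : 1 ≤ q) {a : ℤ} (hcopq : IsCoprime a (q : ℤ)) {α : ℝ}
    (hqm : q.Coprime m) (hqM : ¬ q ∣ M) (hα : (m * M : ℕ) * |α - a / q| ≤ 1 / (2 * q)) :
    ‖SS X M m r c α‖ ≤ 3 * q := by
  have hq0 : (0 : ℝ) < q := by exact_mod_cast hq
  have hm1 : (1 : ℝ) ≤ m := by exact_mod_cast hm
  have h1 : 2 / (q : ℝ) ≤ dd (((m * M : ℕ) : ℝ) * α) := by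
    apply gap_far hq hcopq _ _ hα
    intro h
    exact hqM (hqm.dvd_of_dvd_mul_left h)
  have h2 : 2 / (q : ℝ) ≤ dd ((M : ℝ) * α) := by
    apply gap_far hq hcopq _ hqM
    refine le_trans ?_ hα
    apply mul_le_mul_of_nonneg_right _ (abs_nonneg _)
    exact_mod_cast Nat.le_mul_of_pos_left _ hm
  have h3 : ∀ x A : ℝ, 0 ≤ A → 2 / (q : ℝ) ≤ dd x → KK A x ≤ 3 / 2 * q := by
    intro x A hA h
    refine (KK_le' hA (by positivity) h).trans (le_of_eq ?_)
    field_simp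
  refine (SS_minor X M m r c hX hM hm hmM hcop α).trans ?_
  have h4 := h3 _ (2 * ((4 * X : ℕ) : ℝ) / ((m * M : ℕ) : ℝ)) (by positivity) h1
  have h5 := h3 _ (2 * ((4 * X : ℕ) : ℝ) / M) (by positivity) h2
  have h6 : 1 / (m : ℝ) * KK (2 * ((4 * X : ℕ) : ℝ) / M) (M * α) ≤ 1 * (3 / 2 * q) := by
    apply mul_le_mul _ h5 (KK_nonneg (by positivity) _) (by norm_num)
    rw [div_le_one (by linarith)]; exact hm1
  linarith

/-- the partial sums without the additive character -/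
lemma cnt_two (M m r c : ℕ) (hM : 1 ≤ M) (hm : 1 ≤ m) (hcop : M.Coprime m) (y : ℕ) :
    |∑ x ∈ (Icc 1 y).filter (fun x => x ≡ r [MOD M]),
      ((if x ≡ c [MOD m] then (1 : ℝ) else 0) - 1 / (m : ℝ))| ≤ 2 := by
  classical
  obtain ⟨s, hs1, hs2⟩ := Nat.chineseRemainder hcop.symm c r
  have hm0 : (0 : ℝ) < m := by exact_mod_cast hm
  have hM0 : (0 : ℝ) < M := by exact_mod_cast hM
  have hm1 : (1 : ℝ) ≤ m := by exact_mod_cast hm
  have e1 : (Icc 1 y).filter (fun x => x ≡ s [MOD m * M]) =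
      ((Icc 1 y).filter (fun x => x ≡ r [MOD M])).filter (fun x => x ≡ c [MOD m]) := by
    rw [filter_filter]
    apply filter_congr
    intro x _
    rw [← Nat.modEq_and_modEq_iff_modEq_mul hcop.symm]
    constructor
    · rintro ⟨h1, h2⟩
      exact ⟨h2.trans hs2, h1.trans hs1⟩
    · rintro ⟨h1, h2⟩
      exact ⟨h2.trans hs1.symm, h1.trans hs2.symm⟩
  have e2 : ∑ x ∈ (Icc 1 y).filter (fun x => x ≡ r [MOD M]),
      ((if x ≡ c [MOD m] then (1 : ℝ) else 0) - 1 / (m : ℝ)) =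
      ((((Icc 1 y).filter (fun x => x ≡ s [MOD m * M])).card : ℝ) - y / ((m * M : ℕ) : ℝ)) -
      1 / m * ((((Icc 1 y).filter (fun x => x ≡ r [MOD M])).card : ℝ) - y / M) := by
    rw [sum_sub_distrib, ← sum_filter, ← e1, sum_const, sum_const, nsmul_eq_mul, nsmul_eq_mul]
    push_cast
    field_simp
    ring
  rw [e2]
  have h1 := count_class y (m * M) s (Nat.mul_pos hm hM)
  have h2 := count_class y M r hM
  refine (abs_sub _ _).trans ?_
  rw [abs_mul, abs_of_nonneg (show (0 : ℝ) ≤ 1 / m by positivity)]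
  have h3 : 1 / (m : ℝ) * |(((Icc 1 y).filter (fun x => x ≡ r [MOD M])).card : ℝ) - y / M| ≤ 1 * 1 := by
    apply mul_le_mul _ h2 (abs_nonneg _) (by norm_num)
    rw [div_le_one hm0]; exact hm1
  linarith

/-- rational points, denominator dividing the modulus -/
theorem SS_near (X M m r c : ℕ) (hX : 1 ≤ X) (hM : 1 ≤ M) (hm : 1 ≤ m)
    (hcop : M.Coprime m) {q : ℕ} (hq : 1 ≤ q) (a : ℤ) {α : ℝ} (hqM : q ∣ M) :
    ‖SS X M m r c α‖ ≤ 4 * (1 + 8 * X * ‖ee (α - a / q) - 1‖) := by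
  classical
  have hq0 : (0 : ℝ) < q := by exact_mod_cast hq
  set u : ℕ → ℝ := fun x => (if x ≡ c [MOD m] then (1 : ℝ) else 0) - 1 / (m : ℝ) with hu
  set F : ℕ → ℂ := fun x => if 4 * X ≤ x ∧ x ≡ r [MOD M] then ((u x : ℝ) : ℂ) * ee ((r : ℝ) * ((a : ℝ) / q)) else 0 with hF
  have hee : ∀ x : ℕ, x ≡ r [MOD M] → ee ((x : ℝ) * ((a : ℝ) / q)) = ee ((r : ℝ) * ((a : ℝ) / q)) := by
    intro x hx
    have h1 : x ≡ r [MOD q] := hx.of_dvd hqM
    obtain ⟨k, hk⟩ := (Nat.modEq_iff_dvd.1 h1.symm)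
    have h2 : (x : ℝ) = r + q * k := by
      have : (x : ℤ) = r + q * k := by linarith
      exact_mod_cast this
    have h3 : (x : ℝ) * ((a : ℝ) / q) = (r : ℝ) * ((a : ℝ) / q) + ((a * k : ℤ) : ℝ) := by
      rw [h2]; push_cast; field_simp
    rw [h3, ee_add_int]
  have e1 : SS X M m r c α = ∑ x ∈ Icc 1 (8 * X - 1), F x * ee ((x : ℝ) * (α - a / q)) := by
    unfold SS
    rw [sum_filter]
    have e2 : Ico (4 * X) (8 * X) = (Icc 1 (8 * X - 1)).filter (fun x => 4 * X ≤ x) := by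
      ext x; rw [mem_Ico, mem_filter, mem_Icc]; omega
    rw [e2, sum_filter]
    apply sum_congr rfl
    intro x _
    simp only [hF]
    by_cases h1 : 4 * X ≤ x
    · by_cases h2 : x ≡ r [MOD M]
      · rw [if_pos h1, if_pos h2, if_pos (show 4 * X ≤ x ∧ x ≡ r [MOD M] from ⟨h1, h2⟩), mul_assoc,
          ← hee x h2, ← ee_add]
        congr 2
        ring
      · rw [if_pos h1, if_neg h2, if_neg (show ¬ (4 * X ≤ x ∧ x ≡ r [MOD M]) from fun h => h2 h.2), zero_mul]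
    · rw [if_neg h1, if_neg (show ¬ (4 * X ≤ x ∧ x ≡ r [MOD M]) from fun h => h1 h.1), zero_mul]
  rw [e1]
  have hpart : ∀ y : ℕ, y ≤ 8 * X - 1 → ‖∑ x ∈ Icc 1 y, F x‖ ≤ 4 := by
    intro y _
    have e3 : ∑ x ∈ Icc 1 y, F x = ((∑ x ∈ (Icc 1 y).filter (fun x => 4 * X ≤ x ∧ x ≡ r [MOD M]), u x : ℝ) : ℂ) *
        ee ((r : ℝ) * ((a : ℝ) / q)) := by
      rw [Complex.ofReal_sum, sum_mul, sum_filter]
    rw [e3, norm_mul, norm_ee, mul_one, Complex.norm_real, Real.norm_eq_abs]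
    have e4 : ∑ x ∈ (Icc 1 y).filter (fun x => 4 * X ≤ x ∧ x ≡ r [MOD M]), u x =
        ∑ x ∈ (Icc 1 y).filter (fun x => x ≡ r [MOD M]), u x -
        ∑ x ∈ (Icc 1 (min y (4 * X - 1))).filter (fun x => x ≡ r [MOD M]), u x := by
      rw [eq_sub_iff_add_eq, ← sum_union]
      · apply sum_congr _ fun _ _ => rfl
        ext x
        simp only [mem_union, mem_filter, mem_Icc, le_min_iff]
        by_cases h : x ≡ r [MOD M]
        · simp only [h, and_true]
          omega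
        · simp only [h, and_false, or_self]
      · rw [disjoint_left]
        intro x h1 h2
        simp only [mem_filter, mem_Icc, le_min_iff] at h1 h2
        omega
    rw [e4]
    refine (abs_sub _ _).trans ?_
    have h1 := cnt_two M m r c hM hm hcop y
    have h2 := cnt_two M m r c hM hm hcop (min y (4 * X - 1))
    linarith
  refine (abel_ee F (α - a / q) 4 (8 * X - 1) hpart).trans ?_
  have h1 : ((8 * X - 1 : ℕ) : ℝ) ≤ 8 * X := by
    exact_mod_cast Nat.sub_le _ _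
  have h2 := norm_nonneg (ee (α - a / q) - 1)
  have h3 := mul_le_mul_of_nonneg_right h1 h2
  linarith

end EI

end Pool.Agent.T2H22.AA
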