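import Pool.Agent.T2H22.AA.MF2
import Pool.Agent.Helper923.HMertens

/-!
Package P of project AA (helper22), part 1: auxiliary bounds (helper68).
-/

set_option autoImplicit false

namespace Pool.Agent.T2H22.AA.EP

open Finset
open Pool.Agent.H373R2.T7 Pool.Agent.H807R2.Dav
open Pool.Agent.T2H22.AA.MF

/-- Mertens: the sieve density is at least `c / log z` -/
theorem Vz_inv_log : ∃ C : ℝ, 0 < C ∧ ∀ z : ℕ, 2 ≤ z → (Vz z)⁻¹ ≤ C * Real.log z := by
  obtain ⟨C, hC0, hC⟩ := Pool.Agent.Helper923.HMertens.mertens_ratio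
  have hl2 : (0 : ℝ) < Real.log 2 := Real.log_pos (by norm_num)
  refine ⟨2 * Real.exp (C / Real.log 2 + 1) / Real.log 2, by positivity, fun z hz => ?_⟩
  have hlz : 0 < Real.log z := Real.log_pos (by exact_mod_cast (show 1 < z by omega))
  have h1 := abs_le.1 (hC 2 z le_rfl hz)
  push_cast at h1
  set Q : Finset ℕ := (Ioc 2 z).filter Nat.Prime with hQ
  have hpz : pz z = insert 2 Q := by
    ext p
    rw [mem_insert, mem_pz, hQ, mem_filter, mem_Ioc]
    constructor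
    · rintro ⟨h1, h2⟩
      rcases eq_or_lt_of_le h2.two_le with h | h
      · exact Or.inl h.symm
      · exact Or.inr ⟨⟨h, h1⟩, h2⟩
    · rintro (h | ⟨⟨h1, h2⟩, h3⟩)
      · rw [h]; exact ⟨hz, Nat.prime_two⟩
      · exact ⟨h2, h3⟩
  have hV : Vz z = 1 / 2 * ∏ p ∈ Q, (1 - 1 / (p : ℝ)) := by
    unfold Vz
    rw [hpz, prod_insert (by rw [hQ, mem_filter, mem_Ioc]; omega)]
    norm_num
  have h2 : ∀ p ∈ Q, Real.exp (-(1 / (p : ℝ) + 1 / ((p : ℝ) * (p - 1)))) ≤ 1 - 1 / (p : ℝ) := by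
    intro p hp
    rw [hQ, mem_filter, mem_Ioc] at hp
    have hp3 : (3 : ℝ) ≤ p := by exact_mod_cast hp.1.1
    have h3 : 1 - 1 / (p : ℝ) = (1 + 1 / ((p : ℝ) - 1))⁻¹ := by
      have e1 : (p : ℝ) - 1 ≠ 0 := by linarith
      have e2 : (p : ℝ) ≠ 0 := by linarith
      have e3 : 1 + 1 / ((p : ℝ) - 1) = p / (p - 1) := by
        field_simp
        ring
      rw [e3, inv_div]
      field_simp
    have h4 : 1 / (p : ℝ) + 1 / ((p : ℝ) * (p - 1)) = 1 / ((p : ℝ) - 1) := by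
      have e1 : (p : ℝ) - 1 ≠ 0 := by linarith
      have e2 : (p : ℝ) ≠ 0 := by linarith
      field_simp
      ring
    rw [h4, h3, Real.exp_neg]
    apply inv_anti₀
    · have : 0 < 1 / ((p : ℝ) - 1) := by
        apply one_div_pos.2
        linarith
      linarith
    · have := Real.add_one_le_exp (1 / ((p : ℝ) - 1))
      linarith
  have h3 := prod_le_prod (fun p _ => (Real.exp_pos _).le) h2
  rw [← Real.exp_sum] at h3
  have h4 : ∑ p ∈ Q, (1 / ((p : ℝ) * (p - 1))) ≤ 1 := by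
    have h5 : Q ⊆ Ico 2 (z + 1) := by
      intro p hp
      rw [hQ, mem_filter, mem_Ioc] at hp
      rw [mem_Ico]
      omega
    have h6 : ∑ p ∈ Q, (1 / ((p : ℝ) * (p - 1))) ≤ ∑ p ∈ Ico 2 (z + 1), (1 / ((p : ℝ) * (p - 1))) := by
      apply sum_le_sum_of_subset_of_nonneg h5
      intro p hp _
      rw [mem_Ico] at hp
      have : (2 : ℝ) ≤ p := by exact_mod_cast hp.1
      apply one_div_nonneg.2
      nlinarith
    refine h6.trans ?_
    have h7 : ∀ m : ℕ, 2 ≤ m → ∑ p ∈ Ico 2 m, (1 / ((p : ℝ) * (p - 1))) = 1 - 1 / ((m : ℝ) - 1) := by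
      intro m hm
      induction m, hm using Nat.le_induction with
      | base => norm_num
      | succ m hm ih =>
        rw [sum_Ico_succ_top hm, ih]
        have : (2 : ℝ) ≤ m := by exact_mod_cast hm
        have e1 : (m : ℝ) - 1 ≠ 0 := by linarith
        have e2 : (m : ℝ) ≠ 0 := by linarith
        push_cast
        have e3 : (m : ℝ) + 1 - 1 = m := by ring
        rw [e3]
        field_simp
        ring
    rw [h7 (z + 1) (by omega)]
    have : (0 : ℝ) ≤ 1 / (((z + 1 : ℕ) : ℝ) - 1) := by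
      push_cast
      rw [add_sub_cancel_right]
      positivity
    linarith
  have h5 : ∑ p ∈ Q, -(1 / (p : ℝ) + 1 / ((p : ℝ) * (p - 1))) =
      -(∑ p ∈ Q, 1 / (p : ℝ)) - ∑ p ∈ Q, 1 / ((p : ℝ) * (p - 1)) := by
    rw [← sum_neg_distrib, ← sum_sub_distrib]
    apply sum_congr rfl
    intro p _
    ring
  have h6 : Real.exp (-(Real.log (Real.log z / Real.log 2)) - (C / Real.log 2 + 1)) ≤
      ∏ p ∈ Q, (1 - 1 / (p : ℝ)) := by
    refine le_trans ?_ h3
    apply Real.exp_le_exp.2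
    rw [h5]
    have := h1.2
    linarith
  have h7 : Real.exp (-(Real.log (Real.log z / Real.log 2)) - (C / Real.log 2 + 1)) =
      (Real.log z / Real.log 2)⁻¹ * (Real.exp (C / Real.log 2 + 1))⁻¹ := by
    rw [Real.exp_sub, Real.exp_neg, Real.exp_log (by positivity), div_eq_mul_inv]
  rw [h7] at h6
  rw [hV]
  have h8 : 0 < (Real.log z / Real.log 2)⁻¹ * (Real.exp (C / Real.log 2 + 1))⁻¹ := by positivity
  calc (1 / 2 * ∏ p ∈ Q, (1 - 1 / (p : ℝ)))⁻¹
      ≤ (1 / 2 * ((Real.log z / Real.log 2)⁻¹ * (Real.exp (C / Real.log 2 + 1))⁻¹))⁻¹ := by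
        apply inv_anti₀ (by positivity)
        gcongr
    _ = 2 * Real.exp (C / Real.log 2 + 1) / Real.log 2 * Real.log z := by
        field_simp

/-- `K ^ |D| ≤ τ(∏ D) ^ K` -/
lemma K_pow_le (K : ℕ) (D : Finset ℕ) (hD : ∀ p ∈ D, p.Prime) :
    (K : ℝ) ^ D.card ≤ tau (∏ p ∈ D, p) ^ K := by
  have h1 : 2 ^ D.card ≤ (∏ p ∈ D, p).divisors.card := by
    rw [← card_powerset]
    apply card_le_card_of_injOn (fun S => ∏ p ∈ S, p)
    · intro S hS
      rw [mem_coe, mem_powerset] at hS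
      rw [mem_coe, Nat.mem_divisors]
      refine ⟨prod_dvd_prod_of_subset _ _ _ hS, ?_⟩
      exact (prod_pos fun p hp => (hD p hp).pos).ne'
    · intro S hS S' hS' h
      rw [mem_coe, mem_powerset] at hS hS'
      exact prod_inj S S' (fun p hp => hD p (hS hp)) (fun p hp => hD p (hS' hp)) h
  have h2 : (K : ℝ) ≤ 2 ^ K := by exact_mod_cast Nat.lt_two_pow_self.le
  calc (K : ℝ) ^ D.card ≤ (2 ^ K) ^ D.card := by gcongr
    _ = ((2 : ℝ) ^ D.card) ^ K := by rw [← pow_mul, ← pow_mul, mul_comm]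
    _ ≤ _ := by
      apply pow_le_pow_left₀ (by positivity)
      unfold tau
      exact_mod_cast h1

lemma sum_D (K Y : ℕ) (DD : Finset (Finset ℕ))
    (hD : ∀ D ∈ DD, (∀ p ∈ D, p.Prime) ∧ ∏ p ∈ D, p ≤ Y) (w : ℕ → ℝ) (hw : ∀ m, 0 ≤ w m) :
    ∑ D ∈ DD, (K : ℝ) ^ D.card * w (∏ p ∈ D, p) ≤ ∑ m ∈ Icc 1 Y, tau m ^ K * w m := by
  calc ∑ D ∈ DD, (K : ℝ) ^ D.card * w (∏ p ∈ D, p)
      ≤ ∑ D ∈ DD, tau (∏ p ∈ D, p) ^ K * w (∏ p ∈ D, p) := by
        apply sum_le_sum
        intro D hDD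
        exact mul_le_mul_of_nonneg_right (K_pow_le K D (hD D hDD).1) (hw _)
    _ = ∑ m ∈ DD.image (fun D => ∏ p ∈ D, p), tau m ^ K * w m := by
        rw [sum_image]
        intro D hDD D' hDD' h
        exact prod_inj D D' (hD D hDD).1 (hD D' hDD').1 h
    _ ≤ _ := by
        apply sum_le_sum_of_subset_of_nonneg
        · intro m hm
          rw [mem_image] at hm
          obtain ⟨D, hDD, rfl⟩ := hm
          rw [mem_Icc]
          exact ⟨prod_pos fun p hp => ((hD D hDD).1 p hp).pos, (hD D hDD).2⟩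
        · intro m _ _
          have := tau_nonneg m
          have := hw m
          positivity

/-- `1/∏(p-1) - 1/∏p` -/
lemma diff_prod {z : ℕ} (hz : 1 ≤ z) (D : Finset ℕ) (hD : ∀ p ∈ D, p.Prime ∧ z < p)
    (hc : 2 * (D.card : ℝ) ≤ z) :
    0 ≤ 1 / ∏ p ∈ D, ((p : ℝ) - 1) - 1 / ∏ p ∈ D, (p : ℝ) ∧
    1 / ∏ p ∈ D, ((p : ℝ) - 1) - 1 / ∏ p ∈ D, (p : ℝ) ≤
      1 / (∏ p ∈ D, (p : ℝ)) * (2 * D.card / z) := by
  have hz0 : (0 : ℝ) < z := by exact_mod_cast hz
  have hp2 : ∀ p ∈ D, (2 : ℝ) ≤ p := fun p hp => by exact_mod_cast (hD p hp).1.two_le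
  set Q : ℝ := ∏ p ∈ D, (1 - 1 / (p : ℝ)) with hQ
  have e : ∏ p ∈ D, ((p : ℝ) - 1) = (∏ p ∈ D, (p : ℝ)) * Q := by
    rw [hQ, ← prod_mul_distrib]
    apply prod_congr rfl
    intro p hp
    have := hp2 p hp
    field_simp
  have hP : 0 < ∏ p ∈ D, (p : ℝ) := prod_pos fun p hp => by have := hp2 p hp; linarith
  have h1 := one_sub_prod D (fun p => 1 / (p : ℝ)) (fun p hp => by
    have := hp2 p hp
    constructor
    · positivity
    · rw [div_le_one (by linarith)]; linarith)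
  rw [← hQ] at h1
  have h2 : ∑ p ∈ D, 1 / (p : ℝ) ≤ D.card / z := by
    calc ∑ p ∈ D, 1 / (p : ℝ) ≤ ∑ _p ∈ D, 1 / (z : ℝ) := by
          apply sum_le_sum
          intro p hp
          apply one_div_le_one_div_of_le hz0
          exact_mod_cast (hD p hp).2.le
      _ = D.card / z := by rw [sum_const, nsmul_eq_mul]; ring
  have h3 : (D.card : ℝ) / z ≤ 1 / 2 := by
    rw [div_le_iff₀ hz0]; linarith
  have hQ2 : 1 / 2 ≤ Q := by linarith [h1.2]
  have hQ0 : 0 < Q := by linarith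
  have e2 : 1 / ∏ p ∈ D, ((p : ℝ) - 1) - 1 / ∏ p ∈ D, (p : ℝ) =
      1 / (∏ p ∈ D, (p : ℝ)) * ((1 - Q) / Q) := by
    rw [e]
    field_simp
  rw [e2]
  constructor
  · have := h1.1
    positivity
  · apply mul_le_mul_of_nonneg_left _ (by positivity)
    rw [div_le_iff₀ hQ0]
    have h4 : (D.card : ℝ) / z ≤ 2 * D.card / z * Q := by
      have : 0 ≤ (D.card : ℝ) / z := by positivity
      calc (D.card : ℝ) / z = (D.card / z) * (2 * (1 / 2)) := by ring
        _ ≤ (D.card / z) * (2 * Q) := by gcongr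
        _ = _ := by ring
    linarith [h1.2]

lemma card_le_log {D : Finset ℕ} {X : ℕ} (hD : ∀ p ∈ D, p.Prime) (hX : ∏ p ∈ D, p ≤ X) :
    (D.card : ℝ) ≤ 2 * Real.log X := by
  have h0 : 1 ≤ ∏ p ∈ D, p := prod_pos fun p hp => (hD p hp).pos
  have h1 : 2 ^ D.card ≤ X := by
    calc 2 ^ D.card = ∏ _p ∈ D, 2 := by rw [prod_const]
      _ ≤ ∏ p ∈ D, p := prod_le_prod' fun p hp => (hD p hp).two_le
      _ ≤ X := hX
  have h2 : D.card ≤ Nat.log 2 X := Nat.le_log_of_pow_le (by norm_num) h1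
  have h3 := natlog_le X (h0.trans hX)
  have h4 : (D.card : ℝ) ≤ (Nat.log 2 X : ℝ) := by exact_mod_cast h2
  linarith

/-- Chinese remainder theorem for indicators -/
lemma crt_ind {m d : ℕ} (h : m.Coprime d) (r c : ℕ) : ∃ s : ℕ, s ≡ r [MOD m] ∧ s ≡ c [MOD d] ∧
    ∀ x : ℕ, (x ≡ r [MOD m] ∧ x ≡ c [MOD d]) ↔ x ≡ s [MOD m * d] := by
  refine ⟨Nat.chineseRemainder h r c, (Nat.chineseRemainder h r c).2.1,
    (Nat.chineseRemainder h r c).2.2, fun x => ?_⟩
  constructor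
  · rintro ⟨h1, h2⟩
    exact Nat.chineseRemainder_modEq_unique h h1 h2
  · intro h1
    exact ⟨(h1.of_mul_right d).trans (Nat.chineseRemainder h r c).2.1,
      (h1.of_mul_left m).trans (Nat.chineseRemainder h r c).2.2⟩

/-- factorisation into a smooth and a rough part is unique -/
lemma smooth_rough {z m m' d d' : ℕ} (hm0 : 1 ≤ m)
    (hm : ∀ p : ℕ, p.Prime → p ∣ m → p ≤ z)
    (hm' : ∀ p : ℕ, p.Prime → p ∣ m' → p ≤ z) (hd : ∀ p : ℕ, p.Prime → p ∣ d → z < p)
    (hd' : ∀ p : ℕ, p.Prime → p ∣ d' → z < p) (h : m * d = m' * d') : m = m' ∧ d = d' := by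
  have hcop : ∀ a b : ℕ, (∀ p : ℕ, p.Prime → p ∣ a → p ≤ z) → (∀ p : ℕ, p.Prime → p ∣ b → z < p) →
      a.Coprime b := by
    intro a b ha hb
    apply Nat.Coprime.symm
    rw [Nat.coprime_iff_gcd_eq_one]
    by_contra hne
    obtain ⟨p, hp, hpd⟩ := Nat.exists_prime_and_dvd hne
    have h1 := ha p hp (hpd.trans (Nat.gcd_dvd_right _ _))
    have h2 := hb p hp (hpd.trans (Nat.gcd_dvd_left _ _))
    omega
  have h1 : m ∣ m' := (hcop m d' hm hd').dvd_of_dvd_mul_right (h ▸ dvd_mul_right m d)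
  have h2 : m' ∣ m := (hcop m' d hm' hd).dvd_of_dvd_mul_right (h ▸ dvd_mul_right m' d')
  have h3 := Nat.dvd_antisymm h1 h2
  refine ⟨h3, ?_⟩
  rw [← h3] at h
  exact Nat.eq_of_mul_eq_mul_left hm0 h

/-- the sum over the integers with a prime factor at most `z` -/
lemma lam_small (z N : ℕ) :
    ∑ n ∈ (Icc 1 N).filter (fun n => ∃ p ∈ pz z, p ∣ n), ArithmeticFunction.vonMangoldt n ≤
      z * ((Nat.log 2 N + 1 : ℝ) * Real.log N) := by
  classical
  calc ∑ n ∈ (Icc 1 N).filter (fun n => ∃ p ∈ pz z, p ∣ n), ArithmeticFunction.vonMangoldt n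
      ≤ ∑ n ∈ (Icc 1 N).filter (fun n => ∃ p ∈ pz z, p ∣ n),
          ∑ p ∈ pz z, if p ∣ n then ArithmeticFunction.vonMangoldt n else 0 := by
        apply sum_le_sum
        intro n hn
        rw [mem_filter] at hn
        obtain ⟨h1, p, hp, hpn⟩ := hn
        have h2 := single_le_sum (f := fun p => if p ∣ n then ArithmeticFunction.vonMangoldt n else 0)
          (s := pz z) (fun p _ => by
            split_ifs
            · exact ArithmeticFunction.vonMangoldt_nonneg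
            · exact le_rfl) hp
        rw [if_pos hpn] at h2
        exact h2
    _ ≤ ∑ n ∈ Icc 1 N,
          ∑ p ∈ pz z, if p ∣ n then ArithmeticFunction.vonMangoldt n else 0 := by
        apply sum_le_sum_of_subset_of_nonneg (filter_subset _ _)
        intro n _ _
        apply sum_nonneg
        intro p _
        split_ifs
        · exact ArithmeticFunction.vonMangoldt_nonneg
        · exact le_rfl
    _ = ∑ p ∈ pz z, ∑ n ∈ (Icc 1 N).filter (fun n => p ∣ n), ArithmeticFunction.vonMangoldt n := by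
        rw [sum_comm]
        apply sum_congr rfl
        intro p _
        rw [sum_filter]
    _ ≤ ∑ _p ∈ pz z, ((Nat.log 2 N + 1 : ℝ) * Real.log N) := by
        apply sum_le_sum
        intro p hp
        exact lam_mult_prime N p (mem_pz.1 hp).2
    _ = ((pz z).card : ℝ) * ((Nat.log 2 N + 1 : ℝ) * Real.log N) := by
        rw [sum_const, nsmul_eq_mul]
    _ ≤ _ := by
        apply mul_le_mul_of_nonneg_right
        · exact_mod_cast card_pz_le z
        · have := Real.log_natCast_nonneg N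
          positivity

end Pool.Agent.T2H22.AA.EP
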