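import Pool.Agent.T2H22.AA.Defs3
import Pool.Agent.T2H22.AA.EP1

/-!
Package P of project AA (helper22), part 2: the combination of the classes (helper68).
-/

set_option autoImplicit false

namespace Pool.Agent.T2H22.AA.EP

open Finset
open Pool.Agent.H361R2.PP
open Pool.Agent.W70.HR
open Pool.Agent.H373R2.T7 Pool.Agent.H807R2.Dav
open Pool.Agent.T2H22.AA.MF

/-- the combination of the classes modulo products of large primes -/
noncomputable def FD (X z : ℕ) (γ : Finset ℕ → ℝ) (c : Finset ℕ → ℕ) (x : ℕ) : ℝ :=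
  ∑ D ∈ Ds X z, γ D * (if x ≡ c D [MOD ∏ p ∈ D, p] then 1 else 0)

lemma Ds_mem {X z : ℕ} {D : Finset ℕ} (h : D ∈ Ds X z) :
    (∀ p ∈ D, p.Prime ∧ z < p) ∧ ∏ p ∈ D, p ≤ Y16 X := by
  unfold Ds PE at h
  rw [mem_filter, mem_powerset] at h
  exact ⟨fun p hp => (mem_filter.1 (h.1 hp)).2, h.2⟩

lemma Y16_pow {X : ℕ} : Y16 X ^ 16 ≤ X := by
  unfold Y16
  have h0 : (0 : ℝ) ≤ (X : ℝ) ^ (1 / 16 : ℝ) := by positivity
  have h1 : ((⌊(X : ℝ) ^ (1 / 16 : ℝ)⌋₊ : ℕ) : ℝ) ≤ (X : ℝ) ^ (1 / 16 : ℝ) := Nat.floor_le h0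
  have h2 : ((⌊(X : ℝ) ^ (1 / 16 : ℝ)⌋₊ : ℕ) : ℝ) ^ 16 ≤ X := by
    calc _ ≤ ((X : ℝ) ^ (1 / 16 : ℝ)) ^ 16 := by gcongr
      _ = X := by
        rw [← Real.rpow_natCast, ← Real.rpow_mul (Nat.cast_nonneg X)]
        norm_num
  exact_mod_cast h2

lemma Ds_pow {X z : ℕ} {D : Finset ℕ} (h : D ∈ Ds X z) : (∏ p ∈ D, p) ^ 16 ≤ X :=
  (Nat.pow_le_pow_left (Ds_mem h).2 16).trans Y16_pow

lemma Ds_pos {X z : ℕ} {D : Finset ℕ} (h : D ∈ Ds X z) : 1 ≤ ∏ p ∈ D, p :=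
  prod_pos fun p hp => ((Ds_mem h).1 p hp).1.pos

lemma Ds_rough {X z : ℕ} {D : Finset ℕ} (h : D ∈ Ds X z) (p : ℕ) (hp : p.Prime)
    (hpD : p ∣ ∏ p ∈ D, p) : z < p := by
  obtain ⟨q, hq, hpq⟩ := (Prime.dvd_finsetProd_iff hp.prime _).1 hpD
  have h1 := (Ds_mem h).1 q hq
  rw [Nat.prime_dvd_prime_iff_eq hp h1.1] at hpq
  rw [hpq]
  exact h1.2

lemma Y16_le {X : ℕ} : Y16 X ≤ X := by
  rcases Nat.eq_zero_or_pos (Y16 X) with h | h
  · omega
  · exact (Nat.le_self_pow (by norm_num) _).trans Y16_pow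

lemma Y16_sqrt {X : ℕ} : (Y16 X : ℝ) ≤ √X := by
  apply Real.le_sqrt_of_sq_le
  rcases Nat.eq_zero_or_pos (Y16 X) with h | h
  · rw [h]; simp
  · have h1 : Y16 X ^ 2 ≤ X := (Nat.pow_le_pow_right h (by norm_num)).trans Y16_pow
    exact_mod_cast h1

lemma sum_Ds (K : ℕ) {X z : ℕ} (hL : 1 ≤ Real.log X) :
    ∑ D ∈ Ds X z, (K : ℝ) ^ D.card ≤ √X * (2 * Real.log X) ^ (2 ^ K) := by
  have h := sum_D K (Y16 X) (Ds X z) (fun D hD => ⟨fun p hp => ((Ds_mem hD).1 p hp).1,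
    (Ds_mem hD).2⟩) (fun _ => 1) (fun _ => zero_le_one)
  simp only [mul_one] at h
  refine h.trans ((dsum_le' Y16_le hL K).trans ?_)
  have := Y16_sqrt (X := X)
  gcongr

lemma sum_Ds' (K : ℕ) {X z : ℕ} (hL : 1 ≤ Real.log X) :
    ∑ D ∈ Ds X z, (K : ℝ) ^ D.card * (1 / ((∏ p ∈ D, p : ℕ) : ℝ)) ≤
      (2 * Real.log X) ^ (2 ^ K) := by
  have h := sum_D K (Y16 X) (Ds X z) (fun D hD => ⟨fun p hp => ((Ds_mem hD).1 p hp).1,
    (Ds_mem hD).2⟩) (fun m => 1 / (m : ℝ)) (fun _ => by positivity)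
  refine h.trans ?_
  refine le_trans (le_of_eq ?_) (dsum_le Y16_le hL K)
  apply sum_congr rfl
  intro m _
  ring

lemma abs_FD_le (K : ℕ) {X z : ℕ} {γ : Finset ℕ → ℝ} {c : Finset ℕ → ℕ}
    (hγ : ∀ D, |γ D| ≤ (K : ℝ) ^ D.card) (x : ℕ) :
    |FD X z γ c x| ≤ ∑ D ∈ Ds X z, (K : ℝ) ^ D.card *
      (if x ≡ c D [MOD ∏ p ∈ D, p] then 1 else 0) := by
  unfold FD
  refine (abs_sum_le_sum_abs _ _).trans (sum_le_sum fun D _ => ?_)
  rw [abs_mul]
  have h1 : |(if x ≡ c D [MOD ∏ p ∈ D, p] then 1 else 0 : ℝ)| =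
      (if x ≡ c D [MOD ∏ p ∈ D, p] then 1 else 0 : ℝ) := by
    split_ifs <;> simp
  rw [h1]
  apply mul_le_mul_of_nonneg_right (hγ D)
  split_ifs <;> norm_num

lemma abs_FD_le' (K : ℕ) {X z : ℕ} {γ : Finset ℕ → ℝ} {c : Finset ℕ → ℕ}
    (hγ : ∀ D, |γ D| ≤ (K : ℝ) ^ D.card) (x : ℕ) :
    |FD X z γ c x| ≤ ∑ D ∈ Ds X z, (K : ℝ) ^ D.card := by
  refine (abs_FD_le K hγ x).trans (sum_le_sum fun D _ => ?_)
  have : (0 : ℝ) ≤ (K : ℝ) ^ D.card := by positivity
  split_ifs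
  · rw [mul_one]
  · rw [mul_zero]; exact this

lemma rhoT_nonneg (X z b : ℕ) (T : Finset ℕ) (x : ℕ) : 0 ≤ rhoT X z b T x := by
  unfold rhoT
  split_ifs <;> norm_num

lemma rhoT_le_one (X z b : ℕ) (T : Finset ℕ) (x : ℕ) : rhoT X z b T x ≤ 1 := by
  unfold rhoT
  split_ifs <;> norm_num

lemma prime_dvd_Wm {X p : ℕ} (hp : p.Prime) : p ∣ Wm X ↔ p ≤ HH X := hp.dvd_primorial_iff

lemma lamz_eq {z n : ℕ} : lamz z n = if ∃ p ∈ pz z, p ∣ n then 0 else (Vz z)⁻¹ := by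
  unfold lamz
  by_cases h : ∀ p ∈ pz z, ¬ p ∣ n
  · rw [if_pos h, if_neg]
    rintro ⟨p, hp, hpn⟩
    exact h p hp hpn
  · rw [if_neg h, if_pos]
    push Not at h
    exact h

lemma not_dvd_small {X b a p x : ℕ} (hab : (b + a).Coprime (Wm X)) (hx : x % Wm X = b)
    (hp : p.Prime) (hpH : p ≤ HH X) : ¬ p ∣ x + a := by
  intro h
  have h1 : p ∣ Wm X := (prime_dvd_Wm hp).2 hpH
  have h2 : x ≡ b [MOD Wm X] := by
    unfold Nat.ModEq
    rw [← hx, Nat.mod_mod]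
  have h3 : x + a ≡ b + a [MOD p] := (h2.of_dvd h1).add_right a
  have h4 : p ∣ b + a := (h3.dvd_iff dvd_rfl).1 h
  have h5 := Nat.dvd_gcd h4 h1
  rw [hab] at h5
  exact hp.one_lt.ne' (Nat.dvd_one.1 h5)

/-- on the support of `rhoT` the sieve model is constant -/
lemma rhoT_lamz {X z b a : ℕ} {T : Finset ℕ} (ha : a ∈ T) (hab : (b + a).Coprime (Wm X)) (x : ℕ) :
    rhoT X z b T x * lamz z (x + a) = rhoT X z b T x * (Vz z)⁻¹ := by
  by_cases h : x % Wm X = b ∧ ∀ t ∈ T, ∀ p : ℕ, p.Prime → HH X < p → p ≤ z → ¬ p ∣ x + t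
  · have h1 : lamz z (x + a) = (Vz z)⁻¹ := by
      rw [lamz_eq, if_neg]
      rintro ⟨p, hp, hpn⟩
      rw [mem_pz] at hp
      rcases Nat.lt_or_ge (HH X) p with h2 | h2
      · exact h.2 a ha p hp.2 h2 hp.1 hpn
      · exact not_dvd_small hab h.1 hp.2 h2 hpn
    rw [h1]
  · have h1 : rhoT X z b T x = 0 := by
      unfold rhoT
      rw [if_neg h]
    rw [h1, zero_mul, zero_mul]

/-- removing the shift `a` -/
lemma rhoT_erase {X z b a : ℕ} {T : Finset ℕ} (x : ℕ) (n : ℕ) (hn : n = x + a) :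
    |(rhoT X z b T x - rhoT X z b (T.erase a) x) *
      (ArithmeticFunction.vonMangoldt n - lamz z n)| ≤
      if ∃ p ∈ pz z, p ∣ n then ArithmeticFunction.vonMangoldt n else 0 := by
  subst hn
  by_cases h : ∃ p ∈ pz z, p ∣ x + a
  · rw [if_pos h, lamz_eq, if_pos h, sub_zero, abs_mul,
      abs_of_nonneg (ArithmeticFunction.vonMangoldt_nonneg (n := x + a))]
    have h1 : |rhoT X z b T x - rhoT X z b (T.erase a) x| ≤ 1 := by
      have := rhoT_nonneg X z b T x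
      have := rhoT_le_one X z b T x
      have := rhoT_nonneg X z b (T.erase a) x
      have := rhoT_le_one X z b (T.erase a) x
      rw [abs_le]
      constructor <;> linarith
    calc _ ≤ 1 * ArithmeticFunction.vonMangoldt (x + a) :=
          mul_le_mul_of_nonneg_right h1 ArithmeticFunction.vonMangoldt_nonneg
      _ = _ := one_mul _
  · rw [if_neg h]
    have h1 : rhoT X z b T x = rhoT X z b (T.erase a) x := by
      unfold rhoT
      congr 1
      apply propext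
      constructor
      · rintro ⟨h1, h2⟩
        exact ⟨h1, fun t ht => h2 t (mem_of_mem_erase ht)⟩
      · rintro ⟨h1, h2⟩
        refine ⟨h1, fun t ht p hp hpH hpz => ?_⟩
        by_cases hta : t = a
        · rw [hta]
          intro hd
          exact h ⟨p, mem_pz.2 ⟨hpz, hp⟩, hd⟩
        · exact h2 t (mem_erase.2 ⟨hta, ht⟩) p hp hpH hpz
    rw [h1, sub_self, zero_mul, abs_zero]

lemma tau_dvd {m d : ℕ} (h : m ∣ d) (hd : 1 ≤ d) : tau m ≤ tau d := by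
  unfold tau
  exact_mod_cast card_le_card (Nat.divisors_subset_of_dvd (by omega) h)

/-- the product of the two combinations of classes -/
theorem exists_cls {X z b a k K : ℕ} {T' : Finset ℕ} (hk : T'.card ≤ k)
    (haT : a ∉ T') (haH : a < HH X) (hTH : ∀ t ∈ T', t < HH X) (hab : (b + a).Coprime (Wm X))
    {ι : Type} {J : Finset ι} {M r : ι → ℕ} {g : ι → ℝ}
    (h1 : ∀ j ∈ J, 1 ≤ M j ∧ M j ^ 16 ≤ X ∧ Wm X ∣ M j ∧ r j ≡ b [MOD Wm X] ∧
      (∀ p : ℕ, p.Prime → p ∣ M j → p ≤ z) ∧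
      ∀ p : ℕ, p.Prime → HH X < p → p ∣ M j → ∃ t ∈ T', p ∣ r j + t)
    (h2 : ∀ d : ℕ, ∑ j ∈ J.filter (fun j => M j = d), |g j| ≤ (d.divisors.card : ℝ) ^ T'.card)
    {γ : Finset ℕ → ℝ} {c : Finset ℕ → ℕ} (hγ : ∀ D, |γ D| ≤ (K : ℝ) ^ D.card)
    (hc : ∀ D ∈ Ds X z, (c D + a).Coprime (∏ p ∈ D, p)) :
    ∃ (M' c' : ι × Finset ℕ → ℕ) (g' : ι × Finset ℕ → ℝ),
      (∀ N : ℕ, X ≤ N → Cls (k + K) N (J ×ˢ Ds X z) M' c' g') ∧
      ∀ x : ℕ, (∑ j ∈ J, if x ≡ r j [MOD M j] then g j else 0) * FD X z γ c x =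
        FF (J ×ˢ Ds X z) M' c' g' (x + a) := by
  classical
  have hcop : ∀ q ∈ J ×ˢ Ds X z, (M q.1).Coprime (∏ p ∈ q.2, p) := by
    intro q hq
    rw [mem_product] at hq
    rw [Nat.coprime_iff_gcd_eq_one]
    by_contra hne
    obtain ⟨p, hp, hpd⟩ := Nat.exists_prime_and_dvd hne
    have e1 := (h1 q.1 hq.1).2.2.2.2.1 p hp (hpd.trans (Nat.gcd_dvd_left _ _))
    have e2 := Ds_rough hq.2 p hp (hpd.trans (Nat.gcd_dvd_right _ _))
    omega
  choose! s hs1 hs2 hs3 using fun q (hq : q ∈ J ×ˢ Ds X z) =>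
    crt_ind (hcop q hq) (r q.1) (c q.2)
  refine ⟨fun q => M q.1 * ∏ p ∈ q.2, p, fun q => s q + a, fun q => g q.1 * γ q.2, ?_, ?_⟩
  · intro N hN
    constructor
    · intro q hq
      have hq' := mem_product.1 hq
      obtain ⟨f1, f2, f3, f4, f5, f6⟩ := h1 q.1 hq'.1
      refine ⟨Nat.mul_pos f1 (Ds_pos hq'.2), ?_, ?_⟩
      · have e1 : (M q.1 * ∏ p ∈ q.2, p) ^ 16 ≤ X ^ 2 := by
          rw [mul_pow, sq]
          exact Nat.mul_le_mul f2 (Ds_pow hq'.2)
        have e2 : ((M q.1 * ∏ p ∈ q.2, p) ^ 8) ^ 2 ≤ X ^ 2 := by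
          rw [← pow_mul]; exact e1
        exact ((Nat.pow_le_pow_iff_left (by norm_num)).1 e2).trans hN
      · apply Nat.Coprime.mul_right
        · rw [Nat.coprime_iff_gcd_eq_one]
          by_contra hne
          obtain ⟨p, hp, hpd⟩ := Nat.exists_prime_and_dvd hne
          have e1 : p ∣ s q + a := hpd.trans (Nat.gcd_dvd_left _ _)
          have e2 : p ∣ M q.1 := hpd.trans (Nat.gcd_dvd_right _ _)
          have e3 : s q ≡ r q.1 [MOD p] := (hs1 q hq).of_dvd e2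
          rcases Nat.lt_or_ge (HH X) p with h3 | h3
          · obtain ⟨t, ht, htp⟩ := f6 p hp h3 e2
            have e4 : p ∣ s q + t := ((e3.add_right t).dvd_iff dvd_rfl).2 htp
            have e5 : a ≡ t [MOD p] := by
              have : s q + a ≡ s q + t [MOD p] :=
                ((Nat.modEq_zero_iff_dvd).2 e1).trans ((Nat.modEq_zero_iff_dvd).2 e4).symm
              exact Nat.ModEq.add_left_cancel' _ this
            have e6 : a = t := e5.eq_of_lt_of_lt (haH.trans h3) ((hTH t ht).trans h3)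
            exact haT (e6 ▸ ht)
          · have e4 : p ∣ Wm X := (prime_dvd_Wm hp).2 h3
            have e5 : s q + a ≡ b + a [MOD p] := (e3.trans (f4.of_dvd e4)).add_right a
            have e6 : p ∣ b + a := (e5.dvd_iff dvd_rfl).1 e1
            have e7 := Nat.dvd_gcd e6 e4
            rw [hab] at e7
            exact hp.one_lt.ne' (Nat.dvd_one.1 e7)
        · have e1 : s q + a ≡ c q.2 + a [MOD ∏ p ∈ q.2, p] := (hs2 q hq).add_right a
          unfold Nat.Coprime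
          rw [e1.gcd_eq]
          exact hc q.2 hq'.2
    · intro d
      rcases eq_empty_or_nonempty ((J ×ˢ Ds X z).filter
        (fun q => M q.1 * ∏ p ∈ q.2, p = d)) with he | ⟨q0, hq0⟩
      · rw [he, sum_empty]
        positivity
      · rw [mem_filter, mem_product] at hq0
        obtain ⟨⟨g1, g2⟩, g3⟩ := hq0
        have hM0 := h1 q0.1 g1
        have hsub : (J ×ˢ Ds X z).filter (fun q => M q.1 * ∏ p ∈ q.2, p = d) ⊆
            (J.filter (fun j => M j = M q0.1)) ×ˢ {q0.2} := by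
          intro q hq
          rw [mem_filter, mem_product] at hq
          obtain ⟨⟨k1, k2⟩, k3⟩ := hq
          have hMq := h1 q.1 k1
          obtain ⟨l1, l2⟩ := smooth_rough (z := z) hMq.1 hMq.2.2.2.2.1 hM0.2.2.2.2.1
            (fun p hp hpd => Ds_rough k2 p hp hpd) (fun p hp hpd => Ds_rough g2 p hp hpd)
            (k3.trans g3.symm)
          rw [mem_product, mem_filter, mem_singleton]
          exact ⟨⟨k1, l1⟩, prod_inj _ _ (fun p hp => ((Ds_mem k2).1 p hp).1)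
            (fun p hp => ((Ds_mem g2).1 p hp).1) l2⟩
        have hd1 : 1 ≤ d := by
          rw [← g3]
          exact Nat.mul_pos hM0.1 (Ds_pos g2)
        have hτ := tau_one_le hd1
        calc ∑ q ∈ (J ×ˢ Ds X z).filter (fun q => M q.1 * ∏ p ∈ q.2, p = d),
              |g q.1 * γ q.2|
            ≤ ∑ q ∈ (J.filter (fun j => M j = M q0.1)) ×ˢ {q0.2}, |g q.1 * γ q.2| :=
              sum_le_sum_of_subset_of_nonneg hsub fun _ _ _ => abs_nonneg _
          _ = (∑ j ∈ J.filter (fun j => M j = M q0.1), |g j|) * |γ q0.2| := by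
              rw [sum_product, sum_mul]
              apply sum_congr rfl
              intro j _
              rw [sum_singleton, abs_mul]
          _ ≤ tau (M q0.1) ^ T'.card * (K : ℝ) ^ q0.2.card :=
              mul_le_mul (h2 _) (hγ _) (abs_nonneg _) (by
                have := tau_nonneg (M q0.1)
                positivity)
          _ ≤ tau d ^ k * tau d ^ K := by
              have k1 : tau (M q0.1) ^ T'.card ≤ tau d ^ k := by
                calc tau (M q0.1) ^ T'.card ≤ tau d ^ T'.card := by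
                      apply pow_le_pow_left₀ (tau_nonneg _)
                      exact tau_dvd (g3 ▸ dvd_mul_right _ _) hd1
                  _ ≤ tau d ^ k := pow_le_pow_right₀ hτ hk
              have k2 : (K : ℝ) ^ q0.2.card ≤ tau d ^ K := by
                refine (K_pow_le K q0.2 (fun p hp => ((Ds_mem g2).1 p hp).1)).trans ?_
                apply pow_le_pow_left₀ (tau_nonneg _)
                exact tau_dvd (g3 ▸ dvd_mul_left _ _) hd1
              apply mul_le_mul k1 k2 (by positivity) (by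
                have := tau_nonneg d
                positivity)
          _ = _ := by
              rw [← pow_add]
              rfl
  · intro x
    unfold FD FF
    rw [sum_mul_sum, sum_product]
    apply sum_congr rfl
    intro j hj
    apply sum_congr rfl
    intro D hD
    have hq : (j, D) ∈ J ×ˢ Ds X z := mem_product.2 ⟨hj, hD⟩
    have e1 : (x + a ≡ s (j, D) + a [MOD M j * ∏ p ∈ D, p]) ↔
        (x ≡ r j [MOD M j] ∧ x ≡ c D [MOD ∏ p ∈ D, p]) := by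
      rw [hs3 (j, D) hq x]
      constructor
      · exact fun h => Nat.ModEq.add_right_cancel' _ h
      · exact fun h => h.add_right a
    simp only [e1]
    by_cases k1 : x ≡ r j [MOD M j]
    · by_cases k2 : x ≡ c D [MOD ∏ p ∈ D, p]
      · rw [if_pos k1, if_pos k2, if_pos ⟨k1, k2⟩, mul_one]
      · rw [if_neg k2, mul_zero, mul_zero,
          if_neg (show ¬ (x ≡ r j [MOD M j] ∧ x ≡ c D [MOD ∏ p ∈ D, p]) from fun h => k2 h.2)]
        try rw [mul_zero]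
    · rw [if_neg k1,
        if_neg (show ¬ (x ≡ r j [MOD M j] ∧ x ≡ c D [MOD ∏ p ∈ D, p]) from fun h => k1 h.1)]
      simp only [mul_zero, zero_mul]

/-- from sums up to `N` to sums over `[4X, 8X)` with a shift -/
lemma shift_bound {f : ℕ → ℝ} {a X : ℕ} {Bd α : ℝ} (hX : 1 ≤ X)
    (h1 : ‖∑ n ∈ Icc 1 (8 * X + a - 1), ((f n : ℝ) : ℂ) * ee ((n : ℝ) * α)‖ ≤ Bd)
    (h2 : ‖∑ n ∈ Icc 1 (4 * X + a - 1), ((f n : ℝ) : ℂ) * ee ((n : ℝ) * α)‖ ≤ Bd) :
    ‖∑ x ∈ Ico (4 * X) (8 * X), ((f (x + a) : ℝ) : ℂ) * ee ((x : ℝ) * α)‖ ≤ 2 * Bd := by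
  set F : ℕ → ℂ := fun n => ((f n : ℝ) : ℂ) * ee ((n : ℝ) * α) with hF
  have e1 : ∑ x ∈ Ico (4 * X) (8 * X), ((f (x + a) : ℝ) : ℂ) * ee ((x : ℝ) * α) =
      ee (-(a : ℝ) * α) * ∑ n ∈ Ico (4 * X + a) (8 * X + a), F n := by
    rw [← sum_Ico_add' F (4 * X) (8 * X) a, mul_sum]
    apply sum_congr rfl
    intro x _
    simp only [hF]
    have : ee ((x : ℝ) * α) = ee (-(a : ℝ) * α) * ee (((x + a : ℕ) : ℝ) * α) := by
      rw [← ee_add]
      congr 1
      push_cast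
      ring
    rw [this]
    ring
  have e2 : ∀ m : ℕ, 1 ≤ m → Icc 1 (m - 1) = Ico 1 m := by
    intro m hm
    ext n
    rw [mem_Icc, mem_Ico]
    omega
  rw [e2 _ (by omega)] at h1 h2
  have e3 : ∑ n ∈ Ico (4 * X + a) (8 * X + a), F n =
      ∑ n ∈ Ico 1 (8 * X + a), F n - ∑ n ∈ Ico 1 (4 * X + a), F n := by
    rw [eq_sub_iff_add_eq, add_comm, sum_Ico_consecutive F (by omega) (by omega)]
  rw [e1, norm_mul, norm_ee, one_mul, e3]
  refine (norm_sub_le _ _).trans ?_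
  linarith

end Pool.Agent.T2H22.AA.EP
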