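import Pool.Agent.T2H22.AA.EP2

/-!
Package P of project AA (helper22), part 3: the error terms (helper68).
-/

set_option autoImplicit false

namespace Pool.Agent.T2H22.AA.EP

open Finset
open Pool.Agent.H361R2.PP
open Pool.Agent.W70.HR
open Pool.Agent.H373R2.T7 Pool.Agent.H807R2.Dav
open Pool.Agent.T2H22.AA.MF

lemma norm_sum_ee (s : Finset ℕ) (f : ℕ → ℝ) (α : ℝ) :
    ‖∑ x ∈ s, ((f x : ℝ) : ℂ) * ee ((x : ℝ) * α)‖ ≤ ∑ x ∈ s, |f x| := by
  refine (norm_sum_le _ _).trans (sum_le_sum fun x _ => ?_)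
  rw [norm_mul, norm_ee, mul_one, Complex.norm_real, Real.norm_eq_abs]

/-- the first error term -/
lemma bound1 {X z b a K : ℕ} {T : Finset ℕ} {γ : Finset ℕ → ℝ} {c : Finset ℕ → ℕ}
    (hγ : ∀ D, |γ D| ≤ (K : ℝ) ^ D.card) (hX : 1 ≤ X) (haX : a ≤ X) (hL : 1 ≤ Real.log X)
    (h9 : Real.log ((9 * X : ℕ) : ℝ) ≤ 2 * Real.log X) (α : ℝ) :
    ‖∑ x ∈ Ico (4 * X) (8 * X), (((rhoT X z b T x - rhoT X z b (T.erase a) x) *
        (ArithmeticFunction.vonMangoldt (x + a) - lamz z (x + a)) * FD X z γ c x : ℝ) : ℂ) *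
      ee ((x : ℝ) * α)‖ ≤
      √X * (2 * Real.log X) ^ (2 ^ K) * (z * (5 * Real.log X * (2 * Real.log X))) := by
  classical
  refine (norm_sum_ee _ _ α).trans ?_
  have hS : ∑ D ∈ Ds X z, (K : ℝ) ^ D.card ≤ √X * (2 * Real.log X) ^ (2 ^ K) := sum_Ds K hL
  have hS0 : (0 : ℝ) ≤ ∑ D ∈ Ds X z, (K : ℝ) ^ D.card := sum_nonneg fun _ _ => by positivity
  have h1 : ∀ x ∈ Ico (4 * X) (8 * X), |(rhoT X z b T x - rhoT X z b (T.erase a) x) *
        (ArithmeticFunction.vonMangoldt (x + a) - lamz z (x + a)) * FD X z γ c x| ≤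
      (∑ D ∈ Ds X z, (K : ℝ) ^ D.card) *
        (if ∃ p ∈ pz z, p ∣ x + a then ArithmeticFunction.vonMangoldt (x + a) else 0) := by
    intro x _
    rw [abs_mul, mul_comm]
    exact mul_le_mul (abs_FD_le' K hγ x) (rhoT_erase x (x + a) rfl) (abs_nonneg _) hS0
  refine (sum_le_sum h1).trans ?_
  rw [← mul_sum]
  have h2 : ∑ x ∈ Ico (4 * X) (8 * X),
      (if ∃ p ∈ pz z, p ∣ x + a then ArithmeticFunction.vonMangoldt (x + a) else 0) ≤
      ∑ n ∈ (Icc 1 (9 * X)).filter (fun n => ∃ p ∈ pz z, p ∣ n), ArithmeticFunction.vonMangoldt n := by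
    rw [sum_filter]
    have e := sum_Ico_add' (fun n => if ∃ p ∈ pz z, p ∣ n then ArithmeticFunction.vonMangoldt n else 0)
      (4 * X) (8 * X) a
    rw [e]
    apply sum_le_sum_of_subset_of_nonneg
    · intro n hn
      rw [mem_Ico] at hn
      rw [mem_Icc]
      omega
    · intro n _ _
      split_ifs
      · exact ArithmeticFunction.vonMangoldt_nonneg
      · exact le_rfl
  have h3 := h2.trans (lam_small z (9 * X))
  have h4 := natlog_le (9 * X) (by omega)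
  have h5 : (Nat.log 2 (9 * X) + 1 : ℝ) ≤ 5 * Real.log X := by linarith
  have h6 : 0 ≤ Real.log ((9 * X : ℕ) : ℝ) := Real.log_natCast_nonneg _
  have h7 : (z : ℝ) * ((Nat.log 2 (9 * X) + 1 : ℝ) * Real.log ((9 * X : ℕ) : ℝ)) ≤
      z * (5 * Real.log X * (2 * Real.log X)) := by
    apply mul_le_mul_of_nonneg_left _ (Nat.cast_nonneg z)
    apply mul_le_mul h5 h9 h6
    positivity
  apply mul_le_mul hS (h3.trans h7) _ (by positivity)
  apply sum_nonneg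
  intro x _
  split_ifs
  · exact ArithmeticFunction.vonMangoldt_nonneg
  · exact le_rfl

/-- the second error term -/
lemma bound2 {X z K A : ℕ} {γ : Finset ℕ → ℝ} {c : Finset ℕ → ℕ} {f Δ : ℕ → ℝ}
    (hγ : ∀ D, |γ D| ≤ (K : ℝ) ^ D.card) (hX : 1 ≤ X) (hL : 1 ≤ Real.log X)
    (hf : ∀ D : ℕ, 1 ≤ D → D ^ 8 ≤ X → (∀ p : ℕ, p.Prime → p ∣ D → z < p) → ∀ c : ℕ,
      ∑ x ∈ (Icc 1 (10 * X)).filter (fun x => x ≡ c [MOD D]), |f x| ≤ X / (D * Real.log X ^ A))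
    (hΔ : ∀ x ∈ Ico (4 * X) (8 * X), |Δ x| ≤ 3 * Real.log X) (α : ℝ) :
    ‖∑ x ∈ Ico (4 * X) (8 * X), ((f x * Δ x * FD X z γ c x : ℝ) : ℂ) * ee ((x : ℝ) * α)‖ ≤
      3 * Real.log X * ((X / Real.log X ^ A) * (2 * Real.log X) ^ (2 ^ K)) := by
  classical
  refine (norm_sum_ee _ _ α).trans ?_
  have h1 : ∀ x ∈ Ico (4 * X) (8 * X), |f x * Δ x * FD X z γ c x| ≤
      3 * Real.log X * ∑ D ∈ Ds X z, (K : ℝ) ^ D.card *
        (if x ≡ c D [MOD ∏ p ∈ D, p] then |f x| else 0) := by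
    intro x hx
    have e : ∑ D ∈ Ds X z, (K : ℝ) ^ D.card * (if x ≡ c D [MOD ∏ p ∈ D, p] then |f x| else 0) =
        |f x| * ∑ D ∈ Ds X z, (K : ℝ) ^ D.card *
          (if x ≡ c D [MOD ∏ p ∈ D, p] then 1 else 0) := by
      rw [mul_sum]
      apply sum_congr rfl
      intro D _
      split_ifs
      · ring
      · ring
    rw [e, abs_mul, abs_mul]
    calc |f x| * |Δ x| * |FD X z γ c x|
        ≤ |f x| * (3 * Real.log X) * (∑ D ∈ Ds X z, (K : ℝ) ^ D.card *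
          (if x ≡ c D [MOD ∏ p ∈ D, p] then 1 else 0)) :=
          mul_le_mul (mul_le_mul_of_nonneg_left (hΔ x hx) (abs_nonneg _)) (abs_FD_le K hγ x)
            (abs_nonneg _) (by positivity)
      _ = _ := by ring
  refine (sum_le_sum h1).trans ?_
  rw [← mul_sum, sum_comm]
  apply mul_le_mul_of_nonneg_left _ (by positivity)
  have h2 : ∀ D ∈ Ds X z, ∑ x ∈ Ico (4 * X) (8 * X), (K : ℝ) ^ D.card *
        (if x ≡ c D [MOD ∏ p ∈ D, p] then |f x| else 0) ≤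
      (X / Real.log X ^ A) * ((K : ℝ) ^ D.card * (1 / ((∏ p ∈ D, p : ℕ) : ℝ))) := by
    intro D hD
    rw [← mul_sum]
    have e1 : ∑ x ∈ Ico (4 * X) (8 * X), (if x ≡ c D [MOD ∏ p ∈ D, p] then |f x| else 0) ≤
        ∑ x ∈ (Icc 1 (10 * X)).filter (fun x => x ≡ c D [MOD ∏ p ∈ D, p]), |f x| := by
      rw [sum_filter]
      apply sum_le_sum_of_subset_of_nonneg
      · intro n hn
        rw [mem_Ico] at hn
        rw [mem_Icc]
        omega
      · intro n _ _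
        split_ifs
        · exact abs_nonneg _
        · exact le_rfl
    have h8 : (∏ p ∈ D, p) ^ 8 ≤ X :=
      (Nat.pow_le_pow_right (Ds_pos hD) (by norm_num)).trans (Ds_pow hD)
    have e2 := hf (∏ p ∈ D, p) (Ds_pos hD) h8 (fun p hp hpd => Ds_rough hD p hp hpd) (c D)
    calc (K : ℝ) ^ D.card * ∑ x ∈ Ico (4 * X) (8 * X),
          (if x ≡ c D [MOD ∏ p ∈ D, p] then |f x| else 0)
        ≤ (K : ℝ) ^ D.card * (X / (((∏ p ∈ D, p : ℕ) : ℝ) * Real.log X ^ A)) :=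
          mul_le_mul_of_nonneg_left (e1.trans e2) (by positivity)
      _ = _ := by
          rw [div_mul_eq_div_div_swap]
          ring
  refine (sum_le_sum h2).trans ?_
  rw [← mul_sum]
  exact mul_le_mul_of_nonneg_left (sum_Ds' K hL) (by positivity)

/-- the fifth error term -/
lemma bound5 {X z b K : ℕ} {T : Finset ℕ} {γ : Finset ℕ → ℝ} {V : ℝ}
    (hγ : ∀ D, |γ D| ≤ (K : ℝ) ^ D.card) (hX : 1 ≤ X) (hL : 1 ≤ Real.log X)
    (hV0 : 0 ≤ V) (hV : V ≤ Real.log X) (hz : 4 * Real.log X ≤ z) (α : ℝ) :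
    ‖∑ x ∈ Ico (4 * X) (8 * X), ((V * rhoT X z b T x * ∑ D ∈ Ds X z, γ D *
        (1 / ∏ p ∈ D, (p : ℝ) - 1 / ∏ p ∈ D, ((p : ℝ) - 1)) : ℝ) : ℂ) * ee ((x : ℝ) * α)‖ ≤
      4 * X * (Real.log X * ((4 * Real.log X / z) * (2 * Real.log X) ^ (2 ^ K))) := by
  classical
  have hz0 : (0 : ℝ) < z := by linarith
  have hz1 : 1 ≤ z := by
    have : (0 : ℝ) < z := hz0
    exact_mod_cast this
  refine (norm_sum_ee _ _ α).trans ?_
  have h0 : |∑ D ∈ Ds X z, γ D * (1 / ∏ p ∈ D, (p : ℝ) - 1 / ∏ p ∈ D, ((p : ℝ) - 1))| ≤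
      (4 * Real.log X / z) * (2 * Real.log X) ^ (2 ^ K) := by
    refine (abs_sum_le_sum_abs _ _).trans ?_
    have h1 : ∀ D ∈ Ds X z, |γ D * (1 / ∏ p ∈ D, (p : ℝ) - 1 / ∏ p ∈ D, ((p : ℝ) - 1))| ≤
        (4 * Real.log X / z) * ((K : ℝ) ^ D.card * (1 / ((∏ p ∈ D, p : ℕ) : ℝ))) := by
      intro D hD
      have hc := card_le_log (fun p hp => ((Ds_mem hD).1 p hp).1) ((Ds_mem hD).2.trans Y16_le)
      have hd := diff_prod hz1 D (Ds_mem hD).1 (by linarith)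
      rw [abs_mul]
      have e1 : |1 / ∏ p ∈ D, (p : ℝ) - 1 / ∏ p ∈ D, ((p : ℝ) - 1)| ≤
          1 / (∏ p ∈ D, (p : ℝ)) * (4 * Real.log X / z) := by
        rw [abs_sub_comm, abs_of_nonneg hd.1]
        refine hd.2.trans ?_
        apply mul_le_mul_of_nonneg_left
        · apply div_le_div_of_nonneg_right _ hz0.le
          linarith
        · apply one_div_nonneg.2
          exact prod_nonneg fun p _ => Nat.cast_nonneg p
      calc _ ≤ (K : ℝ) ^ D.card * (1 / (∏ p ∈ D, (p : ℝ)) * (4 * Real.log X / z)) :=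
            mul_le_mul (hγ D) e1 (abs_nonneg _) (by positivity)
        _ = _ := by
            push_cast
            ring
    refine (sum_le_sum h1).trans ?_
    rw [← mul_sum]
    apply mul_le_mul_of_nonneg_left (sum_Ds' K hL)
    positivity
  have h2 : ∀ x ∈ Ico (4 * X) (8 * X), |V * rhoT X z b T x * ∑ D ∈ Ds X z, γ D *
        (1 / ∏ p ∈ D, (p : ℝ) - 1 / ∏ p ∈ D, ((p : ℝ) - 1))| ≤
      Real.log X * ((4 * Real.log X / z) * (2 * Real.log X) ^ (2 ^ K)) := by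
    intro x _
    rw [abs_mul]
    apply mul_le_mul _ h0 (abs_nonneg _) (by positivity)
    rw [abs_mul, abs_of_nonneg hV0, abs_of_nonneg (rhoT_nonneg _ _ _ _ _)]
    calc V * rhoT X z b T x ≤ V * 1 := mul_le_mul_of_nonneg_left (rhoT_le_one _ _ _ _ _) hV0
      _ ≤ Real.log X := by linarith
  refine (sum_le_card_nsmul _ _ _ h2).trans ?_
  rw [Nat.card_Ico, nsmul_eq_mul]
  apply le_of_eq
  congr 1
  have : 8 * X - 4 * X = 4 * X := by omega
  rw [this]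
  push_cast
  ring

end Pool.Agent.T2H22.AA.EP
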