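import Pool.Agent.W70.HR.Asm
import Pool.Agent.W70.HR.WtA

/-!
Project AA: the Maynard-Tao sieve in a weighted environment, part 1: correlations of Selberg type
functions (translation of the engine statement `MomW` for general weights).
-/

set_option autoImplicit false

open Finset Filter

namespace Pool.Agent.T2H22.AA

open Pool.Agent.H361R2.PP
open Pool.Agent.H410R2
open Pool.Agent.W70.HR

/-- all the numbers `n + a`, `a ∈ U`, are free of primes of `(z, 2^(2^J))` -/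
noncomputable def rE (z J : ℕ) (U : Finset ℕ) (n : ℕ) : ℝ := ∏ a ∈ U, rg (P1 z J) a n

/-- the density -/
noncomputable def VE (z J : ℕ) : ℝ := ∏ p ∈ P1 z J, (1 - 1 / (p : ℝ))

theorem dens (o : Option ℕ) (P : Finset ℕ) (hP : ∀ p ∈ P, p.Prime) : EN.Dens (kk o) (ee o) P := by
  refine (Pool.Agent.H379R2.PP.sm3 o P ∅ 0 (fun _ => 0) 0 0 hP ?_ (by simp)).2
  refine ⟨by simp, fun _ => le_rfl, fun D _ r _ => by simp⟩

theorem env_mla (N : ℕ) : ∃ K : ℕ, 1 ≤ K ∧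
  ∀ (o : Option ℕ) (z b J D0 D2 : ℕ) (P2' : Finset ℕ) (w : ℕ → ℝ) (M : ℕ) (Ω : ℝ)
    (Er : Finset ℕ → ℝ)
    (U : Finset ℕ) (F F' : ℕ → Finset (Finset ℕ)) (d E : ℝ),
    U.card ≤ N → K ≤ b → K ≤ z → z < 2 ^ 2 ^ J → 1 ≤ J →
    (∀ p ∈ P2', p.Prime ∧ 2 ^ 2 ^ J ≤ p) →
    (∀ a ∈ U, (∀ R ∈ F a, R ⊆ P2') ∧ ∀ R ∈ F' a, R ⊆ P2') →
    (∀ f f' : ℕ → Finset ℕ, (∀ a ∈ U, f a ∈ F a ∧ f' a ∈ F' a) →
      (∏ a ∈ U, ∏ p ∈ f a, p) * (∏ a ∈ U, ∏ p ∈ f' a, p) ≤ D2) →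
    0 ≤ Ω → (∀ m, 0 ≤ w m) → EN.Equid (kk o) w M Ω (P1 z J ∪ P2') D0 Er →
    ∑ D ∈ (P1 z J ∪ P2').powerset.filter (fun D : Finset ℕ => ∏ p ∈ D, p ≤ D0),
      (K : ℝ) ^ D.card * Er D ≤ E →
    (2 ^ 2 ^ J) ^ (K * b) * D2 ≤ D0 → d ≤ 1 →
    EN.dl (ee o) rho (P1 z J ∪ P2') U ≤ d →
    ((∀ a ∈ U, F a = F' a) ∨ ∃ a ∈ U, Disjoint (F a) (F' a)) →
    |∑ n ∈ range M, w n * (rE z J U n * ((∏ a ∈ U, FS (F a) a n) * ∏ a ∈ U, FS (F' a) a n)) -
      (by classical exact if ∀ a ∈ U, F a = F' a then Ω * VE z J ^ U.card * ∏ a ∈ U, AC.GG (F a) else 0)| ≤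
      EN.EE K b J P2' Ω (VE z J ^ U.card) d E := by
  classical
  obtain ⟨hr, hrg, hFF⟩ := Pool.Agent.H379R2.PP.sm1
  obtain ⟨K, hK1, HK⟩ := momW N
  refine ⟨K, hK1, ?_⟩
  intro o z b J D0 D2 P2' w M Ω Er U F F' d E hUN hKb hKH hHJ hJ1 hP2 hFP hprod hΩ hw0 hEqd hE hD0
    hd1 hdl halt
  -- the primes
  have hP1 : ∀ p ∈ P1 z J, p.Prime ∧ z < p ∧ p ≤ 2 ^ 2 ^ J := by
    intro p hp
    simp only [P1, Finset.mem_filter, Finset.mem_range] at hp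
    exact ⟨hp.2.1, hp.2.2, hp.1.le⟩
  have hP2a : ∀ p ∈ P2', p.Prime ∧ z < p ∧ 2 ^ 2 ^ J < p := by
    intro p hp
    obtain ⟨hpp, hple⟩ := hP2 p hp
    refine ⟨hpp, lt_of_lt_of_le hHJ hple, lt_of_le_of_ne hple ?_⟩
    intro he
    rw [← he] at hpp
    exact Pool.Agent.W578.HR.not_prime_pow hJ1 hpp
  have hpr : ∀ p ∈ P1 z J ∪ P2', p.Prime := by
    intro p hp
    rcases Finset.mem_union.mp hp with h | h
    · exact (hP1 p h).1
    · exact (hP2 p h).1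
  have hge1 : ∀ p ∈ P1 z J ∪ P2', 1 ≤ p := fun p hp => (hpr p hp).one_lt.le
  have hge1a : ∀ p ∈ P1 z J, 1 ≤ p := fun p hp => hge1 p (Finset.mem_union_left _ hp)
  have hge1b : ∀ p ∈ P2', 1 ≤ p := fun p hp => hge1 p (Finset.mem_union_right _ hp)
  have hDens := dens o (P1 z J ∪ P2') hpr
  set σ : {a // a ∈ U} → Option ℕ := fun a => some a.1 with hσ
  have hpos : AC.pos σ = U := Pool.Agent.W578.HR.pos_sub U
  have hposU : AC.pos σ ∪ AC.pos σ = U := by rw [hpos, Finset.union_self]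
  have hcard : Fintype.card {a // a ∈ U} ≤ N := by
    rw [Fintype.card_coe]; exact hUN
  have hstd : ∀ G : ℕ → Finset (Finset ℕ), (∀ a ∈ U, ∀ R ∈ G a, R ⊆ P2') →
      AC.Std rho P2' (fun a : {a // a ∈ U} => G a.1) σ := by
    intro G hG
    refine ⟨?_, ?_, ?_, ?_⟩
    · intro τ τ' a h h'
      have e1 : τ.1 = a := Option.some.inj h
      have e2 : τ'.1 = a := Option.some.inj h'
      exact Subtype.ext (e1.trans e2.symm)
    · intro τ h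
      simp [hσ] at h
    · intro τ R hR
      exact hG τ.1 τ.2 R hR
    · intro p hp a _
      exact Pool.Agent.W578.HR.rho_lt a (hge1b p hp)
  have hprod' : ∀ R ∈ Fintype.piFinset (fun a : {a // a ∈ U} => F a.1),
      ∀ R' ∈ Fintype.piFinset (fun a : {a // a ∈ U} => F' a.1),
      (∏ τ, ∏ p ∈ R τ, p) * (∏ τ, ∏ p ∈ R' τ, p) ≤ D2 := by
    intro R hR R' hR'
    rw [Fintype.mem_piFinset] at hR hR'
    have h := hprod (fun a => if h : a ∈ U then R ⟨a, h⟩ else ∅)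
      (fun a => if h : a ∈ U then R' ⟨a, h⟩ else ∅) (by
        intro a ha
        simp only [dif_pos ha]
        exact ⟨hR ⟨a, ha⟩, hR' ⟨a, ha⟩⟩)
    have e : ∀ Q : {a // a ∈ U} → Finset ℕ,
        ∏ a ∈ U, ∏ p ∈ (if h : a ∈ U then Q ⟨a, h⟩ else ∅), p = ∏ τ, ∏ p ∈ Q τ, p := by
      intro Q
      rw [← Finset.prod_coe_sort U]
      apply Finset.prod_congr rfl
      intro τ _
      rw [dif_pos τ.2]
    rw [e R, e R'] at h
    exact h
  have hrho : ∀ p ∈ P1 z J, ∀ a ∈ AC.pos σ ∪ AC.pos σ, rho p a < p :=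
    fun p hp a _ => Pool.Agent.W578.HR.rho_lt a (hge1a p hp)
  have key := HK {a // a ∈ U} hcard b J z D0 D2 (P1 z J) P2' rho (kk o) (ee o) w M Ω Er
    (fun a : {a // a ∈ U} => F a.1) (fun a : {a // a ∈ U} => F' a.1) σ σ d
    hKb hKH hP1 hP2a hDens hw0 hΩ hEqd hD0 hprod' (hstd F fun a ha => (hFP a ha).1)
    (hstd F' fun a ha => (hFP a ha).2) hrho (by rw [hposU]; exact hdl) hd1
  rw [hposU] at key
  obtain ⟨key1, key2⟩ := key
  have hV1eq : EN.V1 (P1 z J) = VE z J := rfl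
  rw [hV1eq] at key1 key2
  have hZZ : ∀ G : ℕ → Finset (Finset ℕ), (∀ a ∈ U, ∀ R ∈ G a, R ⊆ P2') → ∀ m : ℕ,
      AC.ZZ rho (fun a : {a // a ∈ U} => G a.1) σ m = ∏ a ∈ U, FS (G a) a m := by
    intro G hG m
    unfold AC.ZZ
    rw [← Finset.prod_coe_sort U]
    apply Finset.prod_congr rfl
    intro τ _
    exact hFF (G τ.1) τ.1 m (fun R hR p hp => hge1b p (hG τ.1 τ.2 R hR hp))
  have hMM : EN.MM rho (P1 z J) w M (fun a : {a // a ∈ U} => F a.1)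
      (fun a : {a // a ∈ U} => F' a.1) σ σ =
      ∑ n ∈ range M, w n * (rE z J U n * ((∏ a ∈ U, FS (F a) a n) * ∏ a ∈ U, FS (F' a) a n)) := by
    unfold EN.MM
    apply Finset.sum_congr rfl
    intro n _
    rw [hposU, hZZ F (fun a ha => (hFP a ha).1), hZZ F' (fun a ha => (hFP a ha).2)]
    congr 2
    unfold rE
    apply Finset.prod_congr rfl
    intro a _
    exact hrg _ _ _ hge1a
  have hEE : EN.EE K b J P2' Ω (VE z J ^ U.card) d
      (EN.ET K (P1 z J ∪ P2') D0 Er) ≤ EN.EE K b J P2' Ω (VE z J ^ U.card) d E :=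
    Pool.Agent.W578.HR.EE_mono (fun p hp => (hP2 p hp).1.one_lt) hE
  rw [hMM] at key1 key2
  by_cases hall : ∀ a ∈ U, F a = F' a
  · rw [if_pos hall]
    have hSS : (fun a : {a // a ∈ U} => F a.1) = (fun a : {a // a ∈ U} => F' a.1) := by
      funext τ
      exact hall τ.1 τ.2
    have h := key2 rfl hSS
    rw [Finset.prod_coe_sort U (fun a => AC.GG (F a))] at h
    exact h.trans hEE
  · rw [if_neg hall, sub_zero]
    rcases halt with h | ⟨a, ha, hdis⟩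
    · exact absurd h hall
    · exact (key1 (Or.inr (Or.inr ⟨⟨a, ha⟩, ⟨a, ha⟩, a, rfl, rfl, hdis⟩))).trans hEE

end Pool.Agent.T2H22.AA
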