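import Pool.Agent.T2H22.AA.Env2

/-!
Project AA: the Maynard-Tao sieve in a weighted environment, part 3: second moments.
-/

set_option autoImplicit false

open Finset Filter Topology

namespace Pool.Agent.T2H22.AA

open Pool.Agent.H361R2.PP
open Pool.Agent.H410R2
open Pool.Agent.W70.HR
open Pool.W335.HR
open Pool.Agent.H410R2.AC (wt GG cfg term WW pos Inj coef)

variable {t : ℕ}

open Classical in
lemma corr16 {δ : ℝ} {X : ℕ} {U : Finset ℕ}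
    {S : Fin t → Finset (Finset ℕ)}
    {u : Fin t → ℝ} (hu : ∀ τ, 0 < u τ) (hθ : ∑ τ, u τ ≤ 1 / 64)
    (hS : ∀ τ, Fam δ X (u τ) (S τ)) (h0 : ∀ τ, ∅ ∉ S τ)
    (hd : ∀ τ τ', τ ≠ τ' → Disjoint (S τ) (S τ')) (hG : ∀ τ, 1 ≤ GG (S τ))
    (T : Finset ℕ) (w : ℕ → ℝ) (M e : ℝ)
    (H : ∀ (F F' : ℕ → Finset (Finset ℕ)) (u u' : ℕ → ℝ),
      (∀ a ∈ U, 0 ≤ u a ∧ Fam δ X (u a) (F a)) → (∀ a ∈ U, 0 ≤ u' a ∧ Fam δ X (u' a) (F' a)) →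
      ∑ a ∈ U, (u a + u' a) ≤ 1 / 32 →
      ((∀ a ∈ U, F a = F' a) ∨ ∃ a ∈ U, Disjoint (F a) (F' a)) →
      |∑ n ∈ T, w n * ((∏ a ∈ U, FS (F a) a n) * ∏ a ∈ U, FS (F' a) a n) -
        (if ∀ a ∈ U, F a = F' a then M * ∏ a ∈ U, GG (F a) else 0)| ≤ e) :
    ∀ σ ∈ cfg t U, ∀ σ' ∈ cfg t U,
      |∑ n ∈ T, w n * ((∏ a ∈ U, FS (phi S (fun _ => {∅}) σ a) a n) *
          ∏ a ∈ U, FS (phi S (fun _ => {∅}) σ' a) a n) -
        (if σ = σ' then M * ∏ a ∈ U, GG (phi S (fun _ => {∅}) σ a) else 0)| ≤ e := by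
  intro σ hσ σ' hσ'
  have hFam0 : Fam δ X 0 {∅} := by
    intro R hR
    rw [Finset.mem_singleton] at hR
    subst hR
    simp
  have hv : ∀ a ∈ U, (0 : ℝ) ≤ (fun _ : ℕ => (0 : ℝ)) a ∧
      Fam δ X ((fun _ : ℕ => (0 : ℝ)) a) ((fun _ : ℕ => ({∅} : Finset (Finset ℕ))) a) :=
    fun _ _ => ⟨le_rfl, hFam0⟩
  have hsum : ∑ a ∈ U, (uu u (fun _ => 0) σ a + uu u (fun _ => 0) σ' a) ≤ 1 / 32 := by
    rw [Finset.sum_add_distrib]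
    have h1 := uu_sum (U := U) hu (fun _ => 0) σ
    have h2 := uu_sum (U := U) hu (fun _ => 0) σ'
    simp only [Finset.sum_const_zero] at h1 h2
    linarith
  have hf := uu_fam (B := U) hu hS hv hσ
  have hf' := uu_fam (B := U) hu hS hv hσ'
  by_cases h : σ = σ'
  · have h1 := H _ _ _ _ hf hf' hsum (Or.inl (fun a _ => by rw [h]))
    rw [if_pos (fun a _ => by rw [h])] at h1
    rw [if_pos h]
    exact h1
  · obtain ⟨a, ha, h3, h4⟩ : ∃ a ∈ U, Disjoint (phi S (fun _ => {∅}) σ a) (phi S (fun _ => {∅}) σ' a) ∧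
        phi S (fun _ => {∅}) σ a ≠ phi S (fun _ => {∅}) σ' a := by
      obtain ⟨τ, hτ⟩ : ∃ τ, σ τ ≠ σ' τ := by
        by_contra hcon
        push Not at hcon
        exact h (funext hcon)
      cases h1 : σ τ with
      | some a =>
        exact ⟨a, (mem_cfg hσ).1 _ _ h1, phi_disj h0 hd hG (fun _ _ => rfl) hσ hσ' h1
          (fun h2 => hτ (h1.trans h2.symm))⟩
      | none =>
        cases h2 : σ' τ with
        | some a =>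
          have := phi_disj h0 hd hG (ψ := fun _ => {∅}) (B := U) (fun _ _ => rfl) hσ' hσ h2
            (by rw [h1]; simp)
          exact ⟨a, (mem_cfg hσ').1 _ _ h2, this.1.symm, this.2.symm⟩
        | none => exact absurd (h1.trans h2.symm) hτ
    have h1 := H _ _ _ _ hf hf' hsum (Or.inr ⟨a, ha, h3⟩)
    rw [if_neg (fun h5 => h4 (h5 a ha))] at h1
    rw [if_neg h]
    exact h1

theorem env_sm (N : ℕ) : ∃ K : ℕ, 1 ≤ K ∧ ∀ (m t : ℕ) (u β : Fin t → ℝ) (Λ s : ℝ),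
    (∀ τ, 0 < u τ ∧ 0 < β τ) → ∑ τ, β τ = 1 → ∑ τ, u τ ≤ 1 / 64 → 0 < Λ → 0 < s →
    ∃ δ₀ : ℝ, 0 < δ₀ ∧ ∀ δ : ℝ, 0 < δ → δ ≤ δ₀ → ∃ X₀ : ℕ, ∀ X : ℕ, X₀ ≤ X →
    ∀ z : ℕ, HH X ≤ z → z < 2 ^ 2 ^ JJ δ X →
    ∀ S : Fin t → Finset (Finset ℕ), (∀ τ, Fam δ X (u τ) (S τ)) → (∀ τ, ∅ ∉ S τ) →
    (∀ τ τ', τ ≠ τ' → Disjoint (S τ) (S τ')) → (∀ τ, 1 ≤ GG (S τ)) →
    ∀ γ : ℝ, 0 ≤ γ → 1 + γ ≤ (1 / δ) ^ m →
    ∀ (o : Option ℕ) (w : ℕ → ℝ) (M : ℕ) (Ω : ℝ), Envw o K (N + 2) X z w M Ω →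
    ∀ U : Finset ℕ, (∀ a ∈ U, 1 ≤ a ∧ (a : ℝ) ≤ Λ * Real.log X) → U.card ≤ N →
    (∀ a ∈ o, 1 ≤ a ∧ (a : ℝ) ≤ Λ * Real.log X ∧ a ∉ U) →
    ∀ c : (Fin t → Option ℕ) → ℝ, (∀ σ, |c σ| ≤ (1 + γ) ^ 2) →
    |∑ n ∈ range M, w n * rE z (JJ δ X) U n * WW U c (xh γ β S n) ^ 2 -
      Ω * VE z (JJ δ X) ^ U.card * ∑ σ ∈ cfg t U, c σ ^ 2 * term (qh γ β S) σ| ≤
      s * (Ω * VE z (JJ δ X) ^ U.card) := by
  classical
  obtain ⟨K, hK, hML⟩ := env_ml N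
  refine ⟨K, hK, ?_⟩
  intro m t u β Λ s huβ hβ1 hu hΛ hs
  have hN : (0 : ℝ) < ((N : ℝ) + 1) ^ (2 * t) := by positivity
  obtain ⟨δ₀, hδ₀, hML⟩ := hML (m * (2 * t + 4)) Λ (s / ((N : ℝ) + 1) ^ (2 * t)) hΛ
    (div_pos hs hN)
  refine ⟨δ₀, hδ₀, fun δ hδ hδ' => ?_⟩
  obtain ⟨X₀, hX₀⟩ := hML δ hδ hδ'
  refine ⟨X₀, fun X hX z hHz hzJ S hS h0 hd hG γ hγ hγm o w M Ω hEnv U hU hUN ho c hc => ?_⟩
  have key := hX₀ X hX z hHz hzJ o w M Ω hEnv U hU hUN ho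
  have huτ : ∀ τ, 0 < u τ := fun τ => (huβ τ).1
  have hβτ : ∀ τ, 0 < β τ := fun τ => (huβ τ).2
  set W := Ω * VE z (JJ δ X) ^ U.card with hW
  have hW0 : 0 ≤ W := mul_nonneg hEnv.2.1 (pow_nonneg (VE_pos _ _).le _)
  have herr : ((N : ℝ) + 1) ^ (2 * t) * (1 + γ) ^ (2 * t + 4) *
        (s / ((N : ℝ) + 1) ^ (2 * t) * δ ^ (m * (2 * t + 4)) * W) ≤ s * W := by
    have hM' : 0 ≤ s * W := by positivity
    have h1 : (1 + γ) ^ (2 * t + 4) * δ ^ (m * (2 * t + 4)) ≤ 1 := by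
      have h2 : (1 + γ) ^ (2 * t + 4) ≤ ((1 / δ) ^ m) ^ (2 * t + 4) :=
        pow_le_pow_left₀ (by linarith) hγm _
      calc (1 + γ) ^ (2 * t + 4) * δ ^ (m * (2 * t + 4))
          ≤ ((1 / δ) ^ m) ^ (2 * t + 4) * δ ^ (m * (2 * t + 4)) := by gcongr
        _ = 1 := by
            rw [← pow_mul, ← mul_pow, one_div, inv_mul_cancel₀ hδ.ne', one_pow]
    calc ((N : ℝ) + 1) ^ (2 * t) * (1 + γ) ^ (2 * t + 4) *
        (s / ((N : ℝ) + 1) ^ (2 * t) * δ ^ (m * (2 * t + 4)) * W)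
        = (1 + γ) ^ (2 * t + 4) * δ ^ (m * (2 * t + 4)) * (s * W) := by
          field_simp
      _ ≤ 1 * (s * W) := by gcongr
      _ = s * W := one_mul _
  have hF1 : ∀ n a, FS {∅} a n = 1 := by
    intro n a
    unfold FS AC.wt
    simp
  have hG1 : GG {∅} = 1 := by
    unfold GG AC.wt
    simp
  have h1 := corr16 (U := U) (T := range M) (w := fun n => w n * rE z (JJ δ X) U n) (M := W)
    (e := s / ((N : ℝ) + 1) ^ (2 * t) * δ ^ (m * (2 * t + 4)) * W) huτ hu hS h0 hd hG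
    (by
      intro F F' u u' a1 a2 a3 a4
      have := key F F' u u' a1 a2 a3 a4
      simp only [mul_assoc] at this ⊢
      exact this)
  have h2 := moment (B := U) (U := U) (le_refl U) hUN hG hβτ hβ1 hγ hc (fun _ _ => rfl) (range M)
    (fun n => w n * rE z (JJ δ X) U n) W _ h1
  simp only [hF1, hG1, Finset.prod_const_one, one_mul] at h2
  exact h2.trans herr

end Pool.Agent.T2H22.AA
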