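import Pool.Agent.T2H22.AA.EI1

/-!
Project AA, part I: the rough integers in the classes modulo products of large primes, with additive
characters.
-/

set_option autoImplicit false

namespace Pool.Agent.T2H22.AA

open Finset
open Pool.Agent.H361R2.PP
open Pool.Agent.W70.HR
open Pool.Agent.H373R2.T7 Pool.Agent.H807R2.Dav

namespace EI

section

variable {ι : Type} {J : Finset ι} {M r : ι → ℕ} {g : ι → ℝ} {X z k K : ℕ}

/-- the expansion -/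
theorem expand (J : Finset ι) (M r : ι → ℕ) (g : ι → ℝ) (X z : ℕ) (γ : Finset ℕ → ℝ)
    (c : Finset ℕ → ℕ) (α : ℝ) :
    ∑ x ∈ Ico (4 * X) (8 * X), (((∑ j ∈ J, if x ≡ r j [MOD M j] then g j else 0) *
      ∑ D ∈ Ds X z, γ D * ((if x ≡ c D [MOD ∏ p ∈ D, p] then 1 else 0) - 1 / ∏ p ∈ D, (p : ℝ)) : ℝ) : ℂ) *
        ee ((x : ℝ) * α) =
    ∑ D ∈ Ds X z, ∑ j ∈ J, (((γ D : ℝ) : ℂ) * ((g j : ℝ) : ℂ)) * SS X (M j) (∏ p ∈ D, p) (r j) (c D) α := by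
  classical
  have h1 : ∀ x ∈ Ico (4 * X) (8 * X), (((∑ j ∈ J, if x ≡ r j [MOD M j] then g j else 0) *
      ∑ D ∈ Ds X z, γ D * ((if x ≡ c D [MOD ∏ p ∈ D, p] then 1 else 0) - 1 / ∏ p ∈ D, (p : ℝ)) : ℝ) : ℂ) *
        ee ((x : ℝ) * α) = ∑ D ∈ Ds X z, ∑ j ∈ J, (((γ D : ℝ) : ℂ) * ((g j : ℝ) : ℂ)) *
          (if x ≡ r j [MOD M j] then
            ((((if x ≡ c D [MOD ∏ p ∈ D, p] then 1 else 0) - 1 / ((∏ p ∈ D, p : ℕ) : ℝ) : ℝ)) : ℂ) *
              ee ((x : ℝ) * α) else 0) := by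
    intro x _
    rw [mul_comm (∑ j ∈ J, if x ≡ r j [MOD M j] then g j else 0), sum_mul, Complex.ofReal_sum, sum_mul]
    apply sum_congr rfl
    intro D _
    rw [mul_sum, Complex.ofReal_sum, sum_mul]
    apply sum_congr rfl
    intro j _
    have e : ((∏ p ∈ D, p : ℕ) : ℝ) = ∏ p ∈ D, (p : ℝ) := Nat.cast_prod _ _
    rw [e]
    by_cases h : x ≡ r j [MOD M j]
    · rw [if_pos h, if_pos h]
      push_cast
      ring
    · rw [if_neg h, if_neg h]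
      simp
  rw [sum_congr rfl h1, sum_comm]
  apply sum_congr rfl
  intro D _
  rw [sum_comm]
  apply sum_congr rfl
  intro j _
  rw [← mul_sum]
  congr 1
  unfold SS
  rw [sum_filter]

theorem norm_expand (γ : Finset ℕ → ℝ) (hγ : ∀ D, |γ D| ≤ (K : ℝ) ^ D.card) (c : Finset ℕ → ℕ) (α : ℝ)
    (W : ℕ → ℕ → ℝ) (hW : ∀ D ∈ Ds X z, ∀ j ∈ J, ‖SS X (M j) (∏ p ∈ D, p) (r j) (c D) α‖ ≤
      W (∏ p ∈ D, p) (M j)) :
    ‖∑ D ∈ Ds X z, ∑ j ∈ J, (((γ D : ℝ) : ℂ) * ((g j : ℝ) : ℂ)) * SS X (M j) (∏ p ∈ D, p) (r j) (c D) α‖ ≤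
      ∑ D ∈ Ds X z, (K : ℝ) ^ D.card * ∑ j ∈ J, |g j| * W (∏ p ∈ D, p) (M j) := by
  refine (norm_sum_le _ _).trans (sum_le_sum fun D hD => ?_)
  rw [mul_sum]
  refine (norm_sum_le _ _).trans (sum_le_sum fun j hj => ?_)
  rw [norm_mul, norm_mul, Complex.norm_real, Complex.norm_real, Real.norm_eq_abs, Real.norm_eq_abs, mul_assoc]
  apply mul_le_mul (hγ D) _ (by positivity) (by positivity)
  exact mul_le_mul_of_nonneg_left (hW D hD j hj) (abs_nonneg _)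

/-- minor arcs -/
theorem sum_minor (hJ : ∀ j ∈ J, 1 ≤ M j ∧ M j ≤ Y16 X)
    (hg : ∀ d : ℕ, ∑ j ∈ J.filter (fun j => M j = d), |g j| ≤ (d.divisors.card : ℝ) ^ k) (α : ℝ) :
    ∑ D ∈ Ds X z, (K : ℝ) ^ D.card * ∑ j ∈ J, |g j| *
      (KK (2 * ((4 * X : ℕ) : ℝ) / (((∏ p ∈ D, p) * M j : ℕ) : ℝ)) ((((∏ p ∈ D, p) * M j : ℕ) : ℝ) * α) +
        1 / ((∏ p ∈ D, p : ℕ) : ℝ) * KK (2 * ((4 * X : ℕ) : ℝ) / M j) (M j * α)) ≤
    ∑ t ∈ Icc 1 (Y16 X * Y16 X), (t.divisors.card : ℝ) ^ (k + K + 1) * KK (2 * ((4 * X : ℕ) : ℝ) / t) (t * α) +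
      (1 + Real.log (Y16 X)) ^ (2 ^ K) *
        ∑ t ∈ Icc 1 (Y16 X), (t.divisors.card : ℝ) ^ k * KK (2 * ((4 * X : ℕ) : ℝ) / t) (t * α) := by
  obtain ⟨Φ, hΦ⟩ : ∃ Φ : ℕ → ℝ, Φ = fun t : ℕ => KK (2 * ((4 * X : ℕ) : ℝ) / (t : ℝ)) ((t : ℝ) * α) :=
    ⟨_, rfl⟩
  have hΦ0 : ∀ t, 0 ≤ Φ t := fun t => by rw [hΦ]; exact KK_nonneg (by positivity) _
  have h1 : ∑ D ∈ Ds X z, (K : ℝ) ^ D.card * ∑ j ∈ J, |g j| * Φ ((∏ p ∈ D, p) * M j) ≤
      ∑ t ∈ Icc 1 (Y16 X * Y16 X), (t.divisors.card : ℝ) ^ (k + K + 1) * Φ t := by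
    refine le_trans ?_ (pair_sum2 k K (Y16 X) (Y16 X) Φ hΦ0)
    refine le_trans ?_ (Ds_sum X z K (fun m => ∑ d ∈ Icc 1 (Y16 X), (d.divisors.card : ℝ) ^ k * Φ (m * d))
      (fun m => sum_nonneg fun d _ => mul_nonneg (by positivity) (hΦ0 _)))
    apply sum_le_sum
    intro D _
    apply mul_le_mul_of_nonneg_left _ (by positivity)
    exact group_sum hJ hg (fun d => Φ ((∏ p ∈ D, p) * d)) (fun _ => hΦ0 _)
  have h2 : ∑ D ∈ Ds X z, (K : ℝ) ^ D.card * ∑ j ∈ J, |g j| * (1 / ((∏ p ∈ D, p : ℕ) : ℝ) * Φ (M j)) ≤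
      (1 + Real.log (Y16 X)) ^ (2 ^ K) * ∑ t ∈ Icc 1 (Y16 X), (t.divisors.card : ℝ) ^ k * Φ t := by
    have h3 : ∑ j ∈ J, |g j| * Φ (M j) ≤ ∑ t ∈ Icc 1 (Y16 X), (t.divisors.card : ℝ) ^ k * Φ t :=
      group_sum hJ hg Φ hΦ0
    have h4 : 0 ≤ ∑ j ∈ J, |g j| * Φ (M j) := sum_nonneg fun j _ => mul_nonneg (abs_nonneg _) (hΦ0 _)
    calc ∑ D ∈ Ds X z, (K : ℝ) ^ D.card * ∑ j ∈ J, |g j| * (1 / ((∏ p ∈ D, p : ℕ) : ℝ) * Φ (M j))
        = (∑ D ∈ Ds X z, (K : ℝ) ^ D.card * (1 / ((∏ p ∈ D, p : ℕ) : ℝ))) * ∑ j ∈ J, |g j| * Φ (M j) := by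
          rw [sum_mul]
          apply sum_congr rfl; intro D _
          rw [mul_assoc, mul_sum (a := 1 / ((∏ p ∈ D, p : ℕ) : ℝ))]
          congr 1
          apply sum_congr rfl; intro j _
          ring
      _ ≤ (1 + Real.log (Y16 X)) ^ (2 ^ K) * ∑ t ∈ Icc 1 (Y16 X), (t.divisors.card : ℝ) ^ k * Φ t := by
          apply mul_le_mul _ h3 h4 (by
            have : 0 ≤ Real.log ((Y16 X : ℕ) : ℝ) := Real.log_natCast_nonneg _
            positivity)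
          refine (Ds_sum X z K (fun m => 1 / (m : ℝ)) (fun m => by positivity)).trans ?_
          refine le_trans (le_of_eq ?_) (dsum K (Y16 X))
          apply sum_congr rfl; intro m _
          ring
  have e : ∑ D ∈ Ds X z, (K : ℝ) ^ D.card * ∑ j ∈ J, |g j| *
      (Φ ((∏ p ∈ D, p) * M j) + 1 / ((∏ p ∈ D, p : ℕ) : ℝ) * Φ (M j)) =
      ∑ D ∈ Ds X z, (K : ℝ) ^ D.card * ∑ j ∈ J, |g j| * Φ ((∏ p ∈ D, p) * M j) +
      ∑ D ∈ Ds X z, (K : ℝ) ^ D.card * ∑ j ∈ J, |g j| * (1 / ((∏ p ∈ D, p : ℕ) : ℝ) * Φ (M j)) := by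
    rw [← sum_add_distrib]
    apply sum_congr rfl; intro D _
    rw [← mul_add, ← sum_add_distrib]
    congr 1
    apply sum_congr rfl; intro j _
    ring
  have h5 := add_le_add h1 h2
  rw [← e, hΦ] at h5
  exact h5

/-- major arcs -/
theorem sum_major (hJ : ∀ j ∈ J, 1 ≤ M j ∧ M j ≤ Y16 X)
    (hg : ∀ d : ℕ, ∑ j ∈ J.filter (fun j => M j = d), |g j| ≤ (d.divisors.card : ℝ) ^ k) (W : ℝ) (hW : 0 ≤ W) :
    ∑ D ∈ Ds X z, (K : ℝ) ^ D.card * ∑ j ∈ J, |g j| * W ≤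
      (Y16 X : ℝ) ^ 2 * ((1 + Real.log (Y16 X)) ^ (2 ^ K) * (1 + Real.log (Y16 X)) ^ (2 ^ k)) * W := by
  have hlog : 0 ≤ Real.log ((Y16 X : ℕ) : ℝ) := Real.log_natCast_nonneg _
  have hs : ∀ κ : ℕ, ∑ m ∈ Icc 1 (Y16 X), (m.divisors.card : ℝ) ^ κ * 1 ≤
      (Y16 X : ℝ) * (1 + Real.log (Y16 X)) ^ (2 ^ κ) := by
    intro κ
    refine le_trans ?_ (mul_le_mul_of_nonneg_left (dsum κ (Y16 X)) (Nat.cast_nonneg _))
    rw [mul_sum]
    apply sum_le_sum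
    intro m hm
    rw [mem_Icc] at hm
    have hm0 : (0 : ℝ) < m := by exact_mod_cast hm.1
    have hmY : (m : ℝ) ≤ Y16 X := by exact_mod_cast hm.2
    rw [mul_one, mul_div_assoc', le_div_iff₀ hm0, mul_comm]
    exact mul_le_mul_of_nonneg_right hmY (by positivity)
  have h1 : ∑ j ∈ J, |g j| * W ≤ ((Y16 X : ℝ) * (1 + Real.log (Y16 X)) ^ (2 ^ k)) * W := by
    rw [← sum_mul]
    apply mul_le_mul_of_nonneg_right _ hW
    have h2 := group_sum hJ hg (fun _ => (1 : ℝ)) (fun _ => zero_le_one)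
    simp only [mul_one] at h2
    refine h2.trans ?_
    have h3 := hs k
    simp only [mul_one] at h3
    exact h3
  have h2 : ∑ D ∈ Ds X z, (K : ℝ) ^ D.card ≤ (Y16 X : ℝ) * (1 + Real.log (Y16 X)) ^ (2 ^ K) := by
    have h3 := Ds_sum X z K (fun _ => (1 : ℝ)) (fun _ => zero_le_one)
    simp only [mul_one] at h3
    refine h3.trans ?_
    have h4 := hs K
    simp only [mul_one] at h4
    exact h4
  rw [← sum_mul]
  calc (∑ D ∈ Ds X z, (K : ℝ) ^ D.card) * ∑ j ∈ J, |g j| * W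
      ≤ ((Y16 X : ℝ) * (1 + Real.log (Y16 X)) ^ (2 ^ K)) * (((Y16 X : ℝ) * (1 + Real.log (Y16 X)) ^ (2 ^ k)) * W) := by
        apply mul_le_mul h2 h1 (sum_nonneg fun j _ => mul_nonneg (abs_nonneg _) hW) (by positivity)
    _ = _ := by ring

/-- the error from the truncation -/
theorem sum_trunc (R : ℕ → ℝ) (ρ : ℕ → ℝ) (V : ℝ) (hX : 1 ≤ X) (hV0 : 0 ≤ V)
    (hV : ∀ D ∈ Ds X z, ∀ c : ℕ, ∑ x ∈ (Icc 1 (10 * X)).filter (fun x => x ≡ c [MOD ∏ p ∈ D, p]),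
      |ρ x - R x| ≤ V / ((∏ p ∈ D, p : ℕ) : ℝ))
    (hV1 : ∑ x ∈ Icc 1 (10 * X), |ρ x - R x| ≤ V)
    (γ : Finset ℕ → ℝ) (hγ : ∀ D, |γ D| ≤ (K : ℝ) ^ D.card) (c : Finset ℕ → ℕ) :
    ∑ x ∈ Ico (4 * X) (8 * X), |(ρ x - R x) *
      ∑ D ∈ Ds X z, γ D * ((if x ≡ c D [MOD ∏ p ∈ D, p] then 1 else 0) - 1 / ∏ p ∈ D, (p : ℝ))| ≤
      2 * V * (1 + Real.log (Y16 X)) ^ (2 ^ K) := by
  classical
  have hsub : Ico (4 * X) (8 * X) ⊆ Icc 1 (10 * X) := by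
    intro x hx; rw [mem_Ico] at hx; rw [mem_Icc]; omega
  have h1 : ∀ x ∈ Ico (4 * X) (8 * X), |(ρ x - R x) *
      ∑ D ∈ Ds X z, γ D * ((if x ≡ c D [MOD ∏ p ∈ D, p] then 1 else 0) - 1 / ∏ p ∈ D, (p : ℝ))| ≤
      ∑ D ∈ Ds X z, (K : ℝ) ^ D.card * ((if x ≡ c D [MOD ∏ p ∈ D, p] then |ρ x - R x| else 0) +
        1 / ((∏ p ∈ D, p : ℕ) : ℝ) * |ρ x - R x|) := by
    intro x _
    rw [abs_mul]
    have h2 : |∑ D ∈ Ds X z, γ D * ((if x ≡ c D [MOD ∏ p ∈ D, p] then 1 else 0) - 1 / ∏ p ∈ D, (p : ℝ))| ≤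
        ∑ D ∈ Ds X z, (K : ℝ) ^ D.card * ((if x ≡ c D [MOD ∏ p ∈ D, p] then 1 else 0) +
          1 / ((∏ p ∈ D, p : ℕ) : ℝ)) := by
      refine (abs_sum_le_sum_abs _ _).trans (sum_le_sum fun D _ => ?_)
      rw [abs_mul]
      have e : ((∏ p ∈ D, p : ℕ) : ℝ) = ∏ p ∈ D, (p : ℝ) := Nat.cast_prod _ _
      rw [← e]
      apply mul_le_mul (hγ D) _ (abs_nonneg _) (by positivity)
      refine (abs_sub _ _).trans (add_le_add ?_ ?_)
      · split_ifs <;> simp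
      · rw [abs_of_nonneg (by positivity)]
    refine (mul_le_mul_of_nonneg_left h2 (abs_nonneg _)).trans (le_of_eq ?_)
    rw [mul_sum]
    apply sum_congr rfl; intro D _
    split_ifs <;> ring
  refine (sum_le_sum h1).trans ?_
  rw [sum_comm]
  have h2 : ∀ D ∈ Ds X z, ∑ x ∈ Ico (4 * X) (8 * X), (K : ℝ) ^ D.card *
      ((if x ≡ c D [MOD ∏ p ∈ D, p] then |ρ x - R x| else 0) + 1 / ((∏ p ∈ D, p : ℕ) : ℝ) * |ρ x - R x|) ≤
      (K : ℝ) ^ D.card * (2 * V * (1 / ((∏ p ∈ D, p : ℕ) : ℝ))) := by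
    intro D hD
    rw [← mul_sum]
    apply mul_le_mul_of_nonneg_left _ (by positivity)
    rw [sum_add_distrib, ← sum_filter, ← mul_sum]
    have h3 : ∑ x ∈ (Ico (4 * X) (8 * X)).filter (fun x => x ≡ c D [MOD ∏ p ∈ D, p]), |ρ x - R x| ≤
        V / ((∏ p ∈ D, p : ℕ) : ℝ) :=
      (sum_le_sum_of_subset_of_nonneg (filter_subset_filter _ hsub) fun _ _ _ => abs_nonneg _).trans (hV D hD _)
    have h4 : ∑ x ∈ Ico (4 * X) (8 * X), |ρ x - R x| ≤ V :=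
      (sum_le_sum_of_subset_of_nonneg hsub fun _ _ _ => abs_nonneg _).trans hV1
    have h5 := mul_le_mul_of_nonneg_left h4 (show (0 : ℝ) ≤ 1 / ((∏ p ∈ D, p : ℕ) : ℝ) by positivity)
    have h6 : V / ((∏ p ∈ D, p : ℕ) : ℝ) = 1 / ((∏ p ∈ D, p : ℕ) : ℝ) * V := by ring
    rw [h6] at h3
    linarith
  refine (sum_le_sum h2).trans ?_
  have h3 : ∑ D ∈ Ds X z, (K : ℝ) ^ D.card * (2 * V * (1 / ((∏ p ∈ D, p : ℕ) : ℝ))) =
      2 * V * ∑ D ∈ Ds X z, (K : ℝ) ^ D.card * (1 / ((∏ p ∈ D, p : ℕ) : ℝ)) := by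
    rw [mul_sum]; apply sum_congr rfl; intro D _; ring
  rw [h3]
  apply mul_le_mul_of_nonneg_left _ (by positivity)
  refine (Ds_sum X z K (fun m => 1 / (m : ℝ)) (fun m => by positivity)).trans ?_
  refine le_trans (le_of_eq ?_) (dsum K (Y16 X))
  apply sum_congr rfl; intro m _
  ring

end

lemma Y16_pow (X : ℕ) : (Y16 X : ℝ) ^ 16 ≤ X := by
  have h0 : (0 : ℝ) ≤ X := Nat.cast_nonneg _
  have h1 : (Y16 X : ℝ) ≤ (X : ℝ) ^ (1 / 16 : ℝ) := Nat.floor_le (Real.rpow_nonneg h0 _)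
  calc (Y16 X : ℝ) ^ 16 ≤ ((X : ℝ) ^ (1 / 16 : ℝ)) ^ 16 := pow_le_pow_left₀ (Nat.cast_nonneg _) h1 16
    _ = X := by rw [← Real.rpow_natCast, ← Real.rpow_mul h0]; norm_num

lemma le_Y16 {X m : ℕ} (h : m ^ 16 ≤ X) : m ≤ Y16 X := by
  apply Nat.le_floor
  have h1 : (m : ℝ) ^ 16 ≤ X := by exact_mod_cast h
  calc (m : ℝ) = ((m : ℝ) ^ 16) ^ (1 / 16 : ℝ) := by
        rw [← Real.rpow_natCast, ← Real.rpow_mul (Nat.cast_nonneg _)]; norm_num
    _ ≤ (X : ℝ) ^ (1 / 16 : ℝ) := Real.rpow_le_rpow (by positivity) h1 (by norm_num)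

end EI

open EI in
/-- part I -/
theorem eqI (hTR : TR) : EqI := by
  classical
  intro T K U
  set k := T.card with hk
  set B₀ : ℕ := 2 ^ (2 * (k + K + 1)) + 2 ^ (2 * k) + 2 * (U + 2 + 2 ^ K) + 4 with hB₀
  refine ⟨B₀, fun E => ?_⟩
  have q1 : 0 < 2 ^ (2 * (k + K + 1)) := by positivity
  have q2 : 0 < 2 ^ (2 * k) := by positivity
  have q3 : 0 < 2 ^ K := by positivity
  have q4 : 0 < 2 ^ k := by positivity
  obtain ⟨n1, h1⟩ := hTR T (U + 2 + 2 ^ K) E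
  obtain ⟨n2, h2⟩ := wsumB (k + K + 1) (U + 2) B₀ (by omega)
  obtain ⟨n3, h3⟩ := wsumB k (U + 2 + 2 ^ K) B₀ (by omega)
  obtain ⟨n4, h4⟩ := ev_log' (2 ^ K + 2 ^ k + B₀ + U) (456 * 2 ^ (2 ^ K + 2 ^ k))
  obtain ⟨n5, h5⟩ := ev_L' (20 + 8 * 2 ^ (2 ^ K))
  refine ⟨max (max (max n1 n2) (max n3 n4)) (max n5 4), fun X hX z hz1 hz2 b hb γ c hγ α => ?_⟩
  have a1 : n1 ≤ X := le_trans (le_trans (le_trans (le_max_left _ _) (le_max_left _ _)) (le_max_left _ _)) hX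
  have a2 : n2 ≤ X := le_trans (le_trans (le_trans (le_max_right _ _) (le_max_left _ _)) (le_max_left _ _)) hX
  have a3 : n3 ≤ X := le_trans (le_trans (le_trans (le_max_left _ _) (le_max_right _ _)) (le_max_left _ _)) hX
  have a4 : n4 ≤ X := le_trans (le_trans (le_trans (le_max_right _ _) (le_max_right _ _)) (le_max_left _ _)) hX
  have a5 : n5 ≤ X := le_trans (le_trans (le_max_left _ _) (le_max_right _ _)) hX
  have a6 : 4 ≤ X := le_trans (le_trans (le_max_right _ _) (le_max_right _ _)) hX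
  have hX1 : 1 ≤ X := by omega
  have hXr : (4 : ℝ) ≤ X := by exact_mod_cast a6
  have hX0 : (0 : ℝ) < X := by linarith
  have hsq := h4 X a4
  have hL := h5 X a5
  set L := Real.log X with hLd
  obtain ⟨c₀, hc₀⟩ : ∃ c₀ : ℝ, c₀ = 2 ^ (2 ^ K) := ⟨_, rfl⟩
  have hc₀1 : 1 ≤ c₀ := by rw [hc₀]; exact one_le_pow₀ (by norm_num)
  rw [← hc₀] at hL
  have hL20 : 20 ≤ L := by linarith
  have hL0 : 0 < L := by linarith
  have hL1 : 1 ≤ L := by linarith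
  have hLB1 : 1 ≤ L ^ B₀ := one_le_pow₀ hL1
  have hLB0 : 0 < L ^ B₀ := by positivity
  -- sizes
  set Y := Y16 X with hY
  have hY16 : (Y : ℝ) ^ 16 ≤ X := Y16_pow X
  have hY1 : 1 ≤ Y := le_Y16 (by rw [one_pow]; exact hX1)
  have hY1r : (1 : ℝ) ≤ Y := by exact_mod_cast hY1
  have hY0 : (0 : ℝ) < Y := by linarith
  have hY2 : (Y : ℝ) ^ 2 ≤ √(X : ℝ) := by
    apply Real.le_sqrt_of_sq_le
    calc ((Y : ℝ) ^ 2) ^ 2 = (Y : ℝ) ^ 4 := by ring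
      _ ≤ (Y : ℝ) ^ 16 := pow_le_pow_right₀ hY1r (by norm_num)
      _ ≤ X := hY16
  have hYX : (Y : ℝ) ≤ X := (le_self_pow₀ hY1r (by norm_num : (16 : ℕ) ≠ 0)).trans hY16
  have hss : √(X : ℝ) * √(X : ℝ) = X := Real.mul_self_sqrt hX0.le
  have hs0 : 0 ≤ √(X : ℝ) := Real.sqrt_nonneg _
  have hLs : 2 * L ^ B₀ ≤ √(X : ℝ) := by
    refine le_trans ?_ hsq
    have h6 : L ^ B₀ ≤ L ^ (2 ^ K + 2 ^ k + B₀ + U) := pow_le_pow_right₀ hL1 (by omega)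
    have h7 : (1 : ℝ) ≤ 2 ^ (2 ^ K + 2 ^ k) := one_le_pow₀ (by norm_num)
    calc 2 * L ^ B₀ ≤ (456 * 1) * L ^ B₀ := by nlinarith
      _ ≤ (456 * 2 ^ (2 ^ K + 2 ^ k)) * L ^ (2 ^ K + 2 ^ k + B₀ + U) := by gcongr
  have hsX : √(X : ℝ) ≤ X := by
    rw [Real.sqrt_le_left (by positivity)]; nlinarith
  have hlogY : Real.log (Y : ℝ) ≤ L := Real.log_le_log hY0 hYX
  have hlogY0 : 0 ≤ Real.log (Y : ℝ) := Real.log_nonneg hY1r
  have hYL : ∀ e : ℕ, (1 + Real.log (Y : ℝ)) ^ e ≤ 2 ^ e * L ^ e := by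
    intro e
    rw [← mul_pow]
    exact pow_le_pow_left₀ (by linarith) (by linarith) e
  have hYY : ((Y * Y : ℕ) : ℝ) ≤ X / L ^ B₀ := by
    rw [le_div_iff₀ hLB0]
    push_cast
    calc (Y : ℝ) * Y * L ^ B₀ ≤ √(X : ℝ) * √(X : ℝ) := by
          apply mul_le_mul _ (by linarith) hLB0.le hs0
          rw [← pow_two]; exact hY2
      _ = X := hss
  have hYd : (Y : ℝ) ≤ X / L ^ B₀ := by
    refine le_trans ?_ hYY
    push_cast
    nlinarith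
  -- the truncation
  have hHz : HH X ≤ z := by
    have h6 : (HH X : ℝ) ≤ Real.log (Real.log X) / 4 := by
      unfold HH
      apply Nat.floor_le
      have : 0 ≤ Real.log L := Real.log_nonneg hL1
      positivity
    have h7 : Real.log L ≤ L := by
      have := Real.log_le_sub_one_of_pos hL0
      linarith
    have h8 : (HH X : ℝ) ≤ z := by
      rw [← hLd] at h6
      have h9 : L ≤ L ^ B₀ := le_self_pow₀ hL1 (by omega)
      have h10 : 0 ≤ Real.log L := Real.log_nonneg hL1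
      linarith
    exact_mod_cast h8
  obtain ⟨ι, J, M, r, g, hJ, hg, hTRb⟩ := h1 X a1 z hHz hz2 b hb
  have hJ' : ∀ j ∈ J, 1 ≤ M j ∧ M j ≤ Y := fun j hj => ⟨(hJ j hj).1, le_Y16 (hJ j hj).2.1⟩
  set R : ℕ → ℝ := fun x => ∑ j ∈ J, if x ≡ r j [MOD M j] then g j else 0 with hR
  set Φ : ℕ → ℝ := fun x => ∑ D ∈ Ds X z, γ D *
      ((if x ≡ c D [MOD ∏ p ∈ D, p] then 1 else 0) - 1 / ∏ p ∈ D, (p : ℝ)) with hΦ
  have hD1 : ∀ D ∈ Ds X z, 1 ≤ ∏ p ∈ D, p := fun D hD => prod_pos' fun p hp => ((mem_Ds hD).1 p hp).1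
  have hDY : ∀ D ∈ Ds X z, ∏ p ∈ D, p ≤ Y := fun D hD => (mem_Ds hD).2
  have htr : ∑ x ∈ Ico (4 * X) (8 * X), |(rhoT X z b T x - R x) * Φ x| ≤
      2 * (X / L ^ (U + 2 + 2 ^ K)) * (1 + Real.log (Y16 X)) ^ (2 ^ K) := by
    apply sum_trunc R (rhoT X z b T) (X / L ^ (U + 2 + 2 ^ K)) hX1 (by positivity) _ _ γ hγ c
    · intro D hD e
      have h6 := hTRb (∏ p ∈ D, p) (hD1 D hD) (by
        have h7 : ((∏ p ∈ D, p : ℕ) : ℝ) ≤ Y := by exact_mod_cast hDY D hD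
        have h8 : ((∏ p ∈ D, p : ℕ) : ℝ) ^ 8 ≤ X := by
          calc ((∏ p ∈ D, p : ℕ) : ℝ) ^ 8 ≤ (Y : ℝ) ^ 8 := pow_le_pow_left₀ (Nat.cast_nonneg _) h7 8
            _ ≤ (Y : ℝ) ^ 16 := pow_le_pow_right₀ hY1r (by norm_num)
            _ ≤ X := hY16
        exact_mod_cast h8) (fun p hp h => Ds_prime hD hp h) e
      refine h6.trans (le_of_eq ?_)
      rw [← hLd, div_div, mul_comm (L ^ (U + 2 + 2 ^ K))]
    · have h6 := hTRb 1 le_rfl (by simpa using hX1) (fun p hp h => by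
        have := Nat.eq_one_of_dvd_one h
        rw [this] at hp
        exact absurd hp Nat.not_prime_one) 0
      have e1 : (Icc 1 (10 * X)).filter (fun x => x ≡ 0 [MOD 1]) = Icc 1 (10 * X) := by
        apply filter_true_of_mem
        intro x _
        exact Nat.modEq_one
      rw [e1] at h6
      refine h6.trans (le_of_eq ?_)
      rw [← hLd]; push_cast; rw [one_mul]
  have htr2 : ∑ x ∈ Ico (4 * X) (8 * X), |(rhoT X z b T x - R x) * Φ x| ≤ 1 / 2 * (X / L ^ U) := by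
    refine htr.trans ?_
    have h6 := hYL (2 ^ K)
    rw [← hY]
    calc 2 * (X / L ^ (U + 2 + 2 ^ K)) * (1 + Real.log (Y : ℝ)) ^ (2 ^ K)
        ≤ 2 * (X / L ^ (U + 2 + 2 ^ K)) * (2 ^ (2 ^ K) * L ^ (2 ^ K)) := by gcongr
      _ = (2 * c₀ / L ^ 2) * (X / L ^ U) := by
          rw [hc₀, pow_add, pow_add]; field_simp
      _ ≤ 1 / 2 * (X / L ^ U) := by
          apply mul_le_mul_of_nonneg_right _ (by positivity)
          rw [div_le_div_iff₀ (by positivity) (by norm_num)]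
          nlinarith
  -- splitting
  have hmain : ‖∑ x ∈ Ico (4 * X) (8 * X), (((R x * Φ x : ℝ)) : ℂ) * ee ((x : ℝ) * α)‖ ≤ 1 / 2 * (X / L ^ U) := by
    have e1 := expand J M r g X z γ c α
    have e2 : ∑ x ∈ Ico (4 * X) (8 * X), (((R x * Φ x : ℝ)) : ℂ) * ee ((x : ℝ) * α) =
        ∑ D ∈ Ds X z, ∑ j ∈ J, (((γ D : ℝ) : ℂ) * ((g j : ℝ) : ℂ)) *
          SS X (M j) (∏ p ∈ D, p) (r j) (c D) α := e1
    rw [e2]
    have hcop : ∀ D ∈ Ds X z, ∀ j ∈ J, (M j).Coprime (∏ p ∈ D, p) := by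
      intro D hD j hj
      apply Nat.coprime_of_dvd
      intro p hp h6 h7
      have h8 := (hJ j hj).2.2.2.2.1 p hp h6
      have h9 := Ds_prime hD hp h7
      omega
    have hmM : ∀ D ∈ Ds X z, ∀ j ∈ J, (((∏ p ∈ D, p) * M j : ℕ) : ℝ) ≤ (Y : ℝ) ^ 2 := by
      intro D hD j hj
      have h6 : (∏ p ∈ D, p) * M j ≤ Y * Y := Nat.mul_le_mul (hDY D hD) (hJ' j hj).2
      have h7 : (((∏ p ∈ D, p) * M j : ℕ) : ℝ) ≤ ((Y * Y : ℕ) : ℝ) := by exact_mod_cast h6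
      rw [pow_two]
      exact_mod_cast h7
    have hmM4 : ∀ D ∈ Ds X z, ∀ j ∈ J, (∏ p ∈ D, p) * M j ≤ 4 * X := by
      intro D hD j hj
      have h6 := hmM D hD j hj
      have h7 : (((∏ p ∈ D, p) * M j : ℕ) : ℝ) ≤ ((4 * X : ℕ) : ℝ) := by
        push_cast at h6 ⊢
        linarith
      exact_mod_cast h7
    -- Dirichlet
    set Q : ℕ := ⌊(X : ℝ) / L ^ B₀⌋₊ with hQ
    have hXLB : 2 ≤ (X : ℝ) / L ^ B₀ := by
      rw [le_div_iff₀ hLB0]; linarith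
    have hQpos : 0 < Q := by
      rw [hQ, Nat.floor_pos]
      linarith
    obtain ⟨ρ, hr1, hr2⟩ := Real.exists_rat_abs_sub_le_and_den_le α hQpos
    set q : ℕ := ρ.den with hq
    have hq1 : 1 ≤ q := ρ.den_pos
    have hq0 : (0 : ℝ) < q := by exact_mod_cast hq1
    have hq1r : (1 : ℝ) ≤ q := by exact_mod_cast hq1
    have hrq : ((ρ : ℚ) : ℝ) = (ρ.num : ℝ) / q := by
      rw [hq]; exact_mod_cast (Rat.num_div_den ρ).symm
    rw [hrq] at hr1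
    have hcopq : IsCoprime ρ.num (q : ℤ) := by
      rw [Int.isCoprime_iff_gcd_eq_one]
      have := ρ.reduced
      rw [Nat.Coprime] at this
      rw [Int.gcd]
      simpa using this
    have hqQ : (q : ℝ) ≤ X / L ^ B₀ := by
      have h1 : (q : ℝ) ≤ Q := by exact_mod_cast hr2
      exact h1.trans (Nat.floor_le (by positivity))
    have hQ1 : (X : ℝ) / L ^ B₀ ≤ (Q : ℝ) + 1 := (Nat.lt_floor_add_one _).le
    rcases le_or_gt (L ^ B₀) (q : ℝ) with hqb | hqs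
    · -- minor arcs
      have hα : |α - (ρ.num : ℝ) / q| ≤ 1 / (q : ℝ) ^ 2 := by
        refine hr1.trans ?_
        rw [pow_two]
        apply one_div_le_one_div_of_le (by positivity)
        apply mul_le_mul_of_nonneg_right _ hq0.le
        have h1 : (q : ℝ) ≤ Q := by exact_mod_cast hr2
        linarith
      have w1 := h2 X a2 q hqb hqQ ρ.num hcopq α hα (4 * X) (Y * Y) (by omega) le_rfl
        (Nat.mul_pos hY1 hY1) hYY
      have w2 := h3 X a3 q hqb hqQ ρ.num hcopq α hα (4 * X) Y (by omega) le_rfl hY1 hYd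
      refine (norm_expand γ hγ c α (fun m M' => KK (2 * ((4 * X : ℕ) : ℝ) / ((m * M' : ℕ) : ℝ)) (((m * M' : ℕ) : ℝ) * α) +
        1 / (m : ℝ) * KK (2 * ((4 * X : ℕ) : ℝ) / M') (M' * α)) (fun D hD j hj =>
          SS_minor X (M j) _ (r j) (c D) hX1 (hJ j hj).1 (hD1 D hD) (hmM4 D hD j hj) (hcop D hD j hj) α)).trans ?_
      refine (sum_minor hJ' hg α).trans ?_
      rw [← hY, ← hk]
      have h6 := hYL (2 ^ K)
      have h7 : (1 + Real.log (Y : ℝ)) ^ 2 ^ K *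
          ∑ t ∈ Icc 1 Y, (t.divisors.card : ℝ) ^ k * KK (2 * ((4 * X : ℕ) : ℝ) / t) (t * α) ≤
          (2 ^ (2 ^ K) * L ^ (2 ^ K)) * (X / L ^ (U + 2 + 2 ^ K)) := by
        apply mul_le_mul h6 w2 _ (by positivity)
        exact sum_nonneg fun t _ => mul_nonneg (by positivity) (KK_nonneg (by positivity) _)
      have h8 : (2 ^ (2 ^ K) * L ^ (2 ^ K)) * ((X : ℝ) / L ^ (U + 2 + 2 ^ K)) = (c₀ / L ^ 2) * (X / L ^ U) := by
        rw [hc₀, pow_add, pow_add]; field_simp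
      have h9 : (X : ℝ) / L ^ (U + 2) = (1 / L ^ 2) * (X / L ^ U) := by
        rw [pow_add]; field_simp
      rw [h8] at h7
      rw [← hLd, h9] at w1
      refine (add_le_add w1 h7).trans ?_
      rw [← add_mul, ← add_div]
      apply mul_le_mul_of_nonneg_right _ (by positivity)
      rw [div_le_div_iff₀ (by positivity) (by norm_num)]
      nlinarith
    · -- major arcs
      have hqz : q ≤ z := by
        have : (q : ℝ) ≤ z := hqs.le.trans hz1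
        exact_mod_cast this
      have hβ : |α - (ρ.num : ℝ) / q| ≤ L ^ B₀ / (X * q) := by
        refine hr1.trans ?_
        rw [div_le_div_iff₀ (by positivity) (by positivity), one_mul]
        rw [div_le_iff₀ hLB0] at hQ1
        calc (X : ℝ) * q ≤ (((Q : ℝ) + 1) * L ^ B₀) * q := mul_le_mul_of_nonneg_right hQ1 hq0.le
          _ = L ^ B₀ * (((Q : ℝ) + 1) * q) := by ring
      have hW : ∀ D ∈ Ds X z, ∀ j ∈ J, ‖SS X (M j) (∏ p ∈ D, p) (r j) (c D) α‖ ≤ 228 * L ^ B₀ := by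
        intro D hD j hj
        by_cases hqM : q ∣ M j
        · refine (SS_near X (M j) _ (r j) (c D) hX1 (hJ j hj).1 (hD1 D hD) (hcop D hD j hj) hq1 ρ.num hqM).trans ?_
          have h4 : ‖ee (α - (ρ.num : ℝ) / q) - 1‖ ≤ 2 * Real.pi * |α - (ρ.num : ℝ) / q| := by
            have := dd_le (α - (ρ.num : ℝ) / q)
            unfold dd at this
            rw [norm_sub_rev] at this
            exact this
          have h5 : |α - (ρ.num : ℝ) / q| * X ≤ L ^ B₀ := by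
            have h6 := mul_le_mul_of_nonneg_right hβ hX0.le
            refine h6.trans ?_
            rw [div_mul_eq_mul_div, div_le_iff₀ (by positivity)]
            have : X * (1 : ℝ) ≤ X * q := mul_le_mul_of_nonneg_left hq1r hX0.le
            nlinarith
          have hpi : Real.pi < 3.15 := Real.pi_lt_d2
          have h6 : 0 ≤ |α - (ρ.num : ℝ) / q| * X := by positivity
          have h7 : 8 * (X : ℝ) * ‖ee (α - (ρ.num : ℝ) / q) - 1‖ ≤ 56 * L ^ B₀ := by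
            calc 8 * (X : ℝ) * ‖ee (α - (ρ.num : ℝ) / q) - 1‖ ≤ 8 * X * (2 * Real.pi * |α - (ρ.num : ℝ) / q|) := by gcongr
              _ = 8 * (2 * Real.pi) * (|α - (ρ.num : ℝ) / q| * X) := by ring
              _ ≤ 56 * (|α - (ρ.num : ℝ) / q| * X) := by
                  apply mul_le_mul_of_nonneg_right _ h6
                  linarith
              _ ≤ 56 * L ^ B₀ := by linarith
          linarith
        · have hqm : q.Coprime (∏ p ∈ D, p) := by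
            apply Nat.coprime_of_dvd
            intro p hp h6 h7
            have h8 := Nat.le_of_dvd hq1 h6
            have h9 := Ds_prime hD hp h7
            omega
          refine (SS_far X (M j) _ (r j) (c D) hX1 (hJ j hj).1 (hD1 D hD) (hmM4 D hD j hj) (hcop D hD j hj)
            hq1 hcopq hqm hqM ?_).trans ?_
          · have h6 := hmM D hD j hj
            calc (((∏ p ∈ D, p) * M j : ℕ) : ℝ) * |α - (ρ.num : ℝ) / q| ≤ √(X : ℝ) * (L ^ B₀ / (X * q)) := by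
                  apply mul_le_mul (h6.trans hY2) hβ (abs_nonneg _) hs0
              _ ≤ 1 / (2 * q) := by
                  rw [mul_div_assoc', div_le_div_iff₀ (by positivity) (by positivity), one_mul]
                  have h7 : √(X : ℝ) * (2 * L ^ B₀) ≤ √(X : ℝ) * √(X : ℝ) := mul_le_mul_of_nonneg_left hLs hs0
                  rw [hss] at h7
                  have h8 := mul_le_mul_of_nonneg_right h7 hq0.le
                  linarith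
          · linarith
      refine (norm_expand γ hγ c α (fun _ _ => 228 * L ^ B₀) hW).trans ?_
      refine (sum_major hJ' hg (228 * L ^ B₀) (by positivity)).trans ?_
      rw [← hY, ← hk]
      have h6 := hYL (2 ^ K)
      have h7 := hYL (2 ^ k)
      calc (Y : ℝ) ^ 2 * ((1 + Real.log (Y : ℝ)) ^ 2 ^ K * (1 + Real.log (Y : ℝ)) ^ 2 ^ k) * (228 * L ^ B₀)
          ≤ √(X : ℝ) * ((2 ^ (2 ^ K) * L ^ (2 ^ K)) * (2 ^ (2 ^ k) * L ^ (2 ^ k))) * (228 * L ^ B₀) := by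
            gcongr
        _ = √(X : ℝ) * (1 / 2 * ((456 * 2 ^ (2 ^ K + 2 ^ k)) * L ^ (2 ^ K + 2 ^ k + B₀ + U))) / L ^ U := by
            rw [pow_add 2, pow_add L, pow_add L, pow_add L]; field_simp; ring
        _ ≤ √(X : ℝ) * (1 / 2 * √(X : ℝ)) / L ^ U := by
            gcongr
        _ = 1 / 2 * (X / L ^ U) := by
            rw [show √(X : ℝ) * (1 / 2 * √(X : ℝ)) = 1 / 2 * (√(X : ℝ) * √(X : ℝ)) by ring, hss]; ring
  have e3 : ∑ x ∈ Ico (4 * X) (8 * X), ((rhoT X z b T x * ∑ D ∈ Ds X z, γ D *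
      ((if x ≡ c D [MOD ∏ p ∈ D, p] then 1 else 0) - 1 / ∏ p ∈ D, (p : ℝ)) : ℝ) : ℂ) *
        ee ((x : ℝ) * α) =
      ∑ x ∈ Ico (4 * X) (8 * X), ((((rhoT X z b T x - R x) * Φ x : ℝ)) : ℂ) * ee ((x : ℝ) * α) +
      ∑ x ∈ Ico (4 * X) (8 * X), (((R x * Φ x : ℝ)) : ℂ) * ee ((x : ℝ) * α) := by
    rw [← sum_add_distrib]
    apply sum_congr rfl
    intro x _
    rw [← add_mul, ← Complex.ofReal_add]
    congr 3
    ring
  rw [e3]
  refine (norm_add_le _ _).trans ?_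
  have h6 : ‖∑ x ∈ Ico (4 * X) (8 * X), ((((rhoT X z b T x - R x) * Φ x : ℝ)) : ℂ) * ee ((x : ℝ) * α)‖ ≤
      1 / 2 * (X / L ^ U) := by
    refine (norm_sum_le _ _).trans (le_trans (le_of_eq ?_) htr2)
    apply sum_congr rfl
    intro x _
    rw [norm_mul, norm_ee, mul_one, Complex.norm_real, Real.norm_eq_abs]
  linarith

end Pool.Agent.T2H22.AA
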