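import Pool.Agent.T2H22.AA.EP3
import Pool.Agent.H862R2.PP.Sm5b

/-!
Package P of project AA (helper22): equidistribution with primes (helper68).
-/

set_option autoImplicit false

namespace Pool.Agent.T2H22.AA

open Finset
open Pool.Agent.H361R2.PP
open Pool.Agent.W70.HR
open Pool.Agent.H373R2.T7 Pool.Agent.H807R2.Dav
open Pool.Agent.T2H22.AA.MF Pool.Agent.T2H22.AA.EP

namespace EP

/-- the decomposition of the summand -/
lemma summand {X z b a : ℕ} {T : Finset ℕ} (ha : a ∈ T) (hab : (b + a).Coprime (Wm X))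
    (γ : Finset ℕ → ℝ) (c : Finset ℕ → ℕ) (R : ℕ → ℝ) (x : ℕ) :
    rhoT X z b T x * ∑ D ∈ Ds X z, γ D *
      ((if x ≡ c D [MOD ∏ p ∈ D, p] then ArithmeticFunction.vonMangoldt (x + a) else 0) -
        (Vz z)⁻¹ / ∏ p ∈ D, ((p : ℝ) - 1)) =
    (rhoT X z b T x - rhoT X z b (T.erase a) x) *
        (ArithmeticFunction.vonMangoldt (x + a) - lamz z (x + a)) * FD X z γ c x +
    (rhoT X z b (T.erase a) x - R x) *
        (ArithmeticFunction.vonMangoldt (x + a) - lamz z (x + a)) * FD X z γ c x +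
    (ArithmeticFunction.vonMangoldt (x + a) - lamz z (x + a)) * (R x * FD X z γ c x) +
    (Vz z)⁻¹ * (rhoT X z b T x * ∑ D ∈ Ds X z, γ D *
      ((if x ≡ c D [MOD ∏ p ∈ D, p] then 1 else 0) - 1 / ∏ p ∈ D, (p : ℝ))) +
    (Vz z)⁻¹ * rhoT X z b T x * ∑ D ∈ Ds X z, γ D *
        (1 / ∏ p ∈ D, (p : ℝ) - 1 / ∏ p ∈ D, ((p : ℝ) - 1)) := by
  have e1 : ∑ D ∈ Ds X z, γ D *
      ((if x ≡ c D [MOD ∏ p ∈ D, p] then ArithmeticFunction.vonMangoldt (x + a) else 0) -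
        (Vz z)⁻¹ / ∏ p ∈ D, ((p : ℝ) - 1)) =
      FD X z γ c x * ArithmeticFunction.vonMangoldt (x + a) -
        (Vz z)⁻¹ * ∑ D ∈ Ds X z, γ D * (1 / ∏ p ∈ D, ((p : ℝ) - 1)) := by
    unfold FD
    rw [sum_mul, mul_sum, ← sum_sub_distrib]
    apply sum_congr rfl
    intro D _
    split_ifs
    · ring
    · ring
  have e2 : ∑ D ∈ Ds X z, γ D *
      ((if x ≡ c D [MOD ∏ p ∈ D, p] then 1 else 0) - 1 / ∏ p ∈ D, (p : ℝ)) =
      FD X z γ c x - ∑ D ∈ Ds X z, γ D * (1 / ∏ p ∈ D, (p : ℝ)) := by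
    unfold FD
    rw [← sum_sub_distrib]
    apply sum_congr rfl
    intro D _
    ring
  have e3 : ∑ D ∈ Ds X z, γ D *
        (1 / ∏ p ∈ D, (p : ℝ) - 1 / ∏ p ∈ D, ((p : ℝ) - 1)) =
      ∑ D ∈ Ds X z, γ D * (1 / ∏ p ∈ D, (p : ℝ)) -
        ∑ D ∈ Ds X z, γ D * (1 / ∏ p ∈ D, ((p : ℝ) - 1)) := by
    rw [← sum_sub_distrib]
    apply sum_congr rfl
    intro D _
    ring
  have e4 := rhoT_lamz ha hab x (z := z)
  rw [e1, e2, e3]
  have e5 : rhoT X z b T x * lamz z (x + a) * FD X z γ c x =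
      rhoT X z b T x * (Vz z)⁻¹ * FD X z γ c x := by rw [e4]
  linear_combination e5

/-- the norm of a sum of five terms -/
lemma norm_five (s : Finset ℕ) (f f1 f2 f3 f4 f5 : ℕ → ℝ) (V α B : ℝ) (hV : 0 ≤ V)
    (h : ∀ x, f x = f1 x + f2 x + f3 x + V * f4 x + f5 x)
    (h1 : ‖∑ x ∈ s, ((f1 x : ℝ) : ℂ) * ee ((x : ℝ) * α)‖ ≤ B)
    (h2 : ‖∑ x ∈ s, ((f2 x : ℝ) : ℂ) * ee ((x : ℝ) * α)‖ ≤ B)
    (h3 : ‖∑ x ∈ s, ((f3 x : ℝ) : ℂ) * ee ((x : ℝ) * α)‖ ≤ B)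
    (h4 : V * ‖∑ x ∈ s, ((f4 x : ℝ) : ℂ) * ee ((x : ℝ) * α)‖ ≤ B)
    (h5 : ‖∑ x ∈ s, ((f5 x : ℝ) : ℂ) * ee ((x : ℝ) * α)‖ ≤ B) :
    ‖∑ x ∈ s, ((f x : ℝ) : ℂ) * ee ((x : ℝ) * α)‖ ≤ 5 * B := by
  have e : ∑ x ∈ s, ((f x : ℝ) : ℂ) * ee ((x : ℝ) * α) =
      ∑ x ∈ s, ((f1 x : ℝ) : ℂ) * ee ((x : ℝ) * α) +
      ∑ x ∈ s, ((f2 x : ℝ) : ℂ) * ee ((x : ℝ) * α) +
      ∑ x ∈ s, ((f3 x : ℝ) : ℂ) * ee ((x : ℝ) * α) +
      (V : ℂ) * ∑ x ∈ s, ((f4 x : ℝ) : ℂ) * ee ((x : ℝ) * α) +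
      ∑ x ∈ s, ((f5 x : ℝ) : ℂ) * ee ((x : ℝ) * α) := by
    rw [mul_sum, ← sum_add_distrib, ← sum_add_distrib, ← sum_add_distrib, ← sum_add_distrib]
    apply sum_congr rfl
    intro x _
    rw [h x]
    push_cast
    ring
  have e4 : ‖(V : ℂ) * ∑ x ∈ s, ((f4 x : ℝ) : ℂ) * ee ((x : ℝ) * α)‖ ≤ B := by
    rw [norm_mul, Complex.norm_real, Real.norm_of_nonneg hV]
    exact h4
  rw [e]
  refine (norm_add_le _ _).trans ?_
  have g1 := norm_add_le (∑ x ∈ s, ((f1 x : ℝ) : ℂ) * ee ((x : ℝ) * α) +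
      ∑ x ∈ s, ((f2 x : ℝ) : ℂ) * ee ((x : ℝ) * α) +
      ∑ x ∈ s, ((f3 x : ℝ) : ℂ) * ee ((x : ℝ) * α))
      ((V : ℂ) * ∑ x ∈ s, ((f4 x : ℝ) : ℂ) * ee ((x : ℝ) * α))
  have g2 := norm_add_le (∑ x ∈ s, ((f1 x : ℝ) : ℂ) * ee ((x : ℝ) * α) +
      ∑ x ∈ s, ((f2 x : ℝ) : ℂ) * ee ((x : ℝ) * α))
      (∑ x ∈ s, ((f3 x : ℝ) : ℂ) * ee ((x : ℝ) * α))
  have g3 := norm_add_le (∑ x ∈ s, ((f1 x : ℝ) : ℂ) * ee ((x : ℝ) * α))
      (∑ x ∈ s, ((f2 x : ℝ) : ℂ) * ee ((x : ℝ) * α))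
  linarith

/-- a uniform threshold over a finite set -/
lemma unif {ι : Type} (S : Finset ι) (P : ι → ℕ → Prop) (h : ∀ i, ∃ n0 : ℕ, ∀ n, n0 ≤ n → P i n) :
    ∃ n0 : ℕ, ∀ i ∈ S, ∀ n, n0 ≤ n → P i n := by
  choose f hf using h
  exact ⟨S.sup f, fun i hi n hn => hf i n ((le_sup (f := f) hi).trans hn)⟩

/-- the bound for the model -/
lemma Vinv_le {C : ℝ} (hC0 : 0 < C) (hC : ∀ z : ℕ, 2 ≤ z → (Vz z)⁻¹ ≤ C * Real.log z) {L : ℝ}
    {z E : ℕ} (hz : 2 ≤ z) (hzE : (z : ℝ) ≤ L ^ E) (hL0 : 1 ≤ L) (hL : (2 * C * E) ^ 2 ≤ L) :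
    (Vz z)⁻¹ ≤ L := by
  have h1 := hC z hz
  have hz0 : (0 : ℝ) < z := by exact_mod_cast (by omega : 0 < z)
  have h2 : Real.log z ≤ E * Real.log L := by
    rw [← Real.log_pow]
    exact Real.log_le_log hz0 hzE
  have hs : 0 < √L := Real.sqrt_pos.2 (by linarith)
  have hss : √L * √L = L := Real.mul_self_sqrt (by linarith)
  have h3 : Real.log L ≤ 2 * √L := by
    have e := Real.log_le_sub_one_of_pos hs
    have e2 : Real.log L = 2 * Real.log √L := by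
      rw [Real.log_sqrt (by linarith)]
      ring
    linarith
  have h4 : 2 * C * E ≤ √L := Real.le_sqrt_of_sq_le hL
  have hE0 : (0 : ℝ) ≤ E := Nat.cast_nonneg E
  calc (Vz z)⁻¹ ≤ C * Real.log z := h1
    _ ≤ C * (E * Real.log L) := mul_le_mul_of_nonneg_left h2 hC0.le
    _ ≤ C * (E * (2 * √L)) := by gcongr
    _ = (2 * C * E) * √L := by ring
    _ ≤ √L * √L := by gcongr
    _ = L := hss

lemma lamz_le_V (z n : ℕ) (hV : 0 ≤ (Vz z)⁻¹) : 0 ≤ lamz z n ∧ lamz z n ≤ (Vz z)⁻¹ := by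
  rw [lamz_eq]
  split_ifs
  · exact ⟨le_rfl, hV⟩
  · exact ⟨hV, le_rfl⟩

end EP

theorem eqP (hTR : TR) (hS : SupF) (hI : EqI) : EqP := by
  intro T K U
  obtain ⟨B1, hB1⟩ := hS (T.card + K) (U + 2)
  obtain ⟨B2, hB2⟩ := hI T K (U + 2)
  refine ⟨B1 + B2 + U + 2 ^ K + 6, fun E => ?_⟩
  obtain ⟨N1, hN1⟩ := hB1 E
  obtain ⟨X2, hX2⟩ := hB2 E
  obtain ⟨X3, hX3⟩ := unif T _ (fun a => hTR (T.erase a) (U + 2 ^ K + 4) E)
  obtain ⟨C, hC0, hC⟩ := Vz_inv_log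
  obtain ⟨x4, h4⟩ := ev_L' (2 ^ (2 ^ K) + 2 ^ B1 + (2 * C * E) ^ 2 + 60)
  obtain ⟨x6, h6⟩ := ev_log' (2 ^ K + E + U + 4) 10
  obtain ⟨x7, h7⟩ := Filter.eventually_atTop.1
    (Pool.Agent.H862R2.PPSm5.HH_tendsto.eventually_ge_atTop (T.sup id + 1))
  refine ⟨max (max (max N1 X2) (max X3 x4)) (max (max x6 x7) (max 9 (T.sup id))), ?_⟩
  have hK0 : 0 < 2 ^ K := by positivity
  intro X hX z hz1 hz2 b hb a ha hab γ c hγ hc α
  simp only [max_le_iff] at hX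
  obtain ⟨⟨⟨g1, g2⟩, g3, g4⟩, ⟨g6, g7⟩, g9, gT⟩ := hX
  have k4 := h4 X g4
  have k6 := h6 X g6
  have k7 := h7 X g7
  set L : ℝ := Real.log X with hLdef
  have p1 : (0 : ℝ) ≤ 2 ^ (2 ^ K) := by positivity
  have p2 : (0 : ℝ) ≤ 2 ^ B1 := by positivity
  have p3 : (0 : ℝ) ≤ (2 * C * E) ^ 2 := by positivity
  have hL60 : 60 ≤ L := by linarith
  have hL1 : 1 ≤ L := by linarith
  have hL0 : 0 < L := by linarith
  have hX1 : 1 ≤ X := by omega
  have hXr : (9 : ℝ) ≤ X := by exact_mod_cast g9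
  have hX0 : (0 : ℝ) < X := by linarith
  have haT : a ≤ T.sup id := le_sup (f := id) ha
  have haX : a ≤ X := haT.trans gT
  have q1 : (2 * L) ^ (2 ^ K) ≤ L ^ (2 ^ K + 1) := by
    rw [mul_pow, pow_succ, mul_comm]
    exact mul_le_mul_of_nonneg_left (by linarith) (by positivity)
  have q2 : (2 * L) ^ B1 ≤ L ^ (B1 + 1) := by
    rw [mul_pow, pow_succ, mul_comm]
    exact mul_le_mul_of_nonneg_left (by linarith) (by positivity)
  have hBig : ∀ k, k ≤ B1 + B2 + U + 2 ^ K + 6 → L ^ k ≤ z := fun k hk =>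
    (pow_le_pow_right₀ hL1 hk).trans hz1
  have hz4 : 4 * L ≤ z := by
    have e1 : L ^ 2 ≤ z := hBig 2 (by omega)
    nlinarith
  have hz2' : 2 ≤ z := by
    have : (2 : ℝ) ≤ z := by linarith
    exact_mod_cast this
  have hz0 : (0 : ℝ) < z := by linarith
  have hV0 : 0 ≤ (Vz z)⁻¹ := by
    have := Vz_pos z
    positivity
  have hVL : (Vz z)⁻¹ ≤ L := Vinv_le hC0 hC hz2' hz2 hL1 (by linarith)
  have hHz : HH X ≤ z := by
    have e1 : (HH X : ℝ) ≤ z := by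
      unfold HH
      have e2 : 0 ≤ Real.log L / 4 := by
        have := Real.log_nonneg hL1
        positivity
      have e3 := Nat.floor_le e2
      have e4 := Real.log_le_sub_one_of_pos hL0
      linarith
    exact_mod_cast e1
  have h9 : Real.log ((9 * X : ℕ) : ℝ) ≤ 2 * L := by
    have e1 : Real.log ((9 * X : ℕ) : ℝ) ≤ Real.log ((X : ℝ) ^ 2) := by
      apply Real.log_le_log
      · push_cast; positivity
      · push_cast; nlinarith
    rw [Real.log_pow] at e1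
    push_cast at e1
    push_cast
    exact e1
  obtain ⟨ι, J, M, r, g, f1, f2, f3⟩ := hX3 a ha X g3 z hHz hz2 b hb
  obtain ⟨M', c', g', hcls, hFF⟩ := exists_cls (a := a) (k := T.card) (K := K)
    (card_le_card (erase_subset a T)) (notMem_erase a T) (by omega)
    (fun t ht => by
      have : t ≤ T.sup id := le_sup (f := id) (mem_of_mem_erase ht)
      omega) hab f1 f2 hγ hc
  have hmain := norm_five (Ico (4 * X) (8 * X))
    (fun x => rhoT X z b T x * ∑ D ∈ Ds X z, γ D *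
      ((if x ≡ c D [MOD ∏ p ∈ D, p] then ArithmeticFunction.vonMangoldt (x + a) else 0) -
        (Vz z)⁻¹ / ∏ p ∈ D, ((p : ℝ) - 1)))
    (fun x => (rhoT X z b T x - rhoT X z b (T.erase a) x) *
        (ArithmeticFunction.vonMangoldt (x + a) - lamz z (x + a)) * FD X z γ c x)
    (fun x => (rhoT X z b (T.erase a) x - ∑ j ∈ J, if x ≡ r j [MOD M j] then g j else 0) *
        (ArithmeticFunction.vonMangoldt (x + a) - lamz z (x + a)) * FD X z γ c x)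
    (fun x => (ArithmeticFunction.vonMangoldt (x + a) - lamz z (x + a)) *
      ((∑ j ∈ J, if x ≡ r j [MOD M j] then g j else 0) * FD X z γ c x))
    (fun x => rhoT X z b T x * ∑ D ∈ Ds X z, γ D *
      ((if x ≡ c D [MOD ∏ p ∈ D, p] then 1 else 0) - 1 / ∏ p ∈ D, (p : ℝ)))
    (fun x => (Vz z)⁻¹ * rhoT X z b T x * ∑ D ∈ Ds X z, γ D *
        (1 / ∏ p ∈ D, (p : ℝ) - 1 / ∏ p ∈ D, ((p : ℝ) - 1)))
    (Vz z)⁻¹ α (X / L ^ (U + 1)) hV0
    (fun x => summand ha hab γ c (fun x => ∑ j ∈ J, if x ≡ r j [MOD M j] then g j else 0) x)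
    ?_ ?_ ?_ ?_ ?_
  · refine hmain.trans ?_
    rw [pow_succ]
    have e1 : 5 * ((X : ℝ) / (L ^ U * L)) = (X / L ^ U) * (5 / L) := by
      field_simp
    rw [e1]
    have e2 : 5 / L ≤ 1 := by
      rw [div_le_one hL0]
      linarith
    have e3 : 0 ≤ (X : ℝ) / L ^ U := by positivity
    nlinarith
  · -- first term
    refine (bound1 hγ hX1 haX hL1 h9 α).trans ?_
    have e1 : √(X : ℝ) * √X = X := Real.mul_self_sqrt hX0.le
    have hs0 : 0 ≤ √(X : ℝ) := Real.sqrt_nonneg _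
    rw [le_div_iff₀ (by positivity)]
    calc √(X : ℝ) * (2 * L) ^ 2 ^ K * (z * (5 * L * (2 * L))) * L ^ (U + 1)
        ≤ √(X : ℝ) * L ^ (2 ^ K + 1) * (L ^ E * (5 * L * (2 * L))) * L ^ (U + 1) := by
          gcongr
      _ = √(X : ℝ) * (10 * L ^ (2 ^ K + E + U + 4)) := by ring
      _ ≤ √(X : ℝ) * √X := by gcongr
      _ = X := e1
  · -- second term
    refine (bound2 (A := U + 2 ^ K + 4)
      (f := fun x => rhoT X z b (T.erase a) x - ∑ j ∈ J, if x ≡ r j [MOD M j] then g j else 0)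
      (Δ := fun x => ArithmeticFunction.vonMangoldt (x + a) - lamz z (x + a))
      hγ hX1 hL1 f3 ?_ α).trans ?_
    · intro x hx
      rw [mem_Ico] at hx
      have e1 : ArithmeticFunction.vonMangoldt (x + a) ≤ 2 * L := by
        refine ArithmeticFunction.vonMangoldt_le_log.trans (le_trans ?_ h9)
        apply Real.log_le_log
        · exact_mod_cast (by omega : 0 < x + a)
        · exact_mod_cast (by omega : x + a ≤ 9 * X)
      have e2 := ArithmeticFunction.vonMangoldt_nonneg (n := x + a)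
      have e3 := lamz_le_V z (x + a) hV0
      rw [abs_le]
      constructor <;> linarith [e3.1, e3.2]
    · have e1 : 3 * L * (X / L ^ (U + 2 ^ K + 4) * (2 * L) ^ 2 ^ K) ≤
          3 * L * (X / L ^ (U + 2 ^ K + 4) * L ^ (2 ^ K + 1)) := by gcongr
      refine e1.trans ?_
      have e2 : 3 * L * (X / L ^ (U + 2 ^ K + 4) * L ^ (2 ^ K + 1)) = (X / L ^ (U + 1)) * (3 / L) := by
        have : L ≠ 0 := hL0.ne'
        field_simp
        ring
      rw [e2]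
      have e3 : 3 / L ≤ 1 := by
        rw [div_le_one hL0]
        linarith
      have e4 : 0 ≤ (X : ℝ) / L ^ (U + 1) := by positivity
      nlinarith
  · -- third term
    have key : ∀ N : ℕ, X ≤ N → N ≤ 9 * X →
        ‖∑ n ∈ Icc 1 N, (((ArithmeticFunction.vonMangoldt n - lamz z n) *
          FF (J ×ˢ Ds X z) M' c' g' n : ℝ) : ℂ) * ee ((n : ℝ) * α)‖ ≤ 9 * X / L ^ (U + 2) := by
      intro N hN1' hN2
      have hNr : (X : ℝ) ≤ N := by exact_mod_cast hN1'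
      have hNr2 : (N : ℝ) ≤ 9 * X := by exact_mod_cast hN2
      have l1 : L ≤ Real.log N := Real.log_le_log hX0 hNr
      have l2 : Real.log N ≤ 2 * L := by
        refine le_trans (Real.log_le_log (by linarith) ?_) h9
        push_cast
        exact hNr2
      have l0 : 0 ≤ Real.log N := by linarith
      have m1 : Real.log N ^ B1 ≤ z := by
        calc Real.log N ^ B1 ≤ (2 * L) ^ B1 := by gcongr
          _ ≤ L ^ (B1 + 1) := q2
          _ ≤ z := hBig _ (by omega)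
      have m2 : (z : ℝ) ≤ Real.log N ^ E := hz2.trans (by gcongr)
      refine (hN1 N (by omega) z m1 m2 _ _ _ _ _ (hcls N hN1') α).trans ?_
      gcongr
    have e1 : ∀ x, (∑ j ∈ J, if x ≡ r j [MOD M j] then g j else 0) * FD X z γ c x =
        FF (J ×ˢ Ds X z) M' c' g' (x + a) := hFF
    have e2 := shift_bound (f := fun n => (ArithmeticFunction.vonMangoldt n - lamz z n) *
          FF (J ×ˢ Ds X z) M' c' g' n) (a := a) (X := X) (α := α) hX1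
      (key (8 * X + a - 1) (by omega) (by omega)) (key (4 * X + a - 1) (by omega) (by omega))
    simp only [e1]
    refine e2.trans ?_
    have e3 : 2 * (9 * (X : ℝ) / L ^ (U + 2)) = (X / L ^ (U + 1)) * (18 / L) := by
      field_simp
      ring
    rw [e3]
    have e4 : 18 / L ≤ 1 := by
      rw [div_le_one hL0]
      linarith
    have e5 : 0 ≤ (X : ℝ) / L ^ (U + 1) := by positivity
    nlinarith
  · -- fourth term
    have e1 := hX2 X g2 z (hBig B2 (by omega)) hz2 b hb γ c hγ α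
    calc (Vz z)⁻¹ * _ ≤ L * (X / L ^ (U + 2)) :=
          mul_le_mul hVL e1 (norm_nonneg _) hL0.le
      _ = X / L ^ (U + 1) := by
          rw [show U + 2 = (U + 1) + 1 from rfl, pow_succ L (U + 1)]
          field_simp
  · -- fifth term
    refine (bound5 hγ hX1 hL1 hV0 hVL hz4 α).trans ?_
    have e0 : L ^ (U + 2 ^ K + 6) ≤ z := hBig _ (by omega)
    have e1 : 4 * (X : ℝ) * (L * (4 * L / z * (2 * L) ^ 2 ^ K)) ≤
        4 * X * (L * (4 * L / L ^ (U + 2 ^ K + 6) * L ^ (2 ^ K + 1))) := by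
      gcongr
    refine e1.trans ?_
    have e2 : 4 * (X : ℝ) * (L * (4 * L / L ^ (U + 2 ^ K + 6) * L ^ (2 ^ K + 1))) =
        (X / L ^ (U + 1)) * (16 / L ^ 2) := by
      have : L ≠ 0 := hL0.ne'
      field_simp
      ring
    rw [e2]
    have e3 : 16 / L ^ 2 ≤ 1 := by
      rw [div_le_one (by positivity)]
      nlinarith
    have e4 : 0 ≤ (X : ℝ) / L ^ (U + 1) := by positivity
    nlinarith

end Pool.Agent.T2H22.AA
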