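import Pool.Agent.T2H22.AA.FinA
import Pool.Agent.T2H22.AA.Asm3

/-! Project AA: the theorem for almost all integers. -/

set_option autoImplicit false

open Finset

namespace Pool.Agent.T2H22.AA

open Pool.Agent.T2H22.BG (Sol ns ny)
open Pool.Agent.H862R2.PPSm5 (log_tendsto)

open Classical in
theorem main_of (hSec : SecM) (r : ℕ) : ∃ C D : ℕ, ∀ ε : ℝ, 0 < ε → ∃ X₀ : ℕ, ∀ X : ℕ, X₀ ≤ X →
    (((Icc 1 X).filter (fun n : ℕ => (ny r C n : ℝ) < n / Real.log n ^ D)).card : ℝ) ≤ ε * X := by
  obtain ⟨S, c0, D, hc0, hS1, hodd, h⟩ := one hSec (eqI tR) (eqP tR supF (eqI tR)) r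
  refine ⟨c0, D + 1, fun ε hε => ?_⟩
  obtain ⟨X₁, h1⟩ := h (ε / 12) (by positivity)
  obtain ⟨X₂, h2⟩ := Filter.eventually_atTop.1 (log_tendsto.eventually_ge_atTop (4 : ℝ))
  set P : ℕ → Prop := fun n : ℕ => (ny r c0 n : ℝ) < n / Real.log n ^ (D + 1) with hP
  set Y₁ : ℕ := max (4 * X₁) (max (4 * X₂) (6 * c0 + 100)) with hY₁
  have hkey : ∀ Y : ℕ, Y₁ ≤ Y → (((Ioc (5 * Y / 6) Y).filter P).card : ℝ) ≤ ε / 12 * Y := by
    intro Y hY
    simp only [hY₁, max_le_iff] at hY
    obtain ⟨hY1, hY2, hY3⟩ := hY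
    set X : ℕ := Y / 4 + 1 with hX
    have hXX1 : X₁ ≤ X := by omega
    have hXX2 : X₂ ≤ X := by omega
    have h3 := h1 X hXX1
    have hL4 := h2 X hXX2
    have hXY : (X : ℝ) ≤ Y := by
      have : X ≤ Y := by omega
      exact_mod_cast this
    refine le_trans ?_ (mul_le_mul_of_nonneg_left hXY (by positivity : 0 ≤ ε / 12))
    refine le_trans ?_ h3
    apply Nat.cast_le.2
    apply card_le_card_of_injOn (fun n => 2 * n - c0)
    · intro n hn
      rw [mem_coe, mem_filter, mem_Ioc] at hn
      obtain ⟨⟨hn1, hn2⟩, hn3⟩ := hn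
      have hn4 : n < 4 * X := by omega
      have hn5 : X ≤ n := by omega
      rw [mem_coe, mem_filter, mem_Ico]
      simp only
      refine ⟨⟨by omega, by omega⟩, ?_, ?_⟩
      · have : 2 * n - c0 + c0 = 2 * n := by omega
        rw [this]
        exact even_two_mul n
      · have h4 := gd_le S c0 r X n hc0 hS1 hn4 (by omega)
        have h5 : (gd S c0 r X (2 * n - c0) : ℝ) ≤ ny r c0 n := by exact_mod_cast h4
        refine lt_of_le_of_lt h5 (lt_of_lt_of_le hn3 ?_)
        have hX0 : (0 : ℝ) < X := by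
          have : 0 < X := by omega
          exact_mod_cast this
        have hnr : (n : ℝ) ≤ 4 * X := by exact_mod_cast hn4.le
        have hXn : (X : ℝ) ≤ n := by exact_mod_cast hn5
        have hLn : Real.log X ≤ Real.log n := Real.log_le_log hX0 hXn
        have hL0 : 0 < Real.log X := by linarith
        calc (n : ℝ) / Real.log n ^ (D + 1) ≤ (4 * X) / Real.log X ^ (D + 1) := by
              apply div_le_div₀ (by positivity) hnr (by positivity)
              exact pow_le_pow_left₀ hL0.le hLn _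
          _ = (4 / Real.log X) * (X / Real.log X ^ D) := by
              rw [pow_succ]
              field_simp
          _ ≤ 1 * (X / Real.log X ^ D) := by
              apply mul_le_mul_of_nonneg_right _ (by positivity)
              rw [div_le_one hL0]
              exact hL4
          _ = _ := one_mul _
    · intro n hn n' hn' he
      rw [mem_coe, mem_filter, mem_Ioc] at hn hn'
      simp only at he
      omega
  have hit := iter P (ε / 12) (by positivity) Y₁ (by omega) hkey
  refine ⟨⌈2 * Y₁ / ε⌉₊, fun X hX => ?_⟩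
  refine (hit X).trans ?_
  have h6 : 2 * (Y₁ : ℝ) / ε ≤ X := (Nat.le_ceil _).trans (by exact_mod_cast hX)
  rw [div_le_iff₀ hε] at h6
  linarith

end Pool.Agent.T2H22.AA
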