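import Pool.Agent.T2H22.AA.MF1
import Pool.Agent.H373R2.T7.LamMaj

/-!
Package C of project AA (helper22), part 3: primes in progressions on average (helper68).
-/

set_option autoImplicit false

namespace Pool.Agent.T2H22.AA.MF

open Finset
open Pool.Agent.H373R2.T7 Pool.Agent.H807R2.Dav

lemma lamAP_mod (y m f : ℕ) : lamAP y m (f % m) = lamAP y m f := by
  unfold lamAP
  apply sum_congr _ (fun _ _ => rfl)
  apply filter_congr
  intro n _
  unfold Nat.ModEq
  rw [Nat.mod_mod]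

lemma exists_max (y m : ℕ) (hm : 1 ≤ m) : ∃ f0 : ℕ, f0 < m ∧ f0.Coprime m ∧
    ∀ f : ℕ, f.Coprime m → |lamAP y m f - (y : ℝ) / (Nat.totient m : ℝ)| ≤
      |lamAP y m f0 - (y : ℝ) / (Nat.totient m : ℝ)| := by
  have hmod : ∀ f : ℕ, f.Coprime m → f % m ∈ (range m).filter (fun f => f.Coprime m) := by
    intro f hf
    rw [mem_filter, mem_range]
    refine ⟨Nat.mod_lt _ hm, ?_⟩
    unfold Nat.Coprime
    rw [(Nat.mod_modEq f m).gcd_eq]
    exact hf
  have hne : ((range m).filter (fun f => f.Coprime m)).Nonempty :=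
    ⟨_, hmod 1 (Nat.coprime_one_left m)⟩
  obtain ⟨f0, hf0, hmax⟩ := exists_max_image ((range m).filter (fun f => f.Coprime m))
    (fun f => |lamAP y m f - (y : ℝ) / (Nat.totient m : ℝ)|) hne
  rw [mem_filter, mem_range] at hf0
  refine ⟨f0, hf0.1, hf0.2, fun f hf => ?_⟩
  have h := hmax _ (hmod f hf)
  rwa [lamAP_mod] at h

/-- the worst reduced class -/
noncomputable def fm (y m : ℕ) : ℕ := if h : 1 ≤ m then Classical.choose (exists_max y m h) else 0

/-- the largest error of a reduced class -/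
noncomputable def EE (y m : ℕ) : ℝ := |lamAP y m (fm y m) - (y : ℝ) / (Nat.totient m : ℝ)|

lemma fm_spec (y : ℕ) {m : ℕ} (hm : 1 ≤ m) : fm y m < m ∧ (fm y m).Coprime m ∧
    ∀ f : ℕ, f.Coprime m → |lamAP y m f - (y : ℝ) / (Nat.totient m : ℝ)| ≤ EE y m := by
  have h := Classical.choose_spec (exists_max y m hm)
  unfold EE fm
  rw [dif_pos hm]
  exact h

lemma EE_nonneg (y m : ℕ) : 0 ≤ EE y m := abs_nonneg _

lemma lamAP_le' {y N : ℕ} (hyN : y ≤ N) {m : ℕ} (hm : 1 ≤ m) (f : ℕ) :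
    lamAP y m f ≤ ((y : ℝ) / m + 1) * Real.log N := by
  unfold lamAP
  have hN := Real.log_natCast_nonneg N
  calc ∑ n ∈ (Icc 1 y).filter (fun n => n ≡ f [MOD m]), ArithmeticFunction.vonMangoldt n
      ≤ ∑ _n ∈ (Icc 1 y).filter (fun n => n ≡ f [MOD m]), Real.log N := by
        apply sum_le_sum
        intro n hn
        rw [mem_filter, mem_Icc] at hn
        refine ArithmeticFunction.vonMangoldt_le_log.trans ?_
        apply Real.log_le_log (by exact_mod_cast hn.1.1)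
        exact_mod_cast hn.1.2.trans hyN
    _ = (((Icc 1 y).filter (fun n => n ≡ f [MOD m])).card : ℝ) * Real.log N := by
        rw [sum_const, nsmul_eq_mul]
    _ ≤ _ := by
        apply mul_le_mul_of_nonneg_right _ hN
        have := (abs_le.1 (count_class y m f hm)).2
        linarith

lemma EE_triv {y N : ℕ} (hyN : y ≤ N) (hN : 1 ≤ Real.log N) {d m : ℕ} (hm : 1 ≤ m)
    (hd : d ∣ m) : EE y m ≤ Real.log N + 2 * Real.log N * y * (tau d / d) := by
  have hd1 : 1 ≤ d := Nat.pos_of_dvd_of_pos hd hm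
  have hd0 : (0 : ℝ) < d := by exact_mod_cast hd1
  have hm0 : (0 : ℝ) < m := by exact_mod_cast hm
  have hdm : (d : ℝ) ≤ m := by exact_mod_cast Nat.le_of_dvd hm hd
  have hy0 : (0 : ℝ) ≤ y := Nat.cast_nonneg _
  have hφd : (0 : ℝ) < (Nat.totient d : ℝ) := by exact_mod_cast Nat.totient_pos.2 hd1
  have hφm : (0 : ℝ) < (Nat.totient m : ℝ) := by exact_mod_cast Nat.totient_pos.2 hm
  have hφ : (Nat.totient d : ℝ) ≤ (Nat.totient m : ℝ) := by
    exact_mod_cast Nat.le_of_dvd (Nat.totient_pos.2 hm) (Nat.totient_dvd_of_dvd hd)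
  have h1 := lamAP_le' hyN hm (fm y m)
  have h2 := lamAP_nonneg y m (fm y m)
  have ht := tau_one_le hd1
  have h3 : (y : ℝ) / m ≤ y * (tau d / d) := by
    calc (y : ℝ) / m ≤ y / d := by gcongr
      _ = y * (1 / d) := by ring
      _ ≤ y * (tau d / d) := by gcongr
  have h4 : (y : ℝ) / (Nat.totient m : ℝ) ≤ y * (tau d / d) := by
    calc (y : ℝ) / (Nat.totient m : ℝ) ≤ y / (Nat.totient d : ℝ) := by gcongr
      _ = y * (1 / (Nat.totient d : ℝ)) := by ring
      _ ≤ y * (tau d / d) := mul_le_mul_of_nonneg_left (inv_phi hd1) hy0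
  have h5 : 0 ≤ (y : ℝ) / (Nat.totient m : ℝ) := by positivity
  have h6 : 0 ≤ (y : ℝ) * (tau d / d) := by positivity
  have h7 : EE y m ≤ lamAP y m (fm y m) + (y : ℝ) / (Nat.totient m : ℝ) := by
    unfold EE
    rw [abs_le]
    constructor <;> linarith
  have h8 : ((y : ℝ) / m + 1) * Real.log N ≤ Real.log N + Real.log N * (y * (tau d / d)) := by
    nlinarith
  have h9 : (y : ℝ) * (tau d / d) ≤ Real.log N * (y * (tau d / d)) := by nlinarith
  linarith

lemma EE_sum_triv {y N T : ℕ} (hyN : y ≤ N) (hN : 1 ≤ Real.log N) (hT : T ≤ N) {q : ℕ}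
    (hq : 1 ≤ q) (k : ℕ) :
    ∑ d ∈ Icc 1 T, tau d ^ k * EE y (Nat.lcm q d) ≤
      Real.log N * (T * (2 * Real.log N) ^ (2 ^ k)) +
        2 * Real.log N * y * (2 * Real.log N) ^ (2 ^ (k + 1)) := by
  have hy0 : (0 : ℝ) ≤ y := Nat.cast_nonneg _
  calc ∑ d ∈ Icc 1 T, tau d ^ k * EE y (Nat.lcm q d)
      ≤ ∑ d ∈ Icc 1 T, (Real.log N * tau d ^ k +
          2 * Real.log N * y * (tau d ^ (k + 1) / d)) := by
        apply sum_le_sum
        intro d hd
        rw [mem_Icc] at hd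
        have h := EE_triv (y := y) hyN hN (m := Nat.lcm q d) (Nat.lcm_pos hq hd.1)
          (Nat.dvd_lcm_right q d)
        have h1 : 0 ≤ tau d ^ k := pow_nonneg (tau_nonneg _) _
        refine (mul_le_mul_of_nonneg_left h h1).trans (le_of_eq ?_)
        ring
    _ = Real.log N * ∑ d ∈ Icc 1 T, tau d ^ k +
          2 * Real.log N * y * ∑ d ∈ Icc 1 T, tau d ^ (k + 1) / d := by
        rw [sum_add_distrib, ← mul_sum, ← mul_sum]
    _ ≤ _ := by
        apply add_le_add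
        · exact mul_le_mul_of_nonneg_left (dsum_le' hT hN k) (by linarith)
        · exact mul_le_mul_of_nonneg_left (dsum_le hT hN (k + 1)) (by positivity)

/-- Bombieri-Vinogradov -/
theorem EE_bv (A B A1 : ℕ) : ∃ N0 : ℕ, ∀ N : ℕ, N0 ≤ N → ∀ y : ℕ, y ≤ N →
    N / Real.log N ^ A1 ≤ (y : ℝ) → ∀ D : ℕ, (D : ℝ) ^ 2 ≤ Real.log N ^ (2 * B) * √N →
    ∑ m ∈ Icc 1 D, EE y m ≤ N / Real.log N ^ A := by
  obtain ⟨B0, X0, h0⟩ := H343E.unsmoothed (A + 3)
  obtain ⟨C, N1, hC, hpnt⟩ := pnt_lam (A + 3)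
  obtain ⟨n1, h1⟩ := ev_log' (2 * B + A1 + B0 + A + 5) 1
  obtain ⟨n2, h2⟩ := ev_L' (2 ^ (A + 3) * (1 + 4 * C) + 10)
  refine ⟨max (max (⌈X0⌉₊ ^ 2) (N1 ^ 2)) (max n1 (max n2 4)), fun N hN y hy hyl D hD => ?_⟩
  have hNX : ⌈X0⌉₊ ^ 2 ≤ N := le_trans (le_trans (le_max_left _ _) (le_max_left _ _)) hN
  have hNN1 : N1 ^ 2 ≤ N := le_trans (le_trans (le_max_right _ _) (le_max_left _ _)) hN
  have a1 := h1 N (le_trans (le_trans (le_max_left _ _) (le_max_right _ _)) hN)
  have hL := h2 N (le_trans (le_trans (le_trans (le_max_left _ _) (le_max_right _ _))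
    (le_max_right _ _)) hN)
  have hN4 : 4 ≤ N := le_trans (le_trans (le_trans (le_max_right _ _) (le_max_right _ _))
    (le_max_right _ _)) hN
  have hNr : (4 : ℝ) ≤ N := by exact_mod_cast hN4
  have hN0 : (0 : ℝ) < N := by linarith
  set L := Real.log N with hLd
  have hp1 : (0 : ℝ) < 2 ^ (A + 3) := by positivity
  have hCC : 0 < 2 ^ (A + 3) * (1 + 4 * C) := by positivity
  have hL10 : 10 ≤ L := by linarith
  have hL0 : 0 < L := by linarith
  have hL1 : 1 ≤ L := by linarith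
  rw [one_mul] at a1
  have hs0 : 0 < √(N : ℝ) := Real.sqrt_pos.2 hN0
  have hss : √(N : ℝ) * √(N : ℝ) = N := Real.mul_self_sqrt hN0.le
  have hs1 : (1 : ℝ) ≤ √(N : ℝ) := Real.le_sqrt_of_sq_le (by linarith)
  have hpow : ∀ k : ℕ, k ≤ 2 * B + A1 + B0 + A + 5 → L ^ k ≤ √(N : ℝ) := fun k hk =>
    (pow_le_pow_right₀ hL1 hk).trans a1
  have hysq : √(N : ℝ) ≤ y := by
    refine le_trans ?_ hyl
    rw [le_div_iff₀ (by positivity)]
    calc √(N : ℝ) * L ^ A1 ≤ √(N : ℝ) * √(N : ℝ) := by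
          have := hpow A1 (by omega)
          gcongr
      _ = N := hss
  have hyX0 : X0 ≤ y := by
    have h3 : (⌈X0⌉₊ : ℝ) ≤ √(N : ℝ) := Real.le_sqrt_of_sq_le (by exact_mod_cast hNX)
    exact (Nat.le_ceil _).trans (h3.trans hysq)
  have hyN1 : N1 ≤ y := by
    have h3 : (N1 : ℝ) ≤ √(N : ℝ) := Real.le_sqrt_of_sq_le (by exact_mod_cast hNN1)
    exact_mod_cast h3.trans hysq
  have hyr : (y : ℝ) ≤ N := by exact_mod_cast hy
  have hy1 : (1 : ℝ) ≤ y := hs1.trans hysq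
  have hy0 : (0 : ℝ) < y := by linarith
  have hlogy : L / 2 ≤ Real.log y := by
    have h3 := Real.log_le_log hs0 hysq
    rw [Real.log_sqrt hN0.le] at h3
    exact h3
  have hlogy0 : 0 < Real.log y := by linarith
  have hlogyN : Real.log y ≤ L := Real.log_le_log (by linarith) hyr
  -- the range of the moduli
  have hD2 : (D : ℝ) ^ 2 ≤ 1 * y / Real.log y ^ B0 := by
    rw [one_mul, le_div_iff₀ (by positivity)]
    calc (D : ℝ) ^ 2 * Real.log y ^ B0 ≤ (L ^ (2 * B) * √(N : ℝ)) * L ^ B0 := by gcongr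
      _ = (L ^ (2 * B + B0 + A1) * √(N : ℝ)) / L ^ A1 := by
          rw [pow_add, pow_add]
          field_simp
      _ ≤ (√(N : ℝ) * √(N : ℝ)) / L ^ A1 := by
          have := hpow (2 * B + B0 + A1) (by omega)
          gcongr
      _ = N / L ^ A1 := by rw [hss]
      _ ≤ y := hyl
  have hDD : (D : ℝ) ≤ (D : ℝ) ^ 2 := by
    rcases Nat.eq_zero_or_pos D with h | h
    · rw [h]; simp
    · have : (1 : ℝ) ≤ D := by exact_mod_cast h
      nlinarith
  have hD1 : (D : ℝ) ≤ y / Real.log y ^ B0 := by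
    rw [one_mul] at hD2
    exact hDD.trans hD2
  have hDN : D ≤ N := by
    have : (D : ℝ) ≤ N := by
      calc (D : ℝ) ≤ L ^ (2 * B) * √(N : ℝ) := hDD.trans hD
        _ ≤ √(N : ℝ) * √(N : ℝ) := by
          have := hpow (2 * B) (by omega)
          gcongr
        _ = N := hss
    exact_mod_cast this
  have h4 := h0 y hyX0 1 le_rfl D hD1 hD2 (fun m => if 1 ≤ m then {fm y m} else ∅)
    ⟨fun m a ha => by
      by_cases hm : 1 ≤ m
      · rw [if_pos hm, mem_singleton] at ha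
        rw [ha]
        exact ⟨(fm_spec y hm).1, (fm_spec y hm).2.1⟩
      · rw [if_neg hm] at ha
        simp at ha, fun m => by
      split_ifs <;> simp⟩
  rw [one_mul] at h4
  have e1 : ∀ m f : ℕ, H343E.psiAP y m f = lamAP y m f := by
    intro m f
    unfold lamAP H343E.psiAP
    rw [Nat.floor_natCast]
  have e2 : H343E.psi1 y = lam1 y := by
    unfold lam1 H343E.psi1
    rw [Nat.floor_natCast]
  have h5 : ∑ m ∈ Icc 1 D, |lamAP y m (fm y m) - lam1 y / (Nat.totient m : ℝ)| ≤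
      y / Real.log y ^ (A + 3) := by
    refine le_trans (le_of_eq ?_) h4
    apply sum_congr rfl
    intro m hm
    rw [mem_Icc] at hm
    rw [if_pos hm.1, sum_singleton, e1, e2]
  have h6 := hpnt y hyN1
  have h7 : (y : ℝ) / Real.log y ^ (A + 3) ≤ 2 ^ (A + 3) * (N / L ^ (A + 3)) := by
    calc (y : ℝ) / Real.log y ^ (A + 3) ≤ N / (L / 2) ^ (A + 3) := by
          apply div_le_div₀ hN0.le hyr (by positivity)
          gcongr
      _ = 2 ^ (A + 3) * (N / L ^ (A + 3)) := by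
          rw [div_pow]; field_simp
  have h8 : ∑ m ∈ Icc 1 D, EE y m ≤ ∑ m ∈ Icc 1 D, (|lamAP y m (fm y m) -
      lam1 y / (Nat.totient m : ℝ)| + |lam1 y - y| * (1 / (Nat.totient m : ℝ))) := by
    apply sum_le_sum
    intro m _
    unfold EE
    have e : lamAP y m (fm y m) - (y : ℝ) / (Nat.totient m : ℝ) =
        (lamAP y m (fm y m) - lam1 y / (Nat.totient m : ℝ)) +
          (lam1 y - y) * (1 / (Nat.totient m : ℝ)) := by ring
    rw [e]
    refine (abs_add_le _ _).trans ?_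
    rw [abs_mul (lam1 y - (y : ℝ)), abs_of_nonneg (show (0 : ℝ) ≤ 1 / (Nat.totient m : ℝ) by positivity)]
  rw [sum_add_distrib, ← mul_sum] at h8
  have h9 : ∑ m ∈ Icc 1 D, 1 / (Nat.totient m : ℝ) ≤ 4 * L ^ 2 := by
    refine (sum_inv_phi D).trans ?_
    have h1 : Real.log D ≤ L := by
      rcases Nat.eq_zero_or_pos D with h | h
      · rw [h]; simp; linarith
      · exact Real.log_le_log (by exact_mod_cast h) (by exact_mod_cast hDN)
    have h2 := one_add_log_nonneg D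
    calc (1 + Real.log D) ^ 2 ≤ (2 * L) ^ 2 := by
          apply pow_le_pow_left₀ (by linarith)
          linarith
      _ = 4 * L ^ 2 := by ring
  have h10 : |lam1 y - y| ≤ C * (2 ^ (A + 3) * (N / L ^ (A + 3))) + 2 := by
    refine h6.trans ?_
    have := mul_le_mul_of_nonneg_left h7 hC.le
    linarith
  have h11 : 8 * L ^ 2 ≤ 1 / L * (N / L ^ A) := by
    rw [one_div, inv_mul_eq_div, div_div, le_div_iff₀ (by positivity)]
    calc 8 * L ^ 2 * (L ^ A * L) ≤ L * L ^ 2 * (L ^ A * L) := by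
          have : (8 : ℝ) ≤ L := by linarith
          gcongr
      _ = L ^ (A + 4) := by ring
      _ ≤ √(N : ℝ) := hpow _ (by omega)
      _ ≤ √(N : ℝ) * √(N : ℝ) := by nlinarith
      _ = N := hss
  calc ∑ m ∈ Icc 1 D, EE y m
      ≤ 2 ^ (A + 3) * (N / L ^ (A + 3)) +
        (C * (2 ^ (A + 3) * (N / L ^ (A + 3))) + 2) * (4 * L ^ 2) := by
        refine h8.trans (add_le_add (h5.trans h7) ?_)
        apply mul_le_mul h10 h9 (sum_nonneg fun m _ => by positivity) (by positivity)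
    _ = 2 ^ (A + 3) * (N / L ^ (A + 3)) + (4 * C) * (2 ^ (A + 3) * (N / L ^ (A + 1))) +
        8 * L ^ 2 := by
        rw [pow_add L A 3, pow_add L A 1]
        field_simp
        ring
    _ ≤ 2 ^ (A + 3) * (N / L ^ (A + 1)) + (4 * C) * (2 ^ (A + 3) * (N / L ^ (A + 1))) +
        1 / L * (N / L ^ A) := by
        have : (N : ℝ) / L ^ (A + 3) ≤ N / L ^ (A + 1) := by
          apply div_le_div_of_nonneg_left hN0.le (by positivity)
          exact pow_le_pow_right₀ hL1 (by omega)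
        gcongr
    _ = ((2 ^ (A + 3) * (1 + 4 * C) + 1) / L) * (N / L ^ A) := by
        rw [pow_add L A 1]
        field_simp
    _ ≤ 1 * (N / L ^ A) := by
        apply mul_le_mul_of_nonneg_right _ (by positivity)
        rw [div_le_one hL0]
        linarith
    _ = _ := one_mul _

theorem lam_sum (κ B A : ℕ) : ∃ N0 : ℕ, ∀ N : ℕ, N0 ≤ N → ∀ y : ℕ, y ≤ N → ∀ q : ℕ, 1 ≤ q →
    (q : ℝ) ≤ Real.log N ^ B → ∀ T : ℕ, (T : ℝ) ^ 2 ≤ √N →
    ∑ d ∈ Icc 1 T, tau d ^ κ * EE y (Nat.lcm q d) ≤ N / Real.log N ^ A := by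
  set e1 : ℕ := 2 ^ (κ + 1) with he1
  set e2 : ℕ := 2 ^ (2 * κ + 1) with he2
  set A1 : ℕ := A + 2 + e1 with hA1
  set A2 : ℕ := B + 2 * A + e2 + 2 with hA2
  obtain ⟨N1, hbv⟩ := EE_bv A2 B A1
  obtain ⟨n1, h1⟩ := ev_log' (1 + 2 ^ κ + A) (2 * 2 ^ (2 ^ κ))
  obtain ⟨n2, h2⟩ := ev_L' (4 * 2 ^ e1 + 3 * 2 ^ e2 + 1)
  refine ⟨max (max N1 n1) (max n2 1), fun N hN y hy q hq hqN T hT => ?_⟩
  have hNN1 : N1 ≤ N := le_trans (le_trans (le_max_left _ _) (le_max_left _ _)) hN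
  have a1 := h1 N (le_trans (le_trans (le_max_right _ _) (le_max_left _ _)) hN)
  have hL := h2 N (le_trans (le_trans (le_max_left _ _) (le_max_right _ _)) hN)
  have hN1 : 1 ≤ N := le_trans (le_trans (le_max_right _ _) (le_max_right _ _)) hN
  have hNr : (1 : ℝ) ≤ N := by exact_mod_cast hN1
  have hN0 : (0 : ℝ) < N := by linarith
  set L := Real.log N with hLd
  have hp1 : (0 : ℝ) < 2 ^ e1 := by positivity
  have hp2 : (0 : ℝ) < 2 ^ e2 := by positivity
  have hL1 : 1 ≤ L := by linarith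
  have hL0 : 0 < L := by linarith
  have hs0 : 0 < √(N : ℝ) := Real.sqrt_pos.2 hN0
  have hss : √(N : ℝ) * √(N : ℝ) = N := Real.mul_self_sqrt hN0.le
  have hs1 : (1 : ℝ) ≤ √(N : ℝ) := Real.le_sqrt_of_sq_le (by linarith)
  have hsN : √(N : ℝ) ≤ N := by nlinarith
  have hTT : (T : ℝ) ≤ √(N : ℝ) := by
    rcases Nat.eq_zero_or_pos T with h | h
    · rw [h]; simp
    · have : (1 : ℝ) ≤ T := by exact_mod_cast h
      nlinarith
  have hTN : T ≤ N := by exact_mod_cast hTT.trans hsN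
  have hyr : (y : ℝ) ≤ N := by exact_mod_cast hy
  rcases le_or_gt ((N : ℝ) / L ^ A1) y with hyl | hys
  · -- large y
    have hcs := sum_sq_le_sum_mul_sum_of_sq_le_mul (Icc 1 T)
      (r := fun d => tau d ^ κ * EE y (Nat.lcm q d))
      (f := fun d => tau d ^ (2 * κ) * EE y (Nat.lcm q d))
      (g := fun d => EE y (Nat.lcm q d))
      (fun d _ => mul_nonneg (pow_nonneg (tau_nonneg _) _) (EE_nonneg _ _))
      (fun d _ => EE_nonneg _ _) (fun d _ => le_of_eq (by ring))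
    have hf := EE_sum_triv (y := y) hy hL1 hTN hq (2 * κ)
    have hf' : ∑ d ∈ Icc 1 T, tau d ^ (2 * κ) * EE y (Nat.lcm q d) ≤
        3 * 2 ^ e2 * L ^ (1 + e2) * N := by
      refine hf.trans ?_
      have k1 : (2 * L) ^ (2 ^ (2 * κ)) ≤ (2 * L) ^ e2 :=
        pow_le_pow_right₀ (by linarith) (by rw [he2]; exact Nat.pow_le_pow_right (by norm_num) (by omega))
      calc L * (T * (2 * L) ^ (2 ^ (2 * κ))) + 2 * L * y * (2 * L) ^ (2 ^ (2 * κ + 1))
          ≤ L * (N * (2 * L) ^ e2) + 2 * L * N * (2 * L) ^ e2 := by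
            have : (T : ℝ) ≤ N := by exact_mod_cast hTN
            gcongr
        _ = 3 * 2 ^ e2 * L ^ (1 + e2) * N := by
            rw [mul_pow, pow_add, pow_one]; ring
    have hg : ∑ d ∈ Icc 1 T, EE y (Nat.lcm q d) ≤ L ^ B * (N / L ^ A2) := by
      refine (sum_lcm_le hq (fun m => EE y m) (fun m => EE_nonneg y m)).trans ?_
      have hb := hbv N hNN1 y hy hyl (q * T) (by
        push_cast
        calc ((q : ℝ) * T) ^ 2 = (q : ℝ) ^ 2 * (T : ℝ) ^ 2 := by ring
          _ ≤ (L ^ B) ^ 2 * √(N : ℝ) := by gcongr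
          _ = L ^ (2 * B) * √(N : ℝ) := by rw [← pow_mul, mul_comm B 2])
      apply mul_le_mul hqN hb (sum_nonneg fun m _ => EE_nonneg _ _) (by positivity)
    have hfin : (∑ d ∈ Icc 1 T, tau d ^ κ * EE y (Nat.lcm q d)) ^ 2 ≤ (N / L ^ A) ^ 2 := by
      refine hcs.trans ?_
      calc (∑ d ∈ Icc 1 T, tau d ^ (2 * κ) * EE y (Nat.lcm q d)) *
            ∑ d ∈ Icc 1 T, EE y (Nat.lcm q d)
          ≤ (3 * 2 ^ e2 * L ^ (1 + e2) * N) * (L ^ B * (N / L ^ A2)) := by
            apply mul_le_mul hf' hg (sum_nonneg fun m _ => EE_nonneg _ _) (by positivity)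
        _ = ((3 * 2 ^ e2) / L) * (N / L ^ A) ^ 2 := by
            rw [hA2, show B + 2 * A + e2 + 2 = (1 + e2) + B + (A + A) + 1 by ring,
              pow_add L _ 1, pow_add L _ (A + A), pow_add L (1 + e2) B, pow_add L A A]
            field_simp
        _ ≤ 1 * (N / L ^ A) ^ 2 := by
            apply mul_le_mul_of_nonneg_right _ (by positivity)
            rw [div_le_one hL0]
            linarith
        _ = _ := one_mul _
    exact abs_le_of_sq_le_sq' hfin (by positivity) |>.2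
  · -- small y
    refine (EE_sum_triv (y := y) hy hL1 hTN hq κ).trans ?_
    have k1 : L * (T * (2 * L) ^ (2 ^ κ)) ≤ (1 / 2) * (N / L ^ A) := by
      rw [one_div, inv_mul_eq_div, div_div, le_div_iff₀ (by positivity)]
      calc L * (T * (2 * L) ^ (2 ^ κ)) * (L ^ A * 2)
          ≤ L * (√(N : ℝ) * (2 * L) ^ (2 ^ κ)) * (L ^ A * 2) := by gcongr
        _ = (2 * 2 ^ (2 ^ κ) * L ^ (1 + 2 ^ κ + A)) * √(N : ℝ) := by
            rw [mul_pow, pow_add, pow_add, pow_one]; ring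
        _ ≤ √(N : ℝ) * √(N : ℝ) := by gcongr
        _ = N := hss
    have k2 : 2 * L * y * (2 * L) ^ (2 ^ (κ + 1)) ≤ (1 / 2) * (N / L ^ A) := by
      calc 2 * L * y * (2 * L) ^ (2 ^ (κ + 1)) ≤ 2 * L * (N / L ^ A1) * (2 * L) ^ e1 := by
            gcongr
        _ = (2 * 2 ^ e1 / L) * (N / L ^ A) := by
            rw [hA1, mul_pow, show A + 2 + e1 = e1 + A + 1 + 1 by ring, pow_add L _ 1,
              pow_add L _ 1, pow_add L e1 A]
            field_simp
        _ ≤ (1 / 2) * (N / L ^ A) := by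
            apply mul_le_mul_of_nonneg_right _ (by positivity)
            rw [div_le_iff₀ hL0]
            linarith
    linarith

end Pool.Agent.T2H22.AA.MF
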