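import Pool.Agent.T2H22.AA.MF2
import Pool.Agent.T2H22.AA.MF3

/-!
Package C of project AA (helper22): progressions to small moduli (helper68).
-/

set_option autoImplicit false

namespace Pool.Agent.T2H22.AA

open Finset
open Pool.Agent.H373R2.T7 Pool.Agent.H807R2.Dav

namespace MF

/-- the bound for one class -/
lemma one_class {N z q M e c y A : ℕ} (hL : 1 ≤ Real.log N) (hM : 1 ≤ M) (hcM : c.Coprime M)
    (hq : 1 ≤ q) (hqz : q ≤ z) (hz : 1 ≤ z) (hy : y ≤ N) (hmN : q * M ≤ N)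
    (hlam : ∀ m : ℕ, 1 ≤ m → m ≤ N → ∀ f y : ℕ, f.Coprime m → y ≤ N →
      |∑ n ∈ (Icc 1 y).filter (fun n => n ≡ f [MOD m]), lamz z n -
        (y : ℝ) / (Nat.totient m : ℝ)| ≤
      N / (Nat.totient m : ℝ) * (2 * Real.log N / z) + √N + N / m * (1 / Real.log N ^ A)) :
    |∑ n ∈ (Icc 1 y).filter (fun n => n ≡ e [MOD q] ∧ n ≡ c [MOD M]),
      (ArithmeticFunction.vonMangoldt n - lamz z n)| ≤
      (3 * Real.log N ^ 2 + √N) + EE y (Nat.lcm q M) +
        N * (2 * Real.log N / z + 1 / Real.log N ^ A) * (tau M / M) := by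
  set L := Real.log N with hLd
  set m := Nat.lcm q M with hm
  have hm1 : 1 ≤ m := Nat.lcm_pos hq hM
  have hmN' : m ≤ N := (Nat.le_of_dvd (Nat.mul_pos hq hM) (Nat.lcm_dvd_mul q M)).trans hmN
  have hE := EE_nonneg y m
  have hz0 : (0 : ℝ) < z := by exact_mod_cast hz
  have hM0 : (0 : ℝ) < M := by exact_mod_cast hM
  have hN0 : (0 : ℝ) ≤ N := Nat.cast_nonneg _
  have ht := tau_one_le hM
  have hmain : 0 ≤ (N : ℝ) * (2 * L / z + 1 / L ^ A) * (tau M / M) := by positivity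
  have hs := Real.sqrt_nonneg (N : ℝ)
  have hL2 : 0 ≤ L ^ 2 := by positivity
  rcases two_cong q M e c y with h | ⟨f, hf1, hf2, h⟩
  · rw [h, sum_empty, abs_zero]
    linarith
  rw [h, ← hm]
  by_cases hfm : f.Coprime m
  · have h1 := (fm_spec y hm1).2.2 f hfm
    have h2 := hlam m hm1 hmN' f y hfm hy
    rw [sum_sub_distrib]
    have h3 : ∑ n ∈ (Icc 1 y).filter (fun n => n ≡ f [MOD m]), ArithmeticFunction.vonMangoldt n -
        ∑ n ∈ (Icc 1 y).filter (fun n => n ≡ f [MOD m]), lamz z n =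
        (lamAP y m f - (y : ℝ) / (Nat.totient m : ℝ)) -
        (∑ n ∈ (Icc 1 y).filter (fun n => n ≡ f [MOD m]), lamz z n -
          (y : ℝ) / (Nat.totient m : ℝ)) := by
      unfold lamAP; ring
    rw [h3]
    refine (abs_sub _ _).trans ?_
    have hMm : M ∣ m := Nat.dvd_lcm_right q M
    have hφM : (0 : ℝ) < (Nat.totient M : ℝ) := by exact_mod_cast Nat.totient_pos.2 hM
    have hφ : (Nat.totient M : ℝ) ≤ (Nat.totient m : ℝ) := by
      exact_mod_cast Nat.le_of_dvd (Nat.totient_pos.2 hm1) (Nat.totient_dvd_of_dvd hMm)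
    have hMm' : (M : ℝ) ≤ m := by exact_mod_cast Nat.le_of_dvd hm1 hMm
    have h4 : (N : ℝ) / (Nat.totient m : ℝ) * (2 * L / z) ≤ N * (2 * L / z) * (tau M / M) := by
      calc (N : ℝ) / (Nat.totient m : ℝ) * (2 * L / z)
          ≤ N / (Nat.totient M : ℝ) * (2 * L / z) := by gcongr
        _ = N * (2 * L / z) * (1 / (Nat.totient M : ℝ)) := by ring
        _ ≤ _ := mul_le_mul_of_nonneg_left (inv_phi hM) (by positivity)
    have h5 : (N : ℝ) / m * (1 / L ^ A) ≤ N * (1 / L ^ A) * (tau M / M) := by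
      calc (N : ℝ) / m * (1 / L ^ A) ≤ N / M * (1 / L ^ A) := by gcongr
        _ = N * (1 / L ^ A) * (1 / M) := by ring
        _ ≤ _ := by gcongr
    have h6 : (N : ℝ) * (2 * L / z + 1 / L ^ A) * (tau M / M) =
        N * (2 * L / z) * (tau M / M) + N * (1 / L ^ A) * (tau M / M) := by ring
    rw [h6]
    linarith
  · -- a common prime factor
    have hfM : f.Coprime M := by
      unfold Nat.Coprime
      rw [hf2.gcd_eq]
      exact hcM
    have hfq : ¬ f.Coprime q := fun h' => hfm (coprime_lcm h' hfM)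
    obtain ⟨p, hp, hpf, hpq⟩ := Nat.Prime.not_coprime_iff_dvd.1 hfq
    have hpm : p ∣ m := hpq.trans (Nat.dvd_lcm_left q M)
    have hpz : p ≤ z := (Nat.le_of_dvd hq hpq).trans hqz
    have h3 : ∑ n ∈ (Icc 1 y).filter (fun n => n ≡ f [MOD m]),
        (ArithmeticFunction.vonMangoldt n - lamz z n) = lamAP y m f := by
      unfold lamAP
      apply sum_congr rfl
      intro n hn
      rw [mem_filter] at hn
      have : lamz z n = 0 := by
        unfold lamz
        rw [if_neg]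
        intro h'
        exact h' p (mem_pz.2 ⟨hpz, hp⟩) ((hn.2.dvd_iff hpm).2 hpf)
      rw [this, sub_zero]
    rw [h3, abs_of_nonneg (lamAP_nonneg _ _ _)]
    refine (lamAP_noncop y m f hfm).trans ?_
    have h4 : ((Nat.log 2 y : ℝ) + 1) * Real.log y ≤ 3 * L ^ 2 := by
      rcases Nat.eq_zero_or_pos y with h0 | h0
      · rw [h0]; simp; positivity
      · have h5 := natlog_le y h0
        have h6 : Real.log y ≤ L := Real.log_le_log (by exact_mod_cast h0) (by exact_mod_cast hy)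
        have h7 := Real.log_natCast_nonneg y
        calc ((Nat.log 2 y : ℝ) + 1) * Real.log y ≤ (2 * L + L) * L := by
              apply mul_le_mul _ h6 h7 (by positivity)
              linarith
          _ = 3 * L ^ 2 := by ring
    linarith

end MF

open MF in
theorem majF : MajF := by
  intro κ B U
  set e1 : ℕ := 2 ^ (κ + 1) with he1
  refine ⟨B + U + e1 + 2, fun E => ?_⟩
  obtain ⟨N1, hlam⟩ := lamz_cls E (U + e1 + 1)
  obtain ⟨N2, hbv⟩ := lam_sum κ B (U + 1)
  obtain ⟨n1, h1⟩ := ev_log' (2 * (2 ^ κ + U + 1) + B + 2) (4 * 4 ^ (2 ^ κ))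
  obtain ⟨n2, h2⟩ := ev_L' (2 + 3 * 2 ^ e1 + 3)
  refine ⟨max (max N1 N2) (max n1 (max n2 1)), fun N hN z hzB hzE q hq hqB ι J M c g hC y hy e => ?_⟩
  have hNN1 : N1 ≤ N := le_trans (le_trans (le_max_left _ _) (le_max_left _ _)) hN
  have hNN2 : N2 ≤ N := le_trans (le_trans (le_max_right _ _) (le_max_left _ _)) hN
  have a1 := h1 N (le_trans (le_trans (le_max_left _ _) (le_max_right _ _)) hN)
  have hL := h2 N (le_trans (le_trans (le_trans (le_max_left _ _) (le_max_right _ _))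
    (le_max_right _ _)) hN)
  have hN1 : 1 ≤ N := le_trans (le_trans (le_trans (le_max_right _ _) (le_max_right _ _))
    (le_max_right _ _)) hN
  have hNr : (1 : ℝ) ≤ N := by exact_mod_cast hN1
  have hN0 : (0 : ℝ) < N := by linarith
  set L := Real.log N with hLd
  have hp1 : (0 : ℝ) < 2 ^ e1 := by positivity
  have hL3 : 3 ≤ L := by linarith
  have hL1 : 1 ≤ L := by linarith
  have hL0 : 0 < L := by linarith
  have hs0 : 0 < √(N : ℝ) := Real.sqrt_pos.2 hN0
  have hss : √(N : ℝ) * √(N : ℝ) = N := Real.mul_self_sqrt hN0.le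
  have hs1 : (1 : ℝ) ≤ √(N : ℝ) := Real.le_sqrt_of_sq_le (by linarith)
  have h4one : (1 : ℝ) ≤ 4 ^ (2 ^ κ) := one_le_pow₀ (by norm_num)
  have hpow : ∀ k : ℕ, k ≤ 2 * (2 ^ κ + U + 1) + B + 2 → 4 * 4 ^ (2 ^ κ) * L ^ k ≤ √(N : ℝ) := by
    intro k hk
    refine le_trans ?_ a1
    have := pow_le_pow_right₀ hL1 hk
    gcongr
  have hpow' : ∀ k : ℕ, k ≤ 2 * (2 ^ κ + U + 1) + B + 2 → L ^ k ≤ √(N : ℝ) := by
    intro k hk
    refine le_trans ?_ (hpow k hk)
    have h3 : 0 ≤ L ^ k := by positivity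
    nlinarith
  -- the range of the moduli
  set T : ℕ := Nat.sqrt (Nat.sqrt N) with hTd
  have hT2 : (T : ℝ) ^ 2 ≤ √(N : ℝ) := by
    have h3 : T ^ 2 ≤ Nat.sqrt N := Nat.sqrt_le' _
    have h4 : ((T ^ 2 : ℕ) : ℝ) ≤ (Nat.sqrt N : ℝ) := by exact_mod_cast h3
    push_cast at h4
    exact h4.trans Real.nat_sqrt_le_real_sqrt
  have hTs : (T : ℝ) ≤ √(N : ℝ) := by
    rcases Nat.eq_zero_or_pos T with h | h
    · rw [h]; simp
    · have : (1 : ℝ) ≤ T := by exact_mod_cast h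
      nlinarith
  have hMT : ∀ j ∈ J, 1 ≤ M j ∧ M j ≤ T := by
    intro j hj
    obtain ⟨h3, h4, _⟩ := hC.1 j hj
    refine ⟨h3, ?_⟩
    rw [hTd, Nat.le_sqrt', Nat.le_sqrt', ← pow_mul]
    exact (Nat.pow_le_pow_right h3 (by norm_num)).trans h4
  have hTN : T ≤ N := by
    have : (T : ℝ) ≤ N := by nlinarith
    exact_mod_cast this
  have hqT : q * T ≤ N := by
    have h3 : ((q * T : ℕ) : ℝ) ≤ (N : ℝ) := by
      push_cast
      calc (q : ℝ) * T ≤ √(N : ℝ) * √(N : ℝ) := by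
            have := hqB.trans (hpow' B (by omega))
            gcongr
        _ = N := hss
    exact_mod_cast h3
  have hzz : (q : ℝ) ≤ z := by
    refine hqB.trans (le_trans ?_ hzB)
    exact pow_le_pow_right₀ hL1 (le_trans (Nat.le_add_right B U)
      (le_trans (Nat.le_add_right _ e1) (Nat.le_add_right _ 2)))
  have hqz : q ≤ z := by exact_mod_cast hzz
  have hz1 : 1 ≤ z := hq.trans hqz
  have hz0 : (0 : ℝ) < z := by exact_mod_cast hz1
  -- expansion
  have hexp : ∑ n ∈ (Icc 1 y).filter (fun n => n ≡ e [MOD q]),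
      (ArithmeticFunction.vonMangoldt n - lamz z n) * FF J M c g n =
      ∑ j ∈ J, g j * ∑ n ∈ (Icc 1 y).filter (fun n => n ≡ e [MOD q] ∧ n ≡ c j [MOD M j]),
        (ArithmeticFunction.vonMangoldt n - lamz z n) := by
    unfold FF
    simp only [mul_sum]
    rw [sum_comm]
    apply sum_congr rfl
    intro j _
    rw [← filter_filter, sum_filter (fun n => n ≡ c j [MOD M j])]
    apply sum_congr rfl
    intro n _
    split_ifs
    · ring
    · ring
  rw [hexp]
  set h : ℕ → ℝ := fun d => (3 * L ^ 2 + √(N : ℝ)) + EE y (Nat.lcm q d) +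
        N * (2 * L / z + 1 / L ^ (U + e1 + 1)) * (tau d / d) with hh
  have hh0 : ∀ d, 0 ≤ h d := by
    intro d
    have := EE_nonneg y (Nat.lcm q d)
    have := tau_nonneg d
    simp only [hh]
    positivity
  have hb1 : |∑ j ∈ J, g j * ∑ n ∈ (Icc 1 y).filter (fun n => n ≡ e [MOD q] ∧ n ≡ c j [MOD M j]),
        (ArithmeticFunction.vonMangoldt n - lamz z n)| ≤ ∑ j ∈ J, |g j| * h (M j) := by
    refine (abs_sum_le_sum_abs _ _).trans (sum_le_sum fun j hj => ?_)
    rw [abs_mul]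
    apply mul_le_mul_of_nonneg_left _ (abs_nonneg _)
    obtain ⟨h3, h4, h5⟩ := hC.1 j hj
    exact one_class hL1 h3 h5 hq hqz hz1 hy
      ((Nat.mul_le_mul_left q (hMT j hj).2).trans hqT)
      (fun m hm hmN f y' hf hy' => hlam N hNN1 z hz1 hzE m hm hmN f y' hf hy')
  refine hb1.trans ((group_le J M g κ T h hh0 hMT hC.2).trans ?_)
  have hsplit : ∑ d ∈ Icc 1 T, tau d ^ κ * h d =
      (3 * L ^ 2 + √(N : ℝ)) * ∑ d ∈ Icc 1 T, tau d ^ κ +
      ∑ d ∈ Icc 1 T, tau d ^ κ * EE y (Nat.lcm q d) +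
      N * (2 * L / z + 1 / L ^ (U + e1 + 1)) * ∑ d ∈ Icc 1 T, tau d ^ (κ + 1) / d := by
    rw [mul_sum, mul_sum, ← sum_add_distrib, ← sum_add_distrib]
    apply sum_congr rfl
    intro d _
    simp only [hh]
    ring
  rw [hsplit]
  have t1 : (3 * L ^ 2 + √(N : ℝ)) * ∑ d ∈ Icc 1 T, tau d ^ κ ≤ N / L ^ (U + 1) := by
    have k1 : 3 * L ^ 2 ≤ √(N : ℝ) := by
      refine le_trans ?_ (hpow 2 (Nat.le_add_left _ _))
      have : 0 ≤ L ^ 2 := by positivity
      nlinarith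
    have k2 := dsum_le' hTN hL1 κ
    rw [le_div_iff₀ (by positivity)]
    have k3 : (2 * T * (2 * L) ^ (2 ^ κ) * L ^ (U + 1)) ≤ √(N : ℝ) := by
      apply Real.le_sqrt_of_sq_le
      calc (2 * T * (2 * L) ^ (2 ^ κ) * L ^ (U + 1)) ^ 2
          = (T : ℝ) ^ 2 * (4 * 4 ^ (2 ^ κ) * L ^ (2 * (2 ^ κ + U + 1))) := by
            have : (4 : ℝ) ^ (2 ^ κ) = (2 ^ (2 ^ κ)) ^ 2 := by
              rw [← pow_mul, mul_comm, pow_mul]; norm_num
            rw [this, mul_pow, pow_mul' L, pow_add, pow_add]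
            ring
        _ ≤ √(N : ℝ) * √(N : ℝ) := by
            have := hpow (2 * (2 ^ κ + U + 1)) (by omega)
            gcongr
        _ = N := hss
    calc (3 * L ^ 2 + √(N : ℝ)) * (∑ d ∈ Icc 1 T, tau d ^ κ) * L ^ (U + 1)
        ≤ (√(N : ℝ) + √(N : ℝ)) * (T * (2 * L) ^ (2 ^ κ)) * L ^ (U + 1) := by
          have : 0 ≤ ∑ d ∈ Icc 1 T, tau d ^ κ := sum_nonneg fun d _ => pow_nonneg (tau_nonneg _) _
          gcongr
      _ = √(N : ℝ) * (2 * T * (2 * L) ^ (2 ^ κ) * L ^ (U + 1)) := by ring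
      _ ≤ √(N : ℝ) * √(N : ℝ) := by gcongr
      _ = N := hss
  have t2 := hbv N hNN2 y hy q hq hqB T hT2
  have t3 : N * (2 * L / z + 1 / L ^ (U + e1 + 1)) * ∑ d ∈ Icc 1 T, tau d ^ (κ + 1) / d ≤
      3 * 2 ^ e1 * (N / L ^ (U + 1)) := by
    have k1 : 2 * L / z ≤ 2 / L ^ (U + e1 + 1) := by
      calc 2 * L / z ≤ 2 * L / L ^ (U + e1 + 2) := by
            apply div_le_div_of_nonneg_left (by positivity) (by positivity)
            refine le_trans ?_ hzB
            exact pow_le_pow_right₀ hL1 (by omega)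
        _ = 2 / L ^ (U + e1 + 1) := by
            rw [pow_succ L (U + e1 + 1)]
            field_simp
    calc N * (2 * L / z + 1 / L ^ (U + e1 + 1)) * ∑ d ∈ Icc 1 T, tau d ^ (κ + 1) / d
        ≤ N * (2 / L ^ (U + e1 + 1) + 1 / L ^ (U + e1 + 1)) * (2 * L) ^ e1 := by
          have := dsum_le hTN hL1 (κ + 1)
          have h0 : 0 ≤ ∑ d ∈ Icc 1 T, tau d ^ (κ + 1) / d := sum_nonneg fun d _ => by
            have := tau_nonneg d
            positivity
          gcongr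
      _ = 3 * 2 ^ e1 * (N / L ^ (U + 1)) := by
          rw [mul_pow, show U + e1 + 1 = e1 + (U + 1) by ring, pow_add L e1]
          field_simp
          norm_num
  calc _ ≤ N / L ^ (U + 1) + N / L ^ (U + 1) + 3 * 2 ^ e1 * (N / L ^ (U + 1)) :=
        add_le_add (add_le_add t1 t2) t3
    _ = ((2 + 3 * 2 ^ e1) / L) * (N / L ^ U) := by
        rw [pow_succ L U]
        field_simp
        ring
    _ ≤ 1 * (N / L ^ U) := by
        apply mul_le_mul_of_nonneg_right _ (by positivity)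
        rw [div_le_one hL0]
        linarith
    _ = _ := one_mul _

end Pool.Agent.T2H22.AA
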