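import Pool.Agent.T2H22.AA.Defs
import Pool.Agent.H373R2.T7.LamZ2

/-!
Project AA, part B: minor arcs for the sieve model with congruence weights.
-/

set_option autoImplicit false

namespace Pool.Agent.T2H22.AA

open Finset
open Pool.Agent.H373R2.T7 Pool.Agent.H807R2.Dav

namespace MZ

/-! ### the divisor function -/

theorem hyper (x : ℕ) (g : ℕ → ℕ → ℝ) :
    ∑ n ∈ Icc 1 x, ∑ i ∈ n.divisorsAntidiagonal, g i.1 i.2 =
      ∑ c ∈ Icc 1 x, ∑ b ∈ Icc 1 (x / c), g b c := by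
  rw [sum_sigma', sum_sigma']
  apply sum_nbij' (fun p => (⟨p.2.2, p.2.1⟩ : (_ : ℕ) × ℕ))
    (fun q => (⟨q.2 * q.1, (q.2, q.1)⟩ : (_ : ℕ) × (ℕ × ℕ)))
  · rintro ⟨n, b, c⟩ hp
    simp only [mem_sigma, mem_Icc, Nat.mem_divisorsAntidiagonal] at hp ⊢
    obtain ⟨⟨h1, h2⟩, h3, h4⟩ := hp
    have hb : 0 < b := Nat.pos_of_ne_zero (by rintro rfl; simp at h3; omega)
    have hc : 0 < c := Nat.pos_of_ne_zero (by rintro rfl; simp at h3; omega)
    refine ⟨⟨hc, ?_⟩, hb, ?_⟩
    · have : c ≤ b * c := Nat.le_mul_of_pos_left c hb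
      omega
    · rw [Nat.le_div_iff_mul_le hc]; omega
  · rintro ⟨c, b⟩ hp
    simp only [mem_sigma, mem_Icc, Nat.mem_divisorsAntidiagonal] at hp ⊢
    obtain ⟨⟨h1, h2⟩, h3, h4⟩ := hp
    rw [Nat.le_div_iff_mul_le h1] at h4
    have : 0 < b * c := Nat.mul_pos h3 h1
    exact ⟨⟨this, h4⟩, trivial, this.ne'⟩
  · rintro ⟨n, b, c⟩ hp
    simp only [mem_sigma, mem_Icc, Nat.mem_divisorsAntidiagonal] at hp
    obtain ⟨_, h3, _⟩ := hp
    simp only [h3]
  · rintro ⟨c, b⟩ _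
    rfl
  · rintro ⟨n, b, c⟩ _
    rfl

theorem card_div_mul_le (a b : ℕ) : (a * b).divisors.card ≤ a.divisors.card * b.divisors.card := by
  rw [Nat.divisors_mul]
  exact card_mul_le

theorem harm_le (Y : ℕ) : ∑ n ∈ Icc 1 Y, (1 : ℝ) / n ≤ 1 + Real.log Y := by
  have h2 : ∑ n ∈ Icc 1 Y, 1 / (n : ℝ) = ((harmonic Y : ℚ) : ℝ) := by
    rw [harmonic_eq_sum_Icc]
    push_cast
    simp
  rw [h2]
  exact harmonic_le_one_add_log Y

/-- sums of powers of the divisor function over `n` -/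
theorem dsum (k Y : ℕ) :
    ∑ n ∈ Icc 1 Y, (n.divisors.card : ℝ) ^ k / n ≤ (1 + Real.log Y) ^ (2 ^ k) := by
  induction k with
  | zero =>
    simp only [pow_zero, pow_one]
    exact harm_le Y
  | succ k ih =>
    have h0 : 0 ≤ ∑ n ∈ Icc 1 Y, (n.divisors.card : ℝ) ^ k / n :=
      sum_nonneg fun _ _ => by positivity
    have h1 : ∑ n ∈ Icc 1 Y, (n.divisors.card : ℝ) ^ (k + 1) / n ≤
        ∑ c ∈ Icc 1 Y, ∑ b ∈ Icc 1 (Y / c),
          ((b.divisors.card : ℝ) ^ k / b) * ((c.divisors.card : ℝ) ^ k / c) := by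
      rw [← hyper Y (fun b c => ((b.divisors.card : ℝ) ^ k / b) * ((c.divisors.card : ℝ) ^ k / c))]
      apply sum_le_sum
      intro n hn
      rw [mem_Icc] at hn
      have : ∀ i ∈ n.divisorsAntidiagonal, (n.divisors.card : ℝ) ^ k / n ≤
          ((i.1.divisors.card : ℝ) ^ k / i.1) * ((i.2.divisors.card : ℝ) ^ k / i.2) := by
        intro i hi
        rw [Nat.mem_divisorsAntidiagonal] at hi
        rw [← hi.1, div_mul_div_comm, ← mul_pow]
        push_cast
        apply div_le_div_of_nonneg_right _ (by positivity)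
        apply pow_le_pow_left₀ (by positivity)
        exact_mod_cast card_div_mul_le i.1 i.2
      calc (n.divisors.card : ℝ) ^ (k + 1) / n =
          ∑ i ∈ n.divisorsAntidiagonal, (n.divisors.card : ℝ) ^ k / n := by
            rw [sum_const, nsmul_eq_mul, ← Nat.map_div_right_divisors, card_map]
            ring
        _ ≤ _ := sum_le_sum this
    refine h1.trans ?_
    calc ∑ c ∈ Icc 1 Y, ∑ b ∈ Icc 1 (Y / c),
          ((b.divisors.card : ℝ) ^ k / b) * ((c.divisors.card : ℝ) ^ k / c)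
        ≤ ∑ c ∈ Icc 1 Y, (∑ b ∈ Icc 1 Y, (b.divisors.card : ℝ) ^ k / b) *
          ((c.divisors.card : ℝ) ^ k / c) := by
          apply sum_le_sum
          intro c _
          rw [← sum_mul]
          apply mul_le_mul_of_nonneg_right _ (by positivity)
          apply sum_le_sum_of_subset_of_nonneg
          · exact Icc_subset_Icc_right (Nat.div_le_self _ _)
          · intro i _ _; positivity
      _ = (∑ b ∈ Icc 1 Y, (b.divisors.card : ℝ) ^ k / b) *
          (∑ b ∈ Icc 1 Y, (b.divisors.card : ℝ) ^ k / b) := by rw [mul_sum]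
      _ ≤ (1 + Real.log Y) ^ (2 ^ k) * (1 + Real.log Y) ^ (2 ^ k) :=
          mul_le_mul ih ih h0 (h0.trans ih)
      _ = _ := by rw [← pow_add, ← two_mul, pow_succ, mul_comm 2]

/-- sums over multiples with divisor weights -/
theorem wsum (k : ℕ) {q : ℕ} (hq : 1 ≤ q) {a : ℤ} (hcop : IsCoprime a (q : ℤ)) {α : ℝ}
    (hα : |α - a / q| ≤ 1 / (q : ℝ) ^ 2) (N T : ℕ) (hN : 1 ≤ N) (hT : 1 ≤ T) :
    ∑ t ∈ Icc 1 T, (t.divisors.card : ℝ) ^ k * KK (2 * N / t) (t * α) ≤
      √(6 * N * (1 + Real.log T) ^ (2 ^ (2 * k))) *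
      √(600 * (Nat.log 2 T + 1 : ℝ) * ((N : ℝ) / q + T + q) * (1 + Real.log q)) := by
  have hK0 : ∀ t : ℕ, 0 ≤ KK (2 * N / t) (t * α) := fun t => KK_nonneg (by positivity) _
  have e1 : ∀ t ∈ Icc 1 T, (t.divisors.card : ℝ) ^ k * KK (2 * N / t) (t * α) =
      ((t.divisors.card : ℝ) ^ k * √(KK (2 * N / t) (t * α))) * √(KK (2 * N / t) (t * α)) := by
    intro t _
    rw [mul_assoc, Real.mul_self_sqrt (hK0 t)]
  rw [sum_congr rfl e1]
  refine (Real.sum_mul_le_sqrt_mul_sqrt _ _ _).trans ?_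
  apply mul_le_mul _ _ (Real.sqrt_nonneg _) (Real.sqrt_nonneg _)
  · apply Real.sqrt_le_sqrt
    have h1 : ∀ t ∈ Icc 1 T, ((t.divisors.card : ℝ) ^ k * √(KK (2 * N / t) (t * α))) ^ 2 ≤
        6 * N * ((t.divisors.card : ℝ) ^ (2 * k) / t) := by
      intro t ht
      have ht1 := (mem_Icc.1 ht).1
      have ht0 : (0 : ℝ) < t := by exact_mod_cast ht1
      rw [mul_pow, Real.sq_sqrt (hK0 t), ← pow_mul, mul_comm k 2]
      have h2 := KK_le (M := 2 * N / t) (by positivity) (t * α)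
      calc (t.divisors.card : ℝ) ^ (2 * k) * KK (2 * N / t) (t * α) ≤
          (t.divisors.card : ℝ) ^ (2 * k) * (3 * (2 * N / t)) :=
            mul_le_mul_of_nonneg_left h2 (by positivity)
        _ = _ := by ring
    refine (sum_le_sum h1).trans ?_
    rw [← mul_sum]
    exact mul_le_mul_of_nonneg_left (dsum (2 * k) T) (by positivity)
  · apply Real.sqrt_le_sqrt
    have h1 : ∀ t ∈ Icc 1 T, √(KK (2 * N / t) (t * α)) ^ 2 = KK (2 * N / t) (t * α) :=
      fun t _ => Real.sq_sqrt (hK0 t)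
    rw [sum_congr rfl h1]
    exact typeI_lin hq hcop hα N T hN hT

/-! ### progressions -/

/-- a progression in an interval -/
theorem ap_set (N e c : ℕ) (he : 1 ≤ e) (heN : e ≤ N) :
    ∃ a b : ℕ, a ≤ b ∧ ((b : ℝ) - a ≤ 2 * N / e) ∧
      (Icc 1 N).filter (fun n => n ≡ c [MOD e]) = (Ico a b).image (fun m => c % e + e * m) := by
  have he0 : (0 : ℝ) < e := by exact_mod_cast he
  have hN : 1 ≤ N := he.trans heN
  have hr : c % e < e := Nat.mod_lt _ he
  refine ⟨if c % e = 0 then 1 else 0, (N - c % e) / e + 1, ?_, ?_, ?_⟩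
  · split_ifs
    · exact Nat.le_add_left 1 _
    · exact Nat.zero_le _
  · have h1 : (((N - c % e) / e : ℕ) : ℝ) ≤ N / e := by
      refine (Nat.cast_div_le).trans ?_
      apply div_le_div_of_nonneg_right _ he0.le
      exact_mod_cast Nat.sub_le _ _
    have h2 : (1 : ℝ) ≤ N / e := by
      rw [le_div_iff₀ he0, one_mul]
      exact_mod_cast heN
    have h3 : 2 * (N : ℝ) / e = 2 * (N / e) := by ring
    rw [h3]
    push_cast
    split_ifs <;> linarith
  · ext n
    rw [mem_filter, mem_Icc, mem_image]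
    constructor
    · rintro ⟨⟨h1, h2⟩, h3⟩
      have h4 : n % e = c % e := h3
      have h5 := Nat.mod_add_div n e
      refine ⟨n / e, ?_, ?_⟩
      · rw [mem_Ico]
        constructor
        · split_ifs with h6
          · rw [h4, h6] at h5
            rcases Nat.eq_zero_or_pos (n / e) with h7 | h7
            · rw [h7] at h5; omega
            · exact h7
          · exact Nat.zero_le _
        · have h6 : n / e ≤ (N - c % e) / e := by
            rw [Nat.le_div_iff_mul_le he, mul_comm]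
            omega
          omega
      · rw [h4] at h5
        exact h5
    · rintro ⟨m, hm, rfl⟩
      rw [mem_Ico] at hm
      have h6 : e * m ≤ N - c % e := by
        have h7 : m ≤ (N - c % e) / e := by omega
        calc e * m ≤ e * ((N - c % e) / e) := Nat.mul_le_mul_left _ h7
          _ ≤ _ := Nat.mul_div_le _ _
      refine ⟨⟨?_, by omega⟩, ?_⟩
      · by_cases h0 : c % e = 0
        · rw [if_pos h0] at hm
          have : 1 ≤ e * m := Nat.mul_pos he hm.1
          omega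
        · omega
      · show (c % e + e * m) % e = c % e
        rw [Nat.add_mul_mod_self_left, Nat.mod_mod]

theorem ap_bound (N e c : ℕ) (he : 1 ≤ e) (heN : e ≤ N) (α : ℝ) :
    ‖∑ n ∈ (Icc 1 N).filter (fun n => n ≡ c [MOD e]), ee ((n : ℝ) * α)‖ ≤
      KK (2 * N / e) (e * α) := by
  obtain ⟨a, b, hab, hc, hs⟩ := ap_set N e c he heN
  rw [hs, sum_image (by
    intro x _ y _ h
    have h' : c % e + e * x = c % e + e * y := h
    exact Nat.eq_of_mul_eq_mul_left he (by omega))]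
  have h1 : ∀ m ∈ Ico a b, ee (((c % e + e * m : ℕ) : ℝ) * α) =
      ee (((c % e : ℕ) : ℝ) * α) * ee ((m : ℝ) * (e * α)) := by
    intro m _
    rw [← ee_add]
    congr 1
    push_cast
    ring
  rw [sum_congr rfl h1, ← mul_sum, norm_mul, norm_ee, one_mul]
  exact geo_bound a b hab hc _

/-- number of elements of a progression -/
theorem ap_card (N e c : ℕ) :
    (((Icc 1 N).filter (fun n => n ≡ c [MOD e])).card : ℝ) ≤ N / e + 1 := by
  have h1 : (Icc 1 N).filter (fun n => n ≡ c [MOD e]) ⊆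
      (range (N / e + 1)).image (fun m => c % e + e * m) := by
    intro n hn
    rw [mem_filter, mem_Icc] at hn
    rw [mem_image]
    have h4 : n % e = c % e := hn.2
    have h5 := Nat.mod_add_div n e
    refine ⟨n / e, ?_, ?_⟩
    · rw [mem_range]
      have := Nat.div_le_div_right (c := e) hn.1.2
      omega
    · rw [h4] at h5
      exact h5
  have h2 := (card_le_card h1).trans card_image_le
  rw [card_range] at h2
  have h3 : (((Icc 1 N).filter (fun n => n ≡ c [MOD e])).card : ℝ) ≤ ((N / e : ℕ) : ℝ) + 1 := by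
    exact_mod_cast h2
  have h4 : ((N / e : ℕ) : ℝ) ≤ N / e := Nat.cast_div_le
  linarith

/-- two conditions -/
theorem two_cond (N M D c : ℕ) (hc : c.Coprime M) :
    (Icc 1 N).filter (fun n => n ≡ c [MOD M] ∧ D ∣ n) = ∅ ∨
    ∃ x, (Icc 1 N).filter (fun n => n ≡ c [MOD M] ∧ D ∣ n) =
      (Icc 1 N).filter (fun n => n ≡ x [MOD M * D]) := by
  by_cases h : M.Coprime D
  · right
    obtain ⟨x, hx1, hx2⟩ := Nat.chineseRemainder h c 0
    refine ⟨x, ?_⟩
    apply filter_congr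
    intro n _
    rw [← Nat.modEq_and_modEq_iff_modEq_mul h]
    constructor
    · rintro ⟨h1, h2⟩
      refine ⟨h1.trans hx1.symm, ?_⟩
      have h3 : n ≡ 0 [MOD D] := (Nat.modEq_zero_iff_dvd).2 h2
      exact h3.trans hx2.symm
    · rintro ⟨h1, h2⟩
      exact ⟨h1.trans hx1, (Nat.modEq_zero_iff_dvd).1 (h2.trans hx2)⟩
  · left
    rw [eq_empty_iff_forall_notMem]
    intro n hn
    rw [mem_filter] at hn
    obtain ⟨p, hp, hpM, hpD⟩ := Nat.Prime.not_coprime_iff_dvd.1 h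
    have h1 : p ∣ n := hpD.trans hn.2.2
    have h2 : p ∣ c := (hn.2.1.dvd_iff hpM).1 h1
    have h3 := Nat.dvd_gcd h2 hpM
    rw [hc] at h3
    exact hp.one_lt.ne' (Nat.dvd_one.1 h3)

theorem two_bound (N M D c : ℕ) (hM : 1 ≤ M) (hD : 1 ≤ D) (hMD : M * D ≤ N) (hc : c.Coprime M)
    (α : ℝ) :
    ‖∑ n ∈ (Icc 1 N).filter (fun n => n ≡ c [MOD M] ∧ D ∣ n), ee ((n : ℝ) * α)‖ ≤
      KK (2 * N / ((M * D : ℕ) : ℝ)) (((M * D : ℕ) : ℝ) * α) := by
  rcases two_cond N M D c hc with h | ⟨x, h⟩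
  · rw [h, sum_empty, norm_zero]
    exact KK_nonneg (by positivity) _
  · rw [h]
    exact ap_bound N (M * D) x (Nat.mul_pos hM hD) hMD α

theorem two_card (N M D c : ℕ) (hc : c.Coprime M) :
    (((Icc 1 N).filter (fun n => n ≡ c [MOD M] ∧ D ∣ n)).card : ℝ) ≤ N / ((M : ℝ) * D) + 1 := by
  rcases two_cond N M D c hc with h | ⟨x, h⟩
  · rw [h, card_empty, Nat.cast_zero]
    positivity
  · rw [h]
    have := ap_card N (M * D) x
    push_cast at this
    exact this

/-! ### the coefficients -/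

theorem cls_sum {ι : Type} {J : Finset ι} {M : ι → ℕ} {g : ι → ℝ} {κ R : ℕ}
    (hR : ∀ j ∈ J, 1 ≤ M j ∧ M j ≤ R)
    (hg : ∀ d : ℕ, ∑ j ∈ J.filter (fun j => M j = d), |g j| ≤ (d.divisors.card : ℝ) ^ κ)
    (Φ : ℕ → ℝ) (hΦ : ∀ d, 0 ≤ Φ d) :
    ∑ j ∈ J, |g j| * Φ (M j) ≤ ∑ d ∈ Icc 1 R, (d.divisors.card : ℝ) ^ κ * Φ d := by
  rw [← sum_fiberwise_of_maps_to (s := J) (t := Icc 1 R) (g := M)
    (fun j hj => mem_Icc.2 (hR j hj))]
  apply sum_le_sum
  intro d _
  calc ∑ j ∈ J.filter (fun j => M j = d), |g j| * Φ (M j) =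
      (∑ j ∈ J.filter (fun j => M j = d), |g j|) * Φ d := by
        rw [sum_mul]
        apply sum_congr rfl
        intro j hj
        rw [(mem_filter.1 hj).2]
    _ ≤ _ := mul_le_mul_of_nonneg_right (hg d) (hΦ d)

theorem card_div_mono {d t : ℕ} (h : d ∣ t) (ht : t ≠ 0) : d.divisors.card ≤ t.divisors.card :=
  card_le_card (Nat.divisors_subset_of_dvd ht h)

/-- grouping by the product -/
theorem group (κ R T : ℕ) (f : ℕ → ℝ) (hf : ∀ t, 0 ≤ f t) :
    ∑ d ∈ Icc 1 R, (d.divisors.card : ℝ) ^ κ * ∑ D ∈ Icc 1 T, f (d * D) ≤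
      ∑ t ∈ Icc 1 (R * T), (t.divisors.card : ℝ) ^ (κ + 1) * f t := by
  have e1 : ∑ d ∈ Icc 1 R, (d.divisors.card : ℝ) ^ κ * ∑ D ∈ Icc 1 T, f (d * D) =
      ∑ p ∈ Icc 1 R ×ˢ Icc 1 T, (p.1.divisors.card : ℝ) ^ κ * f (p.1 * p.2) := by
    rw [sum_product]
    exact sum_congr rfl fun d _ => mul_sum _ _ _
  rw [e1, ← sum_fiberwise_of_maps_to (s := Icc 1 R ×ˢ Icc 1 T) (t := Icc 1 (R * T))
    (g := fun p => p.1 * p.2) (fun p hp => by
      rw [mem_product, mem_Icc, mem_Icc] at hp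
      rw [mem_Icc]
      exact ⟨Nat.mul_pos hp.1.1 hp.2.1, Nat.mul_le_mul hp.1.2 hp.2.2⟩)]
  apply sum_le_sum
  intro t ht
  have ht1 := (mem_Icc.1 ht).1
  have h1 : ∀ p ∈ (Icc 1 R ×ˢ Icc 1 T).filter (fun p => p.1 * p.2 = t),
      (p.1.divisors.card : ℝ) ^ κ * f (p.1 * p.2) ≤ (t.divisors.card : ℝ) ^ κ * f t := by
    intro p hp
    rw [mem_filter] at hp
    rw [hp.2]
    apply mul_le_mul_of_nonneg_right _ (hf t)
    apply pow_le_pow_left₀ (by positivity)
    exact_mod_cast card_div_mono ⟨p.2, hp.2.symm⟩ (by omega)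
  refine (sum_le_card_nsmul _ _ _ h1).trans ?_
  rw [nsmul_eq_mul, pow_succ]
  have h2 : ((Icc 1 R ×ˢ Icc 1 T).filter (fun p => p.1 * p.2 = t)).card ≤ t.divisors.card := by
    apply card_le_card_of_injOn (fun p => p.1)
    · intro p hp
      rw [mem_coe, mem_filter] at hp
      rw [mem_coe, Nat.mem_divisors]
      exact ⟨⟨p.2, hp.2.symm⟩, by omega⟩
    · intro p hp p' hp' h
      rw [mem_coe, mem_filter, mem_product, mem_Icc, mem_Icc] at hp hp'
      have h' : p.1 = p'.1 := h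
      refine Prod.ext h' ?_
      have h3 : p.1 * p.2 = p.1 * p'.2 := by rw [hp.2, h', hp'.2]
      exact Nat.eq_of_mul_eq_mul_left hp.1.1.1 h3
  have h3 : (((Icc 1 R ×ˢ Icc 1 T).filter (fun p => p.1 * p.2 = t)).card : ℝ) ≤
      t.divisors.card := by exact_mod_cast h2
  calc _ ≤ (t.divisors.card : ℝ) * ((t.divisors.card : ℝ) ^ κ * f t) :=
        mul_le_mul_of_nonneg_right h3 (mul_nonneg (by positivity) (hf t))
    _ = _ := by ring

/-- the eighth root -/
theorem root8 (M N : ℕ) (h : M ^ 8 ≤ N) : M ≤ Nat.sqrt (Nat.sqrt (Nat.sqrt N)) := by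
  rw [Nat.le_sqrt', Nat.le_sqrt', Nat.le_sqrt']
  calc ((M ^ 2) ^ 2) ^ 2 = M ^ 8 := by ring
    _ ≤ N := h

theorem root8' (N : ℕ) : Nat.sqrt (Nat.sqrt (Nat.sqrt N)) ^ 8 ≤ N := by
  calc Nat.sqrt (Nat.sqrt (Nat.sqrt N)) ^ 8 = ((Nat.sqrt (Nat.sqrt (Nat.sqrt N)) ^ 2) ^ 2) ^ 2 := by
        ring
    _ ≤ (Nat.sqrt (Nat.sqrt N) ^ 2) ^ 2 := by
        apply Nat.pow_le_pow_left
        apply Nat.pow_le_pow_left
        exact Nat.sqrt_le' _
    _ ≤ Nat.sqrt N ^ 2 := Nat.pow_le_pow_left (Nat.sqrt_le' _) _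
    _ ≤ N := Nat.sqrt_le' _

/-- the sieve identity with weights, before the choice of parameters -/
theorem sieve_bd {ι : Type} {J : Finset ι} {M c : ι → ℕ} {g : ι → ℝ} {κ N R r z : ℕ} (hN : 1 ≤ N)
    (hR : ∀ j ∈ J, 1 ≤ M j ∧ M j ≤ R) (hc : ∀ j ∈ J, (c j).Coprime (M j))
    (hg : ∀ d : ℕ, ∑ j ∈ J.filter (fun j => M j = d), |g j| ≤ (d.divisors.card : ℝ) ^ κ)
    (hRT : R * (z + 1) ^ r ≤ N) (α : ℝ) :
    ‖∑ n ∈ Icc 1 N, ((lamz z n * FF J M c g n : ℝ) : ℂ) * ee ((n : ℝ) * α)‖ ≤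
      (Vz z)⁻¹ * ((∑ d ∈ Icc 1 R, (d.divisors.card : ℝ) ^ κ / d) *
        (N * Real.exp (3 * (1 + Real.log z) - r) + R * ((z : ℝ) + 1) ^ r) +
      ∑ t ∈ Icc 1 (R * (z + 1) ^ r), (t.divisors.card : ℝ) ^ (κ + 1) *
        KK (2 * N / t) (t * α)) := by
  have hNr : (1 : ℝ) ≤ N := by exact_mod_cast hN
  have hN0 : (0 : ℝ) < N := by linarith
  set T := (z + 1) ^ r with hT
  have hV0 : 0 < (Vz z)⁻¹ := inv_pos.2 (Vz_pos z)
  set ind : ℕ → ℝ := fun n => if ∀ p ∈ pz z, ¬ p ∣ n then (1 : ℝ) else 0 with hind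
  set χ : Finset ℕ → ℕ → ℝ := fun S n => if ∀ p ∈ S, p ∣ n then (1 : ℝ) else 0 with hχ
  set BB : ℕ → ℝ := fun n => ∑ j ∈ range r, (-1 : ℝ) ^ j * ∑ S ∈ (pz z).powersetCard j, χ S n
    with hBB
  have hχ0 : ∀ S n, 0 ≤ χ S n := by
    intro S n
    rw [hχ]
    simp only
    split_ifs
    · exact zero_le_one
    · exact le_rfl
  have hpt : ∀ n : ℕ, |ind n - BB n| ≤ ∑ S ∈ (pz z).powersetCard r, χ S n := by
    intro n
    have := bonf_ind (fun p n => p ∣ n) (pz z) r n
    rw [hind, hBB, hχ]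
    convert this
  have hS : ∑ n ∈ Icc 1 N, ((lamz z n * FF J M c g n : ℝ) : ℂ) * ee ((n : ℝ) * α) =
      (((Vz z)⁻¹ : ℝ) : ℂ) * ∑ n ∈ Icc 1 N, ((ind n * FF J M c g n : ℝ) : ℂ) * ee ((n : ℝ) * α) := by
    rw [mul_sum]
    apply sum_congr rfl
    intro n _
    rw [hind]
    unfold lamz
    by_cases h : ∀ p ∈ pz z, ¬ p ∣ n
    · simp only [if_pos h]
      push_cast
      ring
    · simp only [if_neg h]
      push_cast
      ring
  have hprime : ∀ j, ∀ S ∈ (pz z).powersetCard j, ∀ p ∈ S, p.Prime := fun j S hS p hp =>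
    (mem_pz.1 ((mem_powersetCard.1 hS).1 hp)).2
  have hpos : ∀ j, ∀ S ∈ (pz z).powersetCard j, 1 ≤ ∏ p ∈ S, p := fun j S hS =>
    Nat.pos_of_ne_zero (prod_ne_zero_iff.2 fun p hp => (hprime j S hS p hp).ne_zero)
  have hle : ∀ j ≤ r, ∀ S ∈ (pz z).powersetCard j, ∏ p ∈ S, p ≤ T := fun j hj S hS =>
    prod_le_pow S z r (mem_powersetCard.1 hS).1 ((mem_powersetCard.1 hS).2.trans_le hj)
  set W : ℝ := ∑ d ∈ Icc 1 R, (d.divisors.card : ℝ) ^ κ / d with hW
  have hW0 : 0 ≤ W := sum_nonneg fun _ _ => by positivity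
  -- the absolute value of the weight
  have hFabs : ∀ n, |FF J M c g n| ≤ ∑ j ∈ J, |g j| * (if n ≡ c j [MOD M j] then 1 else 0) := by
    intro n
    unfold FF
    refine (abs_sum_le_sum_abs _ _).trans (sum_le_sum fun j _ => ?_)
    split_ifs
    · rw [mul_one]
    · rw [abs_zero, mul_zero]
  -- the error
  have herr : ∑ n ∈ Icc 1 N, (∑ S ∈ (pz z).powersetCard r, χ S n) * |FF J M c g n| ≤
      W * (N * Real.exp (3 * (1 + Real.log z) - r) + R * ((z : ℝ) + 1) ^ r) := by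
    have h1 : ∑ n ∈ Icc 1 N, (∑ S ∈ (pz z).powersetCard r, χ S n) * |FF J M c g n| ≤
        ∑ S ∈ (pz z).powersetCard r, ∑ j ∈ J, |g j| *
          (((Icc 1 N).filter (fun n => n ≡ c j [MOD M j] ∧ ∏ p ∈ S, p ∣ n)).card : ℝ) := by
      have h2 : ∀ n ∈ Icc 1 N, (∑ S ∈ (pz z).powersetCard r, χ S n) * |FF J M c g n| ≤
          ∑ S ∈ (pz z).powersetCard r, ∑ j ∈ J, |g j| *
            (if n ≡ c j [MOD M j] ∧ ∏ p ∈ S, p ∣ n then 1 else 0) := by
        intro n _
        rw [sum_mul]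
        apply sum_le_sum
        intro S hS
        calc χ S n * |FF J M c g n| ≤ χ S n * ∑ j ∈ J, |g j| *
              (if n ≡ c j [MOD M j] then 1 else 0) := mul_le_mul_of_nonneg_left (hFabs n) (hχ0 S n)
          _ = _ := by
              rw [mul_sum]
              apply sum_congr rfl
              intro j _
              rw [hχ]
              simp only [prod_dvd_iff S (hprime r S hS)]
              by_cases g1 : n ≡ c j [MOD M j]
              · by_cases g2 : ∏ p ∈ S, p ∣ n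
                · simp [g1, g2]
                · simp [g1, g2]
              · simp [g1]
      refine (sum_le_sum h2).trans (le_of_eq ?_)
      rw [sum_comm]
      apply sum_congr rfl
      intro S _
      rw [sum_comm]
      apply sum_congr rfl
      intro j _
      rw [← mul_sum, sum_boole]
    refine h1.trans ?_
    have h3 : ∀ S ∈ (pz z).powersetCard r, ∑ j ∈ J, |g j| *
          (((Icc 1 N).filter (fun n => n ≡ c j [MOD M j] ∧ ∏ p ∈ S, p ∣ n)).card : ℝ) ≤
        W * (N * ∏ p ∈ S, (1 / (p : ℝ)) + R) := by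
      intro S hS
      set D := ∏ p ∈ S, p with hD
      have hD1 : 1 ≤ D := hpos r S hS
      have hD0 : (0 : ℝ) < D := by exact_mod_cast hD1
      have h4 : ∑ j ∈ J, |g j| *
          (((Icc 1 N).filter (fun n => n ≡ c j [MOD M j] ∧ D ∣ n)).card : ℝ) ≤
          ∑ j ∈ J, |g j| * (fun d : ℕ => (N : ℝ) / ((d : ℝ) * D) + 1) (M j) := by
        apply sum_le_sum
        intro j hj
        exact mul_le_mul_of_nonneg_left (two_card N (M j) D (c j) (hc j hj))
          (abs_nonneg _)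
      refine h4.trans ((cls_sum hR hg (fun d : ℕ => (N : ℝ) / ((d : ℝ) * D) + 1)
        (fun d => by positivity)).trans ?_)
      rw [hW, sum_mul]
      apply sum_le_sum
      intro d hd
      rw [mem_Icc] at hd
      have hd0 : (0 : ℝ) < d := by exact_mod_cast hd.1
      have hdR : (d : ℝ) ≤ R := by exact_mod_cast hd.2
      have h5 : ∏ p ∈ S, (1 / (p : ℝ)) = 1 / (D : ℝ) := by
        rw [prod_div_distrib, prod_const_one, hD]
        push_cast
        rfl
      rw [h5]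
      calc (d.divisors.card : ℝ) ^ κ * ((N : ℝ) / ((d : ℝ) * D) + 1) =
          (d.divisors.card : ℝ) ^ κ / d * (N * (1 / D) + d) := by field_simp
        _ ≤ _ := by
            apply mul_le_mul_of_nonneg_left _ (by positivity)
            linarith
    refine (sum_le_sum h3).trans ?_
    rw [← mul_sum, sum_add_distrib, ← mul_sum]
    apply mul_le_mul_of_nonneg_left _ hW0
    apply add_le_add
    · apply mul_le_mul_of_nonneg_left _ hN0.le
      have h5 := es_le (x := fun p => 1 / (p : ℝ)) (T := pz z) (fun p _ => by positivity) r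
      unfold es at h5
      refine h5.trans ?_
      apply Real.exp_le_exp.2
      have := sum_pz_le z
      linarith
    · rw [sum_const, nsmul_eq_mul, mul_comm]
      apply mul_le_mul_of_nonneg_left _ (Nat.cast_nonneg _)
      have h5 := card_small (pz z) r
      rw [sum_range_succ] at h5
      push_cast at h5
      have h7 : ((pz z).card : ℝ) ≤ z := by exact_mod_cast card_pz_le z
      have h8 : (((pz z).card : ℝ) + 1) ^ r ≤ ((z : ℝ) + 1) ^ r := by gcongr
      have h9 : 0 ≤ ∑ x ∈ range r, (((pz z).powersetCard x).card : ℝ) :=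
        sum_nonneg fun _ _ => Nat.cast_nonneg _
      linarith
  -- the main part
  have hmain : ‖∑ n ∈ Icc 1 N, ((BB n * FF J M c g n : ℝ) : ℂ) * ee ((n : ℝ) * α)‖ ≤
      ∑ t ∈ Icc 1 (R * T), (t.divisors.card : ℝ) ^ (κ + 1) * KK (2 * N / t) (t * α) := by
    have h4 : ∑ n ∈ Icc 1 N, ((BB n * FF J M c g n : ℝ) : ℂ) * ee ((n : ℝ) * α) =
        ∑ j ∈ J, (g j : ℂ) * ∑ k ∈ range r, (-1 : ℂ) ^ k * ∑ S ∈ (pz z).powersetCard k,
          ∑ n ∈ (Icc 1 N).filter (fun n => n ≡ c j [MOD M j] ∧ ∏ p ∈ S, p ∣ n),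
            ee ((n : ℝ) * α) := by
      have h5 : ∀ n ∈ Icc 1 N, ((BB n * FF J M c g n : ℝ) : ℂ) * ee ((n : ℝ) * α) =
          ∑ j ∈ J, (g j : ℂ) * ∑ k ∈ range r, (-1 : ℂ) ^ k * ∑ S ∈ (pz z).powersetCard k,
            (if n ≡ c j [MOD M j] ∧ ∏ p ∈ S, p ∣ n then ee ((n : ℝ) * α) else 0) := by
        intro n _
        have h6 : ∀ j ∈ J, (g j : ℂ) * ∑ k ∈ range r, (-1 : ℂ) ^ k *
            ∑ S ∈ (pz z).powersetCard k,
              (if n ≡ c j [MOD M j] ∧ ∏ p ∈ S, p ∣ n then ee ((n : ℝ) * α) else 0) =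
            ((if n ≡ c j [MOD M j] then g j else 0 : ℝ) : ℂ) * ((BB n : ℝ) : ℂ) *
              ee ((n : ℝ) * α) := by
          intro j _
          by_cases g1 : n ≡ c j [MOD M j]
          · rw [if_pos g1, hBB]
            push_cast
            rw [mul_assoc, sum_mul]
            congr 1
            apply sum_congr rfl
            intro k _
            rw [mul_assoc, sum_mul]
            congr 1
            apply sum_congr rfl
            intro S hS
            rw [hχ]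
            simp only [prod_dvd_iff S (hprime k S hS)]
            by_cases g2 : ∏ p ∈ S, p ∣ n
            · rw [if_pos ⟨g1, g2⟩, if_pos g2]; simp
            · rw [if_neg (fun h => g2 h.2), if_neg g2]; simp
          · rw [if_neg g1]
            have : ∀ k ∈ range r, (-1 : ℂ) ^ k * ∑ S ∈ (pz z).powersetCard k,
              (if n ≡ c j [MOD M j] ∧ ∏ p ∈ S, p ∣ n then ee ((n : ℝ) * α) else 0) = 0 := by
              intro k _
              rw [sum_eq_zero, mul_zero]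
              intro S _
              rw [if_neg (fun h => g1 h.1)]
            rw [sum_eq_zero this]
            simp
        rw [sum_congr rfl h6, ← sum_mul, ← sum_mul]
        unfold FF
        push_cast
        ring
      rw [sum_congr rfl h5, sum_comm]
      apply sum_congr rfl
      intro j _
      rw [← mul_sum]
      congr 1
      rw [sum_comm]
      apply sum_congr rfl
      intro k _
      rw [← mul_sum]
      congr 1
      rw [sum_comm]
      apply sum_congr rfl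
      intro S _
      rw [sum_filter]
    rw [h4]
    refine (norm_sum_le _ _).trans ?_
    have h5 : ∀ j ∈ J, ‖(g j : ℂ) * ∑ k ∈ range r, (-1 : ℂ) ^ k *
        ∑ S ∈ (pz z).powersetCard k,
          ∑ n ∈ (Icc 1 N).filter (fun n => n ≡ c j [MOD M j] ∧ ∏ p ∈ S, p ∣ n),
            ee ((n : ℝ) * α)‖ ≤ |g j| * (fun d : ℕ => ∑ D ∈ Icc 1 T,
              (fun t : ℕ => KK (2 * N / (t : ℝ)) ((t : ℝ) * α)) (d * D)) (M j) := by
      intro j hj
      rw [norm_mul, Complex.norm_real, Real.norm_eq_abs]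
      apply mul_le_mul_of_nonneg_left _ (abs_nonneg _)
      refine (norm_sum_le _ _).trans ?_
      have h6 : ∀ k ∈ range r, ‖(-1 : ℂ) ^ k * ∑ S ∈ (pz z).powersetCard k,
          ∑ n ∈ (Icc 1 N).filter (fun n => n ≡ c j [MOD M j] ∧ ∏ p ∈ S, p ∣ n),
            ee ((n : ℝ) * α)‖ ≤ ∑ S ∈ (pz z).powersetCard k,
              (fun D : ℕ => KK (2 * N / ((M j * D : ℕ) : ℝ)) (((M j * D : ℕ) : ℝ) * α))
                (∏ p ∈ S, p) := by
        intro k hk
        rw [mem_range] at hk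
        rw [norm_mul, norm_pow, norm_neg, norm_one, one_pow, one_mul]
        refine (norm_sum_le _ _).trans (sum_le_sum fun S hS => ?_)
        apply two_bound N (M j) (∏ p ∈ S, p) (c j) (hR j hj).1 (hpos k S hS) _ (hc j hj)
        exact (Nat.mul_le_mul (hR j hj).2 (hle k hk.le S hS)).trans hRT
      refine (sum_le_sum h6).trans ?_
      have h7 := sum_small_le z r
        (fun D : ℕ => KK (2 * N / ((M j * D : ℕ) : ℝ)) (((M j * D : ℕ) : ℝ) * α))
        (fun D => KK_nonneg (by positivity) _)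
      rw [sum_range_succ] at h7
      have h8 : 0 ≤ ∑ S ∈ (pz z).powersetCard r,
          (fun D : ℕ => KK (2 * N / ((M j * D : ℕ) : ℝ)) (((M j * D : ℕ) : ℝ) * α))
                (∏ p ∈ S, p) := sum_nonneg fun S _ => KK_nonneg (by positivity) _
      linarith
    refine (sum_le_sum h5).trans ?_
    refine (cls_sum hR hg (fun d : ℕ => ∑ D ∈ Icc 1 T,
      (fun t : ℕ => KK (2 * N / (t : ℝ)) ((t : ℝ) * α)) (d * D))
      (fun d => sum_nonneg fun D _ => KK_nonneg (by positivity) _)).trans ?_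
    exact group κ R T (fun t : ℕ => KK (2 * N / (t : ℝ)) ((t : ℝ) * α))
      (fun t => KK_nonneg (by positivity) _)
  rw [hS, norm_mul, Complex.norm_real, Real.norm_of_nonneg hV0.le]
  apply mul_le_mul_of_nonneg_left _ hV0.le
  have h4 : ∑ n ∈ Icc 1 N, ((ind n * FF J M c g n : ℝ) : ℂ) * ee ((n : ℝ) * α) =
      ∑ n ∈ Icc 1 N, (((ind n - BB n) * FF J M c g n : ℝ) : ℂ) * ee ((n : ℝ) * α) +
      ∑ n ∈ Icc 1 N, ((BB n * FF J M c g n : ℝ) : ℂ) * ee ((n : ℝ) * α) := by
    rw [← sum_add_distrib]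
    apply sum_congr rfl
    intro n _
    push_cast
    ring
  rw [h4]
  refine (norm_add_le _ _).trans (add_le_add ?_ hmain)
  refine le_trans ?_ herr
  refine (norm_sum_le _ _).trans (sum_le_sum fun n _ => ?_)
  rw [norm_mul, norm_ee, mul_one, Complex.norm_real, Real.norm_eq_abs, abs_mul]
  exact mul_le_mul_of_nonneg_right (hpt n) (abs_nonneg _)

end MZ

open MZ in
/-- part B -/
theorem minZ : MinZ := by
  intro κ U
  set a : ℕ := 2 ^ (2 * (κ + 1)) with ha
  set w : ℕ := 2 ^ κ with hw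
  refine ⟨a + 2 + 2 * (U + 2), fun E => ?_⟩
  set B : ℕ := a + 2 + 2 * (U + 2) with hB
  obtain ⟨N0, h0⟩ := choice 1 E (w + U + 2) 4
  obtain ⟨n1, h1⟩ := ev_log' B 1
  obtain ⟨n2, h2⟩ := ev_L' (3 * (64800 * 2 ^ a) + 3 * 2 ^ w)
  obtain ⟨n3, h3⟩ := Vz_inv_small E
  obtain ⟨n4, h4⟩ := ev_log' (w + U + 1) (3 * 2 ^ w)
  refine ⟨max (max N0 n1) (max n2 (max n3 (max n4 1))), fun N hN z hz hzE q hq1 hq2 c0 hcop α hα
    ι J M c g hcls => ?_⟩
  simp only [max_le_iff] at hN
  obtain ⟨⟨hN0', hN1'⟩, hN2', hN3', hN4', hN1⟩ := hN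
  have a0 := h0 N hN0' z hzE
  have a1 := h1 N hN1'
  have hL := h2 N hN2'
  have hV := h3 N hN3' z hz hzE
  have a4 := h4 N hN4'
  have hNr : (1 : ℝ) ≤ N := by exact_mod_cast hN1
  have hN0 : (0 : ℝ) < N := by linarith
  set L := Real.log N with hLd
  have p1 : (1 : ℝ) ≤ 2 ^ a := one_le_pow₀ (by norm_num)
  have p2 : (1 : ℝ) ≤ 2 ^ w := one_le_pow₀ (by norm_num)
  have hL1 : 1 ≤ L := by linarith
  have hL0 : 0 < L := by linarith
  have hLB : 1 ≤ L ^ B := one_le_pow₀ hL1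
  have hq0 : (0 : ℝ) < q := by linarith
  have hqn : 1 ≤ q := by exact_mod_cast hq0
  have hqr : (1 : ℝ) ≤ q := by exact_mod_cast hqn
  have hqN : (q : ℝ) ≤ N := hq2.trans (div_le_self hN0.le hLB)
  have hlq : Real.log q ≤ L := Real.log_le_log hq0 hqN
  have hlq0 : 0 ≤ Real.log q := Real.log_nonneg hqr
  obtain ⟨r, hr1, hr2, _⟩ := a0
  set R : ℕ := Nat.sqrt (Nat.sqrt (Nat.sqrt N)) with hR
  have hR1 : 1 ≤ R := root8 1 N (by simpa using hN1)
  have hR8 : R ^ 8 ≤ N := root8' N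
  set T := (z + 1) ^ r with hT
  have hT1 : 1 ≤ T := Nat.one_le_pow _ _ (by omega)
  have hT4 : T ^ 4 ≤ N := by
    have : ((T ^ 4 : ℕ) : ℝ) ≤ N := by
      rw [hT]
      push_cast
      exact hr2
    exact_mod_cast this
  set Q := R * T with hQ
  have hQ1 : 1 ≤ Q := Nat.mul_pos hR1 hT1
  have hQ2 : Q ^ 2 ≤ N := by
    have h5 : (Q ^ 2) ^ 4 ≤ N ^ 4 := by
      calc (Q ^ 2) ^ 4 = R ^ 8 * (T ^ 4) ^ 2 := by rw [hQ]; ring
        _ ≤ N * N ^ 2 := Nat.mul_le_mul hR8 (Nat.pow_le_pow_left hT4 _)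
        _ = N ^ 3 := by ring
        _ ≤ N ^ 4 := Nat.pow_le_pow_right hN1 (by norm_num)
    exact (Nat.pow_le_pow_iff_left (by norm_num)).1 h5
  have hQN : Q ≤ N := le_trans (by nlinarith) hQ2
  have hQs : (Q : ℝ) ≤ √N := by
    rw [← Real.sqrt_sq (by positivity : (0 : ℝ) ≤ (Q : ℝ))]
    apply Real.sqrt_le_sqrt
    exact_mod_cast hQ2
  have hV0 : 0 < (Vz z)⁻¹ := inv_pos.2 (Vz_pos z)
  have hRj : ∀ j ∈ J, 1 ≤ M j ∧ M j ≤ R := fun j hj =>
    ⟨(hcls.1 j hj).1, root8 _ _ (hcls.1 j hj).2.1⟩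
  have key := sieve_bd (κ := κ) (r := r) (z := z) hN1 hRj (fun j hj => (hcls.1 j hj).2.2) hcls.2
    hQN α
  refine key.trans ?_
  have hws := wsum (κ + 1) hqn hcop hα N Q hN1 hQ1
  -- sizes
  have hlogQ : Real.log Q ≤ L := Real.log_le_log (by exact_mod_cast hQ1) (by exact_mod_cast hQN)
  have hlogR : Real.log R ≤ L := Real.log_le_log (by exact_mod_cast hR1) (by
    have : R ≤ N := (Nat.le_mul_of_pos_right R hT1).trans hQN
    exact_mod_cast this)
  have hlogQ0 : 0 ≤ Real.log Q := Real.log_nonneg (by exact_mod_cast hQ1)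
  have hlogR0 : 0 ≤ Real.log R := Real.log_nonneg (by exact_mod_cast hR1)
  have hlog2 : (Nat.log 2 Q : ℝ) ≤ 2 * L := by
    have h5 : (2 : ℝ) ^ Nat.log 2 Q ≤ Q := by
      exact_mod_cast Nat.pow_log_le_self 2 (by omega : Q ≠ 0)
    have h6 := Real.log_le_log (by positivity) h5
    rw [Real.log_pow] at h6
    have := Real.log_two_gt_d9
    have h7 : (0 : ℝ) ≤ Nat.log 2 Q := Nat.cast_nonneg _
    nlinarith
  have hsN : √(N : ℝ) ≤ N / L ^ B := by
    rw [le_div_iff₀ (by positivity)]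
    rw [one_mul] at a1
    calc √(N : ℝ) * L ^ B ≤ √(N : ℝ) * √(N : ℝ) := by gcongr
      _ = N := Real.mul_self_sqrt hN0.le
  have hNq : (N : ℝ) / q ≤ N / L ^ B := div_le_div_of_nonneg_left hN0.le (by positivity) hq1
  -- the sum over the divisors
  have hW : ∑ d ∈ Icc 1 R, (d.divisors.card : ℝ) ^ κ / d ≤ 2 ^ w * L ^ w := by
    refine (dsum κ R).trans ?_
    rw [← mul_pow]
    apply pow_le_pow_left₀ (by linarith)
    linarith
  have hW0 : 0 ≤ ∑ d ∈ Icc 1 R, (d.divisors.card : ℝ) ^ κ / d := sum_nonneg fun _ _ => by positivity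
  have b1 : (∑ d ∈ Icc 1 R, (d.divisors.card : ℝ) ^ κ / d) *
        (N * Real.exp (3 * (1 + Real.log z) - r) + R * ((z : ℝ) + 1) ^ r) ≤
      2 / 3 * (N / L ^ (U + 1)) := by
    have h5 : Real.exp (3 * (1 + Real.log z) - r) ≤ 1 / L ^ (w + U + 2) := by
      refine le_trans (le_of_eq ?_) hr1
      push_cast
      ring_nf
    have h6 : (R : ℝ) * ((z : ℝ) + 1) ^ r ≤ √N := by
      refine le_trans (le_of_eq ?_) hQs
      rw [hQ, hT]
      push_cast
      ring
    have h7 : 2 ^ w * L ^ w * (N * (1 / L ^ (w + U + 2))) ≤ 1 / 3 * (N / L ^ (U + 1)) := by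
      have e : (2 : ℝ) ^ w * L ^ w * (N * (1 / L ^ (w + U + 2))) =
          (2 ^ w / L) * (N / L ^ (U + 1)) := by
        have : L ^ (w + U + 2) = L ^ w * L ^ (U + 1) * L := by ring
        rw [this]
        field_simp
      rw [e]
      apply mul_le_mul_of_nonneg_right _ (by positivity)
      rw [div_le_iff₀ hL0]
      linarith
    have h8 : 2 ^ w * L ^ w * √N ≤ 1 / 3 * (N / L ^ (U + 1)) := by
      have h9 : 3 * (2 ^ w * L ^ w * L ^ (U + 1)) ≤ √N := by
        refine le_trans (le_of_eq ?_) a4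
        ring
      have h10 : 2 ^ w * L ^ w * √N = (3 * (2 ^ w * L ^ w * L ^ (U + 1))) * √N / (3 * L ^ (U + 1)) := by
        field_simp
      rw [h10, div_le_iff₀ (by positivity)]
      calc 3 * (2 ^ w * L ^ w * L ^ (U + 1)) * √N ≤ √N * √N := by gcongr
        _ = N := Real.mul_self_sqrt hN0.le
        _ = _ := by field_simp
    calc _ ≤ (2 ^ w * L ^ w) * (N * (1 / L ^ (w + U + 2)) + √N) := by
          apply mul_le_mul hW _ (by positivity) (by positivity)
          gcongr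
      _ = 2 ^ w * L ^ w * (N * (1 / L ^ (w + U + 2))) + 2 ^ w * L ^ w * √N := by ring
      _ ≤ _ := by linarith
  have b2 : ∑ t ∈ Icc 1 Q, (t.divisors.card : ℝ) ^ (κ + 1) * KK (2 * N / t) (t * α) ≤
      1 / 3 * (N / L ^ (U + 1)) := by
    refine hws.trans ?_
    rw [← Real.sqrt_mul (by positivity)]
    apply Real.sqrt_le_iff.2
    refine ⟨by positivity, ?_⟩
    have h5 : (1 + Real.log Q) ^ a ≤ (2 * L) ^ a := pow_le_pow_left₀ (by linarith) (by linarith) _
    have h6 : (N : ℝ) / q + Q + q ≤ 3 * (N / L ^ B) := by linarith [hQs.trans hsN]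
    calc 6 * N * (1 + Real.log Q) ^ a *
          (600 * (Nat.log 2 Q + 1 : ℝ) * ((N : ℝ) / q + Q + q) * (1 + Real.log q)) ≤
        6 * N * (2 * L) ^ a * (600 * (3 * L) * (3 * (N / L ^ B)) * (2 * L)) := by
          have h7 : (Nat.log 2 Q : ℝ) + 1 ≤ 3 * L := by linarith
          have h8 : 1 + Real.log q ≤ 2 * L := by linarith
          gcongr
      _ = (64800 * 2 ^ a) / L ^ 2 * (N / L ^ (U + 1)) ^ 2 := by
          have : L ^ B = L ^ a * L ^ 2 * (L ^ (U + 1)) ^ 2 * L ^ 2 := by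
            rw [hB]; ring
          rw [this, mul_pow]
          field_simp
          ring
      _ ≤ 1 / 9 * (N / L ^ (U + 1)) ^ 2 := by
          apply mul_le_mul_of_nonneg_right _ (by positivity)
          rw [div_le_iff₀ (by positivity)]
          nlinarith
      _ = _ := by ring
  calc (Vz z)⁻¹ * _ ≤ L * (2 / 3 * (N / L ^ (U + 1)) + 1 / 3 * (N / L ^ (U + 1))) := by
        apply mul_le_mul hV (add_le_add b1 b2) _ hL0.le
        refine add_nonneg (mul_nonneg hW0 (by positivity)) ?_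
        exact sum_nonneg fun t _ => mul_nonneg (by positivity) (KK_nonneg (by positivity) _)
    _ = N / L ^ U := by
        rw [pow_succ]
        field_simp
        ring

end Pool.Agent.T2H22.AA
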