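import Pool.Agent.T2H22.AA.Defs3
import Pool.Agent.T2H22.AA.MinZ
import Pool.Agent.H325R2.PPWtx

/-!
Project AA, part R: the truncated sieve for `rhoT`.
-/

set_option autoImplicit false

namespace Pool.Agent.T2H22.AA

open Finset
open Pool.Agent.H361R2.PP
open Pool.Agent.W70.HR
open Pool.Agent.H373R2.T7 Pool.Agent.H807R2.Dav

namespace TRaux

/-- the prime of a pair -/
def pf (v : ℕ) : ℕ := v.unpair.1

/-- the shift of a pair -/
def tf (v : ℕ) : ℕ := v.unpair.2

/-- the primes of `(H, z]` -/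
def Pz (H z : ℕ) : Finset ℕ := (Ioc H z).filter Nat.Prime

/-- the pairs -/
def VV (H z : ℕ) (T : Finset ℕ) : Finset ℕ := (Pz H z ×ˢ T).image (fun q => Nat.pair q.1 q.2)

theorem mem_VV {H z v : ℕ} {T : Finset ℕ} : v ∈ VV H z T ↔ pf v ∈ Pz H z ∧ tf v ∈ T := by
  unfold VV pf tf
  rw [mem_image]
  constructor
  · rintro ⟨q, hq, rfl⟩
    rw [mem_product] at hq
    rw [Nat.unpair_pair]
    exact hq
  · intro h
    exact ⟨(v.unpair.1, v.unpair.2), mem_product.2 h, Nat.pair_unpair v⟩

theorem mem_Pz {H z p : ℕ} : p ∈ Pz H z ↔ (H < p ∧ p ≤ z) ∧ p.Prime := by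
  unfold Pz
  rw [mem_filter, mem_Ioc]

theorem Pz_sub (H z : ℕ) : Pz H z ⊆ pz z := by
  intro p hp
  rw [mem_Pz] at hp
  exact mem_pz.2 ⟨hp.1.2, hp.2⟩

theorem sum_VV (H z : ℕ) (T : Finset ℕ) (f : ℕ → ℝ) :
    ∑ v ∈ VV H z T, f (pf v) = T.card * ∑ p ∈ Pz H z, f p := by
  unfold VV
  rw [sum_image (by
    rintro ⟨a, b⟩ _ ⟨c, d⟩ _ h
    have h' : Nat.pair a b = Nat.pair c d := h
    rw [Nat.pair_eq_pair] at h'
    exact Prod.ext h'.1 h'.2), sum_product]
  unfold pf
  simp only [Nat.unpair_pair, sum_const, nsmul_eq_mul]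
  rw [mul_sum]

theorem card_VV_le (H z : ℕ) (T : Finset ℕ) : (VV H z T).card ≤ T.card * z := by
  unfold VV
  refine card_image_le.trans ?_
  rw [card_product, mul_comm]
  apply Nat.mul_le_mul_left
  exact (card_le_card (Pz_sub H z)).trans (card_pz_le z)

/-- solving the congruences -/
theorem crt (m b : ℕ) (S : Finset ℕ) (hp : ∀ v ∈ S, (pf v).Prime)
    (hm : ∀ v ∈ S, (pf v).Coprime m) (hinj : Set.InjOn pf (S : Set ℕ)) :
    ∃ r, ∀ x, x ≡ r [MOD m * ∏ v ∈ S, pf v] ↔ (x ≡ b [MOD m] ∧ ∀ v ∈ S, pf v ∣ x + tf v) := by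
  classical
  induction S using Finset.induction_on with
  | empty =>
    refine ⟨b, fun x => ?_⟩
    simp
  | insert v S hv ih =>
    obtain ⟨r, hr⟩ := ih (fun u hu => hp u (mem_insert_of_mem hu))
      (fun u hu => hm u (mem_insert_of_mem hu))
      (hinj.mono (by rw [coe_insert]; exact Set.subset_insert _ _))
    have hvp := hp v (mem_insert_self _ _)
    have hvm := hm v (mem_insert_self _ _)
    have hcop : (m * ∏ u ∈ S, pf u).Coprime (pf v) := by
      apply Nat.Coprime.mul_left hvm.symm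
      apply Nat.Coprime.prod_left
      intro u hu
      rw [Nat.coprime_primes (hp u (mem_insert_of_mem hu)) hvp]
      intro h
      have := hinj (mem_coe.2 (mem_insert_of_mem hu)) (mem_coe.2 (mem_insert_self v S)) h
      exact hv (this ▸ hu)
    obtain ⟨x0, h1, h2⟩ := Nat.chineseRemainder hcop r (tf v * (pf v - 1))
    refine ⟨x0, fun x => ?_⟩
    have hpos := hvp.pos
    have key : x ≡ x0 [MOD pf v] ↔ pf v ∣ x + tf v := by
      have h3 : tf v * (pf v - 1) + tf v = tf v * pf v := by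
        obtain ⟨k, hk⟩ : ∃ k, pf v = k + 1 := ⟨pf v - 1, by omega⟩
        rw [hk, Nat.add_sub_cancel]
        ring
      constructor
      · intro h
        have h4 : x + tf v ≡ tf v * (pf v - 1) + tf v [MOD pf v] := (h.trans h2).add_right _
        rw [h3] at h4
        exact (Nat.modEq_zero_iff_dvd).1 (h4.trans ((Nat.modEq_zero_iff_dvd).2 (dvd_mul_left _ _)))
      · intro h
        have h4 : x + tf v ≡ tf v * (pf v - 1) + tf v [MOD pf v] := by
          rw [h3]
          exact ((Nat.modEq_zero_iff_dvd).2 h).trans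
            ((Nat.modEq_zero_iff_dvd).2 (dvd_mul_left _ _)).symm
        exact (Nat.ModEq.add_right_cancel' _ h4).trans h2.symm
    rw [prod_insert hv, mul_comm (pf v), ← mul_assoc, ← Nat.modEq_and_modEq_iff_modEq_mul hcop, key]
    have h5 : x ≡ x0 [MOD m * ∏ u ∈ S, pf u] ↔ x ≡ r [MOD m * ∏ u ∈ S, pf u] :=
      ⟨fun h => h.trans h1, fun h => h.trans h1.symm⟩
    rw [h5, hr x]
    constructor
    · rintro ⟨⟨h6, h7⟩, h8⟩
      refine ⟨h6, fun u hu => ?_⟩
      rcases mem_insert.1 hu with rfl | hu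
      · exact h8
      · exact h7 u hu
    · rintro ⟨h6, h7⟩
      exact ⟨⟨h6, fun u hu => h7 u (mem_insert_of_mem hu)⟩, h7 v (mem_insert_self _ _)⟩

/-- different shifts give different classes -/
theorem inj_of_dvd {H z : ℕ} {T S : Finset ℕ} (hT : ∀ t ∈ T, t ≤ H) (hS : S ⊆ VV H z T) {x : ℕ}
    (h : ∀ v ∈ S, pf v ∣ x + tf v) : Set.InjOn pf (S : Set ℕ) := by
  intro u hu v hv huv
  have hu' := mem_VV.1 (hS hu)
  have hv' := mem_VV.1 (hS hv)
  have hpu := (mem_Pz.1 hu'.1).1.1
  have h1 := h u hu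
  have h2 := h v hv
  rw [← huv] at h2
  have h3 : tf u = tf v := by
    have a1 := hT _ hu'.2
    have a2 := hT _ hv'.2
    rcases Nat.lt_trichotomy (tf u) (tf v) with h4 | h4 | h4
    · exfalso
      have h5 : pf u ∣ (x + tf v) - (x + tf u) := Nat.dvd_sub h2 h1
      have h6 := Nat.le_of_dvd (by omega) h5
      omega
    · exact h4
    · exfalso
      have h5 : pf u ∣ (x + tf u) - (x + tf v) := Nat.dvd_sub h1 h2
      have h6 := Nat.le_of_dvd (by omega) h5
      omega
  unfold pf tf at *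
  rw [← Nat.pair_unpair u, ← Nat.pair_unpair v, huv, h3]

/-- number of solutions in a class -/
theorem count {H z : ℕ} {T S : Finset ℕ} (hT : ∀ t ∈ T, t ≤ H) (hS : S ⊆ VV H z T) (N D c : ℕ)
    (hD : ∀ p : ℕ, p.Prime → p ∣ D → z < p) (hD1 : 1 ≤ D) :
    (((Icc 1 N).filter (fun x => x ≡ c [MOD D] ∧ ∀ v ∈ S, pf v ∣ x + tf v)).card : ℝ) ≤
      N / D * ∏ v ∈ S, (1 / (pf v : ℝ)) + 1 := by
  by_cases hinj : Set.InjOn pf (S : Set ℕ)
  · obtain ⟨r, hr⟩ := crt D c S (fun v hv => (mem_Pz.1 (mem_VV.1 (hS hv)).1).2) (fun v hv => by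
      have h1 := mem_Pz.1 (mem_VV.1 (hS hv)).1
      rw [(h1.2).coprime_iff_not_dvd]
      intro h2
      have := hD _ h1.2 h2
      omega) hinj
    have h1 : (Icc 1 N).filter (fun x => x ≡ c [MOD D] ∧ ∀ v ∈ S, pf v ∣ x + tf v) =
        (Icc 1 N).filter (fun x => x ≡ r [MOD D * ∏ v ∈ S, pf v]) :=
      filter_congr fun x _ => (hr x).symm
    rw [h1]
    refine (MZ.ap_card N _ r).trans (le_of_eq ?_)
    rw [prod_div_distrib, prod_const_one]
    push_cast
    rw [div_mul_div_comm, mul_one]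
  · have h1 : (Icc 1 N).filter (fun x => x ≡ c [MOD D] ∧ ∀ v ∈ S, pf v ∣ x + tf v) = ∅ := by
      rw [eq_empty_iff_forall_notMem]
      intro x hx
      exact hinj (inj_of_dvd hT hS (mem_filter.1 hx).2.2)
    rw [h1, card_empty, Nat.cast_zero]
    positivity

/-- number of subsets -/
theorem pow_le_div (d : ℕ) (hd : d ≠ 0) (Q : Finset ℕ) (hQ : ∀ p ∈ Q, p.Prime ∧ p ∣ d) :
    2 ^ Q.card ≤ d.divisors.card := by
  rw [← card_powerset]
  apply card_le_card_of_injOn (fun S => ∏ p ∈ S, p)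
  · intro S hS
    rw [mem_coe, mem_powerset] at hS
    rw [mem_coe, Nat.mem_divisors]
    exact ⟨Finset.prod_primes_dvd d (fun p hp => (hQ p (hS hp)).1.prime)
      (fun p hp => (hQ p (hS hp)).2), hd⟩
  · intro S hS S' hS' h
    rw [mem_coe, mem_powerset] at hS hS'
    exact prod_inj S S' (fun p hp => (hQ p (hS hp)).1) (fun p hp => (hQ p (hS' hp)).1) h

theorem card_class {H z : ℕ} (T : Finset ℕ) (d : ℕ) (hd : d ≠ 0) (F : Finset (Finset ℕ))
    (hF : ∀ S ∈ F, S ⊆ VV H z T ∧ ∀ v ∈ S, pf v ∣ d) :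
    F.card ≤ d.divisors.card ^ T.card := by
  classical
  have h1 : F ⊆ ((VV H z T).filter (fun v => pf v ∣ d)).powerset := by
    intro S hS
    rw [mem_powerset]
    intro v hv
    exact mem_filter.2 ⟨(hF S hS).1 hv, (hF S hS).2 v hv⟩
  refine (card_le_card h1).trans ?_
  rw [card_powerset]
  have h2 : ((VV H z T).filter (fun v => pf v ∣ d)).card ≤
      ((Pz H z).filter (fun p => p ∣ d)).card * T.card := by
    rw [← card_product]
    apply card_le_card_of_injOn (fun v => (pf v, tf v))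
    · intro v hv
      rw [mem_coe, mem_filter] at hv
      rw [mem_coe, mem_product, mem_filter]
      have := mem_VV.1 hv.1
      exact ⟨⟨this.1, hv.2⟩, this.2⟩
    · intro u _ v _ h
      have h' : (pf u, tf u) = (pf v, tf v) := h
      rw [Prod.mk.injEq] at h'
      unfold pf tf at h'
      rw [← Nat.pair_unpair u, ← Nat.pair_unpair v, h'.1, h'.2]
  calc 2 ^ ((VV H z T).filter (fun v => pf v ∣ d)).card ≤
      2 ^ (((Pz H z).filter (fun p => p ∣ d)).card * T.card) := Nat.pow_le_pow_right (by norm_num) h2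
    _ = (2 ^ ((Pz H z).filter (fun p => p ∣ d)).card) ^ T.card := by rw [pow_mul]
    _ ≤ _ := by
        apply Nat.pow_le_pow_left
        apply pow_le_div d hd
        intro p hp
        rw [mem_filter] at hp
        exact ⟨(mem_Pz.1 hp.1).2, hp.2⟩

end TRaux

open TRaux in
open Classical in
/-- part R -/
theorem tR : TR := by
  intro T A E
  set k := T.card with hk
  obtain ⟨N0, h0⟩ := choice k E (A + 1) 32
  set C1 : ℕ := (3 * (k * (1 + E)) + (A + 1) + 1) * (k + 1) with hC1
  obtain ⟨n1, h1⟩ := ev_log' (A + C1) 2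
  obtain ⟨n2, h2⟩ := ev_L' 20
  obtain ⟨n3, h3⟩ := ev_log' 32 1
  have hHt : ∃ n4 : ℕ, ∀ X : ℕ, n4 ≤ X → T.sup id ≤ HH X := by
    have h4 : Filter.Tendsto (fun X : ℕ => Real.log (Real.log (X : ℝ)) / 4) Filter.atTop
        Filter.atTop :=
      (Real.tendsto_log_atTop.comp (Real.tendsto_log_atTop.comp
        (tendsto_natCast_atTop_atTop (R := ℝ)))).atTop_div_const (by norm_num)
    obtain ⟨n4, h5⟩ := Filter.eventually_atTop.1 (h4.eventually_ge_atTop ((T.sup id : ℕ) : ℝ))
    refine ⟨n4, fun X hX => ?_⟩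
    unfold HH
    exact Nat.le_floor (h5 X hX)
  obtain ⟨n4, h4⟩ := hHt
  refine ⟨max (max N0 n1) (max n2 (max n3 (max n4 16))), fun X hX z hHz hzE b hb => ?_⟩
  simp only [max_le_iff] at hX
  obtain ⟨⟨hX0, hX1⟩, hX2, hX3, hX4, hX16⟩ := hX
  have a1 := h1 X hX1
  have hL := h2 X hX2
  have a3 := h3 X hX3
  have hTH : ∀ t ∈ T, t ≤ HH X := fun t ht => (le_sup (f := id) ht).trans (h4 X hX4)
  obtain ⟨R, hR1, hR2, hR3⟩ := h0 X hX0 z hzE
  set L := Real.log X with hLd
  have hL0 : 0 < L := by linarith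
  have hXr : (16 : ℝ) ≤ X := by exact_mod_cast hX16
  have hXp : (0 : ℝ) < X := by linarith
  set W := Wm X with hW
  have hW1 : 1 ≤ W := primorial_pos _
  have hWL : (W : ℝ) ≤ L := by
    have h5 := Pool.Agent.H325R2.wtx1 X hX16
    refine h5.trans ?_
    calc L ^ (7 / 20 : ℝ) ≤ L ^ (1 : ℝ) :=
          Real.rpow_le_rpow_of_exponent_le (by linarith) (by norm_num)
      _ = L := Real.rpow_one L
  set H := HH X with hH
  set V := VV H z T with hV
  have hWp : ∀ p : ℕ, p.Prime → p ∣ W → p ≤ H := by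
    intro p hp hd
    have h5 : p ∣ primorial (HH X) := hd
    unfold primorial at h5
    obtain ⟨q, hq, hd'⟩ := (Prime.dvd_finsetProd_iff hp.prime _).1 h5
    rw [mem_filter, mem_range] at hq
    rw [Nat.prime_dvd_prime_iff_eq hp hq.2] at hd'
    rw [hd', hH]
    omega
  set J : Finset (Finset ℕ) := V.powerset.filter (fun S => S.card < R ∧ Set.InjOn pf (S : Set ℕ))
    with hJ
  have hJm : ∀ S ∈ J, S ⊆ V ∧ S.card < R ∧ Set.InjOn pf (S : Set ℕ) := by
    intro S hS
    rw [hJ, mem_filter, mem_powerset] at hS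
    exact hS
  have hVp : ∀ v ∈ V, (H < pf v ∧ pf v ≤ z) ∧ (pf v).Prime := fun v hv =>
    mem_Pz.1 (mem_VV.1 hv).1
  have hcrt : ∀ S ∈ J, ∃ r, ∀ x, x ≡ r [MOD W * ∏ v ∈ S, pf v] ↔
      (x ≡ b [MOD W] ∧ ∀ v ∈ S, pf v ∣ x + tf v) := by
    intro S hS
    have h5 := hJm S hS
    refine crt W b S (fun v hv => (hVp v (h5.1 hv)).2) (fun v hv => ?_) h5.2.2
    have h6 := hVp v (h5.1 hv)
    rw [h6.2.coprime_iff_not_dvd]
    intro h7
    have := hWp _ h6.2 h7
    omega
  choose! r hr using hcrt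
  have hTt : ((z + 1) ^ R) ^ 32 ≤ X := by
    have : ((((z + 1) ^ R) ^ 32 : ℕ) : ℝ) ≤ X := by
      push_cast
      exact hR2
    exact_mod_cast this
  have hprod : ∀ S ∈ J, ∏ v ∈ S, pf v ≤ (z + 1) ^ R := by
    intro S hS
    have h5 := hJm S hS
    calc ∏ v ∈ S, pf v ≤ ∏ _v ∈ S, (z + 1) := prod_le_prod' fun v hv => by
          have := (hVp v (h5.1 hv)).1.2
          omega
      _ = (z + 1) ^ S.card := by rw [prod_const]
      _ ≤ (z + 1) ^ R := Nat.pow_le_pow_right (by omega) h5.2.1.le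
  have hpos : ∀ S ∈ J, 1 ≤ ∏ v ∈ S, pf v := by
    intro S hS
    apply Nat.pos_of_ne_zero
    rw [prod_ne_zero_iff]
    intro v hv
    exact (hVp v ((hJm S hS).1 hv)).2.ne_zero
  refine ⟨Finset ℕ, J, fun S => W * ∏ v ∈ S, pf v, r, fun S => (-1) ^ S.card, ?_, ?_, ?_⟩
  · intro S hS
    have h5 := hJm S hS
    have hrr := (hr S hS (r S)).1 (Nat.ModEq.refl _)
    refine ⟨Nat.mul_pos hW1 (hpos S hS), ?_, dvd_mul_right _ _, hrr.1, ?_, ?_⟩
    · have h6 : ((W * ∏ v ∈ S, pf v) ^ 16) ^ 2 ≤ X ^ 2 := by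
        calc ((W * ∏ v ∈ S, pf v) ^ 16) ^ 2 = W ^ 32 * (∏ v ∈ S, pf v) ^ 32 := by ring
          _ ≤ X * X := by
              apply Nat.mul_le_mul
              · have : ((W ^ 32 : ℕ) : ℝ) ≤ X := by
                  push_cast
                  rw [one_mul] at a3
                  calc (W : ℝ) ^ 32 ≤ L ^ 32 := pow_le_pow_left₀ (Nat.cast_nonneg _) hWL _
                    _ ≤ √X := a3
                    _ ≤ X := by
                        rw [Real.sqrt_le_left (by linarith)]
                        nlinarith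
                exact_mod_cast this
              · exact (Nat.pow_le_pow_left (hprod S hS) 32).trans hTt
          _ = X ^ 2 := by ring
      exact (Nat.pow_le_pow_iff_left (by norm_num)).1 h6
    · intro p hp hpd
      rcases (Nat.Prime.dvd_mul hp).1 hpd with h6 | h6
      · exact (hWp p hp h6).trans hHz
      · obtain ⟨v, hv, hd⟩ := (Prime.dvd_finsetProd_iff hp.prime _).1 h6
        have h7 := hVp v (h5.1 hv)
        rw [Nat.prime_dvd_prime_iff_eq hp h7.2] at hd
        rw [hd]
        exact h7.1.2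
    · intro p hp hHp hpd
      rcases (Nat.Prime.dvd_mul hp).1 hpd with h6 | h6
      · have := hWp p hp h6
        omega
      · obtain ⟨v, hv, hd⟩ := (Prime.dvd_finsetProd_iff hp.prime _).1 h6
        have h7 := hVp v (h5.1 hv)
        rw [Nat.prime_dvd_prime_iff_eq hp h7.2] at hd
        rw [hd]
        exact ⟨tf v, (mem_VV.1 (h5.1 hv)).2, hrr.2 v hv⟩
  · intro d
    have h5 : ∑ S ∈ J.filter (fun S => W * ∏ v ∈ S, pf v = d), |((-1 : ℝ) ^ S.card)| =
        ((J.filter (fun S => W * ∏ v ∈ S, pf v = d)).card : ℝ) := by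
      rw [card_eq_sum_ones]
      push_cast
      apply sum_congr rfl
      intro S _
      rw [abs_pow, abs_neg, abs_one, one_pow]
    rw [h5]
    rcases Nat.eq_zero_or_pos d with hd | hd
    · have h6 : J.filter (fun S => W * ∏ v ∈ S, pf v = d) = ∅ := by
        rw [eq_empty_iff_forall_notMem]
        intro S hS
        rw [mem_filter] at hS
        have := Nat.mul_pos hW1 (hpos S hS.1)
        omega
      rw [h6, card_empty, Nat.cast_zero]
      positivity
    · have h6 := card_class (H := H) (z := z) T d (by omega)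
        (J.filter (fun S => W * ∏ v ∈ S, pf v = d)) (fun S hS => by
          rw [mem_filter] at hS
          refine ⟨(hJm S hS.1).1, fun v hv => ?_⟩
          rw [← hS.2]
          exact (dvd_prod_of_mem _ hv).trans (dvd_mul_left _ _))
      exact_mod_cast h6
  · intro D hD1 hD8 hDz c
    have hD0 : (0 : ℝ) < D := by exact_mod_cast hD1
    set χ : Finset ℕ → ℕ → ℝ := fun S x => if ∀ v ∈ S, pf v ∣ x + tf v then (1 : ℝ) else 0 with hχ
    have hχ0 : ∀ S x, 0 ≤ χ S x := by
      intro S x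
      rw [hχ]
      simp only
      split_ifs
      · exact zero_le_one
      · exact le_rfl
    -- pointwise
    have hpt : ∀ x : ℕ, |rhoT X z b T x - ∑ S ∈ J, (if x ≡ r S [MOD W * ∏ v ∈ S, pf v] then
        (-1 : ℝ) ^ S.card else 0)| ≤ ∑ S ∈ V.powersetCard R, χ S x := by
      intro x
      have e1 : ∑ S ∈ J, (if x ≡ r S [MOD W * ∏ v ∈ S, pf v] then (-1 : ℝ) ^ S.card else 0) =
          (if x ≡ b [MOD W] then (1 : ℝ) else 0) *
            ∑ j ∈ range R, (-1 : ℝ) ^ j * ∑ S ∈ V.powersetCard j, χ S x := by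
        have e2 : ∑ j ∈ range R, (-1 : ℝ) ^ j * ∑ S ∈ V.powersetCard j, χ S x =
            ∑ S ∈ V.powerset.filter (fun S => S.card < R), (-1 : ℝ) ^ S.card * χ S x := by
          rw [← sum_fiberwise_of_maps_to (s := V.powerset.filter (fun S => S.card < R))
            (t := range R) (g := fun S => S.card)
            (fun S hS => mem_range.2 (mem_filter.1 hS).2)]
          apply sum_congr rfl
          intro j hj
          rw [mem_range] at hj
          rw [mul_sum]
          have e3 : (V.powerset.filter (fun S => S.card < R)).filter (fun S => S.card = j) =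
              V.powersetCard j := by
            ext S
            rw [mem_filter, mem_filter, mem_powerset, mem_powersetCard]
            constructor
            · rintro ⟨⟨q1, _⟩, q2⟩
              exact ⟨q1, q2⟩
            · rintro ⟨q1, q2⟩
              exact ⟨⟨q1, by omega⟩, q2⟩
          rw [e3]
          apply sum_congr rfl
          intro S hS
          rw [(mem_powersetCard.1 hS).2]
        rw [e2, mul_sum]
        have e4 : J ⊆ V.powerset.filter (fun S => S.card < R) := by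
          intro S hS
          have := hJm S hS
          exact mem_filter.2 ⟨mem_powerset.2 this.1, this.2.1⟩
        rw [← sum_subset e4 (f := fun S => (if x ≡ b [MOD W] then (1 : ℝ) else 0) *
          ((-1 : ℝ) ^ S.card * χ S x))]
        · apply sum_congr rfl
          intro S hS
          rw [hχ]
          simp only
          have q := hr S hS x
          by_cases q1 : x ≡ b [MOD W]
          · by_cases q2 : ∀ v ∈ S, pf v ∣ x + tf v
            · rw [if_pos (q.2 ⟨q1, q2⟩), if_pos q1, if_pos q2]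
              ring
            · rw [if_neg (fun h => q2 (q.1 h).2), if_neg q2]
              ring
          · rw [if_neg (fun h => q1 (q.1 h).1), if_neg q1]
            ring
        · intro S hS hSJ
          rw [mem_filter, mem_powerset] at hS
          have q2 : ¬ ∀ v ∈ S, pf v ∣ x + tf v := by
            intro q2
            apply hSJ
            rw [hJ, mem_filter, mem_powerset]
            exact ⟨hS.1, hS.2, inj_of_dvd hTH hS.1 q2⟩
          rw [hχ]
          simp only [if_neg q2]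
          ring
      have e5 : rhoT X z b T x = (if x ≡ b [MOD W] then (1 : ℝ) else 0) *
          (if ∀ v ∈ V, ¬ pf v ∣ x + tf v then (1 : ℝ) else 0) := by
        have q3 : (∀ t ∈ T, ∀ p : ℕ, p.Prime → HH X < p → p ≤ z → ¬ p ∣ x + t) ↔
            ∀ v ∈ V, ¬ pf v ∣ x + tf v := by
          constructor
          · intro q v hv
            have q4 := mem_VV.1 hv
            have q5 := mem_Pz.1 q4.1
            exact q _ q4.2 _ q5.2 q5.1.1 q5.1.2
          · intro q t ht p hp h6 h7
            have q4 : Nat.pair p t ∈ V := by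
              rw [hV, mem_VV]
              unfold pf tf
              rw [Nat.unpair_pair]
              exact ⟨mem_Pz.2 ⟨⟨h6, h7⟩, hp⟩, ht⟩
            have q5 := q _ q4
            unfold pf tf at q5
            rw [Nat.unpair_pair] at q5
            exact q5
        have q1 : x % Wm X = b ↔ x ≡ b [MOD W] := by
          unfold Nat.ModEq
          rw [Nat.mod_eq_of_lt hb]
        unfold rhoT
        by_cases c1 : x ≡ b [MOD W]
        · by_cases c2 : ∀ v ∈ V, ¬ pf v ∣ x + tf v
          · rw [if_pos ⟨q1.2 c1, q3.2 c2⟩, if_pos c1, if_pos c2, mul_one]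
          · rw [if_neg (fun h => c2 (q3.1 h.2)), if_neg c2, mul_zero]
        · rw [if_neg (fun h => c1 (q1.1 h.1)), if_neg c1, zero_mul]
      rw [e1, e5, ← mul_sub, abs_mul]
      have e6 : |(if x ≡ b [MOD W] then (1 : ℝ) else 0)| ≤ 1 := by split_ifs <;> simp
      have e7 : |(if ∀ v ∈ V, ¬ pf v ∣ x + tf v then (1 : ℝ) else 0) -
          ∑ j ∈ range R, (-1 : ℝ) ^ j * ∑ S ∈ V.powersetCard j, χ S x| ≤
          ∑ S ∈ V.powersetCard R, χ S x := by
        have := bonf_ind (fun v n => pf v ∣ n + tf v) V R x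
        rw [hχ]
        convert this
      calc _ ≤ 1 * ∑ S ∈ V.powersetCard R, χ S x :=
            mul_le_mul e6 e7 (abs_nonneg _) zero_le_one
        _ = _ := one_mul _
    refine (sum_le_sum fun x _ => hpt x).trans ?_
    rw [sum_comm]
    have h6 : ∀ S ∈ V.powersetCard R, ∑ x ∈ (Icc 1 (10 * X)).filter (fun x => x ≡ c [MOD D]),
        χ S x ≤ (10 * X) / D * ∏ v ∈ S, (1 / (pf v : ℝ)) + 1 := by
      intro S hS
      have h7 := count hTH (mem_powersetCard.1 hS).1 (10 * X) D c hDz hD1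
      have h8 : ∑ x ∈ (Icc 1 (10 * X)).filter (fun x => x ≡ c [MOD D]), χ S x =
          (((Icc 1 (10 * X)).filter (fun x => x ≡ c [MOD D] ∧
            ∀ v ∈ S, pf v ∣ x + tf v)).card : ℝ) := by
        rw [hχ]
        simp only
        rw [sum_boole, filter_filter]
      rw [h8]
      refine h7.trans (le_of_eq ?_)
      push_cast
      ring
    refine (sum_le_sum h6).trans ?_
    rw [sum_add_distrib, ← mul_sum, sum_const, nsmul_eq_mul, mul_one]
    -- sizes
    have h9 : ∑ S ∈ V.powersetCard R, ∏ v ∈ S, (1 / (pf v : ℝ)) ≤ 1 / L ^ (A + 1) := by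
      have h10 := es_le (x := fun v => 1 / (pf v : ℝ)) (T := V) (fun v _ => by positivity) R
      unfold es at h10
      refine h10.trans (le_trans (Real.exp_le_exp.2 ?_) hR1)
      have h11 : ∑ v ∈ V, 1 / (pf v : ℝ) ≤ k * (1 + Real.log z) := by
        rw [hV, sum_VV H z T (fun p => 1 / (p : ℝ))]
        apply mul_le_mul_of_nonneg_left _ (Nat.cast_nonneg _)
        refine le_trans ?_ (sum_pz_le z)
        exact sum_le_sum_of_subset_of_nonneg (Pz_sub H z) (fun _ _ _ => by positivity)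
      linarith
    have h12 : ((V.powersetCard R).card : ℝ) ≤ L ^ C1 * ((z : ℝ) + 1) ^ R := by
      have h13 := card_small V R
      rw [sum_range_succ] at h13
      push_cast at h13
      have h14 : (V.card : ℝ) ≤ k * z := by exact_mod_cast card_VV_le H z T
      have h15 : (V.card : ℝ) + 1 ≤ ((k + 1 : ℕ) : ℝ) * ((z : ℝ) + 1) := by
        push_cast
        have : (0 : ℝ) ≤ z := Nat.cast_nonneg _
        have : (0 : ℝ) ≤ k := Nat.cast_nonneg _
        nlinarith
      have h16 : ((V.card : ℝ) + 1) ^ R ≤ (((k + 1 : ℕ) : ℝ) * ((z : ℝ) + 1)) ^ R :=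
        pow_le_pow_left₀ (by positivity) h15 _
      rw [mul_pow] at h16
      have h17 := hR3 (k + 1)
      have h18 : 0 ≤ ∑ x ∈ range R, ((V.powersetCard x).card : ℝ) :=
        sum_nonneg fun _ _ => Nat.cast_nonneg _
      calc ((V.powersetCard R).card : ℝ) ≤ ((V.card : ℝ) + 1) ^ R := by linarith
        _ ≤ ((k + 1 : ℕ) : ℝ) ^ R * ((z : ℝ) + 1) ^ R := h16
        _ ≤ _ := mul_le_mul_of_nonneg_right h17 (by positivity)
    have h19 : (D : ℝ) * ((z : ℝ) + 1) ^ R ≤ √X := by
      have h20 : (D * (z + 1) ^ R) ^ 2 ≤ X := by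
        have h21 : ((D * (z + 1) ^ R) ^ 2) ^ 4 ≤ X ^ 4 := by
          calc ((D * (z + 1) ^ R) ^ 2) ^ 4 = D ^ 8 * ((z + 1) ^ R) ^ 8 := by ring
            _ ≤ X * X := by
                apply Nat.mul_le_mul hD8
                refine le_trans ?_ hTt
                exact Nat.pow_le_pow_right (Nat.one_le_pow _ _ (by omega)) (by norm_num)
            _ = X ^ 2 := by ring
            _ ≤ X ^ 4 := Nat.pow_le_pow_right (by omega) (by norm_num)
        exact (Nat.pow_le_pow_iff_left (by norm_num)).1 h21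
      rw [← Real.sqrt_sq (by positivity : (0 : ℝ) ≤ (D : ℝ) * ((z : ℝ) + 1) ^ R)]
      apply Real.sqrt_le_sqrt
      exact_mod_cast h20
    have h22 : (10 * X : ℝ) / D * (1 / L ^ (A + 1)) ≤ 1 / 2 * (X / (D * L ^ A)) := by
      have e : (10 * X : ℝ) / D * (1 / L ^ (A + 1)) = (10 / L) * (X / (D * L ^ A)) := by
        rw [pow_succ]
        field_simp
      rw [e]
      apply mul_le_mul_of_nonneg_right _ (by positivity)
      rw [div_le_iff₀ hL0]
      linarith
    have h23 : L ^ C1 * ((z : ℝ) + 1) ^ R ≤ 1 / 2 * (X / (D * L ^ A)) := by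
      have e : 1 / 2 * ((X : ℝ) / (D * L ^ A)) = X / (2 * (D * L ^ A)) := by field_simp
      rw [e, le_div_iff₀ (by positivity)]
      calc L ^ C1 * ((z : ℝ) + 1) ^ R * (2 * (D * L ^ A)) =
          (2 * L ^ (A + C1)) * (D * ((z : ℝ) + 1) ^ R) := by rw [pow_add]; ring
        _ ≤ √X * √X := mul_le_mul a1 h19 (by positivity) (by positivity)
        _ = X := Real.mul_self_sqrt hXp.le
    have h24 : (10 * X : ℝ) / D * ∑ S ∈ V.powersetCard R, ∏ v ∈ S, (1 / (pf v : ℝ)) ≤
        (10 * X : ℝ) / D * (1 / L ^ (A + 1)) := mul_le_mul_of_nonneg_left h9 (by positivity)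
    linarith

end Pool.Agent.T2H22.AA
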