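import Pool.Agent.T2H22.AA.Asm3A
import Pool.Agent.T2H22.AA.TR
import Pool.Agent.T2H22.AA.EqI
import Pool.Agent.T2H22.AA.EqP
import Pool.Agent.T2H22.AA.SupF
import Pool.Agent.T2H22.BG.Fin

/-! Auxiliary lemmas for `AA/Fin.lean` (a separate file, so that the long theorems are compiled in parallel). -/

set_option autoImplicit false

open Finset

namespace Pool.Agent.T2H22.AA

open Pool.Agent.T2H22.BG (Sol ns ny)
open Pool.Agent.H862R2.PPSm5 (log_tendsto)

theorem gd_le (S : Finset ℕ) (c0 r X n : ℕ) (hc0 : ∀ a ∈ S, a < c0) (hS1 : ∀ a ∈ S, 1 ≤ a)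
    (hn1 : n < 4 * X) (hn2 : c0 ≤ 2 * n) :
    gd S c0 r X (2 * n - c0) ≤ ny r c0 n := by
  classical
  set N := 2 * n - c0 with hN
  unfold gd ny
  apply card_le_card_of_injOn (fun x => n - (N - x) - c0)
  · intro x hx
    rw [mem_coe, mem_filter, mem_Ico] at hx
    obtain ⟨⟨hx1, hx2⟩, hxN, hxr⟩ := hx
    rw [mem_coe, mem_filter, mem_Icc]
    simp only
    refine ⟨⟨by omega, by omega⟩, ?_⟩
    refine hxr.trans ?_
    unfold ns
    apply card_le_card_of_injOn (fun a => n - (N - x) - a)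
    · intro a ha
      rw [mem_coe, mem_filter] at ha
      obtain ⟨haS, hp, hq⟩ := ha
      have h1 := hc0 a haS
      have h2 := hS1 a haS
      rw [mem_coe, mem_filter, mem_Icc]
      simp only
      refine ⟨⟨by omega, by omega⟩, ?_⟩
      unfold Pool.Agent.T2H22.BG.Sol
      have e1 : n - (n - (N - x) - a) = N - x + a := by omega
      have e2 : n + (n - (N - x) - a) = x + (c0 - a) := by omega
      rw [e1, e2]
      exact ⟨by omega, hp, hq⟩
    · intro a ha a' ha' he
      rw [mem_coe, mem_filter] at ha ha'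
      have h1 := hc0 a ha.1
      have h2 := hc0 a' ha'.1
      simp only at he
      omega
  · intro x hx x' hx' he
    rw [mem_coe, mem_filter, mem_Ico] at hx hx'
    simp only at he
    omega

open Classical in
/-- few exceptions in `[1, Y]` from few exceptions in `(5 Y / 6, Y]` -/
theorem iter (P : ℕ → Prop) (η : ℝ) (hη : 0 ≤ η) (Y₁ : ℕ) (hY1 : 1 ≤ Y₁)
    (h : ∀ Y : ℕ, Y₁ ≤ Y → (((Ioc (5 * Y / 6) Y).filter P).card : ℝ) ≤ η * Y) :
    ∀ Y : ℕ, (((Icc 1 Y).filter P).card : ℝ) ≤ 6 * η * Y + Y₁ := by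
  intro Y
  induction Y using Nat.strong_induction_on with
  | _ Y ih =>
    by_cases hY : Y < Y₁
    · have h1 : ((Icc 1 Y).filter P).card ≤ Y := by
        refine (card_filter_le _ _).trans ?_
        rw [Nat.card_Icc, Nat.add_sub_cancel]
      have h2 : (((Icc 1 Y).filter P).card : ℝ) ≤ Y₁ := by
        exact_mod_cast h1.trans hY.le
      have : 0 ≤ 6 * η * Y := by positivity
      linarith
    · push Not at hY
      have hlt : 5 * Y / 6 < Y := by omega
      have h1 := ih (5 * Y / 6) hlt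
      have h2 := h Y hY
      have h3 : (Icc 1 Y).filter P ⊆ (Icc 1 (5 * Y / 6)).filter P ∪ (Ioc (5 * Y / 6) Y).filter P := by
        intro n hn
        rw [mem_filter, mem_Icc] at hn
        rw [mem_union, mem_filter, mem_filter, mem_Icc, mem_Ioc]
        by_cases h : n ≤ 5 * Y / 6
        · exact Or.inl ⟨⟨hn.1.1, h⟩, hn.2⟩
        · exact Or.inr ⟨⟨by omega, hn.1.2⟩, hn.2⟩
      have h4 : (((Icc 1 Y).filter P).card : ℝ) ≤ (((Icc 1 (5 * Y / 6)).filter P).card : ℝ) +
          (((Ioc (5 * Y / 6) Y).filter P).card : ℝ) := by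
        exact_mod_cast (card_le_card h3).trans (card_union_le _ _)
      have h5 : ((5 * Y / 6 : ℕ) : ℝ) ≤ 5 * Y / 6 := by
        have := Nat.cast_div_le (α := ℝ) (m := 5 * Y) (n := 6)
        push_cast at this
        exact this
      have h6 : 6 * η * ((5 * Y / 6 : ℕ) : ℝ) ≤ 6 * η * (5 * Y / 6) :=
        mul_le_mul_of_nonneg_left h5 (by positivity)
      linarith

end Pool.Agent.T2H22.AA
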