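import Pool.Agent.T2H22.AA.Par
import Pool.Agent.H379R2.PP.Sm1

/-! Project AA: the weights of the environment. -/

set_option autoImplicit false

open Finset

namespace Pool.Agent.T2H22.AA

open Pool.Agent.H361R2.PP
open Pool.Agent.H410R2
open Pool.Agent.W70.HR
open Pool.Agent.H379R2.PP (exists_rep ok_mod kk_of_ok kk_of_not_ok rho_iff)
open Pool.Agent.H373R2.T7 Pool.Agent.H807R2.Dav

theorem modprod (D : Finset ℕ) (hD : ∀ p ∈ D, p.Prime) (m r : ℕ) :
    m ≡ r [MOD ∏ p ∈ D, p] ↔ ∀ p ∈ D, m % p = r % p := by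
  classical
  induction D using Finset.induction_on with
  | empty => simp [Nat.modEq_one]
  | insert q D hq ih =>
    have hD' : ∀ p ∈ D, p.Prime := fun p hp => hD p (mem_insert_of_mem hp)
    have hqp := hD q (mem_insert_self _ _)
    have hcop : Nat.Coprime q (∏ p ∈ D, p) := by
      apply Nat.Coprime.prod_right
      intro p hp
      rw [Nat.coprime_primes hqp (hD' p hp)]
      rintro rfl
      exact hq hp
    rw [prod_insert hq, ← Nat.modEq_and_modEq_iff_modEq_mul hcop, ih hD']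
    constructor
    · rintro ⟨h1, h2⟩ p hp
      rcases mem_insert.1 hp with rfl | h
      · exact h1
      · exact h2 p h
    · intro h
      exact ⟨h q (mem_insert_self _ _), fun p hp => h p (mem_insert_of_mem hp)⟩

/-- the discrepancy in the class of `r` -/
noncomputable def disc (o : Option ℕ) (w : ℕ → ℝ) (M : ℕ) (Ω : ℝ) (D : Finset ℕ) (r : ℕ) : ℝ :=
  ∑ m ∈ (range M).filter (fun m => m ≡ r [MOD ∏ p ∈ D, p]), w m - Ω / ∏ p ∈ D, ph o p

theorem mem_Ds {X z : ℕ} {D : Finset ℕ} : D ∈ Ds X z ↔ D ⊆ PE X z ∧ ∏ p ∈ D, p ≤ Y16 X := by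
  unfold Ds
  rw [mem_filter, mem_powerset]

theorem mem_PE {X z p : ℕ} : p ∈ PE X z ↔ p ≤ Y16 X ∧ p.Prime ∧ z < p := by
  unfold PE
  rw [mem_filter, mem_range, Nat.lt_succ_iff]

theorem exists_ok (o : Option ℕ) (D : Finset ℕ) (hD : ∀ p ∈ D, p.Prime) :
    ∃ r : ℕ, ∀ p ∈ D, ok o p r := by
  cases o with
  | none =>
    refine ⟨0, fun p _ => ?_⟩
    unfold ok
    simp
  | some a =>
    obtain ⟨r, hr⟩ := exists_rep D hD (fun p => if rho p a = 0 then 1 else 0) (by
      intro p hp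
      have := (hD p hp).one_lt
      split_ifs <;> omega)
    refine ⟨r, fun p hp => ?_⟩
    unfold ok
    intro a' ha'
    have haa : a = a' := by simpa using ha'
    subst haa
    intro hd
    have h1 := (rho_iff p a r (hD p hp).one_lt.le).2 hd
    rw [hr p hp] at h1
    split_ifs at h1 with h2
    · rw [h2] at h1; exact one_ne_zero h1
    · exact h2 h1.symm

theorem envw_of (o : Option ℕ) (K A X z : ℕ) (w : ℕ → ℝ) (M : ℕ) (Ω : ℝ) (hw : ∀ n, 0 ≤ w n)
    (hΩ : 0 ≤ Ω) (hok : ∀ m, w m ≠ 0 → ∀ p ∈ PE X z, ok o p m)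
    (h : ∀ (γ : Finset ℕ → ℝ) (c : Finset ℕ → ℕ), (∀ D, |γ D| ≤ (K : ℝ) ^ D.card) →
      (∀ D ∈ Ds X z, ∀ p ∈ D, ok o p (c D)) →
      ∑ D ∈ Ds X z, γ D * disc o w M Ω D (c D) ≤ Ω / Real.log X ^ A) :
    Envw o K A X z w M Ω := by
  classical
  have hPEp : ∀ D ∈ Ds X z, ∀ p ∈ D, p.Prime := fun D hD p hp =>
    (mem_PE.1 ((mem_Ds.1 hD).1 hp)).2.1
  have hex : ∀ D : Finset ℕ, ∃ c : ℕ, D ∈ Ds X z → (∀ p ∈ D, ok o p c) ∧
      ∀ r < ∏ p ∈ D, p, (∀ p ∈ D, ok o p r) → |disc o w M Ω D r| ≤ |disc o w M Ω D c| := by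
    intro D
    by_cases hD : D ∈ Ds X z
    · have hp := hPEp D hD
      have hpos : 0 < ∏ p ∈ D, p := prod_pos fun p h => (hp p h).pos
      set s := (range (∏ p ∈ D, p)).filter (fun r => ∀ p ∈ D, ok o p r) with hs
      have hne : s.Nonempty := by
        obtain ⟨r, hr⟩ := exists_ok o D hp
        refine ⟨r % ∏ p ∈ D, p, ?_⟩
        rw [hs, mem_filter, mem_range]
        refine ⟨Nat.mod_lt _ hpos, fun p hpD => ?_⟩
        refine (ok_mod o p _ r (hp p hpD).one_lt.le ?_).2 (hr p hpD)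
        exact Nat.mod_mod_of_dvd _ (dvd_prod_of_mem _ hpD)
      obtain ⟨c, hc, hmax⟩ := exists_max_image s (fun r => |disc o w M Ω D r|) hne
      refine ⟨c, fun _ => ⟨(mem_filter.1 hc).2, fun r hr hrok => ?_⟩⟩
      exact hmax r (mem_filter.2 ⟨mem_range.2 hr, hrok⟩)
    · exact ⟨0, fun h => absurd h hD⟩
  choose cm hcm using hex
  refine ⟨hw, hΩ, fun D => if D ∈ Ds X z then |disc o w M Ω D (cm D)| else 0, ?_, ?_, ?_⟩
  · intro D
    simp only
    split_ifs
    · exact abs_nonneg _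
    · exact le_rfl
  · intro T hT hTY c hc
    have hTD : T ∈ Ds X z := mem_Ds.2 ⟨hT, hTY⟩
    have hp := hPEp T hTD
    have hpos : 0 < ∏ p ∈ T, p := prod_pos fun p h => (hp p h).pos
    simp only
    rw [if_pos hTD]
    obtain ⟨r0, hr0⟩ := exists_rep T hp c hc
    set r := r0 % ∏ p ∈ T, p with hr
    have hrc : ∀ p ∈ T, r % p = c p := by
      intro p hpT
      rw [hr, Nat.mod_mod_of_dvd _ (dvd_prod_of_mem _ hpT)]
      exact hr0 p hpT
    have hfil : (range M).filter (fun m => ∀ p ∈ T, m % p = c p) =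
        (range M).filter (fun m => m ≡ r [MOD ∏ p ∈ T, p]) := by
      apply filter_congr
      intro m _
      rw [modprod T hp]
      constructor
      · intro h p hpT
        rw [h p hpT, hrc p hpT]
      · intro h p hpT
        rw [h p hpT, hrc p hpT]
    rw [hfil]
    by_cases hokr : ∀ p ∈ T, ok o p r
    · have hprod : ∏ p ∈ T, kk o p (c p) = 1 / ∏ p ∈ T, ph o p := by
        rw [← Finset.prod_const_one (s := T), ← Finset.prod_div_distrib]
        exact Finset.prod_congr rfl fun p hpT =>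
          kk_of_ok o p (c p) r (hp p hpT).one_lt.le (hrc p hpT) (hokr p hpT)
      rw [hprod, mul_one_div]
      exact (hcm T hTD).2 r (Nat.mod_lt _ hpos) hokr
    · push Not at hokr
      obtain ⟨p, hpT, hno⟩ := hokr
      have hp1 := (hp p hpT).one_lt.le
      have h0 : ∏ p ∈ T, kk o p (c p) = 0 :=
        Finset.prod_eq_zero hpT (kk_of_not_ok o p (c p) r hp1 (hrc p hpT) hno)
      have h1 : ∑ m ∈ (range M).filter (fun m => m ≡ r [MOD ∏ p ∈ T, p]), w m = 0 := by
        apply sum_eq_zero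
        intro m hm
        by_contra hne
        have h2 := hok m hne p (hT hpT)
        have h3 := (modprod T hp m r).1 (mem_filter.1 hm).2 p hpT
        exact hno ((ok_mod o p m r hp1 h3).1 h2)
      rw [h0, h1]
      simp
  · set γ : Finset ℕ → ℝ := fun D => if 0 ≤ disc o w M Ω D (cm D) then (K : ℝ) ^ D.card else
      -(K : ℝ) ^ D.card with hγ
    have h1 := h γ cm (by
      intro D
      rw [hγ]
      simp only
      split_ifs
      · rw [abs_of_nonneg (by positivity)]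
      · rw [abs_neg, abs_of_nonneg (by positivity)]) (fun D hD => (hcm D hD).1)
    refine le_trans (le_of_eq ?_) h1
    have h2 : (PE X z).powerset.filter (fun D : Finset ℕ => ∏ p ∈ D, p ≤ Y16 X) = Ds X z := rfl
    rw [h2]
    apply sum_congr rfl
    intro D hD
    simp only
    rw [if_pos hD, hγ]
    simp only
    split_ifs with hs
    · rw [abs_of_nonneg hs]
    · push Not at hs
      rw [abs_of_neg hs]
      ring

/-- the number of the `y ∈ G` with `x + y ∈ E` -/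
noncomputable def mm (E G : Finset ℕ) (x : ℕ) : ℝ := ((G.filter (fun y => x + y ∈ E)).card : ℝ)

theorem mm_nonneg (E G : Finset ℕ) (x : ℕ) : 0 ≤ mm E G x := Nat.cast_nonneg _

theorem mm_le (E G : Finset ℕ) (x : ℕ) : mm E G x ≤ G.card := by
  unfold mm
  exact_mod_cast card_filter_le _ _

theorem mm_sum (E G I : Finset ℕ) (f : ℕ → ℝ) :
    ∑ x ∈ I, f x * mm E G x = ∑ N ∈ E, ∑ y ∈ G, ∑ x ∈ I, (if x + y = N then f x else 0) := by
  have h1 : ∀ x ∈ I, f x * mm E G x = ∑ y ∈ G, ∑ N ∈ E, (if x + y = N then f x else 0) := by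
    intro x _
    unfold mm
    rw [card_filter]
    push_cast
    rw [mul_sum]
    apply sum_congr rfl
    intro y _
    by_cases h : x + y ∈ E
    · rw [if_pos h, sum_ite_eq, if_pos h, mul_one]
    · rw [if_neg h, sum_ite_eq, if_neg h, mul_zero]
  rw [sum_congr rfl h1, sum_comm]
  have h2 : ∑ y ∈ G, ∑ x ∈ I, ∑ N ∈ E, (if x + y = N then f x else 0) =
      ∑ y ∈ G, ∑ N ∈ E, ∑ x ∈ I, (if x + y = N then f x else 0) := by
    apply sum_congr rfl
    intro y _
    rw [sum_comm]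
  rw [h2, sum_comm]

/-- the weight of the integers -/
noncomputable def wI (X : ℕ) (ρ : ℕ → ℝ) (E G : Finset ℕ) (x : ℕ) : ℝ :=
  if x ∈ Ico (4 * X) (8 * X) then ρ x * mm E G x else 0

/-- the weight of the primes -/
noncomputable def wP (X a : ℕ) (ρ : ℕ → ℝ) (E G : Finset ℕ) (x : ℕ) : ℝ :=
  if x ∈ Ico (4 * X) (8 * X) ∧ (x + a).Prime then
    ρ x * mm E G x * (ArithmeticFunction.vonMangoldt (x + a) / Real.log X) else 0

/-- the total mass -/
noncomputable def OmI (X : ℕ) (ρ : ℕ → ℝ) (E G : Finset ℕ) : ℝ :=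
  ∑ x ∈ Ico (4 * X) (8 * X), ρ x * mm E G x

theorem bil_mm (X : ℕ) (hX : 1 ≤ X) (E G : Finset ℕ) (hE : ∀ N ∈ E, N < 9 * X)
    (hG : ∀ y ∈ G, y < 2 * X) (H : ℕ → ℝ) (δ : ℝ)
    (hH : ∀ α : ℝ, ‖∑ x ∈ Ico (4 * X) (8 * X), ((H x : ℝ) : ℂ) * ee ((x : ℝ) * α)‖ ≤ δ) :
    |∑ x ∈ Ico (4 * X) (8 * X), H x * mm E G x| ≤ δ * √((E.card : ℝ) * G.card) := by
  rw [mm_sum]
  refine bil (10 * X) (by omega) E G (Ico (4 * X) (8 * X)) H (fun N hN => ?_) (fun y hy => ?_)
    (fun y hy x hx => ?_) δ hH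
  · have := hE N hN; omega
  · have := hG y hy; omega
  · have := hG y hy
    have := (mem_Ico.1 hx).2
    omega

/-- the weight of the integers is equidistributed -/
theorem env_I (K A X z : ℕ) (hX : 1 ≤ X) (ρ : ℕ → ℝ) (hρ : ∀ x, 0 ≤ ρ x) (E G : Finset ℕ)
    (hE : ∀ N ∈ E, N < 9 * X) (hG : ∀ y ∈ G, y < 2 * X) (δ : ℝ)
    (hH : ∀ (γ : Finset ℕ → ℝ) (c : Finset ℕ → ℕ), (∀ D, |γ D| ≤ (K : ℝ) ^ D.card) → ∀ α : ℝ,
      ‖∑ x ∈ Ico (4 * X) (8 * X), ((ρ x * ∑ D ∈ Ds X z, γ D *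
        ((if x ≡ c D [MOD ∏ p ∈ D, p] then 1 else 0) - 1 / ∏ p ∈ D, (p : ℝ)) : ℝ) : ℂ) *
        ee ((x : ℝ) * α)‖ ≤ δ)
    (hδ : δ * √((E.card : ℝ) * G.card) ≤ OmI X ρ E G / Real.log X ^ A) :
    Envw none K A X z (wI X ρ E G) (8 * X) (OmI X ρ E G) := by
  have hsumI : ∀ f : ℕ → ℝ, ∑ x ∈ range (8 * X), wI X ρ E G x * f x =
      ∑ x ∈ Ico (4 * X) (8 * X), ρ x * mm E G x * f x := by
    intro f
    have h1 : Ico (4 * X) (8 * X) = (range (8 * X)).filter (fun x => 4 * X ≤ x ∧ x < 8 * X) := by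
      ext x
      rw [mem_filter, mem_range, mem_Ico]
      omega
    rw [h1, sum_filter]
    apply sum_congr rfl
    intro x _
    unfold wI
    simp only [mem_Ico]
    by_cases h : 4 * X ≤ x ∧ x < 8 * X
    · rw [if_pos h, if_pos h]
    · rw [if_neg h, if_neg h]
      ring
  refine envw_of none K A X z (wI X ρ E G) (8 * X) (OmI X ρ E G) ?_ ?_ ?_ ?_
  · intro n
    unfold wI
    split_ifs
    · exact mul_nonneg (hρ n) (mm_nonneg _ _ _)
    · exact le_rfl
  · exact sum_nonneg fun x _ => mul_nonneg (hρ x) (mm_nonneg _ _ _)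
  · intro m _ p _
    unfold ok
    simp
  · intro γ c hγ _
    refine le_trans ?_ hδ
    have h1 := bil_mm X hX E G hE hG _ δ (hH γ c hγ)
    refine le_trans (le_of_eq ?_) ((le_abs_self _).trans h1)
    have hd : ∀ D ∈ Ds X z, γ D * disc none (wI X ρ E G) (8 * X) (OmI X ρ E G) D (c D) =
        ∑ x ∈ Ico (4 * X) (8 * X), ρ x * mm E G x * (γ D *
          ((if x ≡ c D [MOD ∏ p ∈ D, p] then 1 else 0) - 1 / ∏ p ∈ D, (p : ℝ))) := by
      intro D _
      have h2 : ∑ m ∈ (range (8 * X)).filter (fun m => m ≡ c D [MOD ∏ p ∈ D, p]), wI X ρ E G m =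
          ∑ x ∈ Ico (4 * X) (8 * X), ρ x * mm E G x * (if x ≡ c D [MOD ∏ p ∈ D, p] then 1 else 0) := by
        rw [← hsumI, sum_filter]
        apply sum_congr rfl
        intro x _
        split_ifs <;> ring
      have h3 : ∏ p ∈ D, ph none p = ∏ p ∈ D, (p : ℝ) := by
        apply prod_congr rfl
        intro p _
        unfold ph
        simp
      unfold disc
      rw [h2, h3]
      unfold OmI
      rw [div_eq_mul_one_div, sum_mul, ← sum_sub_distrib, mul_sum]
      apply sum_congr rfl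
      intro x _
      ring
    rw [sum_congr rfl hd, sum_comm]
    apply sum_congr rfl
    intro x _
    rw [← mul_sum]
    ring

end Pool.Agent.T2H22.AA
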