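import Pool.Agent.T2H22.BG.Low
import Pool.Agent.T2H22.BG.Lev
import Pool.Agent.T2H22.AA.Wts

/-! Project AA: rough tuples with many primes in one class, and the choice of the classes. -/

set_option autoImplicit false

open Finset

namespace Pool.Agent.T2H22.AA

open Pool.Agent.H361R2.PP
open Pool.Agent.W70.HR
open Pool.Agent.H379R2.PP (exists_rep)

theorem lowB (k : ℕ) : ∃ (k2 : ℕ) (δ : ℝ), k ≤ k2 ∧ 1 ≤ k2 ∧ 0 < δ ∧ δ ≤ 1 / 8 ∧
    ∀ S : Finset ℕ, S.card = k2 → (∀ a ∈ S, 1 ≤ a) → ∃ c : ℝ, 0 < c ∧ ∃ X₀ : ℕ, ∀ X : ℕ, X₀ ≤ X →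
    ∀ b : ℕ, b < Wm X → (∀ a ∈ S, (b + a).Coprime (Wm X)) →
    ∃ S' ⊆ S, S'.card = k ∧ ∃ G : Finset ℕ, G ⊆ SI X b ∧
      (∀ y ∈ G, ∀ a ∈ S, ∀ p : ℕ, p.Prime → HH X < p → p < 2 ^ 2 ^ JJ δ X → ¬ p ∣ y + a) ∧
      (∀ y ∈ G, ∀ a ∈ S', (y + a).Prime) ∧ c * Om δ X S.card ≤ (G.card : ℝ) := by
  classical
  set T : ℕ := 4 * (k + 1) with hTd
  obtain ⟨K, hK, hMT⟩ := mt_final T (by omega)
  obtain ⟨δ, c, hδ, hδ8, hc, X₁, h1⟩ := hMT 1 0 one_pos
  have hk1 : 1 ≤ T * K := Nat.mul_pos (by omega) hK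
  have hkr : k ≤ T * K := by
    calc k ≤ T := by omega
      _ = T * 1 := (mul_one _).symm
      _ ≤ T * K := Nat.mul_le_mul_left _ hK
  refine ⟨T * K, δ, hkr, hk1, hδ, hδ8, ?_⟩
  intro S hS hS1
  -- the labelling
  have hcard : Fintype.card (Fin T × Fin K) = Fintype.card {a // a ∈ S} := by
    rw [Fintype.card_prod, Fintype.card_fin, Fintype.card_fin, Fintype.card_coe, hS]
  set e : Fin T × Fin K ≃ {a // a ∈ S} := Fintype.equivOfCardEq hcard with he
  set H : Fin T → Fin K → ℕ := fun g i => (e (g, i)).1 with hH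
  have hHS : ∀ g i, H g i ∈ S := fun g i => (e (g, i)).2
  have hHinj : Function.Injective (fun x : Fin T × Fin K => H x.1 x.2) := by
    intro x y hxy
    exact e.injective (Subtype.ext hxy)
  have hHsurj : ∀ a ∈ S, ∃ g i, H g i = a := by
    intro a ha
    refine ⟨(e.symm ⟨a, ha⟩).1, (e.symm ⟨a, ha⟩).2, ?_⟩
    simp only [hH, Prod.mk.eta, Equiv.apply_symm_apply]
  set A0 : ℕ := S.sup id with hA0
  have hSA0 : ∀ a ∈ S, a ≤ A0 := fun a ha => Finset.le_sup (f := id) ha
  obtain ⟨X₄, h4⟩ : ∃ X₄ : ℕ, ∀ X : ℕ, X₄ ≤ X → (A0 : ℝ) + 1 ≤ Real.log X := by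
    have := (Real.tendsto_log_atTop.comp tendsto_natCast_atTop_atTop).eventually_ge_atTop ((A0 : ℝ) + 1)
    exact Filter.eventually_atTop.1 this
  refine ⟨c / 2 ^ (T * K), by positivity, max X₁ X₄, ?_⟩
  intro X hX b hb hbS
  have hX1 : X₁ ≤ X := (le_max_left _ _).trans hX
  have hX4 : X₄ ≤ X := (le_max_right _ _).trans hX
  have hlogA := h4 X hX4
  have hhits : c * Om δ X (T * K) ≤ (hits δ X b T K H : ℝ) := by
    refine (h1 X hX1 b hb).2.2 H ?_ hHinj
    intro g i
    unfold Bw BB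
    rw [mem_filter, mem_Icc]
    refine ⟨⟨hS1 _ (hHS g i), ?_⟩, hbS _ (hHS g i)⟩
    apply Nat.le_floor
    have : (H g i : ℝ) ≤ A0 := by exact_mod_cast hSA0 _ (hHS g i)
    linarith
  set hs : Finset ℕ := (SI X b).filter (fun n =>
    (∀ g i, rg (P1 (HH X) (JJ δ X)) (H g i) n = 1) ∧
    T ≤ 4 * ((univ : Finset (Fin T)).filter (fun g => ∃ i, (n + H g i).Prime)).card) with hhs
  have hhc : hs.card = hits δ X b T K H := by
    rw [hhs]; unfold hits; congr
  set Gf : Finset ℕ → Finset ℕ := fun S' => hs.filter (fun n => ∀ a ∈ S', (n + a).Prime) with hGf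
  have hcover : hs ⊆ (S.powersetCard k).biUnion Gf := by
    intro n hn
    rw [mem_biUnion]
    have hn2 := (mem_filter.1 hn).2.2
    have h5 : ((univ : Finset (Fin T)).filter (fun g => ∃ i, (n + H g i).Prime)).card ≤
        (S.filter (fun a => (n + a).Prime)).card := by
      set U := (univ : Finset (Fin T)).filter (fun g => ∃ i, (n + H g i).Prime) with hU
      have h6 : ∀ g ∈ U, ∃ i, (n + H g i).Prime := fun g hg => (mem_filter.1 hg).2
      have i0 : Fin K := ⟨0, hK⟩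
      set f : Fin T → ℕ := fun g => if h : ∃ i, (n + H g i).Prime then H g h.choose else 0 with hf
      apply card_le_card_of_injOn f
      · intro g hg
        rw [mem_coe] at hg
        have h7 := h6 g hg
        rw [mem_coe, mem_filter]
        simp only [hf, dif_pos h7]
        exact ⟨hHS _ _, h7.choose_spec⟩
      · intro g hg g' hg' hgg
        rw [mem_coe] at hg hg'
        have h7 := h6 g hg
        have h8 := h6 g' hg'
        simp only [hf, dif_pos h7, dif_pos h8] at hgg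
        have h9 := hHinj (a₁ := (g, h7.choose)) (a₂ := (g', h8.choose)) hgg
        exact congrArg Prod.fst h9
    have h6 : k ≤ (S.filter (fun a => (n + a).Prime)).card := by omega
    obtain ⟨S', hS', hc'⟩ := exists_subset_card_eq h6
    refine ⟨S', ?_, ?_⟩
    · rw [mem_powersetCard]
      exact ⟨hS'.trans (filter_subset _ _), hc'⟩
    · rw [hGf, mem_filter]
      exact ⟨hn, fun a ha => (mem_filter.1 (hS' ha)).2⟩
  have hsumG : (hs.card : ℝ) ≤ ∑ S' ∈ S.powersetCard k, ((Gf S').card : ℝ) := by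
    have h5 := (card_le_card hcover).trans card_biUnion_le
    exact_mod_cast h5
  obtain ⟨S', hS', hbig⟩ : ∃ S' ∈ S.powersetCard k, (hs.card : ℝ) / 2 ^ (T * K) ≤ ((Gf S').card : ℝ) := by
    by_contra hcon
    push Not at hcon
    have hne : (S.powersetCard k).Nonempty := by
      rw [powersetCard_nonempty, hS]
      exact hkr
    have h5 : ∑ S' ∈ S.powersetCard k, ((Gf S').card : ℝ) <
        ∑ S' ∈ S.powersetCard k, (hs.card : ℝ) / 2 ^ (T * K) := sum_lt_sum_of_nonempty hne hcon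
    rw [sum_const, nsmul_eq_mul, card_powersetCard, hS] at h5
    have h6 : ((T * K).choose k : ℝ) ≤ 2 ^ (T * K) := by
      exact_mod_cast Nat.choose_le_two_pow (T * K) k
    have h7 : ((T * K).choose k : ℝ) * ((hs.card : ℝ) / 2 ^ (T * K)) ≤ hs.card := by
      rw [mul_div_assoc', div_le_iff₀ (by positivity)]
      calc ((T * K).choose k : ℝ) * hs.card ≤ 2 ^ (T * K) * hs.card :=
            mul_le_mul_of_nonneg_right h6 (Nat.cast_nonneg _)
        _ = _ := mul_comm _ _
    linarith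
  rw [mem_powersetCard] at hS'
  refine ⟨S', hS'.1, hS'.2, Gf S', ?_, ?_, ?_, ?_⟩
  · intro n hn
    exact (mem_filter.1 (mem_filter.1 hn).1).1
  · intro y hy a ha p hp hpH hpJ hd
    obtain ⟨g, i, rfl⟩ := hHsurj a ha
    have h5 := (mem_filter.1 (mem_filter.1 hy).1).2.1 g i
    have h6 : ∀ q ∈ P1 (HH X) (JJ δ X), ¬ q ∣ y + H g i := by
      by_contra hcon
      unfold rg at h5
      rw [if_neg hcon] at h5
      exact zero_ne_one h5
    apply h6 p _ hd
    unfold P1
    rw [mem_filter, mem_range]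
    exact ⟨hpJ, hp, hpH⟩
  · intro y hy a ha
    exact (mem_filter.1 hy).2 a ha
  · rw [hS]
    refine le_trans ?_ hbig
    rw [hhc, div_mul_eq_mul_div]
    exact div_le_div_of_nonneg_right hhits (by positivity)

/-- the class modulo one prime -/
theorem class_p (S : Finset ℕ) (k2 : ℕ) (hS : S.card ≤ k2) (hdiv : ∀ a ∈ S, ∀ p : ℕ, p.Prime →
    p ≤ 2 * k2 + 2 → p ∣ a) (m : ℕ) (hm : Even m) (p : ℕ) (hp : p.Prime) :
    ∃ x : ℕ, x < p ∧ ∀ a ∈ S, ¬ p ∣ x + a ∧ ¬ x + a ≡ m [MOD p] := by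
  classical
  by_cases hsmall : p ≤ 2 * k2 + 2
  · -- small primes
    have key : ∀ x : ℕ, x < p → x ≠ 0 → x ≠ m % p → ∀ a ∈ S, ¬ p ∣ x + a ∧ ¬ x + a ≡ m [MOD p] := by
      intro x hx hx0 hxm a ha
      have hpa := hdiv a ha p hp hsmall
      constructor
      · intro hd
        have := (Nat.dvd_add_left hpa).1 hd
        exact hx0 (Nat.eq_zero_of_dvd_of_lt this hx)
      · intro hd
        have h1 : x + a ≡ x + 0 [MOD p] := Nat.ModEq.add_left x ((Nat.modEq_zero_iff_dvd).2 hpa)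
        have h2 : x ≡ m [MOD p] := by
          have h3 := h1.symm.trans hd
          simpa using h3
        unfold Nat.ModEq at h2
        rw [Nat.mod_eq_of_lt hx] at h2
        exact hxm h2
    rcases hp.eq_two_or_odd with h2 | hodd
    · subst h2
      refine ⟨1, by norm_num, key 1 (by norm_num) (by norm_num) ?_⟩
      have := Nat.even_iff.1 hm
      omega
    · have h3 : 3 ≤ p := by
        have := hp.two_le
        omega
      by_cases h1 : m % p = 1
      · exact ⟨2, by omega, key 2 (by omega) (by norm_num) (by omega)⟩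
      · exact ⟨1, by omega, key 1 (by omega) (by norm_num) (by omega)⟩
  · -- large primes
    push Not at hsmall
    have hp0 := hp.pos
    set B : Finset ℕ := S.image (fun a => (p - a % p) % p) ∪ S.image (fun a => (m + (p - a % p)) % p)
      with hB
    have hBc : B.card < p := by
      have h1 : B.card ≤ S.card + S.card :=
        (card_union_le _ _).trans (add_le_add card_image_le card_image_le)
      omega
    obtain ⟨x, hx, hxB⟩ : ∃ x ∈ range p, x ∉ B := by
      by_contra hcon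
      push Not at hcon
      have : range p ⊆ B := fun x hx => hcon x hx
      have := card_le_card this
      rw [card_range] at this
      omega
    rw [mem_range] at hx
    refine ⟨x, hx, fun a ha => ?_⟩
    have key : ∀ c : ℕ, x + a ≡ c [MOD p] → x = (c + (p - a % p)) % p := by
      intro c hc
      have h1 : a + (p - a % p) ≡ 0 [MOD p] := by
        rw [Nat.modEq_zero_iff_dvd]
        have h2 : a % p < p := Nat.mod_lt _ hp0
        have h3 : a + (p - a % p) = p + p * (a / p) := by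
          have := Nat.mod_add_div a p
          omega
        rw [h3]
        exact dvd_add dvd_rfl (dvd_mul_right _ _)
      have h2 : x + a + (p - a % p) ≡ c + (p - a % p) [MOD p] := Nat.ModEq.add_right _ hc
      have h3 : x + (a + (p - a % p)) ≡ x + 0 [MOD p] := Nat.ModEq.add_left x h1
      rw [← add_assoc, add_zero] at h3
      have h4 := h3.symm.trans h2
      unfold Nat.ModEq at h4
      rw [Nat.mod_eq_of_lt hx] at h4
      exact h4
    constructor
    · intro hd
      apply hxB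
      rw [hB, mem_union, mem_image]
      left
      refine ⟨a, ha, ?_⟩
      have := key 0 ((Nat.modEq_zero_iff_dvd).2 hd)
      rw [zero_add] at this
      exact this.symm
    · intro hd
      apply hxB
      rw [hB, mem_union, mem_image, mem_image]
      right
      exact ⟨a, ha, (key m hd).symm⟩

/-- the choice of the classes -/
theorem classes (S : Finset ℕ) (k2 : ℕ) (hS : S.card ≤ k2) (hdiv : ∀ a ∈ S, ∀ p : ℕ, p.Prime →
    p ≤ 2 * k2 + 2 → p ∣ a) (c0 : ℕ) (hc0 : ∀ a ∈ S, a < c0) (X u : ℕ) (hm : Even (u + c0)) :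
    ∃ b1 b2 : ℕ, b1 < Wm X ∧ b2 < Wm X ∧ b1 + b2 ≡ u [MOD Wm X] ∧
      (∀ a ∈ S, (b2 + a).Coprime (Wm X)) ∧ ∀ a ∈ S, (b1 + (c0 - a)).Coprime (Wm X) := by
  classical
  set P : Finset ℕ := (range (HH X + 1)).filter Nat.Prime with hP
  have hPp : ∀ p ∈ P, p.Prime := fun p hp => (mem_filter.1 hp).2
  have hW0 : 0 < Wm X := Wm_pos X
  have hWP : Wm X = ∏ p ∈ P, p := rfl
  choose f hf1 hf2 using fun p : {p : ℕ // p.Prime} => class_p S k2 hS hdiv (u + c0) hm p.1 p.2
  obtain ⟨r, hr⟩ := exists_rep P hPp (fun p => if h : p.Prime then f ⟨p, h⟩ else 0) (by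
    intro p hp
    have hpp := hPp p hp
    rw [dif_pos hpp]
    exact hf1 ⟨p, hpp⟩)
  set b2 := r % Wm X with hb2
  set b1 := (u + (Wm X - b2)) % Wm X with hb1
  have hb2lt : b2 < Wm X := Nat.mod_lt _ hW0
  have hsum : b1 + b2 ≡ u [MOD Wm X] := by
    have h1 : b1 ≡ u + (Wm X - b2) [MOD Wm X] := Nat.mod_modEq _ _
    have h2 : b1 + b2 ≡ u + (Wm X - b2) + b2 [MOD Wm X] := Nat.ModEq.add_right _ h1
    have h3 : u + (Wm X - b2) + b2 = u + Wm X := by omega
    rw [h3] at h2
    refine h2.trans ?_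
    have : u + Wm X ≡ u + 0 [MOD Wm X] := Nat.ModEq.add_left u (by simp [Nat.ModEq])
    simpa using this
  have hbp : ∀ p ∈ P, ∀ a ∈ S, ¬ p ∣ b2 + a ∧ ¬ b2 + a ≡ u + c0 [MOD p] := by
    intro p hp a ha
    have hpp := hPp p hp
    have hpW : p ∣ Wm X := by rw [hWP]; exact dvd_prod_of_mem _ hp
    have h1 := hr p hp
    rw [dif_pos hpp] at h1
    have h2 := hf2 ⟨p, hpp⟩ a ha
    have h3 : b2 ≡ f ⟨p, hpp⟩ [MOD p] := by
      have h4 : b2 ≡ r [MOD p] := (Nat.mod_modEq r (Wm X)).of_dvd hpW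
      refine h4.trans ?_
      unfold Nat.ModEq
      rw [h1, Nat.mod_eq_of_lt (hf1 ⟨p, hpp⟩)]
    have h4 : b2 + a ≡ f ⟨p, hpp⟩ + a [MOD p] := Nat.ModEq.add_right _ h3
    constructor
    · intro hd
      exact h2.1 ((Nat.ModEq.dvd_iff h4 dvd_rfl).1 hd)
    · intro hd
      exact h2.2 (h4.symm.trans hd)
  have hcop : ∀ x : ℕ, (∀ p ∈ P, ¬ p ∣ x) → x.Coprime (Wm X) := by
    intro x hx
    rw [hWP]
    apply Nat.Coprime.prod_right
    intro p hp
    rw [Nat.coprime_comm]
    exact ((hPp p hp).coprime_iff_not_dvd).2 (hx p hp)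
  refine ⟨b1, b2, Nat.mod_lt _ hW0, hb2lt, hsum, ?_, ?_⟩
  · intro a ha
    exact hcop _ fun p hp => (hbp p hp a ha).1
  · intro a ha
    apply hcop
    intro p hp hd
    have hpW : p ∣ Wm X := by rw [hWP]; exact dvd_prod_of_mem _ hp
    apply (hbp p hp a ha).2
    have h1 : b1 + (c0 - a) ≡ 0 [MOD p] := (Nat.modEq_zero_iff_dvd).2 hd
    have h2 : b1 + b2 ≡ u [MOD p] := hsum.of_dvd hpW
    have h3 : b1 + b2 + c0 ≡ u + c0 [MOD p] := Nat.ModEq.add_right _ h2
    have h4 : b1 + b2 + c0 = (b1 + (c0 - a)) + (b2 + a) := by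
      have := hc0 a ha
      omega
    rw [h4] at h3
    have h5 : (b1 + (c0 - a)) + (b2 + a) ≡ 0 + (b2 + a) [MOD p] := Nat.ModEq.add_right _ h1
    rw [zero_add] at h5
    exact h5.symm.trans h3

end Pool.Agent.T2H22.AA
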