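import Pool.Agent.T2H22.AA.Defs
import Pool.Agent.H398R2.BV1

/-!
Package C of project AA (helper22), part 1: divisor sums and residue classes (helper68).
-/

set_option autoImplicit false

namespace Pool.Agent.T2H22.AA.MF

open Finset
open Pool.Agent.H373R2.T7 Pool.Agent.H807R2.Dav

/-- the divisor function -/
noncomputable def tau (n : ℕ) : ℝ := (n.divisors.card : ℝ)

lemma tau_nonneg (n : ℕ) : 0 ≤ tau n := Nat.cast_nonneg _

lemma tau_one_le {n : ℕ} (hn : 1 ≤ n) : 1 ≤ tau n := by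
  unfold tau
  have : 0 < n.divisors.card := card_pos.2 ⟨1, Nat.one_mem_divisors.2 (by omega)⟩
  exact_mod_cast this

lemma one_add_log_nonneg (T : ℕ) : 1 ≤ 1 + Real.log T := by
  have := Real.log_natCast_nonneg T
  linarith

/-- divisor sums -/
theorem dsum (k T : ℕ) : ∑ t ∈ Icc 1 T, tau t ^ k / t ≤ (1 + Real.log T) ^ (2 ^ k) := by
  induction k with
  | zero =>
    simp only [pow_zero, pow_one]
    have h2 : ∑ n ∈ Icc 1 T, 1 / (n : ℝ) = ((harmonic T : ℚ) : ℝ) := by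
      rw [harmonic_eq_sum_Icc]
      push_cast
      simp
    rw [h2]
    exact harmonic_le_one_add_log T
  | succ k ih =>
    have h0 : ∀ t : ℕ, 0 ≤ tau t ^ k / t := fun t => by
      have := tau_nonneg t
      positivity
    have hS : 0 ≤ ∑ t ∈ Icc 1 T, tau t ^ k / t := sum_nonneg fun t _ => h0 t
    calc ∑ t ∈ Icc 1 T, tau t ^ (k + 1) / t
        ≤ ∑ t ∈ Icc 1 T, ∑ i ∈ t.divisorsAntidiagonal,
            (tau i.1 ^ k / (i.1 : ℝ)) * (tau i.2 ^ k / (i.2 : ℝ)) := by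
          apply sum_le_sum
          intro t ht
          rw [mem_Icc] at ht
          have e : tau t ^ (k + 1) / t = ∑ i ∈ t.divisorsAntidiagonal, tau t ^ k / t := by
            rw [sum_const, nsmul_eq_mul, ← Nat.map_div_right_divisors, card_map, pow_succ]
            unfold tau
            ring
          rw [e]
          apply sum_le_sum
          intro i hi
          rw [Nat.mem_divisorsAntidiagonal] at hi
          rw [div_mul_div_comm, ← mul_pow, ← Nat.cast_mul, hi.1]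
          apply div_le_div_of_nonneg_right _ (Nat.cast_nonneg _)
          apply pow_le_pow_left₀ (tau_nonneg _)
          unfold tau
          rw [← hi.1]
          exact_mod_cast Pool.Agent.H398R2.BV.card_div_mul_le i.1 i.2
      _ = ∑ c ∈ Icc 1 T, ∑ b ∈ Icc 1 (T / c),
            (tau b ^ k / (b : ℝ)) * (tau c ^ k / (c : ℝ)) :=
          Pool.Agent.H398R2.BV.hyperC T
            (fun b c => (tau b ^ k / (b : ℝ)) * (tau c ^ k / (c : ℝ)))
      _ ≤ ∑ c ∈ Icc 1 T, (∑ b ∈ Icc 1 T, tau b ^ k / (b : ℝ)) * (tau c ^ k / (c : ℝ)) := by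
          apply sum_le_sum
          intro c _
          rw [← sum_mul]
          apply mul_le_mul_of_nonneg_right _ (h0 c)
          apply sum_le_sum_of_subset_of_nonneg
          · exact Icc_subset_Icc_right (Nat.div_le_self _ _)
          · intro b _ _
            exact h0 b
      _ = (∑ t ∈ Icc 1 T, tau t ^ k / (t : ℝ)) ^ 2 := by
          rw [← mul_sum, sq]
      _ ≤ ((1 + Real.log T) ^ (2 ^ k)) ^ 2 := by gcongr
      _ = _ := by rw [← pow_mul, ← pow_succ]

/-- `1/φ(m) ≤ τ(m)/m` -/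
lemma inv_phi {m : ℕ} (hm : 1 ≤ m) : 1 / (Nat.totient m : ℝ) ≤ tau m / m := by
  have hφ : 0 < Nat.totient m := Nat.totient_pos.2 hm
  have h1 : m ≤ m.divisors.card * Nat.totient m := by
    calc m = ∑ d ∈ m.divisors, Nat.totient d := (Nat.sum_totient m).symm
      _ ≤ ∑ _d ∈ m.divisors, Nat.totient m := by
          apply sum_le_sum
          intro d hd
          exact Nat.le_of_dvd hφ (Nat.totient_dvd_of_dvd (Nat.dvd_of_mem_divisors hd))
      _ = _ := by rw [sum_const, smul_eq_mul]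
  have h2 : (m : ℝ) ≤ tau m * (Nat.totient m : ℝ) := by
    unfold tau
    exact_mod_cast h1
  have hm0 : (0 : ℝ) < m := by exact_mod_cast hm
  have hφ0 : (0 : ℝ) < (Nat.totient m : ℝ) := by exact_mod_cast hφ
  rw [div_le_div_iff₀ hφ0 hm0]
  linarith

/-- the sum of `1/φ` -/
lemma sum_inv_phi (T : ℕ) : ∑ m ∈ Icc 1 T, 1 / (Nat.totient m : ℝ) ≤ (1 + Real.log T) ^ 2 := by
  have h := dsum 1 T
  simp only [pow_one] at h
  refine le_trans (sum_le_sum fun m hm => ?_) h
  exact inv_phi (mem_Icc.1 hm).1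

/-- sums over `d` with weights -/
lemma dsum_le {T N : ℕ} (hT : T ≤ N) (hN : 1 ≤ Real.log N) (k : ℕ) :
    ∑ t ∈ Icc 1 T, tau t ^ k / t ≤ (2 * Real.log N) ^ (2 ^ k) := by
  refine (dsum k T).trans ?_
  have h1 : Real.log T ≤ Real.log N := by
    rcases Nat.eq_zero_or_pos T with h | h
    · rw [h]; simp; linarith
    · exact Real.log_le_log (by exact_mod_cast h) (by exact_mod_cast hT)
  have h2 := one_add_log_nonneg T
  apply pow_le_pow_left₀ (by linarith)
  linarith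

lemma dsum_le' {T N : ℕ} (hT : T ≤ N) (hN : 1 ≤ Real.log N) (k : ℕ) :
    ∑ t ∈ Icc 1 T, tau t ^ k ≤ T * (2 * Real.log N) ^ (2 ^ k) := by
  refine le_trans ?_ (mul_le_mul_of_nonneg_left (dsum_le hT hN k) (Nat.cast_nonneg T))
  rw [mul_sum]
  apply sum_le_sum
  intro t ht
  rw [mem_Icc] at ht
  have h1 : (1 : ℝ) ≤ t := by exact_mod_cast ht.1
  have h2 : (t : ℝ) ≤ T := by exact_mod_cast ht.2
  have h3 : 0 ≤ tau t ^ k := pow_nonneg (tau_nonneg _) _
  rw [mul_div_assoc', le_div_iff₀ (by linarith), mul_comm]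
  gcongr

/-- grouping -/
lemma group_le {ι : Type} (J : Finset ι) (M : ι → ℕ) (g : ι → ℝ) (κ T : ℕ) (h : ℕ → ℝ)
    (hh : ∀ d, 0 ≤ h d) (hM : ∀ j ∈ J, 1 ≤ M j ∧ M j ≤ T)
    (hg : ∀ d : ℕ, ∑ j ∈ J.filter (fun j => M j = d), |g j| ≤ (d.divisors.card : ℝ) ^ κ) :
    ∑ j ∈ J, |g j| * h (M j) ≤ ∑ d ∈ Icc 1 T, tau d ^ κ * h d := by
  rw [← sum_fiberwise_of_maps_to (s := J) (t := Icc 1 T) (g := M)
    (fun j hj => mem_Icc.2 (hM j hj)) (fun j => |g j| * h (M j))]
  apply sum_le_sum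
  intro d _
  have e : ∑ j ∈ J with M j = d, |g j| * h (M j) = (∑ j ∈ J with M j = d, |g j|) * h d := by
    rw [sum_mul]
    apply sum_congr rfl
    intro j hj
    rw [(mem_filter.1 hj).2]
  rw [e]
  exact mul_le_mul_of_nonneg_right (hg d) (hh d)

/-- the fibres of `d ↦ lcm(q, d)` -/
lemma sum_lcm_le {q T : ℕ} (hq : 1 ≤ q) (h : ℕ → ℝ) (hh : ∀ m, 0 ≤ h m) :
    ∑ d ∈ Icc 1 T, h (Nat.lcm q d) ≤ q * ∑ m ∈ Icc 1 (q * T), h m := by
  rw [← sum_fiberwise_of_maps_to (s := Icc 1 T) (t := Icc 1 (q * T)) (g := fun d => Nat.lcm q d)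
    (fun d hd => ?_) (fun d => h (Nat.lcm q d)), mul_sum]
  · apply sum_le_sum
    intro m hm
    rw [mem_Icc] at hm
    have e : ∑ d ∈ Icc 1 T with Nat.lcm q d = m, h (Nat.lcm q d) =
        (((Icc 1 T).filter (fun d => Nat.lcm q d = m)).card : ℝ) * h m := by
      rw [← nsmul_eq_mul, ← sum_const]
      apply sum_congr rfl
      intro d hd
      rw [(mem_filter.1 hd).2]
    rw [e]
    apply mul_le_mul_of_nonneg_right _ (hh m)
    have hc : ((Icc 1 T).filter (fun d => Nat.lcm q d = m)).card ≤ (Icc 1 q).card := by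
      apply card_le_card_of_injOn (fun d => Nat.gcd q d)
      · intro d hd
        simp only [coe_filter, mem_Icc, Set.mem_ofPred_eq] at hd
        simp only [coe_Icc, Set.mem_Icc]
        exact ⟨Nat.gcd_pos_of_pos_left _ hq, Nat.le_of_dvd hq (Nat.gcd_dvd_left _ _)⟩
      · intro d hd d' hd' he
        simp only [coe_filter, mem_Icc, Set.mem_ofPred_eq] at hd hd'
        simp only at he
        have h1 := Nat.gcd_mul_lcm q d
        have h2 := Nat.gcd_mul_lcm q d'
        rw [hd.2, he] at h1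
        rw [hd'.2] at h2
        exact Nat.eq_of_mul_eq_mul_left hq (h1.symm.trans h2)
    rw [Nat.card_Icc, Nat.add_sub_cancel] at hc
    exact_mod_cast hc
  · rw [mem_Icc] at hd ⊢
    exact ⟨Nat.lcm_pos hq hd.1, (Nat.le_of_dvd (Nat.mul_pos hq hd.1) (Nat.lcm_dvd_mul q d)).trans
      (Nat.mul_le_mul_left _ hd.2)⟩

/-- two congruences -/
lemma two_cong (q M e c : ℕ) (y : ℕ) :
    (Icc 1 y).filter (fun n => n ≡ e [MOD q] ∧ n ≡ c [MOD M]) = ∅ ∨
    ∃ f : ℕ, f ≡ e [MOD q] ∧ f ≡ c [MOD M] ∧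
      (Icc 1 y).filter (fun n => n ≡ e [MOD q] ∧ n ≡ c [MOD M]) =
      (Icc 1 y).filter (fun n => n ≡ f [MOD (Nat.lcm q M)]) := by
  rcases eq_empty_or_nonempty ((Icc 1 y).filter (fun n => n ≡ e [MOD q] ∧ n ≡ c [MOD M])) with h | h
  · exact Or.inl h
  · right
    obtain ⟨f, hf⟩ := h
    rw [mem_filter] at hf
    refine ⟨f, hf.2.1, hf.2.2, ?_⟩
    apply filter_congr
    intro n _
    constructor
    · rintro ⟨h1, h2⟩
      have h3 := h1.trans hf.2.1.symm
      have h4 := h2.trans hf.2.2.symm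
      rw [Nat.modEq_iff_dvd] at h3 h4 ⊢
      exact_mod_cast Int.coe_lcm_dvd h3 h4
    · intro h1
      exact ⟨(h1.of_dvd (Nat.dvd_lcm_left q M)).trans hf.2.1,
        (h1.of_dvd (Nat.dvd_lcm_right q M)).trans hf.2.2⟩

lemma coprime_lcm {f q M : ℕ} (h1 : f.Coprime q) (h2 : f.Coprime M) : f.Coprime (Nat.lcm q M) :=
  (h1.mul_right h2).of_dvd_right (Nat.lcm_dvd_mul q M)

end Pool.Agent.T2H22.AA.MF
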