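import Pool.Agent.T2H22.AA.MF1
import Pool.Agent.H373R2.T7.LamMaj

/-!
Package C of project AA (helper22), part 2: the sieve model in progressions (helper68).
-/

set_option autoImplicit false

namespace Pool.Agent.T2H22.AA.MF

open Finset
open Pool.Agent.H373R2.T7 Pool.Agent.H807R2.Dav

lemma one_sub_prod (S : Finset ℕ) (x : ℕ → ℝ) (hx : ∀ p ∈ S, 0 ≤ x p ∧ x p ≤ 1) :
    0 ≤ 1 - ∏ p ∈ S, (1 - x p) ∧ 1 - ∏ p ∈ S, (1 - x p) ≤ ∑ p ∈ S, x p := by
  induction S using Finset.induction_on with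
  | empty => simp
  | insert a S ha ih =>
    obtain ⟨h1, h2⟩ := ih fun p hp => hx p (mem_insert_of_mem hp)
    obtain ⟨h3, h4⟩ := hx a (mem_insert_self _ _)
    rw [prod_insert ha, sum_insert ha]
    have h5 : 0 ≤ ∏ p ∈ S, (1 - x p) :=
      prod_nonneg fun p hp => by linarith [(hx p (mem_insert_of_mem hp)).2]
    constructor
    · nlinarith
    · nlinarith

lemma card_primeFactors_le {m : ℕ} (hm : 1 ≤ m) : (m.primeFactors.card : ℝ) ≤ 2 * Real.log m := by
  have h1 : 2 ^ m.primeFactors.card ≤ m := by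
    calc 2 ^ m.primeFactors.card = ∏ _p ∈ m.primeFactors, 2 := by rw [prod_const]
      _ ≤ ∏ p ∈ m.primeFactors, p :=
          prod_le_prod' fun p hp => (Nat.prime_of_mem_primeFactors hp).two_le
      _ ≤ m := Nat.le_of_dvd hm (Nat.prod_primeFactors_dvd m)
  have h2 : m.primeFactors.card ≤ Nat.log 2 m := Nat.le_log_of_pow_le (by norm_num) h1
  have h3 := natlog_le m hm
  have h4 : (m.primeFactors.card : ℝ) ≤ (Nat.log 2 m : ℝ) := by exact_mod_cast h2
  linarith

/-- the numbers free of small primes in a progression, without a condition on the modulus -/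
lemma rough_ap' (z q c y r : ℕ) (hq : 1 ≤ q) (hc : c.Coprime q) :
    |(((Icc 1 y).filter (fun n => n ≡ c [MOD q])).filter (fun n => ∀ p ∈ pz z, ¬ p ∣ n)).card -
      (y : ℝ) / q * ∏ p ∈ (pz z).filter (fun p => ¬ p ∣ q), (1 - 1 / (p : ℝ))| ≤
      ((z : ℝ) + 1) ^ r + 2 * (y / q) * Real.exp (3 * (1 + Real.log z) - r) := by
  set T := (pz z).filter (fun p => ¬ p ∣ q) with hT
  have hq0 : (0 : ℝ) < q := by exact_mod_cast hq
  have hTz : T ⊆ pz z := filter_subset _ _
  have e1 : ((Icc 1 y).filter (fun n => n ≡ c [MOD q])).filter (fun n => ∀ p ∈ pz z, ¬ p ∣ n) =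
      ((Icc 1 y).filter (fun n => n ≡ c [MOD q])).filter (fun n => ∀ p ∈ T, ¬ p ∣ n) := by
    apply filter_congr
    intro n hn
    rw [mem_filter] at hn
    constructor
    · intro h p hp
      exact h p (hTz hp)
    · intro h p hp hpn
      by_cases hpq : p ∣ q
      · have h1 : p ∣ c := (hn.2.dvd_iff hpq).1 hpn
        have h2 := Nat.dvd_gcd h1 hpq
        rw [hc] at h2
        exact (mem_pz.1 hp).2.one_lt.ne' (Nat.dvd_one.1 h2)
      · exact h p (mem_filter.2 ⟨hp, hpq⟩) hpn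
  rw [e1]
  have key := sieve_gen' ((Icc 1 y).filter (fun n => n ≡ c [MOD q])) (fun _ => (1 : ℝ))
    (fun _ _ => zero_le_one)
    (fun p n => p ∣ n) T (fun p => 1 / (p : ℝ)) (fun p hp => by
      have hp2 : (2 : ℝ) ≤ p := by exact_mod_cast (mem_pz.1 (hTz hp)).2.two_le
      constructor
      · positivity
      · rw [div_le_one (by linarith)]; linarith) ((y : ℝ) / q) (by positivity) (fun _ => 1) r (by
      intro S hS _
      have hSp : ∀ p ∈ S, p.Prime := fun p hp => (mem_pz.1 (hTz (hS hp))).2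
      have h := count_sys (fun _ a => a = 0) y S hSp q hq (fun p hp => (mem_filter.1 (hS hp)).2) c
      have h1 : ∀ p ∈ S, (((range p).filter (fun a => a = 0)).card : ℝ) = 1 := by
        intro p hp
        have : (range p).filter (fun a => a = 0) = {0} := by
          ext a
          rw [mem_filter, mem_range, mem_singleton]
          constructor
          · rintro ⟨_, h⟩; exact h
          · rintro rfl; exact ⟨(hSp p hp).pos, rfl⟩
        rw [this]; simp
      have h2 : ∏ p ∈ S, ((((range p).filter (fun a => a = 0)).card : ℝ) / p) =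
          ∏ p ∈ S, (1 / (p : ℝ)) :=
        prod_congr rfl fun p hp => by rw [h1 p hp]
      rw [h2, prod_congr rfl h1, prod_const_one] at h
      have h3 : ∑ i ∈ ((Icc 1 y).filter (fun n => n ≡ c [MOD q])) with ∀ p ∈ S, p ∣ i, (1 : ℝ) =
          (((Icc 1 y).filter (fun n => n ≡ c [MOD q] ∧ ∀ p ∈ S, n % p = 0)).card : ℝ) := by
        rw [sum_const, nsmul_eq_mul, mul_one, filter_filter]
        congr 2
        apply filter_congr
        intro n _
        simp only [Nat.dvd_iff_mod_eq_zero]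
      rw [h3]
      exact h)
  have e2 : ∑ i ∈ ((Icc 1 y).filter (fun n => n ≡ c [MOD q])) with ∀ p ∈ T, ¬ p ∣ i, (1 : ℝ) =
      ((((Icc 1 y).filter (fun n => n ≡ c [MOD q])).filter (fun n => ∀ p ∈ T, ¬ p ∣ n)).card : ℝ) := by
    rw [sum_const, nsmul_eq_mul, mul_one]
  rw [e2] at key
  refine key.trans ?_
  have h4 : ∑ j ∈ range (r + 1), ∑ S ∈ T.powersetCard j, (1 : ℝ) ≤ ((z : ℝ) + 1) ^ r := by
    have h5 := card_small T r
    have h6 : ∑ j ∈ range (r + 1), ∑ S ∈ T.powersetCard j, (1 : ℝ) =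
        ((∑ j ∈ range (r + 1), (T.powersetCard j).card : ℕ) : ℝ) := by
      push_cast
      apply sum_congr rfl
      intro j _
      rw [sum_const, nsmul_eq_mul, mul_one]
    rw [h6]
    refine h5.trans ?_
    have h7 : (T.card : ℝ) ≤ z := by exact_mod_cast (card_le_card hTz).trans (card_pz_le z)
    gcongr
  have h5 : es (fun p => 1 / (p : ℝ)) T r ≤ Real.exp (3 * (1 + Real.log z) - r) := by
    refine (es_le (fun p _ => by positivity) r).trans ?_
    apply Real.exp_le_exp.2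
    have h6 : ∑ p ∈ T, 1 / (p : ℝ) ≤ ∑ p ∈ pz z, 1 / (p : ℝ) :=
      sum_le_sum_of_subset_of_nonneg hTz (fun _ _ _ => by positivity)
    have := sum_pz_le z
    linarith
  have h7 : 2 * ((y : ℝ) / q) * es (fun p => 1 / (p : ℝ)) T r ≤
      2 * (y / q) * Real.exp (3 * (1 + Real.log z) - r) := by
    gcongr
  linarith

/-- the main term -/
lemma main_term (z q : ℕ) (hq : 1 ≤ q) (y : ℝ) :
    y / q * ∏ p ∈ (pz z).filter (fun p => ¬ p ∣ q), (1 - 1 / (p : ℝ)) =
      Vz z * (y / (Nat.totient q : ℝ) *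
        ∏ p ∈ q.primeFactors.filter (fun p => ¬ p ≤ z), (1 - 1 / (p : ℝ))) := by
  have hq0 : (0 : ℝ) < q := by exact_mod_cast hq
  have h1 : ((Nat.totient q : ℕ) : ℝ) = q * ∏ p ∈ q.primeFactors, (1 - 1 / (p : ℝ)) := by
    have := Nat.totient_eq_mul_prod_factors q
    have h2 : (((Nat.totient q : ℕ) : ℚ) : ℝ) =
        ((q * ∏ p ∈ q.primeFactors, (1 - (p : ℚ)⁻¹) : ℚ) : ℝ) := by rw [this]
    push_cast at h2
    simp only [one_div]
    exact h2
  have h1' : ∏ p ∈ q.primeFactors, (1 - 1 / (p : ℝ)) =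
      (∏ p ∈ q.primeFactors.filter (fun p => p ≤ z), (1 - 1 / (p : ℝ))) *
      ∏ p ∈ q.primeFactors.filter (fun p => ¬ p ≤ z), (1 - 1 / (p : ℝ)) :=
    (prod_filter_mul_prod_filter_not _ _ _).symm
  have h2 : Vz z = (∏ p ∈ q.primeFactors.filter (fun p => p ≤ z), (1 - 1 / (p : ℝ))) *
      ∏ p ∈ (pz z).filter (fun p => ¬ p ∣ q), (1 - 1 / (p : ℝ)) := by
    unfold Vz
    have h3 : q.primeFactors.filter (fun p => p ≤ z) = (pz z).filter (fun p => p ∣ q) := by
      ext p
      rw [mem_filter, Nat.mem_primeFactors, mem_filter, mem_pz]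
      constructor
      · rintro ⟨⟨h1, h2, h3⟩, h4⟩
        exact ⟨⟨h4, h1⟩, h2⟩
      · rintro ⟨⟨h1, h2⟩, h3⟩
        exact ⟨⟨h2, h3, by omega⟩, h1⟩
    rw [h3, prod_filter_mul_prod_filter_not]
  have hpos : ∀ S ⊆ q.primeFactors, (0 : ℝ) < ∏ p ∈ S, (1 - 1 / (p : ℝ)) := by
    intro S hS
    apply prod_pos
    intro p hp
    have : (2 : ℝ) ≤ p := by exact_mod_cast (Nat.prime_of_mem_primeFactors (hS hp)).two_le
    rw [sub_pos, div_lt_one (by linarith)]
    linarith
  have p1 := hpos _ (filter_subset (fun p => p ≤ z) q.primeFactors)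
  have p2 := hpos _ (filter_subset (fun p => ¬ p ≤ z) q.primeFactors)
  rw [h1, h1', h2]
  field_simp

/-- the sieve model in a reduced class -/
theorem lamz_cls (E A : ℕ) : ∃ N0 : ℕ, ∀ N : ℕ, N0 ≤ N → ∀ z : ℕ, 1 ≤ z →
    (z : ℝ) ≤ Real.log N ^ E → ∀ m : ℕ, 1 ≤ m → m ≤ N → ∀ f y : ℕ, f.Coprime m → y ≤ N →
    |∑ n ∈ (Icc 1 y).filter (fun n => n ≡ f [MOD m]), lamz z n - (y : ℝ) / (Nat.totient m : ℝ)| ≤
      N / (Nat.totient m : ℝ) * (2 * Real.log N / z) + √N + N / m * (1 / Real.log N ^ A) := by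
  obtain ⟨N0, h0⟩ := choice 1 E (A + E + 1) 4
  obtain ⟨n1, h1⟩ := ev_log' (2 * E) 1
  obtain ⟨n2, h2⟩ := ev_L' 2
  refine ⟨max (max N0 n1) (max n2 1), fun N hN z hz hzE m hm hmN f y hf hy => ?_⟩
  have a0 := h0 N (le_trans (le_trans (le_max_left _ _) (le_max_left _ _)) hN) z hzE
  have a1 := h1 N (le_trans (le_trans (le_max_right _ _) (le_max_left _ _)) hN)
  have hL := h2 N (le_trans (le_trans (le_max_left _ _) (le_max_right _ _)) hN)
  have hN1 : 1 ≤ N := le_trans (le_trans (le_max_right _ _) (le_max_right _ _)) hN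
  have hNr : (1 : ℝ) ≤ N := by exact_mod_cast hN1
  have hN0' : (0 : ℝ) < N := by linarith
  set L := Real.log N with hLd
  have hL0 : 0 < L := by linarith
  have hVinv := Vz_inv_le z hz
  have hV0 : 0 < (Vz z)⁻¹ := inv_pos.2 (Vz_pos z)
  have hz0 : (0 : ℝ) < z := by exact_mod_cast hz
  have hm0 : (0 : ℝ) < m := by exact_mod_cast hm
  have hφ0 : (0 : ℝ) < (Nat.totient m : ℝ) := by exact_mod_cast Nat.totient_pos.2 hm
  have hyr : (y : ℝ) ≤ N := by exact_mod_cast hy
  obtain ⟨r, hr1, hr2, _⟩ := a0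
  have h3 := rough_ap' z m f y r hm hf
  rw [main_term z m hm] at h3
  set C : ℝ := ((((Icc 1 y).filter (fun n => n ≡ f [MOD m])).filter
    (fun n => ∀ p ∈ pz z, ¬ p ∣ n)).card : ℝ) with hC
  set P : ℝ := ∏ p ∈ m.primeFactors.filter (fun p => ¬ p ≤ z), (1 - 1 / (p : ℝ)) with hP
  have h4 : ∑ n ∈ (Icc 1 y).filter (fun n => n ≡ f [MOD m]), lamz z n = (Vz z)⁻¹ * C := by
    unfold lamz
    rw [← sum_filter, sum_const, nsmul_eq_mul, mul_comm]
  rw [h4]
  have h5 : (Vz z)⁻¹ * C - (y : ℝ) / (Nat.totient m : ℝ) =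
      (Vz z)⁻¹ * (C - Vz z * (y / (Nat.totient m : ℝ) * P)) -
        (y : ℝ) / (Nat.totient m : ℝ) * (1 - P) := by
    have := (Vz_pos z).ne'
    field_simp
    ring
  rw [h5]
  -- the missing primes
  have hPb := one_sub_prod (m.primeFactors.filter (fun p => ¬ p ≤ z)) (fun p => 1 / (p : ℝ))
    (fun p hp => by
      have : (2 : ℝ) ≤ p := by
        exact_mod_cast (Nat.prime_of_mem_primeFactors (mem_filter.1 hp).1).two_le
      constructor
      · positivity
      · rw [div_le_one (by linarith)]; linarith)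
  rw [← hP] at hPb
  have hP2 : 1 - P ≤ 2 * L / z := by
    refine hPb.2.trans ?_
    calc ∑ p ∈ m.primeFactors.filter (fun p => ¬ p ≤ z), 1 / (p : ℝ)
        ≤ ∑ _p ∈ m.primeFactors.filter (fun p => ¬ p ≤ z), 1 / (z : ℝ) := by
          apply sum_le_sum
          intro p hp
          have hpz : z < p := not_le.1 (mem_filter.1 hp).2
          apply one_div_le_one_div_of_le hz0
          exact_mod_cast hpz.le
      _ = ((m.primeFactors.filter (fun p => ¬ p ≤ z)).card : ℝ) * (1 / z) := by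
          rw [sum_const, nsmul_eq_mul]
      _ ≤ (2 * L) * (1 / z) := by
          apply mul_le_mul_of_nonneg_right _ (by positivity)
          have k1 : ((m.primeFactors.filter (fun p => ¬ p ≤ z)).card : ℝ) ≤
              (m.primeFactors.card : ℝ) := by exact_mod_cast card_le_card (filter_subset _ _)
          have k2 := card_primeFactors_le hm
          have k3 : Real.log m ≤ L := Real.log_le_log hm0 (by exact_mod_cast hmN)
          linarith
      _ = _ := by ring
  have t1 : |(y : ℝ) / (Nat.totient m : ℝ) * (1 - P)| ≤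
      N / (Nat.totient m : ℝ) * (2 * L / z) := by
    rw [abs_mul, abs_of_nonneg hPb.1, abs_of_nonneg (by positivity)]
    gcongr
    exact hPb.1
  have t2 : |(Vz z)⁻¹ * (C - Vz z * (y / (Nat.totient m : ℝ) * P))| ≤
      √N + N / m * (1 / L ^ A) := by
    rw [abs_mul, abs_of_pos hV0]
    have h7 : Real.exp (3 * (1 + Real.log z) - r) ≤ 1 / L ^ (A + E + 1) := by
      refine le_trans (le_of_eq ?_) hr1
      push_cast
      ring_nf
    have k1 : (Vz z)⁻¹ * ((z : ℝ) + 1) ^ r ≤ √N := by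
      apply Real.le_sqrt_of_sq_le
      have k2 : (((z : ℝ) + 1) ^ r) ^ 2 ≤ √N := by
        apply Real.le_sqrt_of_sq_le
        rw [← pow_mul]
        exact_mod_cast hr2
      have k3 : ((Vz z)⁻¹) ^ 2 ≤ √N := by
        calc ((Vz z)⁻¹) ^ 2 ≤ (L ^ E) ^ 2 := by
              apply pow_le_pow_left₀ hV0.le (hVinv.trans hzE)
          _ = 1 * L ^ (2 * E) := by rw [← pow_mul, one_mul, mul_comm]
          _ ≤ √N := a1
      calc ((Vz z)⁻¹ * ((z : ℝ) + 1) ^ r) ^ 2 = ((Vz z)⁻¹) ^ 2 * (((z : ℝ) + 1) ^ r) ^ 2 := by ring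
        _ ≤ √N * √N := by gcongr
        _ = N := Real.mul_self_sqrt hN0'.le
    have k4 : (Vz z)⁻¹ * (2 * (y / m) * Real.exp (3 * (1 + Real.log z) - r)) ≤
        N / m * (1 / L ^ A) := by
      calc (Vz z)⁻¹ * (2 * (y / m) * Real.exp (3 * (1 + Real.log z) - r))
          ≤ L ^ E * (2 * (N / m) * (1 / L ^ (A + E + 1))) := by
            have := hVinv.trans hzE
            gcongr
        _ = 2 / L * (N / m * (1 / L ^ A)) := by
            field_simp
            ring
        _ ≤ 1 * (N / m * (1 / L ^ A)) := by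
            apply mul_le_mul_of_nonneg_right _ (by positivity)
            rw [div_le_one hL0]
            exact hL
        _ = _ := one_mul _
    calc (Vz z)⁻¹ * |C - Vz z * (y / (Nat.totient m : ℝ) * P)|
        ≤ (Vz z)⁻¹ * (((z : ℝ) + 1) ^ r + 2 * (y / m) * Real.exp (3 * (1 + Real.log z) - r)) :=
          mul_le_mul_of_nonneg_left h3 hV0.le
      _ = (Vz z)⁻¹ * ((z : ℝ) + 1) ^ r +
          (Vz z)⁻¹ * (2 * (y / m) * Real.exp (3 * (1 + Real.log z) - r)) := by ring
      _ ≤ _ := add_le_add k1 k4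
  refine (abs_sub _ _).trans ?_
  linarith

end Pool.Agent.T2H22.AA.MF
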