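import Pool.Agent.T2H22.AA.MinL2

/-!
Project AA, part A: minor arcs for the von Mangoldt function with congruence weights.
-/

set_option autoImplicit false

namespace Pool.Agent.T2H22.AA

open Finset
open Pool.Agent.H373R2.T7 Pool.Agent.H807R2.Dav

/-- an eighth root which beats powers of the logarithm -/
lemma ev_root8 (k : ℕ) (c : ℝ) (hc : 0 ≤ c) : ∃ x0 : ℕ, ∀ x : ℕ, x0 ≤ x →
    c * Real.log x ^ k ≤ (Nat.sqrt (Nat.sqrt (Nat.sqrt x)) : ℝ) := by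
  obtain ⟨x0, h0⟩ := ev_root (2 * k) ((c + 3) ^ 2) (by positivity)
  obtain ⟨x1, h1⟩ := ev_L' 1
  refine ⟨max x0 x1, fun x hx => ?_⟩
  have hL := h1 x ((le_max_right _ _).trans hx)
  have hA := h0 x ((le_max_left _ _).trans hx)
  set W := Nat.sqrt (Nat.sqrt x) with hW
  set V := Nat.sqrt W with hV
  have h2 : W < (V + 1) * (V + 1) := Nat.lt_succ_sqrt W
  have h3 : (W : ℝ) ≤ ((V : ℝ) + 1) ^ 2 := by
    have : (W : ℝ) ≤ (((V + 1) * (V + 1) : ℕ) : ℝ) := by exact_mod_cast h2.le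
    push_cast at this
    calc (W : ℝ) ≤ _ := this
      _ = _ := by ring
  have h7 : ((c + 3) * Real.log x ^ k) ^ 2 ≤ ((V : ℝ) + 1) ^ 2 := by
    calc ((c + 3) * Real.log x ^ k) ^ 2 = (c + 3) ^ 2 * Real.log x ^ (2 * k) := by
          rw [mul_pow, ← pow_mul]; ring_nf
      _ ≤ _ := hA.trans h3
  have h8 : (c + 3) * Real.log x ^ k ≤ (V : ℝ) + 1 :=
    le_of_pow_le_pow_left₀ (by norm_num) (by positivity) h7
  have h9 : 1 ≤ Real.log x ^ k := one_le_pow₀ hL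
  nlinarith

section

variable {ι : Type} {J : Finset ι} {M c : ι → ℕ} {g : ι → ℝ} {κ R : ℕ}

/-- one dyadic block -/
theorem block_F (hJ : ∀ j ∈ J, 1 ≤ M j ∧ M j ≤ R ∧ (c j).Coprime (M j))
    (hg : ∀ d : ℕ, ∑ j ∈ J.filter (fun j => M j = d), |g j| ≤ (d.divisors.card : ℝ) ^ κ)
    (α : ℝ) (P P' V : ℕ) (hP : 1 ≤ P) (hPP' : P ≤ P') (hP' : P' ≤ 2 * P)
    (hR : 2 ≤ R) (hV : V = R * R * R) (hVP : V * V * R ≤ P) (W₁ W₂ : ℝ) (hW₂0 : 0 ≤ W₂)
    (hW₁ : ∑ t ∈ Icc 1 (V * V * R), (t.divisors.card : ℝ) ^ (κ + 1) * KK (2 * ((2 * P : ℕ) : ℝ) / t) (t * α) ≤ W₁)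
    (hW₂ : ∀ L : ℕ, 1 ≤ L → L * (R * R) * R ≤ 4 * P →
      ∑ t ∈ Icc 1 (L * (R * R)), (t.divisors.card : ℝ) ^ (2 * κ + 3) * KK (2 * ((2 * P : ℕ) : ℝ) / t) (t * α) ≤ W₂) :
    ‖∑ n ∈ Ioc P P', ((ArithmeticFunction.vonMangoldt n : ℝ) : ℂ) *
        (((FF J M c g n : ℝ) : ℂ) * ee ((n : ℝ) * α))‖ ≤
      8 * (1 + Real.log (4 * P)) ^ 5 * √(2 * P * (24 * (P / V) * (1 + Real.log ((R * R : ℕ) : ℝ)) ^ (2 ^ (2 * κ + 2)) + 2 * W₂)) +
      3 * (1 + Real.log (4 * P)) * W₁ := by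
  have hR1 : 1 ≤ R := by omega
  have hP0 : (1 : ℝ) ≤ P := by exact_mod_cast hP
  have hV1 : 1 ≤ V := by rw [hV]; exact Nat.mul_pos (Nat.mul_pos hR1 hR1) hR1
  have hV0 : (0 : ℝ) < V := by exact_mod_cast hV1
  have hVV : V * V ≤ P := (Nat.le_mul_of_pos_right _ hR1).trans hVP
  have hlog4 : 0 ≤ Real.log (4 * (P : ℝ)) := Real.log_nonneg (by linarith)
  have hX0 : 0 ≤ Real.log ((R * R : ℕ) : ℝ) := Real.log_natCast_nonneg _
  set X := (1 + Real.log ((R * R : ℕ) : ℝ)) ^ (2 ^ (2 * κ + 2)) with hX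
  have hXn : 0 ≤ X := by positivity
  have key := vaughan_gen (fun n => ((FF J M c g n : ℝ) : ℂ) * ee ((n : ℝ) * α)) P P' V hP hPP' hP' hV1 hVV
    (fun m => ∑ d ∈ Icc 1 R, (d.divisors.card : ℝ) ^ κ * KK (2 * ((2 * P : ℕ) : ℝ) / ((m * d : ℕ) : ℝ)) (((m * d : ℕ) : ℝ) * α))
    (√(2 * P * (24 * (P / V) * X + 2 * W₂))) (Real.sqrt_nonneg _)
    (fun m => sum_nonneg fun d _ => mul_nonneg (by positivity) (KK_nonneg (by positivity) _)) (by
      intro m hm b hb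
      rw [mem_Icc] at hm
      exact typeI_F hJ hg P P' m b hm.1 ((Nat.mul_le_mul_right R hm.2).trans hVP) hP' hb α) (by
      intro a b A₂ B₂ hA0 hB0 A L hA hL hA2 hL2 hAL hA' hB'
      have h1 := typeII_F hJ hg P P' A L a b α
      refine h1.trans ?_
      rw [Real.sq_sqrt (by positivity)]
      have hA1 : (0 : ℝ) < A := by exact_mod_cast hA
      have hL1 : (0 : ℝ) < L := by exact_mod_cast hL
      have hAL2 : A * L ≤ 2 * P := hAL.trans hP'
      have hALr : (A : ℝ) * L ≤ 2 * P := by exact_mod_cast hAL2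
      have hRA : R * R ≤ A := by
        have h2 : R * R * 2 ≤ V := by rw [hV]; exact Nat.mul_le_mul_left _ hR
        omega
      have hA4 : (A : ℝ) ≤ 4 * (P / V) := by
        rw [mul_div_assoc', le_div_iff₀ hV0]
        have : (V : ℝ) ≤ 2 * L := by exact_mod_cast hL2.le
        nlinarith
      have hL4 : L * (R * R) * R ≤ 4 * P := by
        have h2 : L * (R * R) * R = L * V := by rw [hV]; ring
        rw [h2]
        calc L * V ≤ L * (2 * A) := Nat.mul_le_mul_left _ hA2.le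
          _ = 2 * (A * L) := by ring
          _ ≤ 2 * (2 * P) := Nat.mul_le_mul_left _ hAL2
          _ = 4 * P := by ring
      have hK0 : KS (2 * κ + 2) R A 0 ≤ 24 * (P / V) * X := by
        refine (KS_zero _ R A).trans ?_
        have h2 : ((R * R : ℕ) : ℝ) ≤ A := by exact_mod_cast hRA
        calc 3 * ((A : ℝ) + (R * R : ℕ)) * X ≤ 3 * (2 * A) * X := by
              apply mul_le_mul_of_nonneg_right _ hXn
              linarith
          _ ≤ 3 * (2 * (4 * (P / V))) * X := by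
              apply mul_le_mul_of_nonneg_right _ hXn
              linarith
          _ = _ := by ring
      have hK1 : ∑ h ∈ Icc 1 L, KS (2 * κ + 2) R A (h * α) ≤ W₂ :=
        (KS_sum (2 * κ + 2) R A L P hRA hAL2 α).trans (hW₂ L hL hL4)
      have hKn : 0 ≤ KS (2 * κ + 2) R A 0 + 2 * ∑ h ∈ Icc 1 L, KS (2 * κ + 2) R A (h * α) := by
        have := KS_nonneg (2 * κ + 2) R A 0
        have : 0 ≤ ∑ h ∈ Icc 1 L, KS (2 * κ + 2) R A (h * α) := sum_nonneg fun h _ => KS_nonneg _ _ _ _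
        linarith
      calc (∑ m ∈ Ioc A (2 * A), ‖a m‖ ^ 2) * ((∑ l ∈ Ioc L (2 * L), ‖b l‖ ^ 2) *
            (KS (2 * κ + 2) R A 0 + 2 * ∑ h ∈ Icc 1 L, KS (2 * κ + 2) R A (h * α)))
          ≤ (A₂ * A) * ((B₂ * L) * (KS (2 * κ + 2) R A 0 + 2 * ∑ h ∈ Icc 1 L, KS (2 * κ + 2) R A (h * α))) := by
            gcongr
        _ = A₂ * B₂ * ((A * L) * (KS (2 * κ + 2) R A 0 + 2 * ∑ h ∈ Icc 1 L, KS (2 * κ + 2) R A (h * α))) := by ring
        _ ≤ A₂ * B₂ * ((2 * P) * (24 * (P / V) * X + 2 * W₂)) := by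
            apply mul_le_mul_of_nonneg_left _ (by positivity)
            apply mul_le_mul hALr _ hKn (by positivity)
            linarith)
  refine key.trans ?_
  apply add_le_add le_rfl
  apply mul_le_mul_of_nonneg_left _ (by positivity)
  exact (pair_sum κ (V * V) R (fun t => KK (2 * ((2 * P : ℕ) : ℝ) / t) (t * α))
    (fun t => KK_nonneg (by positivity) _)).trans hW₁

end

/-- part A -/
theorem minL : MinL := by
  intro κ U
  set m₁ : ℕ := 2 ^ (2 * κ + 2) with hm₁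
  set m₂ : ℕ := 2 ^ κ with hm₂
  set B₄ : ℕ := U + 8 with hB₄
  set B : ℕ := 2 ^ (2 * (2 * κ + 3)) + 2 ^ (2 * (κ + 1)) + 4 * B₄ + 4 with hB
  set K : ℕ := B + m₁ + 2 * B₄ + m₂ + U + 1 with hK
  have p1 : 0 < 2 ^ (2 * (2 * κ + 3)) := by positivity
  have p2 : 0 < 2 ^ (2 * (κ + 1)) := by positivity
  have p3 : 0 < 2 ^ (2 * κ + 2) := by positivity
  have p4 : 0 < 2 ^ κ := by positivity
  obtain ⟨n1, h1⟩ := ev_root8 K (8 * 2 ^ m₁ * 2 ^ m₂) (by positivity)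
  obtain ⟨n2, h2⟩ := ev_L' 10000
  obtain ⟨n3, h3⟩ := wsumB (κ + 1) B₄ B (by omega)
  obtain ⟨n4, h4⟩ := wsumB (2 * κ + 3) (2 * B₄) B (by omega)
  refine ⟨B, max (max n1 n2) (max (max n3 n4) 16), fun N hN q hq1 hq2 a hcop α hα ι J M c g hC => ?_⟩
  have hNn1 : n1 ≤ N := le_trans (le_trans (le_max_left _ _) (le_max_left _ _)) hN
  have hNn2 : n2 ≤ N := le_trans (le_trans (le_max_right _ _) (le_max_left _ _)) hN
  have hNn3 : n3 ≤ N := le_trans (le_trans (le_trans (le_max_left _ _) (le_max_left _ _)) (le_max_right _ _)) hN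
  have hNn4 : n4 ≤ N := le_trans (le_trans (le_trans (le_max_right _ _) (le_max_left _ _)) (le_max_right _ _)) hN
  have hN16 : 16 ≤ N := le_trans (le_trans (le_max_right _ _) (le_max_right _ _)) hN
  have hNr : (16 : ℝ) ≤ N := by exact_mod_cast hN16
  have hN0 : (0 : ℝ) < N := by linarith
  have hR := h1 N hNn1
  have hℓ1 := h2 N hNn2
  set ℓ := Real.log N with hℓ
  set R := Nat.sqrt (Nat.sqrt (Nat.sqrt N)) with hRdef
  have hℓ0 : 0 < ℓ := by linarith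
  have hℓge1 : 1 ≤ ℓ := by linarith
  have hℓB : 1 ≤ ℓ ^ B := one_le_pow₀ hℓge1
  have hℓK : 1 ≤ ℓ ^ K := one_le_pow₀ hℓge1
  have hpow : ∀ i ≤ K, 8 * 2 ^ m₁ * 2 ^ m₂ * ℓ ^ i ≤ (R : ℝ) := fun i hi =>
    le_trans (mul_le_mul_of_nonneg_left (pow_le_pow_right₀ hℓge1 hi) (by positivity)) hR
  have h2m₁ : (1 : ℝ) ≤ 2 ^ m₁ := one_le_pow₀ (by norm_num)
  have h2m₂ : (1 : ℝ) ≤ 2 ^ m₂ := one_le_pow₀ (by norm_num)
  have h2mm : (1 : ℝ) ≤ 2 ^ m₁ * 2 ^ m₂ := one_le_mul_of_one_le_of_one_le h2m₁ h2m₂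
  have hR8 : (8 : ℝ) ≤ R := by
    have h5 := hpow 0 (Nat.zero_le _)
    rw [pow_zero, mul_one, mul_assoc] at h5
    linarith
  have hRn : 8 ≤ R := by exact_mod_cast hR8
  have hR0 : (0 : ℝ) < R := by linarith
  -- powers of `R`
  have hR2 : R * R ≤ Nat.sqrt (Nat.sqrt N) := Nat.sqrt_le _
  have hR4 : (R * R) * (R * R) ≤ Nat.sqrt N :=
    (Nat.mul_le_mul hR2 hR2).trans (Nat.sqrt_le _)
  have hR8N : ((R * R) * (R * R)) * ((R * R) * (R * R)) ≤ N :=
    (Nat.mul_le_mul hR4 hR4).trans (Nat.sqrt_le _)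
  have hR8r : (R : ℝ) ^ 8 ≤ N := by
    have h5 : ((((R * R) * (R * R)) * ((R * R) * (R * R)) : ℕ) : ℝ) ≤ N := by exact_mod_cast hR8N
    push_cast at h5
    calc (R : ℝ) ^ 8 = R * R * (R * R) * (R * R * (R * R)) := by ring
      _ ≤ _ := h5
  have hJ : ∀ j ∈ J, 1 ≤ M j ∧ M j ≤ R ∧ (c j).Coprime (M j) := by
    intro j hj
    obtain ⟨g1, g2, g3⟩ := hC.1 j hj
    refine ⟨g1, ?_, g3⟩
    rw [hRdef, Nat.le_sqrt, Nat.le_sqrt, Nat.le_sqrt]
    calc M j * M j * (M j * M j) * (M j * M j * (M j * M j)) = M j ^ 8 := by ring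
      _ ≤ N := g2
  have hg := hC.2
  have hq0 : (0 : ℝ) < q := by linarith
  have hqn : 1 ≤ q := by exact_mod_cast hq0
  set V := R * R * R with hV
  have hV0 : (0 : ℝ) < V := by
    rw [hV]; push_cast; positivity
  have hRV : (R : ℝ) ≤ V := by
    rw [hV]; push_cast; nlinarith
  have hRN : (R : ℝ) ≤ N := by
    have h5 : (R : ℝ) ≤ (R : ℝ) ^ 8 := le_self_pow₀ (by linarith) (by norm_num)
    linarith
  have hR2N : ((R * R : ℕ) : ℝ) ≤ N := by
    push_cast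
    have h5 : (R : ℝ) * R ≤ (R : ℝ) ^ 8 := by
      have h6 : (R : ℝ) ^ 2 ≤ (R : ℝ) ^ 8 := pow_le_pow_right₀ (by linarith) (by norm_num)
      rw [← pow_two]; exact h6
    linarith
  -- the sequence of endpoints
  obtain ⟨y, hy0, hy1⟩ : ∃ y : ℕ → ℕ, y 0 = N ∧ ∀ i, y (i + 1) = (y i + 1) / 2 :=
    ⟨fun i => Nat.rec N (fun _ z => (z + 1) / 2) i, rfl, fun i => rfl⟩
  have hylow : ∀ i, (N : ℝ) / 2 ^ i ≤ y i := by
    intro i
    induction i with
    | zero => rw [hy0]; simp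
    | succ i ih =>
      rw [hy1]
      have h3 : y i ≤ 2 * ((y i + 1) / 2) := by omega
      have h4 : (y i : ℝ) ≤ 2 * (((y i + 1) / 2 : ℕ) : ℝ) := by exact_mod_cast h3
      rw [pow_succ]
      have h5 : (N : ℝ) / (2 ^ i * 2) = (N / 2 ^ i) / 2 := by rw [div_div]
      rw [h5]; linarith
  have hyup : ∀ i, (y i : ℝ) ≤ (N : ℝ) / 2 ^ i + 1 := by
    intro i
    induction i with
    | zero => rw [hy0]; simp
    | succ i ih =>
      rw [hy1]
      have h3 : 2 * ((y i + 1) / 2) ≤ y i + 1 := by omega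
      have h4 : 2 * (((y i + 1) / 2 : ℕ) : ℝ) ≤ y i + 1 := by exact_mod_cast h3
      rw [pow_succ]
      have h5 : (N : ℝ) / (2 ^ i * 2) = (N / 2 ^ i) / 2 := by rw [div_div]
      rw [h5]; linarith
  have hyle : ∀ i, y i ≤ N := by
    intro i
    induction i with
    | zero => rw [hy0]
    | succ i ih => rw [hy1]; omega
  set I := Nat.log 2 R with hI
  have hI1 : 2 ^ I ≤ R := Nat.pow_log_le_self 2 (by omega)
  have hI2 : R < 2 ^ (I + 1) := Nat.lt_pow_succ_log_self (by norm_num) _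
  have hIr : (R : ℝ) ≤ 2 * 2 ^ I := by
    have : R ≤ 2 * 2 ^ I := by rw [pow_succ] at hI2; omega
    exact_mod_cast this
  have hyR : ∀ i, i ≤ I → V * V * R ≤ y i := by
    intro i hi
    have h5 : (2 : ℕ) ^ i ≤ R := (Nat.pow_le_pow_right (by norm_num) hi).trans hI1
    have h6 : ((2 : ℝ) ^ i) ≤ R := by exact_mod_cast h5
    have h7 : ((V * V * R : ℕ) : ℝ) ≤ (N : ℝ) / 2 ^ i := by
      rw [le_div_iff₀ (by positivity)]
      calc ((V * V * R : ℕ) : ℝ) * 2 ^ i ≤ ((V * V * R : ℕ) : ℝ) * R := mul_le_mul_of_nonneg_left h6 (Nat.cast_nonneg _)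
        _ = (R : ℝ) ^ 8 := by rw [hV]; push_cast; ring
        _ ≤ N := hR8r
    have h8 := h7.trans (hylow i)
    exact_mod_cast h8
  have hVVR1 : 1 ≤ V * V * R := by
    have : 1 ≤ R := by omega
    have h5 : 1 ≤ V := Nat.mul_pos (Nat.mul_pos this this) this
    exact Nat.mul_pos (Nat.mul_pos h5 h5) this
  set E : ℕ → ℂ := fun n => ((ArithmeticFunction.vonMangoldt n * FF J M c g n : ℝ) : ℂ) * ee ((n : ℝ) * α) with hE
  set G : ℝ := N / ℓ ^ (U + 3) with hG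
  have hlog4 : Real.log 4 ≤ 2 := by
    have h1 : Real.log 4 = 2 * Real.log 2 := by
      rw [show (4 : ℝ) = 2 ^ 2 by norm_num, Real.log_pow]; push_cast; ring
    have := Real.log_two_lt_d9
    linarith
  have hGeq : ℓ ^ 5 * (N / ℓ ^ B₄) = G := by
    rw [hG]
    have e1 : ℓ ^ B₄ = ℓ ^ (U + 3) * ℓ ^ 5 := by rw [← pow_add]
    rw [e1]; field_simp
  have hblock : ∀ i, i < I → ‖∑ n ∈ Ioc (y (i + 1)) (y i), E n‖ ≤ 2054 * G := by
    intro i hi
    have hyi := hyR (i + 1) (by omega)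
    set P : ℕ := y (i + 1) with hPdef
    have hPN' : P ≤ N := hyle (i + 1)
    have hP1 : 1 ≤ P := hVVR1.trans hyi
    have hW1 := h3 N hNn3 q hq1 hq2 a hcop α hα (2 * P) (V * V * R) (by omega) (by omega) hVVR1 (by
      rw [le_div_iff₀ (by positivity)]
      calc ((V * V * R : ℕ) : ℝ) * ℓ ^ B ≤ ((V * V * R : ℕ) : ℝ) * R := by
            apply mul_le_mul_of_nonneg_left _ (Nat.cast_nonneg _)
            have h5 := hpow B (by omega)
            have h6 : ℓ ^ B ≤ 8 * 2 ^ m₁ * 2 ^ m₂ * ℓ ^ B := by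
              apply le_mul_of_one_le_left (by positivity)
              rw [mul_assoc]; linarith
            exact h6.trans h5
        _ = (R : ℝ) ^ 8 := by rw [hV]; push_cast; ring
        _ ≤ N := hR8r)
    have hW2 : ∀ L : ℕ, 1 ≤ L → L * (R * R) * R ≤ 4 * P →
        ∑ t ∈ Icc 1 (L * (R * R)), (t.divisors.card : ℝ) ^ (2 * κ + 3) * KK (2 * ((2 * P : ℕ) : ℝ) / t) (t * α) ≤
          N / ℓ ^ (2 * B₄) := by
      intro L hL1 hL2
      apply h4 N hNn4 q hq1 hq2 a hcop α hα (2 * P) (L * (R * R)) (by omega) (by omega)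
        (Nat.mul_pos hL1 (Nat.mul_pos (by omega) (by omega)))
      rw [le_div_iff₀ (by positivity)]
      have h5 := hpow B (by omega)
      have h6 : 4 * ℓ ^ B ≤ 8 * 2 ^ m₁ * 2 ^ m₂ * ℓ ^ B := by
        have h7 : 0 ≤ ℓ ^ B * (2 ^ m₁ * 2 ^ m₂ - 1) := mul_nonneg (by positivity) (by linarith)
        have h8 : 0 ≤ ℓ ^ B := by positivity
        nlinarith
      have h7 : ((L * (R * R) * R : ℕ) : ℝ) ≤ 4 * P := by exact_mod_cast hL2
      have h8 : (P : ℝ) ≤ N := by exact_mod_cast hPN'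
      rw [Nat.cast_mul _ R] at h7
      have h9 : ((L * (R * R) : ℕ) : ℝ) * (4 * ℓ ^ B) ≤ ((L * (R * R) : ℕ) : ℝ) * R :=
        mul_le_mul_of_nonneg_left (h6.trans h5) (Nat.cast_nonneg _)
      linarith
    have h5 := block_F hJ hg α P (y i) V hP1 (by rw [hPdef, hy1]; omega) (by rw [hPdef, hy1]; omega)
      (by omega) hV hyi (N / ℓ ^ B₄) (N / ℓ ^ (2 * B₄)) (by positivity) hW1 hW2
    have e1 : ∑ n ∈ Ioc P (y i), E n = ∑ n ∈ Ioc P (y i), ((ArithmeticFunction.vonMangoldt n : ℝ) : ℂ) *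
        (((FF J M c g n : ℝ) : ℂ) * ee ((n : ℝ) * α)) := by
      apply sum_congr rfl; intro n _
      rw [hE]; simp only [Complex.ofReal_mul]; ring
    rw [e1]
    refine h5.trans ?_
    have hPr1 : (1 : ℝ) ≤ P := by exact_mod_cast hP1
    have hPN : (P : ℝ) ≤ N := by exact_mod_cast hPN'
    have hLg : 1 + Real.log (4 * P) ≤ 2 * ℓ := by
      rw [Real.log_mul (by norm_num) (by linarith)]
      have := Real.log_le_log (by linarith) hPN
      linarith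
    have hLg0 : 0 ≤ 1 + Real.log (4 * P) := by
      have := Real.log_nonneg (show (1 : ℝ) ≤ 4 * P by linarith)
      linarith
    have hXℓ : (1 + Real.log ((R * R : ℕ) : ℝ)) ^ m₁ ≤ (2 * ℓ) ^ m₁ := by
      have h6 : 0 ≤ Real.log ((R * R : ℕ) : ℝ) := Real.log_natCast_nonneg _
      have h7 : Real.log ((R * R : ℕ) : ℝ) ≤ ℓ :=
        Real.log_le_log (by push_cast; positivity) hR2N
      apply pow_le_pow_left₀ (by linarith)
      linarith
    have hXV : (2 * ℓ) ^ m₁ / V ≤ 1 / ℓ ^ (2 * B₄) := by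
      rw [div_le_div_iff₀ hV0 (by positivity), one_mul]
      have h6 := hpow (m₁ + 2 * B₄) (by omega)
      have h7 : (2 * ℓ) ^ m₁ * ℓ ^ (2 * B₄) ≤ 8 * 2 ^ m₁ * 2 ^ m₂ * ℓ ^ (m₁ + 2 * B₄) := by
        rw [mul_pow, mul_assoc, ← pow_add]
        have h8 : 0 ≤ 2 ^ m₁ * ℓ ^ (m₁ + 2 * B₄) := by positivity
        have h9 : 0 ≤ (2 ^ m₁ * ℓ ^ (m₁ + 2 * B₄)) * ((2 : ℝ) ^ m₂ - 1) := mul_nonneg h8 (by linarith)
        nlinarith
      linarith
    have hsq : √(2 * P * (24 * (P / V) * (1 + Real.log ((R * R : ℕ) : ℝ)) ^ m₁ + 2 * (N / ℓ ^ (2 * B₄)))) ≤ 8 * (N / ℓ ^ B₄) := by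
      rw [Real.sqrt_le_left (by positivity)]
      calc 2 * (P : ℝ) * (24 * (P / V) * (1 + Real.log ((R * R : ℕ) : ℝ)) ^ m₁ + 2 * (N / ℓ ^ (2 * B₄)))
          ≤ 2 * (N : ℝ) * (24 * (N / V) * (2 * ℓ) ^ m₁ + 2 * (N / ℓ ^ (2 * B₄))) := by
            gcongr
        _ = 2 * (N : ℝ) * (24 * N * ((2 * ℓ) ^ m₁ / V) + 2 * (N / ℓ ^ (2 * B₄))) := by ring
        _ ≤ 2 * (N : ℝ) * (24 * N * (1 / ℓ ^ (2 * B₄)) + 2 * (N / ℓ ^ (2 * B₄))) := by
            gcongr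
        _ = 52 * (N / ℓ ^ B₄) ^ 2 := by
            rw [div_pow, ← pow_mul, mul_comm B₄ 2]; ring
        _ ≤ (8 * (N / ℓ ^ B₄)) ^ 2 := by
            have : 0 ≤ (N / ℓ ^ B₄) ^ 2 := by positivity
            nlinarith
    have hNB : 0 ≤ N / ℓ ^ B₄ := by positivity
    calc 8 * (1 + Real.log (4 * P)) ^ 5 *
          √(2 * P * (24 * (P / V) * (1 + Real.log ((R * R : ℕ) : ℝ)) ^ m₁ + 2 * (N / ℓ ^ (2 * B₄)))) +
          3 * (1 + Real.log (4 * P)) * (N / ℓ ^ B₄)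
        ≤ 8 * (2 * ℓ) ^ 5 * (8 * (N / ℓ ^ B₄)) + 3 * (2 * ℓ) * (N / ℓ ^ B₄) := by
          gcongr
      _ = 2048 * (ℓ ^ 5 * (N / ℓ ^ B₄)) + 6 * (ℓ * (N / ℓ ^ B₄)) := by ring
      _ ≤ 2048 * (ℓ ^ 5 * (N / ℓ ^ B₄)) + 6 * (ℓ ^ 5 * (N / ℓ ^ B₄)) := by
          have : ℓ ≤ ℓ ^ 5 := le_self_pow₀ hℓge1 (by norm_num)
          gcongr
      _ = 2054 * G := by rw [hGeq]; ring
  -- telescoping
  have htel : ∀ j : ℕ, j ≤ I → ‖∑ n ∈ Icc 1 N, E n‖ ≤ ‖∑ n ∈ Icc 1 (y j), E n‖ + j * (2054 * G) := by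
    intro j
    induction j with
    | zero => intro _; rw [hy0]; simp
    | succ j ih =>
      intro hj
      have h5 := ih (by omega)
      have h6 := hblock j (by omega)
      have h7 : ∑ n ∈ Icc 1 (y j), E n = ∑ n ∈ Icc 1 (y (j + 1)), E n + ∑ n ∈ Ioc (y (j + 1)) (y j), E n := by
        have hle : y (j + 1) ≤ y j ∨ y j = 0 := by
          rw [hy1]; omega
        rcases hle with hle | hle
        · rw [← sum_union (by
            rw [disjoint_left]; intro n hn hn'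
            rw [mem_Icc] at hn; rw [mem_Ioc] at hn'; omega)]
          congr 1
          ext n
          rw [mem_union, mem_Icc, mem_Icc, mem_Ioc]
          omega
        · exfalso
          have := hyR j (by omega)
          omega
      rw [h7] at h5
      have h8 := norm_add_le (∑ n ∈ Icc 1 (y (j + 1)), E n) (∑ n ∈ Ioc (y (j + 1)) (y j), E n)
      push_cast
      linarith
  have hlast : ‖∑ n ∈ Icc 1 (y I), E n‖ ≤ ℓ * (((y I : ℝ) + R) * (1 + Real.log R) ^ m₂) := by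
    refine (norm_sum_le _ _).trans ?_
    have h5 : ∀ n ∈ Icc 1 (y I), ‖E n‖ ≤ ℓ * |FF J M c g n| := by
      intro n hn
      rw [mem_Icc] at hn
      rw [hE]
      simp only
      rw [norm_mul, norm_ee, mul_one, Complex.norm_real, Real.norm_eq_abs, abs_mul,
        abs_of_nonneg ArithmeticFunction.vonMangoldt_nonneg]
      apply mul_le_mul_of_nonneg_right _ (abs_nonneg _)
      refine ArithmeticFunction.vonMangoldt_le_log.trans ?_
      apply Real.log_le_log (by exact_mod_cast hn.1)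
      exact_mod_cast hn.2.trans (hyle I)
    refine (sum_le_sum h5).trans ?_
    rw [← mul_sum]
    exact mul_le_mul_of_nonneg_left (tail_F (fun j hj => ⟨(hJ j hj).1, (hJ j hj).2.1⟩) hg (y I)) hℓ0.le
  have h5 := htel I le_rfl
  have hIl : (I : ℝ) ≤ 2 * ℓ := by
    have h6 : (I : ℝ) * Real.log 2 ≤ Real.log R := by
      have h7 : (2 : ℝ) ^ I ≤ R := by exact_mod_cast hI1
      have h8 := Real.log_le_log (by positivity) h7
      rwa [Real.log_pow] at h8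
    have h7 : Real.log R ≤ ℓ := Real.log_le_log hR0 hRN
    have h8 := Real.log_two_gt_d9
    have h9 : (0 : ℝ) ≤ I := Nat.cast_nonneg _
    nlinarith
  have hyI : (y I : ℝ) + R ≤ 4 * (N / R) := by
    have h6 := hyup I
    have h7 : (N : ℝ) / 2 ^ I ≤ 2 * (N / R) := by
      rw [mul_div_assoc', div_le_div_iff₀ (by positivity) hR0]
      nlinarith
    have h8 : 2 * (R : ℝ) ≤ N / R := by
      rw [le_div_iff₀ hR0]
      have h9 : (R : ℝ) ^ 3 ≤ (R : ℝ) ^ 8 := pow_le_pow_right₀ (by linarith) (by norm_num)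
      have h10 : 2 * (R : ℝ) * R ≤ R ^ 3 := by
        have : (R : ℝ) ^ 3 = R * R * R := by ring
        rw [this]; nlinarith
      linarith
    linarith
  have hyI2 : ℓ * (((y I : ℝ) + R) * (1 + Real.log R) ^ m₂) ≤ 1 / 2 * (N / ℓ ^ U) := by
    have h6 : (1 + Real.log R) ^ m₂ ≤ (2 * ℓ) ^ m₂ := by
      have h7 : 0 ≤ Real.log (R : ℝ) := Real.log_natCast_nonneg _
      have h8 : Real.log R ≤ ℓ := Real.log_le_log hR0 hRN
      apply pow_le_pow_left₀ (by linarith)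
      linarith
    have h7 := hpow (m₂ + U + 1) (by omega)
    calc ℓ * (((y I : ℝ) + R) * (1 + Real.log R) ^ m₂) ≤ ℓ * ((4 * (N / R)) * (2 * ℓ) ^ m₂) := by
          gcongr
      _ = (4 * N) * (2 ^ m₂ * ℓ ^ (m₂ + 1)) / R := by
          rw [mul_pow, pow_succ]; ring
      _ ≤ 1 / 2 * (N / ℓ ^ U) := by
          rw [div_le_iff₀ hR0]
          have h8 : 1 / 2 * (N / ℓ ^ U) * (8 * 2 ^ m₁ * 2 ^ m₂ * ℓ ^ (m₂ + U + 1)) ≤ 1 / 2 * (N / ℓ ^ U) * R :=
            mul_le_mul_of_nonneg_left h7 (by positivity)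
          refine le_trans ?_ h8
          have e2 : ℓ ^ (m₂ + U + 1) = ℓ ^ (m₂ + 1) * ℓ ^ U := by rw [← pow_add]; congr 1; omega
          rw [e2]
          have e3 : 1 / 2 * (N / ℓ ^ U) * (8 * 2 ^ m₁ * 2 ^ m₂ * (ℓ ^ (m₂ + 1) * ℓ ^ U)) =
              (4 * N) * (2 ^ m₂ * ℓ ^ (m₂ + 1)) * 2 ^ m₁ := by
            field_simp; ring
          rw [e3]
          exact le_mul_of_one_le_right (by positivity) h2m₁
  have h6 : (I : ℝ) * (2054 * G) ≤ 1 / 2 * (N / ℓ ^ U) := by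
    calc (I : ℝ) * (2054 * G) ≤ (2 * ℓ) * (2054 * G) := mul_le_mul_of_nonneg_right hIl (by positivity)
      _ = (4108 / ℓ ^ 2) * (N / ℓ ^ U) := by
          rw [hG, pow_add]; field_simp; ring
      _ ≤ 1 / 2 * (N / ℓ ^ U) := by
          apply mul_le_mul_of_nonneg_right _ (by positivity)
          rw [div_le_div_iff₀ (by positivity) (by norm_num)]
          nlinarith
  have h7 : ‖∑ n ∈ Icc 1 N, E n‖ ≤ N / ℓ ^ U := by linarith
  exact h7

end Pool.Agent.T2H22.AA
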