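import Pool.Agent.T2H22.AA.MinL1

/-!
Project AA, part A: type I and type II sums with congruence weights.
-/

set_option autoImplicit false

namespace Pool.Agent.T2H22.AA

open Finset
open Pool.Agent.H373R2.T7 Pool.Agent.H807R2.Dav

section

variable {ι : Type} {J : Finset ι} {M c : ι → ℕ} {g : ι → ℝ} {κ R : ℕ}

lemma FF_cast (n : ℕ) : ((FF J M c g n : ℝ) : ℂ) = ∑ j ∈ J, if n ≡ c j [MOD M j] then ((g j : ℝ) : ℂ) else 0 := by
  unfold FF
  rw [Complex.ofReal_sum]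
  apply sum_congr rfl; intro j _
  split_ifs
  · rfl
  · exact Complex.ofReal_zero

/-- type I sums -/
theorem typeI_F (hJ : ∀ j ∈ J, 1 ≤ M j ∧ M j ≤ R ∧ (c j).Coprime (M j))
    (hg : ∀ d : ℕ, ∑ j ∈ J.filter (fun j => M j = d), |g j| ≤ (d.divisors.card : ℝ) ^ κ)
    (P P' m b : ℕ) (hm : 1 ≤ m) (hmR : m * R ≤ P) (hP' : P' ≤ 2 * P) (hb : b ≤ P' / m) (α : ℝ) :
    ‖∑ l ∈ Ioc (P / m) b, ((FF J M c g (m * l) : ℝ) : ℂ) * ee (((m * l : ℕ) : ℝ) * α)‖ ≤
      ∑ d ∈ Icc 1 R, (d.divisors.card : ℝ) ^ κ * KK (2 * ((2 * P : ℕ) : ℝ) / ((m * d : ℕ) : ℝ)) (((m * d : ℕ) : ℝ) * α) := by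
  have hm0 : (0 : ℝ) < m := by exact_mod_cast hm
  have hJ' : ∀ j ∈ J, 1 ≤ M j ∧ M j ≤ R := fun j hj => ⟨(hJ j hj).1, (hJ j hj).2.1⟩
  refine le_trans ?_ (group_sum hJ' hg (fun d => KK (2 * ((2 * P : ℕ) : ℝ) / ((m * d : ℕ) : ℝ)) (((m * d : ℕ) : ℝ) * α))
    (fun d => KK_nonneg (by positivity) _))
  have e1 : ∑ l ∈ Ioc (P / m) b, ((FF J M c g (m * l) : ℝ) : ℂ) * ee (((m * l : ℕ) : ℝ) * α) =
      ∑ j ∈ J, ((g j : ℝ) : ℂ) * ∑ l ∈ (Ioc (P / m) b).filter (fun l => m * l ≡ c j [MOD M j]), ee ((l : ℝ) * (m * α)) := by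
    have e2 : ∀ l ∈ Ioc (P / m) b, ((FF J M c g (m * l) : ℝ) : ℂ) * ee (((m * l : ℕ) : ℝ) * α) =
        ∑ j ∈ J, if m * l ≡ c j [MOD M j] then ((g j : ℝ) : ℂ) * ee ((l : ℝ) * (m * α)) else 0 := by
      intro l _
      rw [FF_cast, sum_mul]
      apply sum_congr rfl; intro j _
      have : ((m * l : ℕ) : ℝ) * α = (l : ℝ) * (m * α) := by push_cast; ring
      rw [this, ite_mul, zero_mul]
    rw [sum_congr rfl e2, sum_comm]
    apply sum_congr rfl; intro j _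
    rw [mul_sum, sum_filter]
  rw [e1]
  refine (norm_sum_le _ _).trans (sum_le_sum fun j hj => ?_)
  rw [norm_mul, Complex.norm_real, Real.norm_eq_abs]
  apply mul_le_mul_of_nonneg_left _ (abs_nonneg _)
  obtain ⟨hM1, hMR, hcop⟩ := hJ j hj
  have hM0 : (0 : ℝ) < M j := by exact_mod_cast hM1
  rcases ((Ioc (P / m) b).filter (fun l => m * l ≡ c j [MOD M j])).eq_empty_or_nonempty with h | ⟨l₀, hl₀⟩
  · rw [h, sum_empty, norm_zero]
    exact KK_nonneg (by positivity) _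
  · rw [mem_filter] at hl₀
    have e3 : (Ioc (P / m) b).filter (fun l => m * l ≡ c j [MOD M j]) =
        (Ioc (P / m) b).filter (fun l => l ≡ l₀ [MOD M j]) := by
      apply filter_congr; intro l _
      exact cls_eq hcop hl₀.2
    rw [e3]
    have e4 : (((m * M j : ℕ) : ℝ) * α) = (M j : ℝ) * (m * α) := by push_cast; ring
    rw [e4]
    apply prog _ _ _ _ hM1 (by positivity)
    have h1 : (b : ℝ) ≤ 2 * P / m := by
      have h2 : (b : ℝ) ≤ ((P' / m : ℕ) : ℝ) := by exact_mod_cast hb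
      have h3 : ((P' / m : ℕ) : ℝ) ≤ P' / m := Nat.cast_div_le
      have h4 : (P' : ℝ) / m ≤ 2 * P / m := by
        apply div_le_div_of_nonneg_right _ hm0.le
        exact_mod_cast hP'
      linarith
    have h5 : (0 : ℝ) ≤ ((P / m : ℕ) : ℝ) := Nat.cast_nonneg _
    have h6 : (m : ℝ) * M j ≤ P := by exact_mod_cast (Nat.mul_le_mul_left m hMR).trans hmR
    have h7 : 1 ≤ 2 * (P : ℝ) / (m * M j) := by
      rw [le_div_iff₀ (by positivity)]
      have : (0 : ℝ) ≤ P := Nat.cast_nonneg _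
      linarith
    have h8 : ((b : ℝ) - ((P / m : ℕ) : ℝ)) / M j ≤ 2 * P / (m * M j) := by
      rw [← div_div]
      apply div_le_div_of_nonneg_right _ hM0.le
      linarith
    have h9 : 2 * ((2 * P : ℕ) : ℝ) / ((m * M j : ℕ) : ℝ) = 2 * P / (m * M j) + 2 * P / (m * M j) := by
      push_cast; ring
    rw [h9]
    linarith

/-- the kernel for type II sums -/
noncomputable def KS (k R A : ℕ) (x : ℝ) : ℝ :=
  ∑ e ∈ Icc 1 (R * R), (e.divisors.card : ℝ) ^ k * KK ((A : ℝ) / e + 1) (e * x)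

lemma KS_nonneg (k R A : ℕ) (x : ℝ) : 0 ≤ KS k R A x :=
  sum_nonneg fun _ _ => mul_nonneg (by positivity) (KK_nonneg (by positivity) _)

lemma KS_neg (k R A : ℕ) (x : ℝ) : KS k R A (-x) = KS k R A x := by
  unfold KS
  apply sum_congr rfl; intro e _
  rw [mul_neg, KK_neg]

/-- type II sums: the inner sum -/
theorem inner_F (hJ : ∀ j ∈ J, 1 ≤ M j ∧ M j ≤ R ∧ (c j).Coprime (M j))
    (hg : ∀ d : ℕ, ∑ j ∈ J.filter (fun j => M j = d), |g j| ≤ (d.divisors.card : ℝ) ^ κ)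
    (A lo hi l l' : ℕ) (hlo : A ≤ lo) (hhi : hi ≤ 2 * A) (x : ℝ) :
    ‖∑ m ∈ Ioc lo hi, ((FF J M c g (m * l) : ℝ) : ℂ) * ((FF J M c g (m * l') : ℝ) : ℂ) * ee ((m : ℝ) * x)‖ ≤
      KS (2 * κ + 2) R A x := by
  have hJ' : ∀ j ∈ J, 1 ≤ M j ∧ M j ≤ R := fun j hj => ⟨(hJ j hj).1, (hJ j hj).2.1⟩
  refine le_trans ?_ (group_sum2 hJ' hg (fun e => KK ((A : ℝ) / e + 1) (e * x)) (fun e => KK_nonneg (by positivity) _))
  have e1 : ∑ m ∈ Ioc lo hi, ((FF J M c g (m * l) : ℝ) : ℂ) * ((FF J M c g (m * l') : ℝ) : ℂ) * ee ((m : ℝ) * x) =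
      ∑ j ∈ J, ∑ j' ∈ J, (((g j : ℝ) : ℂ) * ((g j' : ℝ) : ℂ)) *
        ∑ m ∈ (Ioc lo hi).filter (fun m => m * l ≡ c j [MOD M j] ∧ m * l' ≡ c j' [MOD M j']), ee ((m : ℝ) * x) := by
    have e2 : ∀ m ∈ Ioc lo hi, ((FF J M c g (m * l) : ℝ) : ℂ) * ((FF J M c g (m * l') : ℝ) : ℂ) * ee ((m : ℝ) * x) =
        ∑ j ∈ J, ∑ j' ∈ J, if m * l ≡ c j [MOD M j] ∧ m * l' ≡ c j' [MOD M j'] then
          (((g j : ℝ) : ℂ) * ((g j' : ℝ) : ℂ)) * ee ((m : ℝ) * x) else 0 := by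
      intro m _
      rw [FF_cast, FF_cast, sum_mul_sum, sum_mul]
      apply sum_congr rfl; intro j _
      rw [sum_mul]
      apply sum_congr rfl; intro j' _
      by_cases h1 : m * l ≡ c j [MOD M j]
      · by_cases h2 : m * l' ≡ c j' [MOD M j']
        · rw [if_pos h1, if_pos h2, if_pos ⟨h1, h2⟩]
        · rw [if_neg h2, if_neg (show ¬ (m * l ≡ c j [MOD M j] ∧ m * l' ≡ c j' [MOD M j']) from fun h => h2 h.2)]; ring
      · rw [if_neg h1, if_neg (show ¬ (m * l ≡ c j [MOD M j] ∧ m * l' ≡ c j' [MOD M j']) from fun h => h1 h.1)]; ring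
    rw [sum_congr rfl e2, sum_comm]
    apply sum_congr rfl; intro j _
    rw [sum_comm]
    apply sum_congr rfl; intro j' _
    rw [mul_sum, sum_filter]
  rw [e1]
  refine (norm_sum_le _ _).trans (sum_le_sum fun j hj => ?_)
  refine (norm_sum_le _ _).trans (sum_le_sum fun j' hj' => ?_)
  rw [norm_mul, norm_mul, Complex.norm_real, Complex.norm_real, Real.norm_eq_abs, Real.norm_eq_abs]
  apply mul_le_mul_of_nonneg_left _ (by positivity)
  obtain ⟨hM1, hMR, hcop⟩ := hJ j hj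
  obtain ⟨hM1', hMR', hcop'⟩ := hJ j' hj'
  rcases ((Ioc lo hi).filter (fun m => m * l ≡ c j [MOD M j] ∧ m * l' ≡ c j' [MOD M j'])).eq_empty_or_nonempty with h | ⟨m₀, hm₀⟩
  · rw [h, sum_empty, norm_zero]
    exact KK_nonneg (by positivity) _
  · rw [mem_filter] at hm₀
    have e3 : (Ioc lo hi).filter (fun m => m * l ≡ c j [MOD M j] ∧ m * l' ≡ c j' [MOD M j']) =
        (Ioc lo hi).filter (fun m => m ≡ m₀ [MOD Nat.lcm (M j) (M j')]) := by
      apply filter_congr; intro m _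
      rw [mul_comm m l, mul_comm m l']
      have h1 := cls_eq (l := m) hcop (show l * m₀ ≡ c j [MOD M j] by rw [mul_comm]; exact hm₀.2.1)
      have h2 := cls_eq (l := m) hcop' (show l' * m₀ ≡ c j' [MOD M j'] by rw [mul_comm]; exact hm₀.2.2)
      rw [h1, h2]
      constructor
      · rintro ⟨h3, h4⟩
        exact Nat.mod_lcm h3 h4
      · intro h3
        exact ⟨h3.of_dvd (Nat.dvd_lcm_left _ _), h3.of_dvd (Nat.dvd_lcm_right _ _)⟩
    rw [e3]
    have he1 : 1 ≤ Nat.lcm (M j) (M j') := Nat.lcm_pos hM1 hM1'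
    have he0 : (0 : ℝ) < (Nat.lcm (M j) (M j') : ℕ) := by exact_mod_cast he1
    apply prog _ _ _ _ he1 (by positivity)
    have h1 : (hi : ℝ) ≤ 2 * A := by exact_mod_cast hhi
    have h2 : (A : ℝ) ≤ lo := by exact_mod_cast hlo
    have h3 : ((hi : ℝ) - lo) / (Nat.lcm (M j) (M j') : ℕ) ≤ A / (Nat.lcm (M j) (M j') : ℕ) := by
      apply div_le_div_of_nonneg_right _ he0.le
      linarith
    linarith

lemma diff_sum (L l : ℕ) (hl : l ∈ Ioc L (2 * L)) (f : ℝ → ℝ) (hf0 : ∀ x, 0 ≤ f x) (hfe : ∀ x, f (-x) = f x) (α : ℝ) :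
    ∑ l' ∈ Ioc L (2 * L), f (((l : ℝ) - l') * α) ≤ f 0 + 2 * ∑ h ∈ Icc 1 L, f (h * α) := by
  rw [mem_Ioc] at hl
  rw [← sum_filter_add_sum_filter_not (Ioc L (2 * L)) (fun l' => l' < l)]
  have h1 : ∑ l' ∈ (Ioc L (2 * L)).filter (fun l' => l' < l), f (((l : ℝ) - l') * α) ≤ ∑ h ∈ Icc 1 L, f (h * α) := by
    have e1 : ∑ l' ∈ (Ioc L (2 * L)).filter (fun l' => l' < l), f (((l : ℝ) - l') * α) =
        ∑ h ∈ ((Ioc L (2 * L)).filter (fun l' => l' < l)).image (fun l' => l - l'), f (h * α) := by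
      rw [sum_image (by
        intro x hx y hy h
        rw [mem_coe, mem_filter] at hx hy
        have h' : l - x = l - y := h
        omega)]
      apply sum_congr rfl; intro l' hl'
      rw [mem_filter] at hl'
      rw [Nat.cast_sub hl'.2.le]
    rw [e1]
    apply sum_le_sum_of_subset_of_nonneg
    · intro h hh
      rw [mem_image] at hh
      obtain ⟨l', hl', rfl⟩ := hh
      rw [mem_filter, mem_Ioc] at hl'
      rw [mem_Icc]; omega
    · intro h _ _; exact hf0 _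
  have h2 : ∑ l' ∈ (Ioc L (2 * L)).filter (fun l' => ¬ l' < l), f (((l : ℝ) - l') * α) ≤
      f 0 + ∑ h ∈ Icc 1 L, f (h * α) := by
    have e1 : ∑ l' ∈ (Ioc L (2 * L)).filter (fun l' => ¬ l' < l), f (((l : ℝ) - l') * α) =
        ∑ h ∈ ((Ioc L (2 * L)).filter (fun l' => ¬ l' < l)).image (fun l' => l' - l), f (h * α) := by
      rw [sum_image (by
        intro x hx y hy h
        rw [mem_coe, mem_filter] at hx hy
        have h' : x - l = y - l := h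
        omega)]
      apply sum_congr rfl; intro l' hl'
      rw [mem_filter, not_lt] at hl'
      rw [Nat.cast_sub hl'.2, ← hfe]
      congr 1; ring
    rw [e1]
    have e2 : f 0 + ∑ h ∈ Icc 1 L, f (h * α) = ∑ h ∈ insert 0 (Icc 1 L), f ((h : ℕ) * α) := by
      rw [sum_insert (by simp)]; simp
    rw [e2]
    apply sum_le_sum_of_subset_of_nonneg
    · intro h hh
      rw [mem_image] at hh
      obtain ⟨l', hl', rfl⟩ := hh
      rw [mem_filter, mem_Ioc] at hl'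
      rw [mem_insert, mem_Icc]; omega
    · intro h _ _; exact hf0 _
  linarith

/-- type II sums -/
theorem typeII_F (hJ : ∀ j ∈ J, 1 ≤ M j ∧ M j ≤ R ∧ (c j).Coprime (M j))
    (hg : ∀ d : ℕ, ∑ j ∈ J.filter (fun j => M j = d), |g j| ≤ (d.divisors.card : ℝ) ^ κ)
    (N N' A L : ℕ) (a b : ℕ → ℂ) (α : ℝ) :
    ‖∑ m ∈ Ioc A (2 * A), ∑ l ∈ Ioc L (2 * L), a m * b l *
      (if N < m * l ∧ m * l ≤ N' then ((FF J M c g (m * l) : ℝ) : ℂ) * ee (((m * l : ℕ) : ℝ) * α) else 0)‖ ^ 2 ≤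
      (∑ m ∈ Ioc A (2 * A), ‖a m‖ ^ 2) * ((∑ l ∈ Ioc L (2 * L), ‖b l‖ ^ 2) *
        (KS (2 * κ + 2) R A 0 + 2 * ∑ h ∈ Icc 1 L, KS (2 * κ + 2) R A (h * α))) := by
  classical
  set F : ℕ → ℝ := fun n => FF J M c g n with hF
  set S : ℕ → ℂ := fun m => ∑ l ∈ Ioc L (2 * L), b l * (if N < m * l ∧ m * l ≤ N' then
    ((F (m * l) : ℝ) : ℂ) * ee (((m * l : ℕ) : ℝ) * α) else 0) with hS
  have e1 : ∑ m ∈ Ioc A (2 * A), ∑ l ∈ Ioc L (2 * L), a m * b l *
      (if N < m * l ∧ m * l ≤ N' then ((F (m * l) : ℝ) : ℂ) * ee (((m * l : ℕ) : ℝ) * α) else 0) =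
      ∑ m ∈ Ioc A (2 * A), a m * S m := by
    apply sum_congr rfl; intro m _
    rw [hS, mul_sum]
    apply sum_congr rfl; intro l _
    ring
  rw [e1]
  refine (cs_norm _ _ _).trans (mul_le_mul_of_nonneg_left ?_ (by positivity))
  -- expand the square
  have h1 : ((∑ m ∈ Ioc A (2 * A), ‖S m‖ ^ 2 : ℝ) : ℂ) =
      ∑ l ∈ Ioc L (2 * L), ∑ l' ∈ Ioc L (2 * L), (b l * (starRingEnd ℂ) (b l')) *
        ∑ m ∈ (Ioc A (2 * A)).filter (fun m => (N < m * l ∧ m * l ≤ N') ∧ (N < m * l' ∧ m * l' ≤ N')),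
          ((F (m * l) : ℝ) : ℂ) * ((F (m * l') : ℝ) : ℂ) * ee ((m : ℝ) * (((l : ℝ) - l') * α)) := by
    push_cast
    have h2 : ∀ m ∈ Ioc A (2 * A), ((‖S m‖ : ℂ)) ^ 2 = ∑ l ∈ Ioc L (2 * L), ∑ l' ∈ Ioc L (2 * L),
        (b l * (starRingEnd ℂ) (b l')) * (if (N < m * l ∧ m * l ≤ N') ∧ (N < m * l' ∧ m * l' ≤ N') then
          ((F (m * l) : ℝ) : ℂ) * ((F (m * l') : ℝ) : ℂ) * ee ((m : ℝ) * (((l : ℝ) - l') * α)) else 0) := by
      intro m _
      rw [← Complex.mul_conj', hS]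
      simp only
      rw [map_sum, sum_mul_sum]
      apply sum_congr rfl; intro l _
      apply sum_congr rfl; intro l' _
      rw [map_mul]
      by_cases g1 : N < m * l ∧ m * l ≤ N'
      · by_cases g2 : N < m * l' ∧ m * l' ≤ N'
        · rw [if_pos g1, if_pos g2, if_pos ⟨g1, g2⟩, map_mul, Complex.conj_ofReal, ee_conj']
          have : ee ((m : ℝ) * (((l : ℝ) - l') * α)) = ee (((m * l : ℕ) : ℝ) * α) * ee (-(((m * l' : ℕ) : ℝ) * α)) := by
            rw [← ee_add]; congr 1; push_cast; ring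
          rw [this]; ring
        · rw [if_neg g2, if_neg (show ¬ ((N < m * l ∧ m * l ≤ N') ∧ (N < m * l' ∧ m * l' ≤ N')) from fun h => g2 h.2)]; simp
      · rw [if_neg g1, if_neg (show ¬ ((N < m * l ∧ m * l ≤ N') ∧ (N < m * l' ∧ m * l' ≤ N')) from fun h => g1 h.1)]; simp
    rw [sum_congr rfl h2, sum_comm]
    apply sum_congr rfl; intro l _
    rw [sum_comm]
    apply sum_congr rfl; intro l' _
    rw [← mul_sum, sum_filter]
  have hK : ∀ l ∈ Ioc L (2 * L), ∀ l' ∈ Ioc L (2 * L),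
      ‖∑ m ∈ (Ioc A (2 * A)).filter (fun m => (N < m * l ∧ m * l ≤ N') ∧ (N < m * l' ∧ m * l' ≤ N')),
          ((F (m * l) : ℝ) : ℂ) * ((F (m * l') : ℝ) : ℂ) * ee ((m : ℝ) * (((l : ℝ) - l') * α))‖ ≤
        KS (2 * κ + 2) R A (((l : ℝ) - l') * α) := by
    intro l hl l' hl'
    rw [mem_Ioc] at hl hl'
    have hl0 : 0 < l := by omega
    have hl0' : 0 < l' := by omega
    have hset : (Ioc A (2 * A)).filter (fun m => (N < m * l ∧ m * l ≤ N') ∧ (N < m * l' ∧ m * l' ≤ N')) =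
        Ioc (max A (max (N / l) (N / l'))) (min (2 * A) (min (N' / l) (N' / l'))) := by
      ext m
      rw [mem_filter, mem_Ioc, mem_Ioc]
      have g1 : N < m * l ↔ N / l < m := (Nat.div_lt_iff_lt_mul hl0).symm
      have g2 : m * l ≤ N' ↔ m ≤ N' / l := (Nat.le_div_iff_mul_le hl0).symm
      have g3 : N < m * l' ↔ N / l' < m := (Nat.div_lt_iff_lt_mul hl0').symm
      have g4 : m * l' ≤ N' ↔ m ≤ N' / l' := (Nat.le_div_iff_mul_le hl0').symm
      rw [g1, g2, g3, g4]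
      omega
    rw [hset]
    exact inner_F hJ hg A _ _ l l' (le_max_left _ _) (min_le_left _ _) _
  have h2 : ∑ m ∈ Ioc A (2 * A), ‖S m‖ ^ 2 ≤
      ∑ l ∈ Ioc L (2 * L), ∑ l' ∈ Ioc L (2 * L), (‖b l‖ ^ 2 + ‖b l'‖ ^ 2) / 2 * KS (2 * κ + 2) R A (((l : ℝ) - l') * α) := by
    have h3 : (∑ m ∈ Ioc A (2 * A), ‖S m‖ ^ 2) = ‖((∑ m ∈ Ioc A (2 * A), ‖S m‖ ^ 2 : ℝ) : ℂ)‖ := by
      rw [Complex.norm_real, Real.norm_of_nonneg (by positivity)]
    rw [h3, h1]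
    refine (norm_sum_le _ _).trans (sum_le_sum fun l hl => ?_)
    refine (norm_sum_le _ _).trans (sum_le_sum fun l' hl' => ?_)
    rw [norm_mul, norm_mul, RCLike.norm_conj]
    apply mul_le_mul _ (hK l hl l' hl') (norm_nonneg _) (by positivity)
    nlinarith [sq_nonneg (‖b l‖ - ‖b l'‖)]
  refine h2.trans ?_
  have h4 : ∑ l ∈ Ioc L (2 * L), ∑ l' ∈ Ioc L (2 * L), (‖b l‖ ^ 2 + ‖b l'‖ ^ 2) / 2 * KS (2 * κ + 2) R A (((l : ℝ) - l') * α) =
      ∑ l ∈ Ioc L (2 * L), ‖b l‖ ^ 2 * ∑ l' ∈ Ioc L (2 * L), KS (2 * κ + 2) R A (((l : ℝ) - l') * α) := by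
    have e2 : ∀ l l' : ℕ, (‖b l‖ ^ 2 + ‖b l'‖ ^ 2) / 2 * KS (2 * κ + 2) R A (((l : ℝ) - l') * α) =
        1 / 2 * (‖b l‖ ^ 2 * KS (2 * κ + 2) R A (((l : ℝ) - l') * α)) +
        1 / 2 * (‖b l'‖ ^ 2 * KS (2 * κ + 2) R A (((l : ℝ) - l') * α)) := by
      intro l l'; ring
    simp_rw [e2, sum_add_distrib]
    have e3 : ∑ l ∈ Ioc L (2 * L), ∑ l' ∈ Ioc L (2 * L), 1 / 2 * (‖b l'‖ ^ 2 * KS (2 * κ + 2) R A (((l : ℝ) - l') * α)) =
        ∑ l ∈ Ioc L (2 * L), ∑ l' ∈ Ioc L (2 * L), 1 / 2 * (‖b l‖ ^ 2 * KS (2 * κ + 2) R A (((l : ℝ) - l') * α)) := by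
      rw [sum_comm]
      apply sum_congr rfl; intro l _
      apply sum_congr rfl; intro l' _
      rw [← KS_neg]; congr 3; ring
    rw [e3, ← sum_add_distrib]
    apply sum_congr rfl; intro l _
    rw [← sum_add_distrib, mul_sum]
    apply sum_congr rfl; intro l' _
    ring
  rw [h4, sum_mul]
  apply sum_le_sum
  intro l hl
  apply mul_le_mul_of_nonneg_left _ (by positivity)
  exact diff_sum L l hl (KS (2 * κ + 2) R A) (KS_nonneg _ _ _) (KS_neg _ _ _) α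

/-- the diagonal term -/
lemma KS_zero (k R A : ℕ) : KS k R A 0 ≤ 3 * ((A : ℝ) + (R * R : ℕ)) * (1 + Real.log ((R * R : ℕ) : ℝ)) ^ (2 ^ k) := by
  unfold KS
  calc ∑ e ∈ Icc 1 (R * R), (e.divisors.card : ℝ) ^ k * KK ((A : ℝ) / e + 1) (e * 0)
      ≤ ∑ e ∈ Icc 1 (R * R), (3 * ((A : ℝ) + (R * R : ℕ))) * ((e.divisors.card : ℝ) ^ k / e) := by
        apply sum_le_sum
        intro e he
        rw [mem_Icc] at he
        have he0 : (0 : ℝ) < e := by exact_mod_cast he.1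
        have heR : (e : ℝ) ≤ (R * R : ℕ) := by exact_mod_cast he.2
        have h1 := KK_le (M := (A : ℝ) / e + 1) (by positivity) (e * 0)
        have h2 : 3 * ((A : ℝ) / e + 1) ≤ 3 * ((A : ℝ) + (R * R : ℕ)) / e := by
          rw [le_div_iff₀ he0]
          have : (A : ℝ) / e * e = A := div_mul_cancel₀ _ he0.ne'
          nlinarith
        calc (e.divisors.card : ℝ) ^ k * KK ((A : ℝ) / e + 1) (e * 0)
            ≤ (e.divisors.card : ℝ) ^ k * (3 * ((A : ℝ) + (R * R : ℕ)) / e) :=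
              mul_le_mul_of_nonneg_left (h1.trans h2) (by positivity)
          _ = _ := by ring
    _ = (3 * ((A : ℝ) + (R * R : ℕ))) * ∑ e ∈ Icc 1 (R * R), ((e.divisors.card : ℝ) ^ k / e) := by rw [mul_sum]
    _ ≤ _ := mul_le_mul_of_nonneg_left (dsum k (R * R)) (by positivity)

/-- the off-diagonal terms -/
lemma KS_sum (k R A L P : ℕ) (hRA : R * R ≤ A) (hAL : A * L ≤ 2 * P) (α : ℝ) :
    ∑ h ∈ Icc 1 L, KS k R A (h * α) ≤
      ∑ t ∈ Icc 1 (L * (R * R)), (t.divisors.card : ℝ) ^ (k + 1) * KK (2 * ((2 * P : ℕ) : ℝ) / t) (t * α) := by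
  refine le_trans ?_ (pair_sum k L (R * R) (fun t => KK (2 * ((2 * P : ℕ) : ℝ) / t) (t * α))
    (fun t => KK_nonneg (by positivity) _))
  apply sum_le_sum
  intro h hh
  unfold KS
  apply sum_le_sum
  intro e he
  rw [mem_Icc] at hh he
  have hh0 : (0 : ℝ) < h := by exact_mod_cast hh.1
  have he0 : (0 : ℝ) < e := by exact_mod_cast he.1
  apply mul_le_mul_of_nonneg_left _ (by positivity)
  have e1 : (e : ℝ) * (h * α) = ((h * e : ℕ) : ℝ) * α := by push_cast; ring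
  rw [e1]
  apply KK_mono (by positivity)
  have h1 : (e : ℝ) ≤ A := by exact_mod_cast he.2.trans hRA
  have h2 : (h : ℝ) * A ≤ 2 * P := by
    have : h * A ≤ 2 * P := by
      calc h * A ≤ L * A := Nat.mul_le_mul_right A hh.2
        _ = A * L := mul_comm _ _
        _ ≤ _ := hAL
    exact_mod_cast this
  push_cast
  rw [div_add_one he0.ne', div_le_div_iff₀ he0 (by positivity)]
  have h3 : ((A : ℝ) + e) * (h * e) ≤ (2 * A) * (h * e) := mul_le_mul_of_nonneg_right (by linarith) (by positivity)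
  have h4 : (h * A) * e ≤ (2 * P) * (e : ℝ) := mul_le_mul_of_nonneg_right h2 he0.le
  nlinarith

/-- short sums -/
theorem tail_F (hJ : ∀ j ∈ J, 1 ≤ M j ∧ M j ≤ R)
    (hg : ∀ d : ℕ, ∑ j ∈ J.filter (fun j => M j = d), |g j| ≤ (d.divisors.card : ℝ) ^ κ) (y : ℕ) :
    ∑ n ∈ Icc 1 y, |FF J M c g n| ≤ ((y : ℝ) + R) * (1 + Real.log R) ^ (2 ^ κ) := by
  have h1 : ∑ n ∈ Icc 1 y, |FF J M c g n| ≤ ∑ j ∈ J, |g j| * ((y : ℝ) / M j + 1) := by
    calc ∑ n ∈ Icc 1 y, |FF J M c g n| ≤ ∑ n ∈ Icc 1 y, ∑ j ∈ J, (if n ≡ c j [MOD M j] then |g j| else 0) := by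
          apply sum_le_sum; intro n _
          unfold FF
          refine (abs_sum_le_sum_abs _ _).trans (sum_le_sum fun j _ => ?_)
          split_ifs
          · exact le_rfl
          · rw [abs_zero]
      _ = ∑ j ∈ J, |g j| * (((Icc 1 y).filter (fun n => n ≡ c j [MOD M j])).card : ℝ) := by
          rw [sum_comm]
          apply sum_congr rfl; intro j _
          rw [← sum_filter, sum_const, nsmul_eq_mul, mul_comm]
      _ ≤ _ := by
          apply sum_le_sum; intro j hj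
          apply mul_le_mul_of_nonneg_left _ (abs_nonneg _)
          have h2 := (abs_le.1 (count_class y (M j) (c j) (hJ j hj).1)).2
          linarith
  refine h1.trans ((group_sum hJ hg (fun d => (y : ℝ) / d + 1) (fun d => by positivity)).trans ?_)
  calc ∑ d ∈ Icc 1 R, (d.divisors.card : ℝ) ^ κ * ((y : ℝ) / d + 1)
      ≤ ∑ d ∈ Icc 1 R, ((y : ℝ) + R) * ((d.divisors.card : ℝ) ^ κ / d) := by
        apply sum_le_sum
        intro d hd
        rw [mem_Icc] at hd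
        have hd0 : (0 : ℝ) < d := by exact_mod_cast hd.1
        have hdR : (d : ℝ) ≤ R := by exact_mod_cast hd.2
        have h2 : (y : ℝ) / d + 1 ≤ ((y : ℝ) + R) / d := by
          rw [div_add_one hd0.ne']
          exact div_le_div_of_nonneg_right (by linarith) hd0.le
        calc (d.divisors.card : ℝ) ^ κ * ((y : ℝ) / d + 1) ≤ (d.divisors.card : ℝ) ^ κ * (((y : ℝ) + R) / d) :=
              mul_le_mul_of_nonneg_left h2 (by positivity)
          _ = _ := by ring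
    _ = ((y : ℝ) + R) * ∑ d ∈ Icc 1 R, ((d.divisors.card : ℝ) ^ κ / d) := by rw [mul_sum]
    _ ≤ _ := mul_le_mul_of_nonneg_left (dsum κ R) (by positivity)

end

end Pool.Agent.T2H22.AA
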