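import Pool.Agent.T2H22.AA.Defs3
import Pool.Agent.H373R2.T7.BilF

/-! Project AA: bilinear bound by Parseval's identity. -/

set_option autoImplicit false

open Finset

namespace Pool.Agent.T2H22.AA

open Pool.Agent.H373R2.T7 Pool.Agent.H807R2.Dav

theorem pars (Q : ℕ) (hQ : 1 ≤ Q) (E : Finset ℕ) (hE : ∀ N ∈ E, N < Q) (σ : ℤ) (hσ : σ = 1 ∨ σ = -1) :
    ∑ t ∈ range Q, ‖∑ N ∈ E, ee ((t : ℝ) * (((σ * N : ℤ) : ℝ) / Q))‖ ^ 2 = Q * E.card := by
  have h1 := sq_expand E (fun _ => 1) (fun N => σ * (N : ℤ)) Q hQ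
  simp only [one_mul, map_one] at h1
  have h2 : ∑ i ∈ E, ∑ j ∈ E, (if (Q : ℤ) ∣ σ * (i : ℤ) - σ * (j : ℤ) then (Q : ℂ) else 0) =
      ((Q * E.card : ℝ) : ℂ) := by
    have : ∀ i ∈ E, ∑ j ∈ E, (if (Q : ℤ) ∣ σ * (i : ℤ) - σ * (j : ℤ) then (Q : ℂ) else 0) = Q := by
      intro i hi
      rw [sum_eq_single i]
      · rw [sub_self, if_pos (dvd_zero _)]
      · intro j hj hne
        rw [if_neg]
        intro hd
        have hd' : (Q : ℤ) ∣ (i : ℤ) - j := by
          have e : σ * (i : ℤ) - σ * (j : ℤ) = σ * ((i : ℤ) - j) := by ring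
          rw [e] at hd
          rcases hσ with h | h
          · rwa [h, one_mul] at hd
          · rw [h, neg_one_mul, dvd_neg] at hd
            exact hd
        have b1 := hE i hi
        have b2 := hE j hj
        have hz := Int.eq_zero_of_abs_lt_dvd hd' (by rw [abs_lt]; omega)
        omega
      · intro h
        exact absurd hi h
    rw [sum_congr rfl this, sum_const, nsmul_eq_mul]
    push_cast
    ring
  rw [h2] at h1
  exact_mod_cast h1

/-- the bilinear bound -/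
theorem bil (Q : ℕ) (hQ : 1 ≤ Q) (E G I : Finset ℕ) (H : ℕ → ℝ) (hE : ∀ N ∈ E, N < Q)
    (hG : ∀ y ∈ G, y < Q) (hGI : ∀ y ∈ G, ∀ x ∈ I, x + y < Q) (δ : ℝ)
    (hH : ∀ α : ℝ, ‖∑ x ∈ I, ((H x : ℝ) : ℂ) * ee ((x : ℝ) * α)‖ ≤ δ) :
    |∑ N ∈ E, ∑ y ∈ G, ∑ x ∈ I, (if x + y = N then H x else 0)| ≤ δ * √((E.card : ℝ) * G.card) := by
  have hQ0 : (0 : ℝ) < Q := by exact_mod_cast hQ
  have hδ : 0 ≤ δ := (norm_nonneg _).trans (hH 0)
  set S : ℝ := ∑ N ∈ E, ∑ y ∈ G, ∑ x ∈ I, (if x + y = N then H x else 0) with hS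
  set HT : ℕ → ℂ := fun t => ∑ x ∈ I, ((H x : ℝ) : ℂ) * ee ((t : ℝ) * ((x : ℝ) / Q)) with hHT
  set GT : ℕ → ℂ := fun t => ∑ y ∈ G, ee ((t : ℝ) * (((1 * y : ℤ) : ℝ) / Q)) with hGT
  set ET : ℕ → ℂ := fun t => ∑ N ∈ E, ee ((t : ℝ) * (((-1 * N : ℤ) : ℝ) / Q)) with hET
  have key : (Q : ℂ) * (S : ℂ) = ∑ t ∈ range Q, HT t * GT t * ET t := by
    have h1 : ∀ t ∈ range Q, HT t * GT t * ET t =
        ∑ N ∈ E, ∑ y ∈ G, ∑ x ∈ I, ((H x : ℝ) : ℂ) * ee ((t : ℝ) * ((((x : ℤ) + y - N : ℤ) : ℝ) / Q)) := by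
      intro t _
      rw [hHT, hGT, hET]
      simp only
      rw [mul_comm (_ * _) (∑ N ∈ E, _), mul_comm (∑ x ∈ I, _) (∑ y ∈ G, _), sum_mul_sum, sum_mul]
      apply sum_congr rfl
      intro N _
      rw [mul_sum]
      apply sum_congr rfl
      intro y _
      rw [mul_sum]
      apply sum_congr rfl
      intro x _
      have e1 : (t : ℝ) * ((((x : ℤ) + y - N : ℤ) : ℝ) / Q) =
          (t : ℝ) * (((-1 * N : ℤ) : ℝ) / Q) + (t : ℝ) * (((1 * y : ℤ) : ℝ) / Q) + (t : ℝ) * ((x : ℝ) / Q) := by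
        push_cast
        ring
      rw [e1, ee_add, ee_add]
      ring
    rw [sum_congr rfl h1, sum_comm]
    have h2 : ∀ N ∈ E, ∑ t ∈ range Q, ∑ y ∈ G, ∑ x ∈ I, ((H x : ℝ) : ℂ) *
        ee ((t : ℝ) * ((((x : ℤ) + y - N : ℤ) : ℝ) / Q)) =
        ∑ y ∈ G, ∑ x ∈ I, (Q : ℂ) * (((if x + y = N then H x else 0 : ℝ)) : ℂ) := by
      intro N hN
      rw [sum_comm]
      apply sum_congr rfl
      intro y hy
      rw [sum_comm]
      apply sum_congr rfl
      intro x hx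
      rw [← mul_sum, orth Q hQ]
      have b1 := hE N hN
      have b2 := hGI y hy x hx
      by_cases h : x + y = N
      · rw [if_pos h, if_pos]
        · ring
        · have : (x : ℤ) + y - N = 0 := by
            rw [← h]; push_cast; ring
          rw [this]
          exact dvd_zero _
      · rw [if_neg h, if_neg]
        · simp
        · intro hd
          have hz := Int.eq_zero_of_abs_lt_dvd hd (by rw [abs_lt]; omega)
          omega
    rw [sum_congr rfl h2, hS]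
    push_cast
    simp only [mul_sum]
  have hHle : ∀ t : ℕ, ‖HT t‖ ≤ δ := by
    intro t
    have h1 := hH ((t : ℝ) / Q)
    have h2 : HT t = ∑ x ∈ I, ((H x : ℝ) : ℂ) * ee ((x : ℝ) * ((t : ℝ) / Q)) := by
      rw [hHT]
      apply sum_congr rfl
      intro x _
      congr 2
      ring
    rw [h2]
    exact h1
  have hpG := pars Q hQ G hG 1 (Or.inl rfl)
  have hpE := pars Q hQ E hE (-1) (Or.inr rfl)
  have h3 : (Q : ℝ) * |S| ≤ δ * (Q * √((E.card : ℝ) * G.card)) := by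
    have e1 : (Q : ℝ) * |S| = ‖(Q : ℂ) * (S : ℂ)‖ := by
      rw [norm_mul, Complex.norm_natCast, Complex.norm_real, Real.norm_eq_abs]
    rw [e1, key]
    calc ‖∑ t ∈ range Q, HT t * GT t * ET t‖ ≤ ∑ t ∈ range Q, ‖HT t * GT t * ET t‖ := norm_sum_le _ _
      _ ≤ ∑ t ∈ range Q, δ * (‖GT t‖ * ‖ET t‖) := by
          apply sum_le_sum
          intro t _
          rw [norm_mul, norm_mul, mul_assoc]
          exact mul_le_mul_of_nonneg_right (hHle t) (by positivity)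
      _ = δ * ∑ t ∈ range Q, ‖GT t‖ * ‖ET t‖ := by rw [mul_sum]
      _ ≤ δ * (Q * √((E.card : ℝ) * G.card)) := by
          apply mul_le_mul_of_nonneg_left _ hδ
          have h4 := sum_mul_sq_le_sq_mul_sq (range Q) (fun t => ‖GT t‖) (fun t => ‖ET t‖)
          have h5 : (∑ t ∈ range Q, ‖GT t‖ * ‖ET t‖) ^ 2 ≤ ((Q : ℝ) * √((E.card : ℝ) * G.card)) ^ 2 := by
            refine h4.trans (le_of_eq ?_)
            rw [hGT, hET]
            simp only
            rw [hpG, hpE, mul_pow, Real.sq_sqrt (by positivity)]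
            ring
          exact le_of_sq_le_sq h5 (by positivity)
  have h4 : (Q : ℝ) * |S| ≤ Q * (δ * √((E.card : ℝ) * G.card)) := by
    refine h3.trans (le_of_eq ?_)
    ring
  exact le_of_mul_le_mul_left h4 hQ0

end Pool.Agent.T2H22.AA
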