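import Pool.Agent.H373R2.T7.Cnt
import Pool.Agent.H373R2.T7.Bonf
import Pool.Agent.H325R2.PPWtx

/-!
Project AA (helper22), part S2 (helper74), first file: counting the integers of an interval and of a
class modulo `Wm X` that avoid a set of at most `2 k` classes modulo each prime of `(HH X, z]`.
-/

set_option autoImplicit false

namespace Pool.Agent.T2H22.AA.S2

open Finset Filter
open Pool.Agent.H361R2.PP
open Pool.Agent.H373R2.T7

/-- the primes of `(HH X, z]` -/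
noncomputable def PQ (X z : ℕ) : Finset ℕ := (Ioc (HH X) z).filter Nat.Prime

theorem mem_PQ {X z p : ℕ} : p ∈ PQ X z ↔ (HH X < p ∧ p ≤ z) ∧ p.Prime := by
  unfold PQ
  rw [mem_filter, mem_Ioc]

/-- `a` lies in a class of `U` modulo `p` -/
def AU (U : Finset ℤ) (p a : ℕ) : Prop := ∃ u ∈ U, (p : ℤ) ∣ (a : ℤ) - u

open Classical in
/-- the number of classes of `U` modulo `p` -/
noncomputable def nU (U : Finset ℤ) (p : ℕ) : ℕ := ((range p).filter (fun a => AU U p a)).card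

theorem AU_mod (U : Finset ℤ) (p n : ℕ) : AU U p (n % p) ↔ AU U p n := by
  unfold AU
  have h : ∀ u : ℤ, (p : ℤ) ∣ ((n % p : ℕ) : ℤ) - u ↔ (p : ℤ) ∣ (n : ℤ) - u := by
    intro u
    have e : (n : ℤ) = ((n % p : ℕ) : ℤ) + (p : ℤ) * ((n / p : ℕ) : ℤ) := by
      have := Nat.mod_add_div n p
      exact_mod_cast this.symm
    constructor
    · intro h
      have h2 : (n : ℤ) - u = (((n % p : ℕ) : ℤ) - u) + (p : ℤ) * ((n / p : ℕ) : ℤ) := by
        rw [e]
        push_cast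
        ring_nf
      rw [h2]
      exact dvd_add h (dvd_mul_right _ _)
    · intro h
      have h2 : ((n % p : ℕ) : ℤ) - u = ((n : ℤ) - u) - (p : ℤ) * ((n / p : ℕ) : ℤ) := by
        conv_rhs => rw [e]
        ring
      rw [h2]
      exact dvd_sub h (dvd_mul_right _ _)
  constructor
  · rintro ⟨u, hu, h1⟩
    exact ⟨u, hu, (h u).1 h1⟩
  · rintro ⟨u, hu, h1⟩
    exact ⟨u, hu, (h u).2 h1⟩

theorem nU_image (U : Finset ℤ) {p : ℕ} (hp : 0 < p) :
    nU U p = (U.image (fun u : ℤ => (u % (p : ℤ)).toNat)).card := by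
  classical
  unfold nU
  congr 1
  ext a
  rw [mem_filter, mem_range, mem_image]
  have hp0 : (0 : ℤ) < p := by exact_mod_cast hp
  constructor
  · rintro ⟨ha, u, hu, hd⟩
    refine ⟨u, hu, ?_⟩
    have h1 : (a : ℤ) % p = u % p := Int.emod_eq_emod_iff_emod_sub_eq_zero.2 (Int.emod_eq_zero_of_dvd hd)
    rw [← h1, Int.emod_eq_of_lt (by positivity) (by exact_mod_cast ha)]
    simp
  · rintro ⟨u, hu, rfl⟩
    have h0 : 0 ≤ u % (p : ℤ) := Int.emod_nonneg _ hp0.ne'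
    have h1 : u % (p : ℤ) < p := Int.emod_lt_of_pos _ hp0
    refine ⟨by omega, u, hu, ?_⟩
    rw [Int.toNat_of_nonneg h0]
    have e := Int.emod_add_mul_ediv u p
    have e2 : u % (p : ℤ) - u = (p : ℤ) * (-(u / p)) := by linarith
    rw [e2]
    exact dvd_mul_right _ _

theorem nU_le (U : Finset ℤ) {p : ℕ} (hp : 0 < p) : nU U p ≤ U.card := by
  rw [nU_image U hp]
  exact card_image_le

theorem nU_le_p (U : Finset ℤ) (p : ℕ) : nU U p ≤ p := by
  classical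
  unfold nU
  exact (card_filter_le _ _).trans (card_range p).le

theorem nU_mono {U V : Finset ℤ} (h : V ⊆ U) (p : ℕ) : nU V p ≤ nU U p := by
  classical
  unfold nU
  apply card_le_card
  intro a ha
  rw [mem_filter] at ha ⊢
  obtain ⟨h1, u, hu, h2⟩ := ha
  exact ⟨h1, u, h hu, h2⟩

theorem nU_eq (U : Finset ℤ) {p : ℕ} (hp : 0 < p)
    (hinj : ∀ u ∈ U, ∀ v ∈ U, (p : ℤ) ∣ u - v → u = v) : nU U p = U.card := by
  rw [nU_image U hp]
  apply card_image_of_injOn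
  intro u hu v hv huv
  have hp0 : (0 : ℤ) < p := by exact_mod_cast hp
  have h0 : 0 ≤ u % (p : ℤ) := Int.emod_nonneg _ hp0.ne'
  have h1 : 0 ≤ v % (p : ℤ) := Int.emod_nonneg _ hp0.ne'
  have h2 : u % (p : ℤ) = v % p := by
    simp only at huv
    omega
  exact hinj u hu v hv (Int.dvd_of_emod_eq_zero (Int.emod_eq_emod_iff_emod_sub_eq_zero.1 h2))

open Classical in
/-- joint distribution in an interval -/
theorem cnt_iv (U : Finset ℤ) (W c : ℕ) (hW : 1 ≤ W) (S : Finset ℕ)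
    (hS : ∀ p ∈ S, p.Prime ∧ ¬ p ∣ W) (a b : ℕ) (ha : 1 ≤ a) (hab : a ≤ b) :
    |(((Ico a b).filter (fun n => n ≡ c [MOD W] ∧ ∀ p ∈ S, AU U p n)).card : ℝ) -
      ((b : ℝ) - a) / W * ∏ p ∈ S, ((nU U p : ℝ) / p)| ≤ 2 * ∏ p ∈ S, (nU U p : ℝ) := by
  have h1 := count_sys (AU U) (b - 1) S (fun p hp => (hS p hp).1) W hW (fun p hp => (hS p hp).2) c
  have h2 := count_sys (AU U) (a - 1) S (fun p hp => (hS p hp).1) W hW (fun p hp => (hS p hp).2) c
  simp only [AU_mod] at h1 h2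
  have e : ((Icc 1 (b - 1)).filter (fun n => n ≡ c [MOD W] ∧ ∀ p ∈ S, AU U p n)) =
      ((Icc 1 (a - 1)).filter (fun n => n ≡ c [MOD W] ∧ ∀ p ∈ S, AU U p n)) ∪
      ((Ico a b).filter (fun n => n ≡ c [MOD W] ∧ ∀ p ∈ S, AU U p n)) := by
    rw [← filter_union]
    congr 1
    ext n
    rw [mem_union, mem_Icc, mem_Icc, mem_Ico]
    omega
  have hd : Disjoint ((Icc 1 (a - 1)).filter (fun n => n ≡ c [MOD W] ∧ ∀ p ∈ S, AU U p n))
      ((Ico a b).filter (fun n => n ≡ c [MOD W] ∧ ∀ p ∈ S, AU U p n)) := by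
    rw [disjoint_left]
    intro n hn hn'
    rw [mem_filter, mem_Icc] at hn
    rw [mem_filter, mem_Ico] at hn'
    omega
  rw [e, card_union_of_disjoint hd] at h1
  have ea : ((a - 1 : ℕ) : ℝ) = (a : ℝ) - 1 := by
    rw [Nat.cast_sub ha, Nat.cast_one]
  have eb : ((b - 1 : ℕ) : ℝ) = (b : ℝ) - 1 := by
    rw [Nat.cast_sub (ha.trans hab), Nat.cast_one]
  rw [eb] at h1
  rw [ea] at h2
  push_cast at h1 h2 ⊢
  have e3 : ∀ p ∈ S, ((((range p).filter (fun a => AU U p a)).card : ℝ) / p) = (nU U p : ℝ) / p := by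
    intro p _
    rfl
  have e4 : ∀ p ∈ S, (((range p).filter (fun a => AU U p a)).card : ℝ) = (nU U p : ℝ) := by
    intro p _
    rfl
  rw [prod_congr rfl e3, prod_congr rfl e4] at h1 h2
  set Q := ∏ p ∈ S, ((nU U p : ℝ) / p)
  set R := ∏ p ∈ S, (nU U p : ℝ)
  have h3 := abs_le.1 h1
  have h4 := abs_le.1 h2
  have e5 : ((b : ℝ) - a) / W * Q = ((b : ℝ) - 1) / W * Q - ((a : ℝ) - 1) / W * Q := by ring
  rw [e5, abs_le]
  constructor <;> linarith [h3.1, h3.2, h4.1, h4.2]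

open Classical in
/-- the sieve -/
theorem cnt_sieve (U : Finset ℤ) (W c : ℕ) (hW : 1 ≤ W) (P : Finset ℕ) (z : ℕ)
    (hP : ∀ p ∈ P, p.Prime ∧ ¬ p ∣ W ∧ p ≤ z) (a b : ℕ) (ha : 1 ≤ a) (hab : a ≤ b) (r : ℕ) :
    |(((Ico a b).filter (fun n => n ≡ c [MOD W] ∧ ∀ p ∈ P, ¬ AU U p n)).card : ℝ) -
      ((b : ℝ) - a) / W * ∏ p ∈ P, (1 - (nU U p : ℝ) / p)| ≤
      2 * ((z : ℝ) + 1) ^ r * ((z : ℝ) + 1) ^ r +
        2 * (((b : ℝ) - a) / W) * es (fun p => (nU U p : ℝ) / p) P r := by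
  have hY : (0 : ℝ) ≤ ((b : ℝ) - a) / W := by
    have : (a : ℝ) ≤ b := by exact_mod_cast hab
    apply div_nonneg (by linarith) (Nat.cast_nonneg _)
  have hg : ∀ p ∈ P, 0 ≤ (nU U p : ℝ) / p ∧ (nU U p : ℝ) / p ≤ 1 := by
    intro p hp
    refine ⟨by positivity, ?_⟩
    have h0 : (0 : ℝ) < p := by exact_mod_cast (hP p hp).1.pos
    rw [div_le_one h0]
    exact_mod_cast nU_le_p U p
  have h := sieve_gen' ((Ico a b).filter (fun n => n ≡ c [MOD W])) (fun _ => (1 : ℝ)) (fun _ _ => zero_le_one)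
    (fun p n => AU U p n) P (fun p => (nU U p : ℝ) / p) hg (((b : ℝ) - a) / W) hY
    (fun S => 2 * ∏ p ∈ S, (nU U p : ℝ)) r (by
      intro S hS _
      have h1 := cnt_iv U W c hW S (fun p hp => ⟨(hP p (hS hp)).1, (hP p (hS hp)).2.1⟩) a b ha hab
      rw [filter_filter, sum_const, nsmul_eq_mul, mul_one]
      exact h1)
  rw [filter_filter, sum_const, nsmul_eq_mul, mul_one] at h
  refine h.trans ?_
  have hz1 : (1 : ℝ) ≤ (z : ℝ) + 1 := by
    have : (0 : ℝ) ≤ z := Nat.cast_nonneg _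
    linarith
  have h2 : ∀ j ∈ range (r + 1), ∑ S ∈ P.powersetCard j, 2 * ∏ p ∈ S, (nU U p : ℝ) ≤
      ((P.powersetCard j).card : ℝ) * (2 * ((z : ℝ) + 1) ^ r) := by
    intro j hj
    rw [mem_range] at hj
    rw [← nsmul_eq_mul]
    apply sum_le_card_nsmul
    intro S hS
    rw [mem_powersetCard] at hS
    apply mul_le_mul_of_nonneg_left _ (by norm_num)
    calc ∏ p ∈ S, (nU U p : ℝ) ≤ ∏ _p ∈ S, ((z : ℝ) + 1) := by
          apply prod_le_prod (fun _ _ => Nat.cast_nonneg _)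
          intro p hp
          have h3 : nU U p ≤ z := (nU_le_p U p).trans (hP p (hS.1 hp)).2.2
          have h4 : (nU U p : ℝ) ≤ z := by exact_mod_cast h3
          linarith
      _ = ((z : ℝ) + 1) ^ j := by rw [prod_const, hS.2]
      _ ≤ ((z : ℝ) + 1) ^ r := pow_le_pow_right₀ hz1 (by omega)
  have h3 : ∑ j ∈ range (r + 1), ∑ S ∈ P.powersetCard j, 2 * ∏ p ∈ S, (nU U p : ℝ) ≤
      2 * ((z : ℝ) + 1) ^ r * ((z : ℝ) + 1) ^ r := by
    refine (sum_le_sum h2).trans ?_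
    rw [← sum_mul]
    have h4 := card_small P r
    push_cast at h4
    have h5 : P.card ≤ z := by
      have : P ⊆ Icc 1 z := by
        intro p hp
        rw [mem_Icc]
        exact ⟨(hP p hp).1.one_le, (hP p hp).2.2⟩
      have := card_le_card this
      simpa using this
    have h6 : ((P.card : ℝ) + 1) ^ r ≤ ((z : ℝ) + 1) ^ r := by
      apply pow_le_pow_left₀ (by positivity)
      have : (P.card : ℝ) ≤ z := by exact_mod_cast h5
      linarith
    calc (∑ j ∈ range (r + 1), ((P.powersetCard j).card : ℝ)) * (2 * ((z : ℝ) + 1) ^ r)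
        ≤ ((z : ℝ) + 1) ^ r * (2 * ((z : ℝ) + 1) ^ r) := by
          apply mul_le_mul_of_nonneg_right (h4.trans h6) (by positivity)
      _ = _ := by ring
  linarith

theorem sum_PQ_le (X z : ℕ) : ∑ p ∈ PQ X z, 1 / (p : ℝ) ≤ 1 + Real.log z := by
  have h1 : ∑ p ∈ PQ X z, 1 / (p : ℝ) ≤ ∑ n ∈ Icc 1 z, 1 / (n : ℝ) := by
    apply sum_le_sum_of_subset_of_nonneg
    · intro p hp
      rw [mem_PQ] at hp
      rw [mem_Icc]
      exact ⟨hp.2.one_le, hp.1.2⟩
    · intro _ _ _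
      positivity
  have h2 : ∑ n ∈ Icc 1 z, 1 / (n : ℝ) = ((harmonic z : ℚ) : ℝ) := by
    rw [harmonic_eq_sum_Icc]
    push_cast
    simp
  rw [h2] at h1
  exact h1.trans (harmonic_le_one_add_log z)

theorem HH_ge (K : ℕ) : ∃ X₀ : ℕ, ∀ X : ℕ, X₀ ≤ X → K ≤ HH X := by
  have h : Tendsto (fun X : ℕ => Real.log (Real.log X) / 4) atTop atTop := by
    apply Tendsto.atTop_div_const (by norm_num)
    exact Real.tendsto_log_atTop.comp
      (Real.tendsto_log_atTop.comp (tendsto_natCast_atTop_atTop (R := ℝ)))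
  obtain ⟨X₀, h0⟩ := eventually_atTop.1 (h.eventually_ge_atTop (K : ℝ))
  exact ⟨X₀, fun X hX => Nat.le_floor (h0 X hX)⟩

theorem loglog_ge : ∃ X₀ : ℕ, ∀ X : ℕ, X₀ ≤ X → 1 ≤ Real.log (Real.log X) := by
  have h : Tendsto (fun X : ℕ => Real.log (Real.log X)) atTop atTop :=
    Real.tendsto_log_atTop.comp
      (Real.tendsto_log_atTop.comp (tendsto_natCast_atTop_atTop (R := ℝ)))
  exact eventually_atTop.1 (h.eventually_ge_atTop (1 : ℝ))

theorem log_ge (K : ℝ) : ∃ X₀ : ℕ, ∀ X : ℕ, X₀ ≤ X → K ≤ Real.log X := by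
  have h : Tendsto (fun X : ℕ => Real.log (X : ℝ)) atTop atTop :=
    Real.tendsto_log_atTop.comp (tendsto_natCast_atTop_atTop (R := ℝ))
  exact eventually_atTop.1 (h.eventually_ge_atTop K)

theorem log_pow_sqrt (a : ℕ) (s : ℝ) (hs : 0 < s) : ∃ X₀ : ℕ, ∀ X : ℕ, X₀ ≤ X →
    Real.log X ^ a ≤ s * √(X : ℝ) := by
  have h1 := (isLittleO_log_rpow_rpow_atTop (a : ℝ) (show (0 : ℝ) < 1 / 2 by norm_num)).bound hs
  have h2 := (tendsto_natCast_atTop_atTop (R := ℝ)).eventually h1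
  obtain ⟨X₀, h0⟩ := eventually_atTop.1 (h2.and (eventually_ge_atTop 1))
  refine ⟨X₀, fun X hX => ?_⟩
  obtain ⟨h3, h4⟩ := h0 X hX
  have hX1 : (1 : ℝ) ≤ X := by exact_mod_cast h4
  have hl : 0 ≤ Real.log X := Real.log_nonneg hX1
  rw [Real.rpow_natCast, Real.norm_of_nonneg (by positivity), Real.norm_of_nonneg (by positivity),
    ← Real.sqrt_eq_rpow] at h3
  exact h3

/-- the density -/
noncomputable def VQ (X z k : ℕ) : ℝ := ∏ p ∈ PQ X z, (1 - (k : ℝ) / p)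

theorem log_z_le {X z E : ℕ} (hX : 1 ≤ Real.log (Real.log X)) (hz : (z : ℝ) ≤ Real.log X ^ E) :
    1 + Real.log z ≤ (E + 1) * Real.log (Real.log X) := by
  have h3 : Real.log z ≤ E * Real.log (Real.log X) := by
    rcases Nat.eq_zero_or_pos z with h | h
    · rw [h, Nat.cast_zero, Real.log_zero]
      positivity
    · have h4 : Real.log z ≤ Real.log (Real.log X ^ E) := Real.log_le_log (by exact_mod_cast h) hz
      rwa [Real.log_pow] at h4
  linarith

theorem log_pos_of {X : ℕ} (hX : 1 ≤ Real.log (Real.log X)) : 1 < Real.log X := by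
  by_contra h
  rw [not_lt] at h
  rcases le_or_gt 0 (Real.log X) with h0 | h0
  · have := Real.log_nonpos h0 h
    linarith
  · have h1 : (0 : ℝ) ≤ X := Nat.cast_nonneg _
    rcases Nat.eq_zero_or_pos X with h2 | h2
    · rw [h2] at h0
      simp at h0
    · have : (1 : ℝ) ≤ X := by exact_mod_cast h2
      have := Real.log_nonneg this
      linarith

theorem exp_le_one_sub {x : ℝ} (hx0 : 0 ≤ x) (hx1 : x ≤ 1 / 2) : Real.exp (-(2 * x)) ≤ 1 - x := by
  have h5 : 1 + 2 * x ≤ Real.exp (2 * x) := by linarith [Real.add_one_le_exp (2 * x)]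
  rw [Real.exp_neg]
  calc (Real.exp (2 * x))⁻¹ ≤ (1 + 2 * x)⁻¹ := inv_anti₀ (by linarith) h5
    _ ≤ 1 - x := by
      rw [inv_eq_one_div, div_le_iff₀ (by linarith)]
      nlinarith

theorem VQ_lower (k E : ℕ) : ∃ X₀ : ℕ, ∀ X : ℕ, X₀ ≤ X → ∀ z : ℕ, (z : ℝ) ≤ Real.log X ^ E →
    1 / Real.log X ^ (2 * k * (E + 1)) ≤ VQ X z k := by
  obtain ⟨X1, h1⟩ := HH_ge (2 * k)
  obtain ⟨X2, h2⟩ := loglog_ge
  refine ⟨max X1 X2, fun X hX z hz => ?_⟩
  have hH := h1 X ((le_max_left _ _).trans hX)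
  have hl := h2 X ((le_max_right _ _).trans hX)
  have hL := log_pos_of hl
  have hp : ∀ p ∈ PQ X z, Real.exp (-(2 * k * (1 / (p : ℝ)))) ≤ 1 - (k : ℝ) / p := by
    intro p hp
    rw [mem_PQ] at hp
    have h3 : 2 * k ≤ p := by omega
    have hp0 : (0 : ℝ) < p := by exact_mod_cast hp.2.pos
    have hx0 : 0 ≤ (k : ℝ) / p := by positivity
    have hx1 : (k : ℝ) / p ≤ 1 / 2 := by
      rw [div_le_div_iff₀ hp0 (by norm_num)]
      have : (2 * (k : ℝ)) ≤ p := by exact_mod_cast h3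
      linarith
    have h4 := exp_le_one_sub hx0 hx1
    have h5 : 2 * (k : ℝ) * (1 / (p : ℝ)) = 2 * ((k : ℝ) / p) := by ring
    rw [h5]
    exact h4
  calc 1 / Real.log X ^ (2 * k * (E + 1)) =
        Real.exp (-((2 * k * (E + 1) : ℕ) * Real.log (Real.log X))) := by
        rw [Real.exp_neg, ← Real.log_pow, Real.exp_log (by positivity), one_div]
    _ ≤ Real.exp (∑ p ∈ PQ X z, -(2 * k * (1 / (p : ℝ)))) := by
        apply Real.exp_le_exp.2
        rw [sum_neg_distrib, ← mul_sum]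
        apply neg_le_neg
        have h3 := sum_PQ_le X z
        have h4 := log_z_le hl hz
        push_cast
        have hk : (0 : ℝ) ≤ 2 * k := by positivity
        nlinarith
    _ = ∏ p ∈ PQ X z, Real.exp (-(2 * k * (1 / (p : ℝ)))) := Real.exp_sum _ _
    _ ≤ VQ X z k := by
        unfold VQ
        exact prod_le_prod (fun _ _ => (Real.exp_pos _).le) hp

theorem Wm_pos (X : ℕ) : 0 < Wm X := primorial_pos _

theorem not_dvd_Wm {X z p : ℕ} (hp : p ∈ PQ X z) : ¬ p ∣ Wm X := by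
  rw [mem_PQ] at hp
  intro h
  unfold Wm at h
  have := (Nat.Prime.dvd_primorial_iff hp.2).1 h
  omega

theorem Wm_le {X : ℕ} (hX : 16 ≤ X) (hl : 1 ≤ Real.log X) : (Wm X : ℝ) ≤ Real.log X := by
  have h := Pool.Agent.H325R2.wtx1 X hX
  refine h.trans ?_
  calc Real.log X ^ (7 / 20 : ℝ) ≤ Real.log X ^ (1 : ℝ) :=
        Real.rpow_le_rpow_of_exponent_le hl (by norm_num)
    _ = _ := Real.rpow_one _

open Classical in
/-- the number of integers of `[6 X, 9 X)` of a class modulo `Wm X` that avoid `U` modulo the primes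
of `(HH X, z]` -/
theorem cnt (k E : ℕ) (s : ℝ) (hs : 0 < s) : ∃ X₀ : ℕ, ∀ X : ℕ, X₀ ≤ X → ∀ z : ℕ,
    (z : ℝ) ≤ Real.log X ^ E → ∀ U : Finset ℤ, U.card ≤ 2 * k → ∀ c : ℕ,
    |(((Ico (6 * X) (9 * X)).filter (fun n => n ≡ c [MOD Wm X] ∧ ∀ p ∈ PQ X z, ¬ AU U p n)).card : ℝ) -
      3 * X / Wm X * ∏ p ∈ PQ X z, (1 - (nU U p : ℝ) / p)| ≤ s * (3 * X / Wm X * VQ X z k ^ 2) := by
  set m : ℕ := 2 * (2 * k * (E + 1)) with hm
  obtain ⟨X1, h1⟩ := VQ_lower k E
  obtain ⟨X2, h2⟩ := loglog_ge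
  obtain ⟨X3, h3⟩ := log_ge (4 / s)
  obtain ⟨X4, h4⟩ := log_pow_sqrt (m + 1) (3 * s / 4) (by positivity)
  obtain ⟨X5, h5⟩ := choice (2 * k) E (m + 1) 4
  refine ⟨max (max (max X1 X2) (max X3 X4)) (max X5 16), fun X hX z hz U hU c => ?_⟩
  have hX1 : X1 ≤ X := (le_max_left _ _).trans ((le_max_left _ _).trans ((le_max_left _ _).trans hX))
  have hX2 : X2 ≤ X := (le_max_right _ _).trans ((le_max_left _ _).trans ((le_max_left _ _).trans hX))
  have hX3 : X3 ≤ X := (le_max_left _ _).trans ((le_max_right _ _).trans ((le_max_left _ _).trans hX))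
  have hX4 : X4 ≤ X := (le_max_right _ _).trans ((le_max_right _ _).trans ((le_max_left _ _).trans hX))
  have hX5 : X5 ≤ X := (le_max_left _ _).trans ((le_max_right _ _).trans hX)
  have hX6 : 16 ≤ X := (le_max_right _ _).trans ((le_max_right _ _).trans hX)
  have hV := h1 X hX1 z hz
  have hl := h2 X hX2
  have hL := log_pos_of hl
  have hLs := h3 X hX3
  have hsq := h4 X hX4
  obtain ⟨r, hr1, hr2, _⟩ := h5 X hX5 z hz
  have hW := Wm_pos X
  have hWr : (0 : ℝ) < Wm X := by exact_mod_cast hW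
  have hWl := Wm_le hX6 hL.le
  have hXr : (0 : ℝ) < X := by
    have : (16 : ℝ) ≤ X := by exact_mod_cast hX6
    linarith
  have hL0 : 0 < Real.log X := by linarith
  have hc := cnt_sieve U (Wm X) c hW (PQ X z) z (fun p hp => ⟨(mem_PQ.1 hp).2, not_dvd_Wm hp, (mem_PQ.1 hp).1.2⟩)
    (6 * X) (9 * X) (by omega) (by omega) r
  have e1 : (((9 * X : ℕ) : ℝ) - ((6 * X : ℕ) : ℝ)) / Wm X = 3 * X / Wm X := by
    push_cast
    ring
  rw [e1] at hc
  refine hc.trans ?_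
  set Y : ℝ := 3 * X / Wm X with hY
  have hY0 : 0 < Y := by positivity
  have hYl : 3 * X / Real.log X ≤ Y := by
    rw [hY]
    exact div_le_div_of_nonneg_left (by positivity) hWr hWl
  have hV2 : 1 / Real.log X ^ m ≤ VQ X z k ^ 2 := by
    have h6 := pow_le_pow_left₀ (by positivity) hV 2
    rw [div_pow, one_pow, ← pow_mul] at h6
    rw [hm, mul_comm 2 (2 * k * (E + 1))]
    exact h6
  have hes : es (fun p => (nU U p : ℝ) / p) (PQ X z) r ≤ 1 / Real.log X ^ (m + 1) := by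
    refine (es_le (fun p _ => by positivity) r).trans (le_trans ?_ hr1)
    apply Real.exp_le_exp.2
    have h6 : ∑ p ∈ PQ X z, (nU U p : ℝ) / p ≤ ∑ p ∈ PQ X z, (2 * k : ℕ) * (1 / (p : ℝ)) := by
      apply sum_le_sum
      intro p hp
      have hp0 : (0 : ℝ) < p := by exact_mod_cast (mem_PQ.1 hp).2.pos
      have h7 : (nU U p : ℝ) ≤ (2 * k : ℕ) := by exact_mod_cast (nU_le U (mem_PQ.1 hp).2.pos).trans hU
      rw [mul_one_div]
      exact div_le_div_of_nonneg_right h7 hp0.le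
    rw [← mul_sum] at h6
    have h7 : ((2 * k : ℕ) : ℝ) * ∑ p ∈ PQ X z, 1 / (p : ℝ) ≤ ((2 * k : ℕ) : ℝ) * (1 + Real.log z) :=
      mul_le_mul_of_nonneg_left (sum_PQ_le X z) (Nat.cast_nonneg _)
    have h8 := h6.trans h7
    linarith
  -- first error
  have hA : ((z : ℝ) + 1) ^ r * ((z : ℝ) + 1) ^ r ≤ √(X : ℝ) := by
    apply Real.le_sqrt_of_sq_le
    calc (((z : ℝ) + 1) ^ r * ((z : ℝ) + 1) ^ r) ^ 2 = (((z : ℝ) + 1) ^ r) ^ 4 := by ring
      _ ≤ (X : ℝ) := hr2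
  have hsX : √(X : ℝ) * √(X : ℝ) = X := Real.mul_self_sqrt hXr.le
  have hsX0 : 0 < √(X : ℝ) := Real.sqrt_pos.2 hXr
  have hE1 : 2 * √(X : ℝ) ≤ s / 2 * (Y * (1 / Real.log X ^ m)) := by
    have h6 : s / 2 * (3 * X / Real.log X * (1 / Real.log X ^ m)) ≤ s / 2 * (Y * (1 / Real.log X ^ m)) := by
      gcongr
    refine le_trans ?_ h6
    have h7 : s / 2 * (3 * X / Real.log X * (1 / Real.log X ^ m)) = (3 * s / 2 * X) / Real.log X ^ (m + 1) := by
      rw [pow_succ]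
      field_simp
    rw [h7, le_div_iff₀ (by positivity)]
    calc 2 * √(X : ℝ) * Real.log X ^ (m + 1) ≤ 2 * √(X : ℝ) * (3 * s / 4 * √(X : ℝ)) := by gcongr
      _ = 3 * s / 2 * (√(X : ℝ) * √(X : ℝ)) := by ring
      _ = 3 * s / 2 * X := by rw [hsX]
  have hE2 : 2 * Y * (1 / Real.log X ^ (m + 1)) ≤ s / 2 * (Y * (1 / Real.log X ^ m)) := by
    rw [pow_succ, ← div_div]
    have h6 : 2 * Y * (1 / Real.log X ^ m / Real.log X) = (Y * (1 / Real.log X ^ m)) * (2 / Real.log X) := by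
      field_simp
    rw [h6, mul_comm (s / 2)]
    apply mul_le_mul_of_nonneg_left _ (by positivity)
    rw [div_le_iff₀ hL0]
    rw [div_le_iff₀ hs] at hLs
    linarith
  have hE3 : s * (Y * (1 / Real.log X ^ m)) ≤ s * (Y * VQ X z k ^ 2) := by gcongr
  have hE4 : 2 * Y * es (fun p => (nU U p : ℝ) / p) (PQ X z) r ≤ 2 * Y * (1 / Real.log X ^ (m + 1)) := by
    gcongr
  have hE5 : 2 * ((z : ℝ) + 1) ^ r * ((z : ℝ) + 1) ^ r ≤ 2 * √(X : ℝ) := by
    rw [mul_assoc]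
    linarith
  linarith

end Pool.Agent.T2H22.AA.S2
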