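import Pool.Agent.T2H22.AA.SecM1

/-!
Project AA (helper22), part S2 (helper74), second file: the average of the correction factors.
-/

set_option autoImplicit false

namespace Pool.Agent.T2H22.AA.S2

open Finset Filter
open Pool.Agent.H361R2.PP
open Pool.Agent.H373R2.T7

/-- the differences of the elements of `T` -/
noncomputable def TT (T : Finset ℕ) : Finset ℤ := (T ×ˢ T).image (fun x => (x.1 : ℤ) - x.2)

theorem mem_TT {T : Finset ℕ} {u : ℤ} : u ∈ TT T ↔ ∃ t ∈ T, ∃ t' ∈ T, u = (t : ℤ) - t' := by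
  unfold TT
  rw [mem_image]
  constructor
  · rintro ⟨⟨t, t'⟩, h, rfl⟩
    rw [mem_product] at h
    exact ⟨t, h.1, t', h.2, rfl⟩
  · rintro ⟨t, ht, t', ht', rfl⟩
    exact ⟨(t, t'), mem_product.2 ⟨ht, ht'⟩, rfl⟩

theorem card_TT (T : Finset ℕ) : (TT T).card ≤ T.card ^ 2 := by
  unfold TT
  refine card_image_le.trans ?_
  rw [card_product, sq]

open Classical in
/-- the correction factor of the difference `h` -/
noncomputable def QQ (T : Finset ℕ) (X z h : ℕ) : ℝ :=
  ∏ p ∈ PQ X z, if AU (TT T) p h then 1 + 2 * (T.card : ℝ) / p else 1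

theorem one_le_QQ (T : Finset ℕ) (X z h : ℕ) : 1 ≤ QQ T X z h := by
  classical
  unfold QQ
  calc (1 : ℝ) = ∏ _p ∈ PQ X z, (1 : ℝ) := by rw [prod_const_one]
    _ ≤ _ := ?_
  apply Finset.prod_le_prod (fun _ _ => zero_le_one)
  intro p _
  split_ifs
  · have : 0 ≤ 2 * (T.card : ℝ) / p := by positivity
    linarith
  · exact le_rfl

theorem prod_one_add_le (K E : ℕ) {X : ℕ} (hl : 1 ≤ Real.log (Real.log X)) {z : ℕ}
    (hz : (z : ℝ) ≤ Real.log X ^ E) :
    ∏ p ∈ PQ X z, (1 + (K : ℝ) / p) ≤ Real.log X ^ (K * (E + 1)) := by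
  have hL := log_pos_of hl
  calc ∏ p ∈ PQ X z, (1 + (K : ℝ) / p) ≤ ∏ p ∈ PQ X z, Real.exp (K * (1 / (p : ℝ))) := by
        apply Finset.prod_le_prod
        · intro p _
          positivity
        · intro p _
          have := Real.add_one_le_exp (K * (1 / (p : ℝ)))
          rw [mul_one_div] at this ⊢
          linarith
    _ = Real.exp (∑ p ∈ PQ X z, K * (1 / (p : ℝ))) := (Real.exp_sum _ _).symm
    _ ≤ Real.exp ((K * (E + 1) : ℕ) * Real.log (Real.log X)) := by
        apply Real.exp_le_exp.2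
        rw [← mul_sum]
        have h3 := sum_PQ_le X z
        have h4 := log_z_le hl hz
        push_cast
        have hk : (0 : ℝ) ≤ K := Nat.cast_nonneg _
        nlinarith
    _ = _ := by rw [← Real.log_pow, Real.exp_log (by positivity)]

theorem QQ_le (T : Finset ℕ) (E : ℕ) {X : ℕ} (hl : 1 ≤ Real.log (Real.log X)) {z : ℕ}
    (hz : (z : ℝ) ≤ Real.log X ^ E) (h : ℕ) :
    QQ T X z h ≤ Real.log X ^ (2 * T.card * (E + 1)) := by
  classical
  refine le_trans ?_ (prod_one_add_le (2 * T.card) E hl hz)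
  unfold QQ
  apply Finset.prod_le_prod
  · intro p _
    split_ifs
    · positivity
    · norm_num
  · intro p _
    push_cast
    split_ifs
    · exact le_rfl
    · have : 0 ≤ 2 * (T.card : ℝ) / p := by positivity
      linarith

/-- products over large primes -/
theorem prod_one_add_sq_le (C : ℝ) (hC : 0 ≤ C) (X z : ℕ) :
    ∏ p ∈ PQ X z, (1 + C / (p : ℝ) ^ 2) ≤ Real.exp (C * (2 / ((HH X : ℝ) + 1))) := by
  calc ∏ p ∈ PQ X z, (1 + C / (p : ℝ) ^ 2) ≤ ∏ p ∈ PQ X z, Real.exp (C * ((p : ℝ) ^ 2)⁻¹) := by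
        apply Finset.prod_le_prod
        · intro p _
          positivity
        · intro p _
          have := Real.add_one_le_exp (C * ((p : ℝ) ^ 2)⁻¹)
          rw [← div_eq_mul_inv] at this ⊢
          linarith
    _ = Real.exp (∑ p ∈ PQ X z, C * ((p : ℝ) ^ 2)⁻¹) := (Real.exp_sum _ _).symm
    _ ≤ _ := by
        apply Real.exp_le_exp.2
        rw [← mul_sum]
        apply mul_le_mul_of_nonneg_left _ hC
        refine le_trans ?_ (sum_Ioo_inv_sq_le (HH X) (z + 1))
        apply sum_le_sum_of_subset_of_nonneg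
        · intro p hp
          rw [mem_PQ] at hp
          rw [mem_Ioo]
          omega
        · intro _ _ _
          positivity

open Classical in
/-- the square of the correction factor, as a sum -/
theorem QQ_sq_le (T : Finset ℕ) (X z h : ℕ) :
    QQ T X z h ^ 2 ≤ ∑ S ∈ (PQ X z).powerset, (∏ p ∈ S, ((4 * T.card + 4 * T.card ^ 2 : ℕ) : ℝ) / p) *
      (if ∀ p ∈ S, AU (TT T) p h then 1 else 0) := by
  set k := T.card with hk
  have h1 : QQ T X z h ^ 2 ≤ ∏ p ∈ PQ X z, (1 + (if AU (TT T) p h then ((4 * k + 4 * k ^ 2 : ℕ) : ℝ) / p else 0)) := by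
    unfold QQ
    rw [← prod_pow]
    apply Finset.prod_le_prod
    · intro p _
      positivity
    · intro p hp
      have hp1 : (1 : ℝ) ≤ p := by exact_mod_cast (mem_PQ.1 hp).2.one_le
      split_ifs
      · push_cast
        rw [← hk]
        have h2 : ((k : ℝ) / p) ^ 2 ≤ (k : ℝ) ^ 2 / p := by
          rw [div_pow]
          apply div_le_div_of_nonneg_left (by positivity) (by positivity)
          nlinarith
        have h3 : (1 + 2 * (k : ℝ) / p) ^ 2 = 1 + 4 * ((k : ℝ) / p) + 4 * ((k : ℝ) / p) ^ 2 := by ring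
        have h4 : (4 * (k : ℝ) + 4 * (k : ℝ) ^ 2) / p = 4 * ((k : ℝ) / p) + 4 * ((k : ℝ) ^ 2 / p) := by ring
        rw [h3, h4]
        linarith
      · norm_num
  refine h1.trans (le_of_eq ?_)
  rw [prod_one_add]
  apply sum_congr rfl
  intro S _
  split_ifs with h2
  · rw [mul_one]
    apply prod_congr rfl
    intro p hp
    rw [if_pos (h2 p hp)]
  · rw [mul_zero]
    push Not at h2
    obtain ⟨p, hp, h3⟩ := h2
    apply prod_eq_zero hp
    rw [if_neg h3]

open Classical in
theorem QQ_avg (T : Finset ℕ) (E : ℕ) (s : ℝ) (hs : 0 < s) : ∃ X₀ : ℕ, ∀ X : ℕ, X₀ ≤ X → ∀ z : ℕ,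
    (z : ℝ) ≤ Real.log X ^ E →
    ∑ h ∈ (Icc 1 X).filter (fun h => Wm X ∣ h), (QQ T X z h ^ 2 - 1) ≤ s * (X / Wm X) := by
  set k := T.card with hk
  set C1 : ℕ := 4 * k + 4 * k ^ 2 with hC1
  set K : ℕ := k ^ 2 with hK
  set a : ℕ := C1 * K * (E + 1) with ha
  obtain ⟨X1, h1⟩ := loglog_ge
  obtain ⟨X2, h2⟩ := log_pow_sqrt (a + 1) (s / 4) (by positivity)
  obtain ⟨X3, h3⟩ := HH_ge (⌈2 * ((C1 * K : ℕ) : ℝ)⌉₊ + ⌈8 * ((C1 * K : ℕ) : ℝ) / s⌉₊)
  refine ⟨max (max X1 X2) (max X3 16), fun X hX z hz => ?_⟩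
  have hX1 : X1 ≤ X := (le_max_left _ _).trans ((le_max_left _ _).trans hX)
  have hX2 : X2 ≤ X := (le_max_right _ _).trans ((le_max_left _ _).trans hX)
  have hX3 : X3 ≤ X := (le_max_left _ _).trans ((le_max_right _ _).trans hX)
  have hX6 : 16 ≤ X := (le_max_right _ _).trans ((le_max_right _ _).trans hX)
  have hl := h1 X hX1
  have hL := log_pos_of hl
  have hsq := h2 X hX2
  have hH := h3 X hX3
  have hW := Wm_pos X
  have hWr : (0 : ℝ) < Wm X := by exact_mod_cast hW
  have hWl := Wm_le hX6 hL.le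
  have hX16 : (16 : ℝ) ≤ X := by exact_mod_cast hX6
  have hXr : (0 : ℝ) < X := by linarith
  set M : ℝ := (X : ℝ) / Wm X with hM
  have hM0 : 0 < M := by positivity
  set D : ℝ := ((C1 * K : ℕ) : ℝ) with hD
  have hD0 : 0 ≤ D := Nat.cast_nonneg _
  -- the sum of the squares
  have hsum : ∑ h ∈ (Icc 1 X).filter (fun h => Wm X ∣ h), QQ T X z h ^ 2 ≤
      M * Real.exp (D * (2 / ((HH X : ℝ) + 1))) + Real.log X ^ a := by
    calc ∑ h ∈ (Icc 1 X).filter (fun h => Wm X ∣ h), QQ T X z h ^ 2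
        ≤ ∑ h ∈ (Icc 1 X).filter (fun h => Wm X ∣ h), ∑ S ∈ (PQ X z).powerset,
            (∏ p ∈ S, (C1 : ℝ) / p) * (if ∀ p ∈ S, AU (TT T) p h then 1 else 0) :=
          sum_le_sum fun h _ => QQ_sq_le T X z h
      _ = ∑ S ∈ (PQ X z).powerset, (∏ p ∈ S, (C1 : ℝ) / p) *
            (((Icc 1 X).filter (fun n => n ≡ 0 [MOD Wm X] ∧ ∀ p ∈ S, AU (TT T) p (n % p))).card : ℝ) := by
          rw [sum_comm]
          apply sum_congr rfl
          intro S _
          rw [← mul_sum]
          congr 1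
          rw [sum_boole, filter_filter]
          congr 2
          apply filter_congr
          intro n _
          rw [Nat.modEq_zero_iff_dvd]
          simp only [AU_mod]
      _ ≤ ∑ S ∈ (PQ X z).powerset, (∏ p ∈ S, (C1 : ℝ) / p) * (M * ∏ p ∈ S, ((K : ℝ) / p) + ∏ _p ∈ S, (K : ℝ)) := by
          apply sum_le_sum
          intro S hS
          rw [mem_powerset] at hS
          apply mul_le_mul_of_nonneg_left _ (prod_nonneg fun _ _ => by positivity)
          have hc := count_sys (AU (TT T)) X S (fun p hp => (mem_PQ.1 (hS hp)).2) (Wm X) hW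
            (fun p hp => not_dvd_Wm (hS hp)) 0
          have hc1 := (abs_le.1 hc).2
          have hnu : ∀ p ∈ S, (((range p).filter (fun a => AU (TT T) p a)).card : ℝ) ≤ K := by
            intro p hp
            have h4 : nU (TT T) p ≤ K := (nU_le _ (mem_PQ.1 (hS hp)).2.pos).trans (card_TT T)
            exact_mod_cast h4
          have e1 : ∏ p ∈ S, ((((range p).filter (fun a => AU (TT T) p a)).card : ℝ) / p) ≤ ∏ p ∈ S, ((K : ℝ) / p) := by
            apply Finset.prod_le_prod (fun _ _ => by positivity)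
            intro p hp
            exact div_le_div_of_nonneg_right (hnu p hp) (Nat.cast_nonneg _)
          have e2 : ∏ p ∈ S, (((range p).filter (fun a => AU (TT T) p a)).card : ℝ) ≤ ∏ _p ∈ S, (K : ℝ) :=
            Finset.prod_le_prod (fun _ _ => Nat.cast_nonneg _) hnu
          have e3 := mul_le_mul_of_nonneg_left e1 hM0.le
          linarith
      _ = M * ∏ p ∈ PQ X z, (1 + D / (p : ℝ) ^ 2) + ∏ p ∈ PQ X z, (1 + D / (p : ℝ)) := by
          rw [prod_one_add, prod_one_add, mul_sum, ← sum_add_distrib]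
          apply sum_congr rfl
          intro S _
          rw [mul_add, mul_left_comm, ← prod_mul_distrib, ← prod_mul_distrib]
          refine congrArg₂ (· + ·) (congrArg (M * ·) (prod_congr rfl ?_)) (prod_congr rfl ?_)
          · intro p _
            rw [hD]
            push_cast
            ring
          · intro p _
            rw [hD]
            push_cast
            ring
      _ ≤ _ := by
          apply add_le_add
          · exact mul_le_mul_of_nonneg_left (prod_one_add_sq_le D hD0 X z) hM0.le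
          · exact prod_one_add_le (C1 * K) E hl hz
  -- the number of terms
  have hcard : M - 1 ≤ (((Icc 1 X).filter (fun h => Wm X ∣ h)).card : ℝ) := by
    have h4 := count_class X (Wm X) 0 hW
    simp only [Nat.modEq_zero_iff_dvd] at h4
    have := (abs_le.1 h4).1
    linarith
  rw [sum_sub_distrib, sum_const, nsmul_eq_mul, mul_one]
  -- the exponential
  have hHr : (⌈2 * D⌉₊ : ℝ) + (⌈8 * D / s⌉₊ : ℝ) ≤ HH X := by exact_mod_cast hH
  have hc1 : 2 * D ≤ (⌈2 * D⌉₊ : ℝ) := Nat.le_ceil _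
  have hc2 : 8 * D / s ≤ (⌈8 * D / s⌉₊ : ℝ) := Nat.le_ceil _
  have hc3 : (0 : ℝ) ≤ (⌈2 * D⌉₊ : ℝ) := Nat.cast_nonneg _
  have hc4 : (0 : ℝ) ≤ (⌈8 * D / s⌉₊ : ℝ) := Nat.cast_nonneg _
  set x : ℝ := D * (2 / ((HH X : ℝ) + 1)) with hx
  have hx0 : 0 ≤ x := by positivity
  have hx1 : x ≤ 1 := by
    rw [hx, mul_div_assoc', div_le_one (by positivity)]
    linarith
  have hx2 : 2 * x ≤ s / 2 := by
    rw [hx]
    have h5 : 2 * (D * (2 / ((HH X : ℝ) + 1))) = 4 * D / ((HH X : ℝ) + 1) := by ring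
    rw [h5, div_le_iff₀ (by positivity)]
    have h6 : 8 * D / s ≤ (HH X : ℝ) + 1 := by linarith
    rw [div_le_iff₀ hs] at h6
    linarith
  have hexp : Real.exp x - 1 ≤ s / 2 := by
    have h5 := Real.abs_exp_sub_one_le (x := x) (by rw [abs_of_nonneg hx0]; exact hx1)
    rw [abs_of_nonneg hx0] at h5
    exact ((le_abs_self _).trans h5).trans hx2
  have hend : Real.log X ^ a + 1 ≤ s / 2 * M := by
    have h5 : (X : ℝ) / Real.log X ≤ M := div_le_div_of_nonneg_left hXr.le hWr hWl
    have h6 : s / 2 * (X / Real.log X) ≤ s / 2 * M := by gcongr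
    refine le_trans ?_ h6
    have h7 : s / 2 * ((X : ℝ) / Real.log X) = (s / 2 * X) / Real.log X := by ring
    rw [h7, le_div_iff₀ (by linarith)]
    have h8 : Real.log X ≤ Real.log X ^ (a + 1) := by
      calc Real.log X = Real.log X ^ 1 := (pow_one _).symm
        _ ≤ _ := pow_le_pow_right₀ hL.le (by omega)
    have h9 : (Real.log X ^ a + 1) * Real.log X = Real.log X ^ (a + 1) + Real.log X := by
      rw [pow_succ]
      ring
    rw [h9]
    have h10 : √(X : ℝ) ≤ X := by
      rw [Real.sqrt_le_left hXr.le]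
      nlinarith
    have h11 : s / 4 * √(X : ℝ) ≤ s / 4 * X := by gcongr
    linarith
  have hfin : M * Real.exp x ≤ M * (1 + s / 2) := by
    apply mul_le_mul_of_nonneg_left _ hM0.le
    linarith
  have e5 : s * M = s / 2 * M + s / 2 * M := by ring
  rw [e5]
  have e6 : M * (1 + s / 2) = M + s / 2 * M := by ring
  rw [e6] at hfin
  linarith

end Pool.Agent.T2H22.AA.S2
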