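import Pool.Agent.T2H22.AA.SecM2

/-!
Project AA (helper22), part S2 (helper74), third file: pairs of points.
-/

set_option autoImplicit false

namespace Pool.Agent.T2H22.AA.S2

open Finset Filter
open Pool.Agent.H361R2.PP
open Pool.Agent.H373R2.T7

/-- the classes to avoid for the point `y` -/
noncomputable def UY (T : Finset ℕ) (y : ℕ) : Finset ℤ := T.image (fun t : ℕ => (y : ℤ) - t)

theorem mem_UY {T : Finset ℕ} {y : ℕ} {u : ℤ} : u ∈ UY T y ↔ ∃ t ∈ T, u = (y : ℤ) - t := by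
  unfold UY
  rw [mem_image]
  constructor
  · rintro ⟨t, ht, rfl⟩
    exact ⟨t, ht, rfl⟩
  · rintro ⟨t, ht, rfl⟩
    exact ⟨t, ht, rfl⟩

theorem card_UY (T : Finset ℕ) (y : ℕ) : (UY T y).card = T.card := by
  unfold UY
  apply card_image_of_injective
  intro a b hab
  simp only at hab
  omega

theorem AU_union (U V : Finset ℤ) (p n : ℕ) : AU (U ∪ V) p n ↔ AU U p n ∨ AU V p n := by
  unfold AU
  constructor
  · rintro ⟨u, hu, h⟩
    rcases mem_union.1 hu with hu | hu
    · exact Or.inl ⟨u, hu, h⟩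
    · exact Or.inr ⟨u, hu, h⟩
  · rintro (⟨u, hu, h⟩ | ⟨u, hu, h⟩)
    · exact ⟨u, mem_union_left _ hu, h⟩
    · exact ⟨u, mem_union_right _ hu, h⟩

theorem AU_UY {T : Finset ℕ} {y p n : ℕ} (hy : y ≤ n) : AU (UY T y) p n ↔ ∃ t ∈ T, p ∣ (n - y) + t := by
  unfold AU
  have key : ∀ t : ℕ, (p : ℤ) ∣ (n : ℤ) - ((y : ℤ) - t) ↔ p ∣ (n - y) + t := by
    intro t
    rw [← Int.natCast_dvd_natCast]
    have : (((n - y) + t : ℕ) : ℤ) = (n : ℤ) - ((y : ℤ) - t) := by
      push_cast [Nat.cast_sub hy]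
      ring
    rw [this]
  constructor
  · rintro ⟨u, hu, h⟩
    obtain ⟨t, ht, rfl⟩ := mem_UY.1 hu
    exact ⟨t, ht, (key t).1 h⟩
  · rintro ⟨t, ht, h⟩
    exact ⟨_, mem_UY.2 ⟨t, ht, rfl⟩, (key t).2 h⟩

theorem small_eq {p a b : ℕ} (ha : a < p) (hb : b < p) (h : (p : ℤ) ∣ (a : ℤ) - b) : a = b := by
  have h1 : ((a : ℤ) - b) = 0 := by
    apply Int.eq_zero_of_abs_lt_dvd h
    rw [abs_lt]
    constructor <;> omega
  omega

theorem nU_UY (T : Finset ℕ) (y : ℕ) {p : ℕ} (hT : ∀ t ∈ T, t < p) (hp : 0 < p) :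
    nU (UY T y) p = T.card := by
  rw [← card_UY T y]
  apply nU_eq _ hp
  intro u hu v hv h
  obtain ⟨t, ht, rfl⟩ := mem_UY.1 hu
  obtain ⟨t', ht', rfl⟩ := mem_UY.1 hv
  have h1 : (p : ℤ) ∣ (t' : ℤ) - t := by
    have : (y : ℤ) - t - (y - t') = (t' : ℤ) - t := by ring
    rwa [this] at h
  rw [small_eq (hT t' ht') (hT t ht) h1]

theorem pair_AU {T : Finset ℕ} {y y' p t t' : ℕ} (ht : t ∈ T) (ht' : t' ∈ T)
    (h : (p : ℤ) ∣ ((y : ℤ) - t) - ((y' : ℤ) - t')) : AU (TT T) p ((y - y') + (y' - y)) := by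
  rcases le_total y' y with hy | hy
  · refine ⟨(t : ℤ) - t', mem_TT.2 ⟨t, ht, t', ht', rfl⟩, ?_⟩
    have e : (((y - y') + (y' - y) : ℕ) : ℤ) = (y : ℤ) - y' := by
      rw [Nat.sub_eq_zero_of_le hy, add_zero, Nat.cast_sub hy]
    rw [e]
    have e2 : (y : ℤ) - y' - (t - t') = ((y : ℤ) - t) - ((y' : ℤ) - t') := by ring
    rw [e2]
    exact h
  · refine ⟨(t' : ℤ) - t, mem_TT.2 ⟨t', ht', t, ht, rfl⟩, ?_⟩
    have e : (((y - y') + (y' - y) : ℕ) : ℤ) = (y' : ℤ) - y := by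
      rw [Nat.sub_eq_zero_of_le hy, zero_add, Nat.cast_sub hy]
    rw [e]
    have e2 : (y' : ℤ) - y - (t' - t) = -(((y : ℤ) - t) - ((y' : ℤ) - t')) := by ring
    rw [e2]
    exact (dvd_neg).2 h

theorem nU_pair (T : Finset ℕ) (y y' : ℕ) {p : ℕ} (hT : ∀ t ∈ T, t < p) (hp : 0 < p)
    (h : ¬ AU (TT T) p ((y - y') + (y' - y))) : nU (UY T y ∪ UY T y') p = 2 * T.card := by
  have hd : Disjoint (UY T y) (UY T y') := by
    rw [disjoint_left]
    intro u hu hu'
    obtain ⟨t, ht, rfl⟩ := mem_UY.1 hu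
    obtain ⟨t', ht', he⟩ := mem_UY.1 hu'
    exact h (pair_AU ht ht' (by rw [he, sub_self]; exact dvd_zero _))
  have hc : (UY T y ∪ UY T y').card = 2 * T.card := by
    rw [card_union_of_disjoint hd, card_UY, card_UY]
    ring
  rw [← hc]
  apply nU_eq _ hp
  intro u hu v hv hd
  rcases mem_union.1 hu with hu | hu <;> rcases mem_union.1 hv with hv | hv
  · obtain ⟨t, ht, rfl⟩ := mem_UY.1 hu
    obtain ⟨t', ht', rfl⟩ := mem_UY.1 hv
    have h1 : (p : ℤ) ∣ (t' : ℤ) - t := by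
      have : (y : ℤ) - t - (y - t') = (t' : ℤ) - t := by ring
      rwa [this] at hd
    rw [small_eq (hT t' ht') (hT t ht) h1]
  · obtain ⟨t, ht, rfl⟩ := mem_UY.1 hu
    obtain ⟨t', ht', rfl⟩ := mem_UY.1 hv
    exact absurd (pair_AU ht ht' hd) h
  · obtain ⟨t, ht, rfl⟩ := mem_UY.1 hu
    obtain ⟨t', ht', rfl⟩ := mem_UY.1 hv
    refine absurd (pair_AU ht' ht ?_) h
    rw [← dvd_neg]
    have : -((y : ℤ) - t' - (y' - t)) = (y' : ℤ) - t - (y - t') := by ring
    rw [this]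
    exact hd
  · obtain ⟨t, ht, rfl⟩ := mem_UY.1 hu
    obtain ⟨t', ht', rfl⟩ := mem_UY.1 hv
    have h1 : (p : ℤ) ∣ (t' : ℤ) - t := by
      have : (y' : ℤ) - t - (y' - t') = (t' : ℤ) - t := by ring
      rwa [this] at hd
    rw [small_eq (hT t' ht') (hT t ht) h1]

theorem prod_single (T : Finset ℕ) (X z y : ℕ) (hT : ∀ t ∈ T, t ≤ HH X) :
    ∏ p ∈ PQ X z, (1 - (nU (UY T y) p : ℝ) / p) = VQ X z T.card := by
  unfold VQ
  apply Finset.prod_congr rfl
  intro p hp
  rw [mem_PQ] at hp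
  rw [nU_UY T y (fun t ht => lt_of_le_of_lt (hT t ht) hp.1.1) hp.2.pos]

theorem prod_pair_le (T : Finset ℕ) (X z y y' : ℕ) (hT : ∀ t ∈ T, t ≤ HH X) (hk : 2 * T.card ≤ HH X) :
    ∏ p ∈ PQ X z, (1 - (nU (UY T y ∪ UY T y') p : ℝ) / p) ≤
      VQ X z T.card ^ 2 * QQ T X z ((y - y') + (y' - y)) := by
  classical
  unfold VQ QQ
  rw [← prod_pow, ← prod_mul_distrib]
  apply Finset.prod_le_prod
  · intro p hp
    have hp0 : (0 : ℝ) < p := by exact_mod_cast (mem_PQ.1 hp).2.pos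
    rw [sub_nonneg, div_le_one hp0]
    exact_mod_cast nU_le_p _ p
  · intro p hp
    rw [mem_PQ] at hp
    have hp0 : (0 : ℝ) < p := by exact_mod_cast hp.2.pos
    have hTp : ∀ t ∈ T, t < p := fun t ht => lt_of_le_of_lt (hT t ht) hp.1.1
    set x : ℝ := (T.card : ℝ) / p with hx
    have hx0 : 0 ≤ x := by positivity
    have hx1 : 2 * x ≤ 1 := by
      rw [hx, mul_div_assoc', div_le_one hp0]
      have : 2 * T.card ≤ p := by omega
      exact_mod_cast this
    have e1 : 2 * (T.card : ℝ) / p = 2 * x := by rw [hx]; ring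
    rw [e1]
    split_ifs with h
    · have h1 : T.card ≤ nU (UY T y ∪ UY T y') p := by
        rw [← nU_UY T y hTp hp.2.pos]
        exact nU_mono subset_union_left p
      have h2 : x ≤ (nU (UY T y ∪ UY T y') p : ℝ) / p := by
        apply div_le_div_of_nonneg_right _ hp0.le
        exact_mod_cast h1
      calc 1 - (nU (UY T y ∪ UY T y') p : ℝ) / p ≤ 1 - x := by linarith
        _ ≤ (1 - x) * ((1 - x) * (1 + 2 * x)) := by
          have h3 : 1 ≤ (1 - x) * (1 + 2 * x) := by nlinarith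
          have h4 : 0 ≤ 1 - x := by linarith
          nlinarith
        _ = _ := by ring
    · rw [nU_pair T y y' hTp hp.2.pos h]
      push_cast
      rw [e1]
      nlinarith [sq_nonneg x]

/-- sums over the pairs of a set of integers of `[X, 2 X)` -/
theorem pairs_le (G : Finset ℕ) (X : ℕ) (hG : ∀ y ∈ G, X ≤ y ∧ y < 2 * X) (F : ℕ → ℝ) (hF : ∀ h, 0 ≤ F h) :
    ∑ y ∈ G, ∑ y' ∈ G, F ((y - y') + (y' - y)) ≤
      G.card * F 0 + 2 * ∑ h ∈ Icc 1 X, ((G.filter (fun y => y + h ∈ G)).card : ℝ) * F h := by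
  classical
  have h1 : ∀ y ∈ G, ∀ y' ∈ G, F ((y - y') + (y' - y)) ≤ (if y' = y then F 0 else 0) +
      ∑ h ∈ Icc 1 X, ((if y' = y + h then F h else 0) + (if y = y' + h then F h else 0)) := by
    intro y hy y' hy'
    have hnn : ∀ h ∈ Icc 1 X, 0 ≤ (if y' = y + h then F h else 0) + (if y = y' + h then F h else 0) := by
      intro h _
      have := hF h
      split_ifs <;> linarith
    have hy1 := hG y hy
    have hy2 := hG y' hy'
    rcases lt_trichotomy y y' with h | h | h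
    · rw [if_neg (by omega), zero_add]
      have h2 := single_le_sum hnn (mem_Icc.2 (show 1 ≤ y' - y ∧ y' - y ≤ X by omega))
      rw [if_pos (by omega), if_neg (by omega), add_zero] at h2
      have e : (y - y') + (y' - y) = y' - y := by omega
      rw [e]
      exact h2
    · rw [if_pos h.symm, h, Nat.sub_self]
      have := sum_nonneg hnn
      rw [h] at this
      linarith
    · rw [if_neg (by omega), zero_add]
      have h2 := single_le_sum hnn (mem_Icc.2 (show 1 ≤ y - y' ∧ y - y' ≤ X by omega))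
      rw [if_neg (by omega), if_pos (by omega), zero_add] at h2
      have e : (y - y') + (y' - y) = y - y' := by omega
      rw [e]
      exact h2
  have hA : ∀ h : ℕ, ∑ y ∈ G, ∑ y' ∈ G, (if y' = y + h then F h else 0) =
      ((G.filter (fun y => y + h ∈ G)).card : ℝ) * F h := by
    intro h
    have e : ∀ y ∈ G, ∑ y' ∈ G, (if y' = y + h then F h else 0) = if y + h ∈ G then F h else 0 := by
      intro y _
      rw [sum_ite_eq']
    rw [sum_congr rfl e, ← sum_filter, sum_const, nsmul_eq_mul]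
  have hB : ∀ h : ℕ, ∑ y ∈ G, ∑ y' ∈ G, (if y = y' + h then F h else 0) =
      ((G.filter (fun y => y + h ∈ G)).card : ℝ) * F h := by
    intro h
    rw [sum_comm]
    exact hA h
  calc ∑ y ∈ G, ∑ y' ∈ G, F ((y - y') + (y' - y))
      ≤ ∑ y ∈ G, ∑ y' ∈ G, ((if y' = y then F 0 else 0) +
          ∑ h ∈ Icc 1 X, ((if y' = y + h then F h else 0) + (if y = y' + h then F h else 0))) :=
        sum_le_sum fun y hy => sum_le_sum fun y' hy' => h1 y hy y' hy'
    _ = ∑ y ∈ G, ∑ y' ∈ G, (if y' = y then F 0 else 0) +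
          ∑ y ∈ G, ∑ y' ∈ G, ∑ h ∈ Icc 1 X, ((if y' = y + h then F h else 0) + (if y = y' + h then F h else 0)) := by
        rw [← sum_add_distrib]
        apply sum_congr rfl
        intro y _
        rw [sum_add_distrib]
    _ = G.card * F 0 + ∑ h ∈ Icc 1 X, ∑ y ∈ G, ∑ y' ∈ G,
          ((if y' = y + h then F h else 0) + (if y = y' + h then F h else 0)) := by
        congr 1
        · have e : ∀ y ∈ G, ∑ y' ∈ G, (if y' = y then F 0 else 0) = F 0 := by
            intro y hy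
            rw [sum_ite_eq', if_pos hy]
          rw [sum_congr rfl e, sum_const, nsmul_eq_mul]
        · have e : ∀ y ∈ G, ∑ y' ∈ G, ∑ h ∈ Icc 1 X, ((if y' = y + h then F h else 0) + (if y = y' + h then F h else 0)) =
              ∑ h ∈ Icc 1 X, ∑ y' ∈ G, ((if y' = y + h then F h else 0) + (if y = y' + h then F h else 0)) :=
            fun y _ => sum_comm
          rw [sum_congr rfl e, sum_comm]
    _ = _ := by
        congr 1
        rw [mul_sum]
        apply sum_congr rfl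
        intro h _
        simp only [sum_add_distrib]
        rw [hA h, hB h]
        ring

end Pool.Agent.T2H22.AA.S2
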