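import Pool.Agent.T2H22.BG.Up
import Pool.Agent.T2H22.AA.Defs3

/-! Project AA, part S1: the number of differences in sets of rough tuples of one class. -/

set_option autoImplicit false

open Finset

namespace Pool.Agent.T2H22.AA

open Pool.Agent.Y843.HS
open Pool.Agent.Y843.HG (V1 V1_pos V1_bounds fac1)
open Pool.Agent.T2H22.BG (dc)

theorem upZ (k : ℕ) : ∃ (C1 : ℕ) (C : ℝ) (J1 s : ℕ), 1 ≤ C1 ∧ 0 < C ∧ ∀ J A0 X : ℕ, J1 ≤ J →
    (2 ^ 2 ^ J) ^ C1 ≤ X → ∀ Z : ℕ → Finset ℕ, Sv k s (2 ^ 2 ^ J) Z → 0 < VV Z s (2 ^ 2 ^ J) →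
    ∀ A : Finset ℕ, A ⊆ Ioc A0 (A0 + X) → (∀ n ∈ A, ∀ p ∈ Pr s (2 ^ 2 ^ J), n % p ∉ Z p) →
    ∑ h ∈ Icc 1 X, (dc A h : ℝ) ^ 2 ≤ C * ((X : ℝ) ^ 3 * VV Z s (2 ^ 2 ^ J) ^ 4) := by
  classical
  obtain ⟨C0, hC0, hTH⟩ := Pool.Agent.Y257.HS.s_TH k
  obtain ⟨C1, hCOR⟩ := cor_all k 2 C0
  obtain ⟨g, K, s0, hCOR⟩ := hCOR 1 one_pos
  obtain ⟨s1, B0, X0, hGAV⟩ := Pool.Agent.Y79.HS.gav k (4 * K * (1 + K) ^ 4) 1 one_pos
  set s : ℕ := max s0 s1 with hs
  have hs0 : s0 ≤ s := le_max_left _ _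
  have hs1 : s1 ≤ s := le_max_right _ _
  obtain ⟨J1, hCOR⟩ := hCOR s hs0
  obtain ⟨X2, hX2⟩ : ∃ X2 : ℕ, ∀ X : ℕ, X2 ≤ X → Real.log X ^ B0 ≤ X := by
    obtain ⟨X2, h⟩ := log_pow_le B0 1
    exact ⟨X2, fun X hX => by simpa using h X hX⟩
  have hC0r : (0 : ℝ) < C0 := by exact_mod_cast hC0
  refine ⟨C1 + 1, C0 ^ 4 * (2 + K) ^ 2 * 3, max (max J1 (g + C0)) (max (g + s) (max X0 X2)) + 1, s, by omega,
    by positivity, ?_⟩
  intro J A0 X hJ hJX Z hZ hVpos A hA hrough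
  have hJ1 : J1 ≤ J := by omega
  have hJg : g + C0 ≤ J := by omega
  have hJs : g + s ≤ J := by omega
  have hJ0 : max X0 X2 ≤ J := by omega
  set R : ℕ := 2 ^ 2 ^ J with hR
  set z : ℕ := 2 ^ 2 ^ (J - g) with hz
  have hR1 : 1 ≤ R := Nat.one_le_two_pow
  have hJR : J ≤ R := tower_ge J
  have hR2 : 2 ≤ R := by
    rw [hR]
    calc 2 = 2 ^ 1 := rfl
      _ ≤ 2 ^ 2 ^ J := Nat.pow_le_pow_right (by norm_num) Nat.one_le_two_pow
  have hRX : R ≤ X := by
    calc R = R ^ 1 := (pow_one _).symm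
      _ ≤ R ^ (C1 + 1) := Nat.pow_le_pow_right hR1 (by omega)
      _ ≤ X := hJX
  have hRX1 : R ^ C1 ≤ X := (Nat.pow_le_pow_right hR1 (by omega)).trans hJX
  have hsz : s ≤ z := by
    have h1 : s ≤ J - g := by omega
    exact h1.trans (tower_ge _)
  have hzR : z ≤ R := Nat.pow_le_pow_right (by norm_num) (Nat.pow_le_pow_right (by norm_num) (by omega))
  have hX0 : 0 < X := by omega
  have hXr : (0 : ℝ) < X := by exact_mod_cast hX0
  have hsub1 : Pr s z ⊆ Pr s R := by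
    intro p hp
    have e1 := Pr_mem.1 hp
    exact Pr_mem.2 ⟨⟨e1.1.1, e1.1.2.trans hzR⟩, e1.2⟩
  have hsub2 : Pr z R ⊆ Pr s R := by
    intro p hp
    have e1 := Pr_mem.1 hp
    exact Pr_mem.2 ⟨⟨lt_of_le_of_lt hsz e1.1.1, e1.1.2⟩, e1.2⟩
  have hcardp : ∀ p ∈ Pr s R, (Z p).card ≤ p := by
    intro p hp
    have h1 : Z p ⊆ range p := fun c hc => mem_range.2 ((hZ p hp).2 c hc)
    have h2 := card_le_card h1
    rwa [card_range] at h2
  obtain ⟨θ, hθ⟩ := hTH (J - g) J (by omega) (by omega) Z (fun p hp => hZ p (hsub2 hp))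
  have hcor := hCOR J A0 X hJ1 hRX1 Z hZ θ hθ 2 le_rfl
  have hVs := VV_split Z hsz hzR
  have hVsz : 0 ≤ VV Z s z := by
    unfold VV
    apply prod_nonneg
    intro p hp
    have e1 := Pr_mem.1 hp
    rw [sub_nonneg, div_le_one (by exact_mod_cast e1.2.pos)]
    have : (Z p).card ≤ p := hcardp p (hsub1 hp)
    exact_mod_cast this
  have hVzR : 0 ≤ VV Z z R := by
    unfold VV
    apply prod_nonneg
    intro p hp
    have e1 := Pr_mem.1 hp
    rw [sub_nonneg, div_le_one (by exact_mod_cast e1.2.pos)]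
    have : (Z p).card ≤ p := hcardp p (hsub2 hp)
    exact_mod_cast this
  have hVsz0 : 0 < VV Z s z := by
    rcases hVsz.eq_or_lt with h | h
    · rw [← h, zero_mul] at hVs
      exact absurd hVs hVpos.ne
    · exact h
  have hVzR0 : 0 < VV Z z R := by
    rcases hVzR.eq_or_lt with h | h
    · rw [← h, mul_zero] at hVs
      exact absurd hVs hVpos.ne
    · exact h
  set q := qq Z z R θ with hq
  have hq1 : VV Z z R ≤ q := hθ.lo
  have hq2 : q ≤ C0 * VV Z z R := hθ.hi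
  have hq0 : 0 < q := lt_of_lt_of_le hVzR0 hq1
  set ν := nu Z s z R θ with hν
  have hν0 : ∀ n, 0 ≤ ν n := by
    intro n
    rw [hν]
    unfold nu
    apply div_nonneg (mul_nonneg _ (hθ.nonneg n)) (by positivity)
    split_ifs <;> norm_num
  set D : ℝ := C0 * VV Z s R with hD
  have hD0 : 0 < D := by positivity
  have hν1 : ∀ n ∈ A, 1 ≤ D * ν n := by
    intro n hn
    have h1 : ∀ p ∈ Pr s R, n % p ∉ Z p := hrough n hn
    have h2 : ∀ p ∈ Pr s z, n % p ∉ Z p := by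
      intro p hp
      have e1 := Pr_mem.1 hp
      exact h1 p (Pr_mem.2 ⟨⟨e1.1.1, e1.1.2.trans hzR⟩, e1.2⟩)
    have h3 : ∀ p ∈ Pr z R, n % p ∉ Z p := by
      intro p hp
      have e1 := Pr_mem.1 hp
      exact h1 p (Pr_mem.2 ⟨⟨lt_of_le_of_lt hsz e1.1.1, e1.1.2⟩, e1.2⟩)
    have h4 : ν n = 1 / (VV Z s z * q) := by
      rw [hν]
      unfold nu
      rw [if_pos h2, Th_one hθ.one h3, one_mul]
    rw [h4, mul_one_div, le_div_iff₀ (by positivity), one_mul, hD, ← hVs]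
    calc VV Z s z * q ≤ VV Z s z * (C0 * VV Z z R) :=
          mul_le_mul_of_nonneg_left hq2 hVsz
      _ = _ := by ring
  -- one difference
  have hdc : ∀ h : ℕ, (dc A h : ℝ) ≤ D ^ 2 * (X * ((2 + K) * Coll K Z s R ![0, h])) := by
    intro h
    have h1 := hcor ![0, h]
    have h2 : (dc A h : ℝ) ≤ D ^ 2 * ∑ x ∈ Ioc A0 (A0 + X), ∏ i : Fin 2, ν (x + ![0, h] i) := by
      unfold dc
      rw [card_eq_sum_ones, Nat.cast_sum, mul_sum]
      calc ∑ n ∈ A.filter (fun n => n + h ∈ A), ((1 : ℕ) : ℝ)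
          ≤ ∑ n ∈ A.filter (fun n => n + h ∈ A), D ^ 2 * ∏ i : Fin 2, ν (n + ![0, h] i) := by
            apply sum_le_sum
            intro n hn
            rw [mem_filter] at hn
            have e1 := hν1 n hn.1
            have e2 := hν1 (n + h) hn.2
            rw [Fin.prod_univ_two]
            simp only [Matrix.cons_val_zero, Matrix.cons_val_one, add_zero, Nat.cast_one]
            calc (1 : ℝ) = 1 * 1 := (one_mul _).symm
              _ ≤ (D * ν n) * (D * ν (n + h)) := mul_le_mul e1 e2 zero_le_one (zero_le_one.trans e1)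
              _ = _ := by ring
        _ ≤ _ := by
            apply sum_le_sum_of_subset_of_nonneg
            · exact (filter_subset _ _).trans hA
            · intro n _ _
              apply mul_nonneg (by positivity)
              exact prod_nonneg fun i _ => hν0 _
    refine h2.trans (mul_le_mul_of_nonneg_left ?_ (by positivity))
    have h3 := (abs_le.1 h1).2
    have hCo := one_le_Coll (Z := Z) (s := s) (R := R) K ![0, h]
    have h4 : (∑ x ∈ Ioc A0 (A0 + X), ∏ i : Fin 2, ν (x + ![0, h] i)) / X ≤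
        (2 + K) * Coll K Z s R ![0, h] := by
      have : (0 : ℝ) ≤ K := Nat.cast_nonneg _
      nlinarith
    rw [div_le_iff₀ hXr] at h4
    linarith
  -- the average
  set K' : ℕ := 4 * K * (1 + K) ^ 4 with hK'
  have hX3 : X0 ≤ X := by
    have := le_max_left X0 X2
    omega
  have hX4 : X2 ≤ X := by
    have := le_max_right X0 X2
    omega
  have hgav := hGAV s R X (X + 1) hs1 hX3 hRX (by
    push_cast
    have := hX2 X hX4
    linarith) Z hZ
  rw [div_le_one (by positivity)] at hgav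
  have hGs : ∑ h ∈ Ioo (-((X + 1 : ℕ) : ℤ)) ((X + 1 : ℕ) : ℤ), Gd K' Z s R h ≤ 3 * ((X + 1 : ℕ) : ℝ) := by
    rw [sum_sub_distrib, sum_const, Int.card_Ioo, nsmul_eq_mul, mul_one] at hgav
    have e1 : (((X + 1 : ℕ) : ℤ) - -((X + 1 : ℕ) : ℤ) - 1).toNat = 2 * X + 1 := by
      push_cast
      omega
    rw [e1] at hgav
    push_cast at hgav ⊢
    linarith
  have hcoll : ∀ h : ℕ, Coll K Z s R ![0, h] ^ 2 ≤
      (1 / 2 : ℝ) * (Gd K' Z s R (-(h : ℤ)) + Gd K' Z s R (h : ℤ)) := by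
    intro h
    have h1 := Coll_le (Z := Z) (s := s) (R := R) K ![0, h]
    have h2 : ∏ l ∈ (univ : Finset (Fin 2)).offDiag,
        Gd K Z s R (((![0, h] : Fin 2 → ℕ) l.1 : ℤ) - (![0, h] : Fin 2 → ℕ) l.2) =
        Gd K Z s R (-(h : ℤ)) * Gd K Z s R (h : ℤ) := by
      have e1 : (univ : Finset (Fin 2)).offDiag = {(0, 1), (1, 0)} := by decide
      rw [e1, prod_pair (by decide)]
      simp
    rw [h2] at h1
    have a1 := one_le_Gd (Z := Z) (s := s) (R := R) K (-(h : ℤ))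
    have a2 := one_le_Gd (Z := Z) (s := s) (R := R) K (h : ℤ)
    have a3 := one_le_Coll (Z := Z) (s := s) (R := R) K ![0, h]
    have b1 := pow_Gd_le (Z := Z) (s := s) (R := R) K 4 (-(h : ℤ))
    have b2 := pow_Gd_le (Z := Z) (s := s) (R := R) K 4 (h : ℤ)
    have h3 : Coll K Z s R ![0, h] ^ 2 ≤
        (Gd K Z s R (-(h : ℤ)) * Gd K Z s R (h : ℤ)) ^ 2 :=
      pow_le_pow_left₀ (by linarith) h1 2
    set x := Gd K Z s R (-(h : ℤ))
    set y := Gd K Z s R (h : ℤ)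
    nlinarith [sq_nonneg (x ^ 2 - y ^ 2)]
  have hcs : ∑ h ∈ Icc 1 X, Coll K Z s R ![0, h] ^ 2 ≤ 3 * X := by
    have h1 : ∑ h ∈ Icc 1 X, Coll K Z s R ![0, h] ^ 2 ≤
        (1 / 2 : ℝ) * (∑ h ∈ Icc 1 X, Gd K' Z s R (-(h : ℤ)) + ∑ h ∈ Icc 1 X, Gd K' Z s R (h : ℤ)) := by
      rw [← sum_add_distrib, mul_sum]
      exact sum_le_sum fun h _ => hcoll h
    have h2 : ∑ h ∈ Icc 1 X, Gd K' Z s R (-(h : ℤ)) + ∑ h ∈ Icc 1 X, Gd K' Z s R (h : ℤ) ≤
        ∑ h ∈ Ioo (-((X + 1 : ℕ) : ℤ)) ((X + 1 : ℕ) : ℤ), Gd K' Z s R h := by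
      rw [← sum_image (f := fun h : ℤ => Gd K' Z s R h) (g := fun h : ℕ => -(h : ℤ)) (by
          intro a _ b _ hab
          simpa using hab),
        ← sum_image (f := fun h : ℤ => Gd K' Z s R h) (g := fun h : ℕ => (h : ℤ)) (by
          intro a _ b _ hab
          simpa using hab), ← sum_union]
      · apply sum_le_sum_of_subset_of_nonneg
        · intro h hh
          rw [mem_union, mem_image, mem_image] at hh
          rw [mem_Ioo]
          rcases hh with ⟨a, ha, rfl⟩ | ⟨a, ha, rfl⟩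
          · rw [mem_Icc] at ha
            push_cast
            omega
          · rw [mem_Icc] at ha
            push_cast
            omega
        · intro h _ _
          exact zero_le_one.trans (one_le_Gd K' h)
      · rw [disjoint_left]
        intro h hh hh'
        rw [mem_image] at hh hh'
        obtain ⟨a, ha, rfl⟩ := hh
        obtain ⟨b, hb, he⟩ := hh'
        rw [mem_Icc] at ha hb
        omega
    have h3 := h1.trans (mul_le_mul_of_nonneg_left (h2.trans hGs) (by norm_num))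
    refine h3.trans ?_
    push_cast
    have : (1 : ℝ) ≤ X := by exact_mod_cast hX0
    linarith
  -- conclusion
  have hD4 : D ^ 4 = C0 ^ 4 * VV Z s R ^ 4 := by rw [hD, mul_pow]
  calc ∑ h ∈ Icc 1 X, (dc A h : ℝ) ^ 2
      ≤ ∑ h ∈ Icc 1 X, (D ^ 4 * (X ^ 2 * (2 + K) ^ 2)) * Coll K Z s R ![0, h] ^ 2 := by
        apply sum_le_sum
        intro h _
        have h1 := pow_le_pow_left₀ (Nat.cast_nonneg _) (hdc h) 2
        refine h1.trans (le_of_eq ?_)
        ring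
    _ = (D ^ 4 * (X ^ 2 * (2 + K) ^ 2)) * ∑ h ∈ Icc 1 X, Coll K Z s R ![0, h] ^ 2 := by
        rw [mul_sum]
    _ ≤ (D ^ 4 * (X ^ 2 * (2 + K) ^ 2)) * (3 * X) := by
        apply mul_le_mul_of_nonneg_left hcs
        positivity
    _ = _ := by
        rw [hD4]
        ring


end Pool.Agent.T2H22.AA
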