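import Pool.Agent.T2H22.AA.Defs

/-!
Project AA, weighted sums: powers of the divisor function against the majorants of geometric sums.
-/

set_option autoImplicit false

namespace Pool.Agent.T2H22.AA

open Finset
open Pool.Agent.H373R2.T7 Pool.Agent.H807R2.Dav

/-- `∑ τ(t)^k / t` -/
theorem dsum (k T : ℕ) :
    ∑ t ∈ Icc 1 T, (t.divisors.card : ℝ) ^ k / t ≤ (1 + Real.log T) ^ (2 ^ k) := by
  have h0 : 0 ≤ Real.log (T : ℝ) := Real.log_natCast_nonneg T
  induction k with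
  | zero =>
    have := Pool.Agent.H316R2.harm_sum_le T
    simpa using this
  | succ k ih =>
    have h1 : ∑ n ∈ Icc 1 T, (n.divisors.card : ℝ) ^ (k + 1) / n =
        ∑ n ∈ Icc 1 T, ∑ i ∈ n.divisorsAntidiagonal, ((i.1 * i.2).divisors.card : ℝ) ^ k / (i.1 * i.2) := by
      apply sum_congr rfl
      intro n hn
      have h2 : ∀ i ∈ n.divisorsAntidiagonal, ((i.1 * i.2).divisors.card : ℝ) ^ k / (i.1 * i.2) =
          (n.divisors.card : ℝ) ^ k / n := by
        intro i hi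
        rw [Nat.mem_divisorsAntidiagonal] at hi
        rw [← hi.1]; push_cast; rfl
      rw [sum_congr rfl h2, sum_const, nsmul_eq_mul]
      have : (n.divisorsAntidiagonal.card : ℝ) = n.divisors.card := by
        rw [← Nat.map_div_right_divisors, card_map]
      rw [this]
      ring
    rw [h1, Pool.Agent.H316R2.hyperC T (fun b c => ((b * c).divisors.card : ℝ) ^ k / (b * c))]
    calc _ ≤ ∑ c ∈ Icc 1 T, ∑ b ∈ Icc 1 T, ((b.divisors.card : ℝ) ^ k / b) * ((c.divisors.card : ℝ) ^ k / c) := by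
          apply sum_le_sum
          intro c hc
          refine le_trans (sum_le_sum_of_subset_of_nonneg (t := Icc 1 T)
            (Icc_subset_Icc_right (Nat.div_le_self _ _)) (fun b _ _ => by positivity)) ?_
          apply sum_le_sum
          intro b _
          rw [div_mul_div_comm, ← mul_pow]
          gcongr
          exact_mod_cast Pool.Agent.H316R2.tau_mul_le b c
      _ = (∑ c ∈ Icc 1 T, (c.divisors.card : ℝ) ^ k / c) ^ 2 := by
          rw [sq, sum_mul_sum]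
          rw [sum_comm]
      _ ≤ ((1 + Real.log T) ^ (2 ^ k)) ^ 2 := by
          have h3 : 0 ≤ ∑ c ∈ Icc 1 T, (c.divisors.card : ℝ) ^ k / c := sum_nonneg fun _ _ => by positivity
          gcongr
      _ = _ := by rw [← pow_mul, ← pow_succ]

/-- weighted sums over multiples: explicit form -/
theorem wsum (k : ℕ) {q : ℕ} (hq : 1 ≤ q) {a : ℤ} (hcop : IsCoprime a (q : ℤ)) {α : ℝ}
    (hα : |α - a / q| ≤ 1 / (q : ℝ) ^ 2) (N D : ℕ) (hN : 1 ≤ N) (hD : 1 ≤ D) :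
    ∑ d ∈ Icc 1 D, (d.divisors.card : ℝ) ^ k * KK (2 * N / d) (d * α) ≤
      √(6 * N * (1 + Real.log D) ^ (2 ^ (2 * k))) *
      √(600 * (Nat.log 2 D + 1 : ℝ) * ((N : ℝ) / q + D + q) * (1 + Real.log q)) := by
  have hlogD : 0 ≤ Real.log (D : ℝ) := Real.log_natCast_nonneg D
  have hlogq : 0 ≤ Real.log (q : ℝ) := Real.log_natCast_nonneg q
  have hK0 : ∀ d : ℕ, 0 ≤ KK (2 * N / d) (d * α) := fun d => KK_nonneg (by positivity) _
  have h1 : ∀ d ∈ Icc 1 D, (d.divisors.card : ℝ) ^ k * KK (2 * N / d) (d * α) ≤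
      √(6 * N * ((d.divisors.card : ℝ) ^ (2 * k) / d)) * √(KK (2 * N / d) (d * α)) := by
    intro d hd
    rw [← Real.sqrt_mul (by positivity)]
    apply Real.le_sqrt_of_sq_le
    have h2 := KK_le (M := 2 * N / d) (by positivity) (d * α)
    have h3 : KK (2 * N / d) (d * α) ^ 2 ≤ (3 * (2 * N / d)) * KK (2 * N / d) (d * α) := by
      rw [sq]
      exact mul_le_mul_of_nonneg_right h2 (hK0 d)
    calc ((d.divisors.card : ℝ) ^ k * KK (2 * N / d) (d * α)) ^ 2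
        = (d.divisors.card : ℝ) ^ (2 * k) * KK (2 * N / d) (d * α) ^ 2 := by
          rw [mul_pow, ← pow_mul, mul_comm k 2]
      _ ≤ (d.divisors.card : ℝ) ^ (2 * k) * ((3 * (2 * N / d)) * KK (2 * N / d) (d * α)) :=
          mul_le_mul_of_nonneg_left h3 (by positivity)
      _ = _ := by ring
  refine (sum_le_sum h1).trans ?_
  refine (Real.sum_sqrt_mul_sqrt_le _ (fun d => by positivity) (fun d => hK0 d)).trans ?_
  apply mul_le_mul
  · apply Real.sqrt_le_sqrt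
    rw [← mul_sum]
    exact mul_le_mul_of_nonneg_left (dsum (2 * k) D) (by positivity)
  · exact Real.sqrt_le_sqrt (typeI_lin hq hcop hα N D hN hD)
  · exact Real.sqrt_nonneg _
  · exact Real.sqrt_nonneg _

/-- weighted sums over multiples: asymptotic form -/
theorem wsumB (k B₃ B : ℕ) (hB : 2 ^ (2 * k) + 2 * B₃ + 4 ≤ B) : ∃ N0 : ℕ, ∀ N : ℕ, N0 ≤ N →
    ∀ q : ℕ, Real.log N ^ B ≤ q → (q : ℝ) ≤ N / Real.log N ^ B →
    ∀ a : ℤ, IsCoprime a (q : ℤ) → ∀ α : ℝ, |α - a / q| ≤ 1 / (q : ℝ) ^ 2 →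
    ∀ P T : ℕ, 1 ≤ P → P ≤ 4 * N → 1 ≤ T → (T : ℝ) ≤ N / Real.log N ^ B →
    ∑ t ∈ Icc 1 T, (t.divisors.card : ℝ) ^ k * KK (2 * P / t) (t * α) ≤ N / Real.log N ^ B₃ := by
  obtain ⟨n1, h1⟩ := ev_L' (max 2 (86400 * 2 ^ (2 ^ (2 * k)) * 4))
  refine ⟨max n1 1, fun N hN q hq1 hq2 a hcop α hα P T hP hPN hT hTN => ?_⟩
  have hL := h1 N ((le_max_left _ _).trans hN)
  have hN1 : 1 ≤ N := (le_max_right _ _).trans hN
  have hN0 : (0 : ℝ) < N := by exact_mod_cast hN1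
  set ℓ := Real.log N with hℓ
  have hℓ2 : 2 ≤ ℓ := (le_max_left _ _).trans hL
  have hℓC : 86400 * 2 ^ (2 ^ (2 * k)) * 4 ≤ ℓ := (le_max_right _ _).trans hL
  have hℓ0 : 0 < ℓ := by linarith
  have hℓB : 1 ≤ ℓ ^ B := one_le_pow₀ (by linarith)
  have hq0 : (0 : ℝ) < q := by linarith
  have hqn : 1 ≤ q := by exact_mod_cast hq0
  have hqN : (q : ℝ) ≤ N := hq2.trans (div_le_self hN0.le hℓB)
  have hTN' : (T : ℝ) ≤ N := hTN.trans (div_le_self hN0.le hℓB)
  have hT0 : (0 : ℝ) < T := by exact_mod_cast hT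
  have hlq : Real.log q ≤ ℓ := Real.log_le_log hq0 hqN
  have hlT : Real.log T ≤ ℓ := Real.log_le_log hT0 hTN'
  have hlq0 : 0 ≤ Real.log q := Real.log_natCast_nonneg q
  have hlT0 : 0 ≤ Real.log T := Real.log_natCast_nonneg T
  have hPr : (P : ℝ) ≤ 4 * N := by exact_mod_cast hPN
  have hlog2 : (Nat.log 2 T + 1 : ℝ) ≤ 2 * ℓ := by
    have h3 : (Nat.log 2 T : ℝ) * Real.log 2 ≤ Real.log T := by
      have h4 : (2 : ℝ) ^ Nat.log 2 T ≤ T := by
        exact_mod_cast Nat.pow_log_le_self 2 (by omega)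
      have h7 := Real.log_le_log (by positivity) h4
      rwa [Real.log_pow] at h7
    have h4 := Real.log_two_gt_d9
    have h5 : (0 : ℝ) ≤ Nat.log 2 T := Nat.cast_nonneg _
    nlinarith
  refine (wsum k hqn hcop hα P T hP hT).trans ?_
  rw [← Real.sqrt_mul (by positivity)]
  rw [Real.sqrt_le_left (by positivity)]
  set m := 2 ^ (2 * k) with hm
  have hPq : (P : ℝ) / q ≤ 4 * (N / ℓ ^ B) := by
    calc (P : ℝ) / q ≤ (4 * N) / q := div_le_div_of_nonneg_right hPr hq0.le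
      _ ≤ (4 * N) / ℓ ^ B := div_le_div_of_nonneg_left (by positivity) (by positivity) hq1
      _ = _ := by ring
  calc 6 * (P : ℝ) * (1 + Real.log T) ^ m *
        (600 * (Nat.log 2 T + 1 : ℝ) * ((P : ℝ) / q + T + q) * (1 + Real.log q))
      ≤ 6 * (4 * N) * (2 * ℓ) ^ m * (600 * (2 * ℓ) * (4 * (N / ℓ ^ B) + N / ℓ ^ B + N / ℓ ^ B) * (2 * ℓ)) := by
        gcongr <;> linarith
    _ = (86400 * 2 ^ m * 4) * N ^ 2 * (ℓ ^ (m + 2) / ℓ ^ B) := by
        rw [mul_pow, pow_add]; field_simp; ring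
    _ ≤ ℓ * N ^ 2 * (ℓ ^ (m + 2) / ℓ ^ (m + 2 * B₃ + 4)) := by
        have : ℓ ^ (m + 2 * B₃ + 4) ≤ ℓ ^ B := pow_le_pow_right₀ (by linarith) hB
        gcongr
    _ = (N / ℓ ^ B₃) ^ 2 * (1 / ℓ) := by
        rw [div_pow, ← pow_mul]
        have e1 : ℓ ^ (m + 2 * B₃ + 4) = ℓ ^ (m + 2) * ℓ ^ (B₃ * 2) * ℓ ^ 2 := by
          rw [← pow_add, ← pow_add]; congr 1; omega
        rw [e1]; field_simp
    _ ≤ (N / ℓ ^ B₃) ^ 2 := by
        apply mul_le_of_le_one_right (by positivity)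
        rw [div_le_one hℓ0]; linarith

end Pool.Agent.T2H22.AA
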